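import Pool.Agent.FCS.Wa
import Pool.Agent.FCS.Wf

/-!
# Star check with covering candidates: the covering of codes

A candidate of a list may have covering digits: such a digit stands for two exact digits.
-/

namespace Pool.FCP.Qz

open Pool.FCS

noncomputable section

/-- the covering digits -/
def kT : Nat := 0xffbbcdeb38bdab49ca307b9cc83d28398b01bdc0

/-- the covering digit of a digit -/
def kd (x : Nat) : Nat := Nat.mod (Nat.shiftRight kT (Nat.mul (nat_lit 5) x)) (nat_lit 32)

/-- digitwise covering -/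
def cvk (k : Nat) : Nat → Nat → Bool :=
  Nat.rec (motive := fun _ => Nat → Nat → Bool) (fun z u => Nat.beq z u)
    (fun _ ih z u => frc (Nat.mod u (nat_lit 32)) fun y => frc (Nat.mod z (nat_lit 32)) fun x =>
      frc (Nat.div z (nat_lit 32)) fun z' => frc (Nat.div u (nat_lit 32)) fun u' =>
        Bool.rec (motive := fun _ => Bool)
          (Bool.rec (motive := fun _ => Bool) false (ih z' u') (Nat.beq x (kd y)))
          (ih z' u') (Nat.beq x y)) k

/-- the code `z` covers the exact code `u` -/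
def cvd (z u : Nat) : Bool := cvk 6 z u

/-- the smallest code of the list which covers `u`, `0` if there is none -/
def rdm (u : Nat) : List (Nat × Nat) → Nat
  | [] => 0
  | q :: l => if cvd q.2 u = true then (if rdm u l = 0 ∨ q.2 ≤ rdm u l then q.2 else rdm u l)
      else rdm u l

/-- the code which is read for `u` in the list -/
def rdl (cl : List (Nat × Nat)) (u : Nat) : Nat :=
  if u ≤ 1 then u else if rdm u cl = 0 then u else rdm u cl

/-- the mask of a digit: a digit which has no covering digit is exact -/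
def mT : Nat := 0xffffffffffffffffffffffc1f003fffffe0f801f

/-- the mask of the exact digits of a code -/
def mkk (k : Nat) : Nat → Nat :=
  Nat.rec (motive := fun _ => Nat → Nat) (fun _ => nat_lit 7)
    (fun _ ih u => frc (Nat.div u (nat_lit 32)) fun u' =>
      Nat.add (Nat.mod (Nat.shiftRight mT (Nat.mul (nat_lit 5) (Nat.mod u (nat_lit 32))))
        (nat_lit 32)) (Nat.mul (nat_lit 32) (ih u'))) k

/-- the entry with the smaller code -/
def rds (r h z : Nat) : Nat :=
  Bool.rec (motive := fun _ => Nat)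
    (Bool.rec (motive := fun _ => Nat) r (Nat.add z (Nat.mul (nat_lit 8589934592) h))
      (Nat.ble z (Nat.mod r (nat_lit 8589934592))))
    (Nat.add z (Nat.mul (nat_lit 8589934592) h)) (Nat.beq r (nat_lit 0))

/-- the entry `q` or the entry `ih` of the other entries -/
def rdx (u : Nat) (q : Nat × Nat) (ih : Nat) : Nat :=
  Prod.rec (motive := fun _ => Nat) (fun h z =>
    Bool.rec (motive := fun _ => Nat) ih (frc ih fun r => rds r h z) (cvd z u)) q

/-- the entry of the smallest code which covers `u`, `M` the mask, `U` the exact digits -/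
def rdg (M U u : Nat) (cl : List (Nat × Nat)) : Nat :=
  List.rec (motive := fun _ => Nat) (nat_lit 0)
    (fun q _ ih => Bool.rec (motive := fun _ => Nat) ih (rdx u q ih)
      (Nat.beq (Nat.land q.2 M) U)) cl

/-- the entry of the smallest code which covers `u`: code and gain, `0` if there is none -/
def rdk (u : Nat) (cl : List (Nat × Nat)) : Nat :=
  frc (mkk 6 u) fun M => frc (Nat.land u M) fun U => rdg M U u cl

theorem frc_eq {β : Type} (x : Nat) (K : Nat → β) : frc x K = K x := by
  cases x <;> rfl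

theorem cvk_succ (k z u : Nat) : cvk (k + 1) z u = Bool.rec (motive := fun _ => Bool)
    (Bool.rec (motive := fun _ => Bool) false (cvk k (z / 32) (u / 32))
      (Nat.beq (z % 32) (kd (u % 32))))
    (cvk k (z / 32) (u / 32)) (Nat.beq (z % 32) (u % 32)) := by
  have e : cvk (k + 1) z u = frc (Nat.mod u (nat_lit 32)) fun y =>
      frc (Nat.mod z (nat_lit 32)) fun x =>
      frc (Nat.div z (nat_lit 32)) fun z' => frc (Nat.div u (nat_lit 32)) fun u' =>
        Bool.rec (motive := fun _ => Bool)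
          (Bool.rec (motive := fun _ => Bool) false (cvk k z' u') (Nat.beq x (kd y)))
          (cvk k z' u') (Nat.beq x y) := rfl
  rw [e, frc_eq, frc_eq, frc_eq, frc_eq]
  rfl

/-- one step -/
theorem cvk_step {k z u : Nat} (h : cvk (k + 1) z u = true) :
    cvk k (z / 32) (u / 32) = true ∧ (z % 32 = u % 32 ∨ z % 32 = kd (u % 32)) := by
  rw [cvk_succ] at h
  cases h1 : Nat.beq (z % 32) (u % 32) with
  | true =>
    rw [h1] at h
    exact ⟨h, Or.inl (Nat.eq_of_beq_eq_true h1)⟩
  | false =>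
    rw [h1] at h
    cases h2 : Nat.beq (z % 32) (kd (u % 32)) with
    | false => rw [h2] at h; exact Bool.noConfusion h
    | true =>
      rw [h2] at h
      exact ⟨h, Or.inr (Nat.eq_of_beq_eq_true h2)⟩

theorem kd_tab : ∀ d < 32, kd d < 32 ∧ (kd d = 0 ↔ d = 0) := by decide +kernel

/-- the letter `a` covers the letter `b` -/
def Cvl (a b : Nat) : Prop := a = b ∨ a + 1 = kd (b + 1)

/-- the digit `a` covers the digit `b` -/
def Cvg (a b : Nat) : Prop := a = b ∨ a = kd b

/-- the word `v` covers the word `w` -/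
def Cvw (v w : List Nat) : Prop := List.Forall₂ Cvl v w

theorem Cvl.sm {a b : Nat} (h : Cvl a b) (hb : b < 31) : a < 31 := by
  rcases h with h | h
  · omega
  · have := (kd_tab (b + 1) (by omega)).1
    omega

theorem Cvw.len {v w : List Nat} (h : Cvw v w) : v.length = w.length := List.Forall₂.length_eq h

theorem Cvw.sm {v w : List Nat} (h : Cvw v w) (hw : Sm w) : Sm v := by
  induction h with
  | nil => exact hw
  | cons h1 h2 ih =>
    intro x hx
    rcases List.mem_cons.1 hx with rfl | hx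
    · exact h1.sm (hw _ (List.mem_cons_self ..))
    · exact ih (fun y hy => hw y (List.mem_cons_of_mem _ hy)) x hx

theorem Cvw.refl : ∀ w : List Nat, Cvw w w
  | [] => List.Forall₂.nil
  | _ :: w => List.Forall₂.cons (Or.inl rfl) (Cvw.refl w)

theorem Cvw.rotate {v w : List Nat} (h : Cvw v w) : ∀ n, Cvw (v.rotate n) (w.rotate n)
  | 0 => by rw [List.rotate_zero, List.rotate_zero]; exact h
  | n + 1 => by
    cases h with
    | nil => rw [List.rotate_nil]; exact List.Forall₂.nil
    | cons h1 h2 =>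
      rw [List.rotate_cons_succ, List.rotate_cons_succ]
      exact Cvw.rotate (List.rel_append h2 (List.Forall₂.cons h1 List.Forall₂.nil)) n

theorem Cvw.getD {v w : List Nat} (h : Cvw v w) : ∀ {i : Nat}, i < w.length →
    Cvl (v.getD i 0) (w.getD i 0) := by
  induction h with
  | nil => intro i hi; simp at hi
  | cons h1 h2 ih =>
    intro i hi
    cases i with
    | zero => exact h1
    | succ i =>
      rw [List.getD_cons_succ, List.getD_cons_succ]
      exact ih (by simpa using hi)

/-- the covering of a code with a word -/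
theorem cvk_enc : ∀ (k : Nat) (w : List Nat) (z t : Nat), w.length ≤ k → Sm w →
    cvk k z (enc w + 32 ^ k * t) = true → ∃ v, Cvw v w ∧ z = enc v + 32 ^ k * t
  | 0, w, z, t, hl, _, h => by
    have : w = [] := List.length_eq_zero_iff.1 (by omega)
    subst this
    have h' : Nat.beq z (enc [] + 32 ^ 0 * t) = true := h
    exact ⟨[], List.Forall₂.nil, Nat.eq_of_beq_eq_true h'⟩
  | k + 1, [], z, t, _, hs, h => by
    obtain ⟨h1, h2⟩ := cvk_step h
    have e1 : (enc [] + 32 ^ (k + 1) * t) = 32 * (32 ^ k * t) := by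
      rw [enc_nil, pow_succ]; ring
    rw [e1] at h1 h2
    have e2 : 32 * (32 ^ k * t) / 32 = enc [] + 32 ^ k * t := by
      rw [enc_nil]; omega
    have e3 : 32 * (32 ^ k * t) % 32 = 0 := by omega
    rw [e2] at h1
    rw [e3] at h2
    obtain ⟨v, v1, v2⟩ := cvk_enc k [] (z / 32) t (by simp) hs h1
    cases v1
    refine ⟨[], List.Forall₂.nil, ?_⟩
    have e4 : kd 0 = 0 := ((kd_tab 0 (by norm_num)).2).2 rfl
    rw [e4] at h2
    rw [e1]
    rw [enc_nil] at v2
    omega
  | k + 1, x :: l, z, t, hl, hs, h => by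
    obtain ⟨h1, h2⟩ := cvk_step h
    have hx := hs x (List.mem_cons_self ..)
    have e1 : (enc (x :: l) + 32 ^ (k + 1) * t) = (x + 1) + 32 * (enc l + 32 ^ k * t) := by
      rw [enc_cons, pow_succ]; ring
    rw [e1] at h1 h2
    have e2 : ((x + 1) + 32 * (enc l + 32 ^ k * t)) / 32 = enc l + 32 ^ k * t := by omega
    have e3 : ((x + 1) + 32 * (enc l + 32 ^ k * t)) % 32 = x + 1 := by omega
    rw [e2] at h1
    rw [e3] at h2
    have hl' : l.length ≤ k := by
      rw [List.length_cons] at hl; omega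
    obtain ⟨v, v1, v2⟩ := cvk_enc k l (z / 32) t hl'
      (fun y hy => hs y (List.mem_cons_of_mem _ hy)) h1
    have hk := kd_tab (x + 1) (by omega)
    have hz : 0 < z % 32 := by
      rcases h2 with h2 | h2
      · omega
      · rw [h2]
        by_contra hc
        have := hk.2.1 (by omega)
        omega
    refine ⟨(z % 32 - 1) :: v, List.Forall₂.cons ?_ v1, ?_⟩
    · rcases h2 with h2 | h2
      · left; omega
      · right; omega
    · rw [enc_cons, pow_succ]
      have e5 : z = z % 32 + 32 * (z / 32) := by omega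
      rw [e5, v2]
      have e6 : (z % 32 + 32 * (enc v + 32 ^ k * t)) % 32 = z % 32 := by omega
      rw [e6]
      have e7 : z % 32 - 1 + 1 = z % 32 := by omega
      rw [e7]; ring

/-- the flagged code `z` covers the flagged code `u` -/
def Cvu (z u : Nat) : Prop := ∃ v w t, Cvw v w ∧ Sm w ∧ 4 ≤ w.length ∧ w.length ≤ 6 ∧
  z = enc v + 1073741824 * t ∧ u = enc w + 1073741824 * t

theorem cvu_of {w : List Nat} {t z : Nat} (hs : Sm w) (h4 : 4 ≤ w.length) (h6 : w.length ≤ 6)
    (h : z = enc w + 1073741824 * t ∨ cvd z (enc w + 1073741824 * t) = true) :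
    Cvu z (enc w + 1073741824 * t) := by
  rcases h with h | h
  · exact ⟨w, w, t, Cvw.refl w, hs, h4, h6, h, rfl⟩
  · have h' : cvk 6 z (enc w + 32 ^ 6 * t) = true := by
      have e : (32 : Nat) ^ 6 = 1073741824 := by norm_num
      rw [e]; exact h
    obtain ⟨v, v1, v2⟩ := cvk_enc 6 w z t h6 hs h'
    refine ⟨v, w, t, v1, hs, h4, h6, ?_, rfl⟩
    have e : (32 : Nat) ^ 6 = 1073741824 := by norm_num
    rw [v2, e]

theorem enc_lt30 {w : List Nat} (hs : Sm w) (h6 : w.length ≤ 6) : enc w < 1073741824 := by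
  have h1 := enc_lt hs
  have h2 : (32 : Nat) ^ w.length ≤ 32 ^ 6 := Nat.pow_le_pow_right (by norm_num) h6
  have e : (32 : Nat) ^ 6 = 1073741824 := by norm_num
  omega

theorem enc_ge {w : List Nat} (h4 : 4 ≤ w.length) : 32768 ≤ enc w := by
  have h1 := le_enc (l := w) (by rintro rfl; simp at h4)
  have h2 : (32 : Nat) ^ 3 ≤ 32 ^ (w.length - 1) := Nat.pow_le_pow_right (by norm_num) (by omega)
  have e : (32 : Nat) ^ 3 = 32768 := by norm_num
  omega

section rel

variable {z u : Nat}

theorem Cvu.refl {w : List Nat} {t : Nat} (hs : Sm w) (h4 : 4 ≤ w.length) (h6 : w.length ≤ 6) :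
    Cvu (enc w + 1073741824 * t) (enc w + 1073741824 * t) := cvu_of hs h4 h6 (Or.inl rfl)

theorem Cvu.ge (h : Cvu z u) : 2 ≤ z ∧ 2 ≤ u := by
  obtain ⟨v, w, t, h1, h2, h3, h4, h5, h6⟩ := h
  have a1 := enc_ge h3
  have a2 := enc_ge (w := v) (by rw [h1.len]; exact h3)
  omega

theorem Cvu.div (h : Cvu z u) : z / 1073741824 = u / 1073741824 := by
  obtain ⟨v, w, t, h1, h2, h3, h4, h5, h6⟩ := h
  have a1 := enc_lt30 h2 h4
  have a2 := enc_lt30 (h1.sm h2) (by rw [h1.len]; exact h4)
  omega

theorem Cvu.slf (h : Cvu z u) : slf z = slf u := by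
  have e := h.div
  show z / 1073741824 % 4 = u / 1073741824 % 4
  rw [e]

theorem Cvu.big (h : Cvu z u) : 4294967296 ≤ z ↔ 4294967296 ≤ u := by
  have e := h.div
  omega

/-- the words -/
theorem Cvu.wd (h : Cvu z u) : ∃ v w, Cvw v w ∧ Sm w ∧ 4 ≤ w.length ∧ w.length ≤ 6 ∧
    lo z = enc v ∧ lo u = enc w := by
  obtain ⟨v, w, t, h1, h2, h3, h4, h5, h6⟩ := h
  have a1 := enc_lt30 h2 h4
  have a2 := enc_lt30 (h1.sm h2) (by rw [h1.len]; exact h4)
  refine ⟨v, w, h1, h2, h3, h4, ?_, ?_⟩
  · show z % 1073741824 = _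
    omega
  · show u % 1073741824 = _
    omega

theorem cvu_enc {v w : List Nat} (h1 : Cvw v w) (h2 : Sm w) (h3 : 4 ≤ w.length)
    (h4 : w.length ≤ 6) : Cvu (enc v) (enc w) :=
  ⟨v, w, 0, h1, h2, h3, h4, by omega, by omega⟩

theorem Cvu.lo (h : Cvu z u) : Cvu (lo z) (lo u) := by
  obtain ⟨v, w, h1, h2, h3, h4, h5, h6⟩ := h.wd
  rw [h5, h6]
  exact cvu_enc h1 h2 h3 h4

theorem rrc_enc' {l : List Nat} (h : Sm l) (h4 : 4 ≤ l.length) (h6 : l.length ≤ 6) :
    rrc (enc l) = enc (l.rotate (l.length - 1)) := by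
  have h1 := rrc_enc (h.rotate (l.length - 1)) (by rw [List.length_rotate]; exact h4)
    (by rw [List.length_rotate]; exact h6)
  rw [List.rotate_rotate, show l.length - 1 + 1 = l.length by omega, List.rotate_length] at h1
  exact h1

theorem Cvu.rrc (h : Cvu z u) : Cvu (rrc (FCS.lo z)) (rrc (FCS.lo u)) := by
  obtain ⟨v, w, h1, h2, h3, h4, h5, h6⟩ := h.wd
  rw [h5, h6, rrc_enc' (h1.sm h2) (by rw [h1.len]; exact h3) (by rw [h1.len]; exact h4),
    rrc_enc' h2 h3 h4, h1.len]
  exact cvu_enc (h1.rotate _) (h2.rotate _) (by rw [List.length_rotate]; exact h3)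
    (by rw [List.length_rotate]; exact h4)

theorem Cvu.rlc (h : Cvu z u) : Cvu (rlc (FCS.lo z)) (rlc (FCS.lo u)) := by
  obtain ⟨v, w, h1, h2, h3, h4, h5, h6⟩ := h.wd
  rw [h5, h6, rlc_enc (h1.sm h2) (by rw [h1.len]; exact h3) (by rw [h1.len]; exact h4),
    rlc_enc h2 h3 h4]
  exact cvu_enc (h1.rotate _) (h2.rotate _) (by rw [List.length_rotate]; exact h3)
    (by rw [List.length_rotate]; exact h4)

theorem Cvl.dg {a b : Nat} (h : Cvl a b) : Cvg (a + 1) (b + 1) := by
  rcases h with h | h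
  · left; omega
  · right; exact h

theorem enc_mod {l : List Nat} (h : Sm l) (h4 : 4 ≤ l.length) :
    enc l % 32 = l.getD 0 0 + 1 := by
  have h1 := dg_enc h (k := 0) (by omega)
  rw [← h1]
  show _ = enc l / 32 ^ 0 % 32
  simp only [pow_zero, Nat.div_one]

theorem enc_div {l : List Nat} (h : Sm l) (h4 : 4 ≤ l.length) (h6 : l.length ≤ 6) :
    enc l / pwF (enc l) = l.getD (l.length - 1) 0 + 1 := by
  have h1 := dg_enc h (k := l.length - 1) (by omega)
  rw [← h1, pwF_eq, pw_enc h h4 h6]
  show _ = enc l / 32 ^ (l.length - 1) % 32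
  symm
  apply Nat.mod_eq_of_lt
  have h2 := enc_lt h
  apply Nat.div_lt_of_lt_mul
  rw [← pow_succ]
  convert h2 using 2
  omega

/-- the first digits -/
theorem Cvu.fst (h : Cvu z u) : Cvg (z % 32) (u % 32) := by
  obtain ⟨v, w, h1, h2, h3, h4, h5, h6⟩ := h.wd
  have e1 : z % 32 = enc v % 32 := by
    rw [← h5]; show z % 32 = z % 1073741824 % 32; omega
  have e2 : u % 32 = enc w % 32 := by
    rw [← h6]; show u % 32 = u % 1073741824 % 32; omega
  rw [e1, e2, enc_mod (h1.sm h2) (by rw [h1.len]; exact h3), enc_mod h2 h3]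
  exact (h1.getD (by omega)).dg

/-- the last digits -/
theorem Cvu.lst (h : Cvu z u) : Cvg (Nat.div (FCS.lo z) (pwF (FCS.lo z)))
    (Nat.div (FCS.lo u) (pwF (FCS.lo u))) := by
  obtain ⟨v, w, h1, h2, h3, h4, h5, h6⟩ := h.wd
  show Cvg (FCS.lo z / pwF (FCS.lo z)) (FCS.lo u / pwF (FCS.lo u))
  rw [h5, h6, enc_div (h1.sm h2) (by rw [h1.len]; exact h3) (by rw [h1.len]; exact h4),
    enc_div h2 h3 h4, h1.len]
  exact (h1.getD (by omega)).dg

end rel

/-! ### Reading in a list -/

theorem rdm_in (u : Nat) : ∀ (cl : List (Nat × Nat)), rdm u cl = 0 ∨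
    (cvd (rdm u cl) u = true ∧ ∃ g, (g, rdm u cl) ∈ cl)
  | [] => Or.inl rfl
  | q :: l => by
    have ih := rdm_in u l
    unfold rdm
    by_cases h1 : cvd q.2 u = true
    · rw [if_pos h1]
      by_cases h2 : rdm u l = 0 ∨ q.2 ≤ rdm u l
      · rw [if_pos h2]
        exact Or.inr ⟨h1, q.1, List.mem_cons_self ..⟩
      · rw [if_neg h2]
        rcases ih with h3 | ⟨h3, g, h4⟩
        · exact Or.inl h3
        · exact Or.inr ⟨h3, g, List.mem_cons_of_mem _ h4⟩
    · rw [if_neg h1]
      rcases ih with h3 | ⟨h3, g, h4⟩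
      · exact Or.inl h3
      · exact Or.inr ⟨h3, g, List.mem_cons_of_mem _ h4⟩

theorem rdl_or (cl : List (Nat × Nat)) (u : Nat) : rdl cl u = u ∨
    (2 ≤ u ∧ cvd (rdl cl u) u = true) := by
  unfold rdl
  by_cases h : u ≤ 1
  · rw [if_pos h]; exact Or.inl rfl
  · rw [if_neg h]
    rcases rdm_in u cl with h1 | ⟨h1, -⟩
    · rw [if_pos h1]; exact Or.inl rfl
    · by_cases h2 : rdm u cl = 0
      · rw [if_pos h2]; exact Or.inl rfl
      · rw [if_neg h2]; exact Or.inr ⟨by omega, h1⟩

/-- the masks of the digits -/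
theorem mT_tab : ∀ y < 32, (mT >>> (5 * y)) % 32 < 32 ∧
    kd y &&& (mT >>> (5 * y)) % 32 = y &&& (mT >>> (5 * y)) % 32 := by decide +kernel

theorem land32 (a b m n : Nat) (ha : a < 32) (hm : m < 32) :
    (a + 32 * b) &&& (m + 32 * n) = (a &&& m) + 32 * (b &&& n) := by
  have h1 : ((a + 32 * b) &&& (m + 32 * n)) % 2 ^ 5 = a &&& m := by
    rw [Nat.and_mod_two_pow]
    have e1 : (a + 32 * b) % 2 ^ 5 = a := by norm_num; omega
    have e2 : (m + 32 * n) % 2 ^ 5 = m := by norm_num; omega
    rw [e1, e2]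
  have h2 : ((a + 32 * b) &&& (m + 32 * n)) / 2 ^ 5 = b &&& n := by
    rw [Nat.and_div_two_pow]
    have e1 : (a + 32 * b) / 2 ^ 5 = b := by norm_num; omega
    have e2 : (m + 32 * n) / 2 ^ 5 = n := by norm_num; omega
    rw [e1, e2]
  norm_num at h1 h2
  omega

theorem mkk_succ (k u : Nat) : mkk (k + 1) u =
    (mT >>> (5 * (u % 32))) % 32 + 32 * mkk k (u / 32) := by
  have e : mkk (k + 1) u = frc (Nat.div u (nat_lit 32)) fun u' =>
      Nat.add (Nat.mod (Nat.shiftRight mT (Nat.mul (nat_lit 5) (Nat.mod u (nat_lit 32))))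
        (nat_lit 32)) (Nat.mul (nat_lit 32) (mkk k u')) := rfl
  rw [e, frc_eq]
  rfl

/-- a covering code agrees on the exact digits -/
theorem cvk_land : ∀ (k z u : Nat), cvk k z u = true → z &&& mkk k u = u &&& mkk k u
  | 0, z, u, h => by
    have h' : Nat.beq z u = true := h
    rw [Nat.eq_of_beq_eq_true h']
  | k + 1, z, u, h => by
    obtain ⟨h1, h2⟩ := cvk_step h
    have ih := cvk_land k _ _ h1
    have t := mT_tab (u % 32) (by omega)
    have e1 : z &&& mkk (k + 1) u = ((z % 32) &&& ((mT >>> (5 * (u % 32))) % 32)) +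
        32 * ((z / 32) &&& mkk k (u / 32)) := by
      rw [mkk_succ, ← land32 _ _ _ _ (by omega) t.1]
      congr 1
      omega
    have e2 : u &&& mkk (k + 1) u = ((u % 32) &&& ((mT >>> (5 * (u % 32))) % 32)) +
        32 * ((u / 32) &&& mkk k (u / 32)) := by
      rw [mkk_succ, ← land32 _ _ _ _ (by omega) t.1]
      congr 1
      omega
    rw [e1, e2, ih]
    rcases h2 with h2 | h2
    · rw [h2]
    · rw [h2, t.2]

theorem cvk_lt : ∀ (k z u B : Nat), cvk k z u = true → u < 32 ^ k * B → z < 32 ^ k * B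
  | 0, z, u, B, h, hu => by
    have h' : Nat.beq z u = true := h
    rw [Nat.eq_of_beq_eq_true h']; exact hu
  | k + 1, z, u, B, h, hu => by
    obtain ⟨h1, h2⟩ := cvk_step h
    have e : 32 ^ (k + 1) * B = 32 * (32 ^ k * B) := by rw [pow_succ]; ring
    rw [e] at hu ⊢
    have h3 : z / 32 < 32 ^ k * B := cvk_lt k _ _ B h1 (by omega)
    omega

theorem cvd_lt {z u : Nat} (h : cvd z u = true) (hu : u < 8589934592) : z < 8589934592 := by
  have e : (8589934592 : Nat) = 32 ^ 6 * 8 := by norm_num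
  rw [e] at hu ⊢
  exact cvk_lt 6 z u 8 h hu

theorem cvk_zero : ∀ (k u : Nat), u < 1073741824 * 32 → cvk k 0 u = true → u = 0
  | 0, u, _, h => by
    have h' : Nat.beq 0 u = true := h
    exact (Nat.eq_of_beq_eq_true h').symm
  | k + 1, u, hu, h => by
    obtain ⟨h1, h2⟩ := cvk_step h
    have e1 : 0 / 32 = 0 := rfl
    rw [e1] at h1
    have h3 := cvk_zero k (u / 32) (by omega) h1
    have t := kd_tab (u % 32) (by omega)
    have h4 : u % 32 = 0 := by
      rcases h2 with h2 | h2
      · omega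
      · exact t.2.1 (by omega)
    omega

theorem rds_eq (r h z : Nat) : rds r h z =
    if r = 0 ∨ z ≤ r % 8589934592 then z + 8589934592 * h else r := by
  unfold rds
  cases h1 : Nat.beq r (nat_lit 0) with
  | true =>
    rw [if_pos (Or.inl (Nat.eq_of_beq_eq_true h1))]
    rfl
  | false =>
    have h1' := Nat.ne_of_beq_eq_false h1
    cases h2 : Nat.ble z (Nat.mod r (nat_lit 8589934592)) with
    | true =>
      have h3 : z ≤ r % 8589934592 := Nat.le_of_ble_eq_true h2
      rw [if_pos (Or.inr h3)]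
      rfl
    | false =>
      rw [if_neg]
      rintro (h3 | h3)
      · exact h1' h3
      · have : Nat.ble z (Nat.mod r (nat_lit 8589934592)) = true := Nat.ble_eq_true_of_le h3
        rw [this] at h2
        exact Bool.noConfusion h2

theorem rdg_cons (M U u h z : Nat) (l : List (Nat × Nat)) : rdg M U u ((h, z) :: l) =
    Bool.rec (motive := fun _ => Nat) (rdg M U u l)
      (Bool.rec (motive := fun _ => Nat) (rdg M U u l) (rds (rdg M U u l) h z) (cvd z u))
      (Nat.beq (Nat.land z M) U) := by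
  have e : rdg M U u ((h, z) :: l) = Bool.rec (motive := fun _ => Nat) (rdg M U u l)
      (Bool.rec (motive := fun _ => Nat) (rdg M U u l)
        (frc (rdg M U u l) fun r => rds r h z) (cvd z u))
      (Nat.beq (Nat.land z M) U) := rfl
  rw [e, frc_eq]

theorem rdk_eq (u : Nat) (cl : List (Nat × Nat)) :
    rdk u cl = rdg (mkk 6 u) (Nat.land u (mkk 6 u)) u cl := by
  unfold rdk
  rw [frc_eq, frc_eq]

/-- the entry of the smallest covering code -/
theorem rdg_ok {u : Nat} (hu : u < 8589934592) (hu0 : u ≠ 0) : ∀ cl : List (Nat × Nat),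
    (rdg (mkk 6 u) (Nat.land u (mkk 6 u)) u cl = 0 ∧ rdm u cl = 0) ∨
    (rdg (mkk 6 u) (Nat.land u (mkk 6 u)) u cl ≠ 0 ∧
      rdm u cl = rdg (mkk 6 u) (Nat.land u (mkk 6 u)) u cl % 8589934592 ∧ rdm u cl ≠ 0 ∧
      (rdg (mkk 6 u) (Nat.land u (mkk 6 u)) u cl / 8589934592, rdm u cl) ∈ cl)
  | [] => Or.inl ⟨rfl, rfl⟩
  | (h, z) :: l => by
    have ih := rdg_ok hu hu0 l
    rw [rdg_cons]
    generalize hr : rdg (mkk 6 u) (Nat.land u (mkk 6 u)) u l = r at ih ⊢
    have e2 : rdm u ((h, z) :: l) = if cvd z u = true then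
      (if rdm u l = 0 ∨ z ≤ rdm u l then z else rdm u l) else rdm u l := rfl
    rw [e2]
    have old : (r = 0 ∧ rdm u l = 0) ∨ (r ≠ 0 ∧ rdm u l = r % 8589934592 ∧
        rdm u l ≠ 0 ∧ (r / 8589934592, rdm u l) ∈ (h, z) :: l) := by
      rcases ih with h | ⟨h1, h2, h3, h4⟩
      · exact Or.inl h
      · exact Or.inr ⟨h1, h2, h3, List.mem_cons_of_mem _ h4⟩
    by_cases hc : cvd z u = true
    · have hl : Nat.land z (mkk 6 u) = Nat.land u (mkk 6 u) := cvk_land 6 _ _ hc
      have hz := cvd_lt hc hu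
      have hz0 : z ≠ 0 := by
        intro h0
        rw [h0] at hc
        exact hu0 (cvk_zero 6 u (by omega) hc)
      rw [hl, Nat.beq_refl, hc, if_pos rfl]
      show (rds r h z = 0 ∧ _) ∨ (rds r h z ≠ 0 ∧ _ = rds r h z % 8589934592 ∧ _ ≠ 0 ∧
        (rds r h z / 8589934592, _) ∈ (h, z) :: l)
      rw [rds_eq]
      have m1 : (z + 8589934592 * h) % 8589934592 = z := by omega
      have m2 : (z + 8589934592 * h) / 8589934592 = h := by omega
      rcases ih with ⟨h1, h2⟩ | ⟨h1, h2, h3, h4⟩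
      · rw [if_pos (Or.inl h1), if_pos (Or.inl h2)]
        right
        refine ⟨by omega, m1.symm, hz0, ?_⟩
        rw [m2]
        exact List.mem_cons_self ..
      · rw [h2]
        by_cases h5 : z ≤ r % 8589934592
        · rw [if_pos (Or.inr h5), if_pos (Or.inr h5)]
          right
          refine ⟨by omega, m1.symm, hz0, ?_⟩
          rw [m2]
          exact List.mem_cons_self ..
        · have h6 : ¬ (r = 0 ∨ z ≤ r % 8589934592) := by
            rintro (h7 | h7)
            · exact h1 h7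
            · exact h5 h7
          have h7 : ¬ (r % 8589934592 = 0 ∨ z ≤ r % 8589934592) := by
            rintro (h7 | h7)
            · rw [h2] at h3; exact h3 h7
            · exact h5 h7
          rw [if_neg h6, if_neg h7, ← h2]
          exact Or.inr ⟨h1, rfl, h3, List.mem_cons_of_mem _ h4⟩
    · rw [if_neg hc]
      have hc' : cvd z u = false := by
        cases h : cvd z u with
        | false => rfl
        | true => exact absurd h hc
      rw [hc']
      cases Nat.beq (Nat.land z (mkk 6 u)) (Nat.land u (mkk 6 u)) <;> exact old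

/-- the entry of the smallest covering code is in the list -/
theorem rdk_mem {u : Nat} {cl : List (Nat × Nat)} (hu : u < 8589934592) (hu1 : 2 ≤ u)
    (h : rdk u cl ≠ 0) : (rdk u cl / 8589934592, rdl cl u) ∈ cl := by
  rw [rdk_eq] at h ⊢
  rcases rdg_ok hu (by omega) cl with ⟨h1, -⟩ | ⟨h1, h2, h3, h4⟩
  · exact absurd h1 h
  · unfold rdl
    rw [if_neg (by omega), if_neg h3]
    exact h4

end

end Pool.FCP.Qz
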