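import Pool.Agent.FCV.Qa
import Pool.Agent.FCS.Wh

/-!
# Star check with covering candidates: the codes which are read, the true bits
-/

namespace Pool.FCP.Qz

open Pool.FCS

noncomputable section

section sound

variable {D : Type*} {cmp cmp' cmpS : Nat → Nat → Bool} {sol sol' lng : Nat → Bool}
  {S Y : Sys D} {cc f : Nat → Nat} {P : Pn} {le : Nat → Nat → Bool} {ml : Nat → Nat}
  {FB : BT (List Fct)}

/-- the code which is read for a neighbour -/
def _root_.Pool.FCS.Pn.nfz (P : Pn) (Y : Sys D) (e : D) (i : Nat) : Nat :=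
  rdl (P.ps (Y.c e) i).cl (P.nfy Y e i)

/-- the bit of a neighbour -/
def _root_.Pool.FCS.Pn.kpz (P : Pn) (Y : Sys D) (e : D) (i : Nat) : Nat :=
  ix (P.nfz Y e i) (P.ps (Y.c e) i).cl

/-- the true bits -/
def _root_.Pool.FCS.Pn.taz (P : Pn) (Y : Sys D) (e : D) (t : Nat) : Prop :=
  ∃ i < (Y.W e).length, t = P.w * i + P.kpz Y e i

/-- a code which covers the code of a word -/
theorem nfc_cvu (hb : Bmp P.Q.bm f Y) (hS : Y.Ok cmp sol) {e : D} (he : Y.W e ≠ []) {z : Nat}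
    (h : z = nfc P.Q.bm P.Q.wm P.Q.sm (Y.c e) ∨
      cvd z (nfc P.Q.bm P.Q.wm P.Q.sm (Y.c e)) = true) :
    Cvu z (nfc P.Q.bm P.Q.wm P.Q.sm (Y.c e)) := by
  have h1 := hb.sm' e
  have h2 := hS.len e he
  have h3 : nfc P.Q.bm P.Q.wm P.Q.sm (Y.c e) = enc ((Y.W e).map f) + 1073741824 *
      ((6 - wtc P.Q.wm (Y.c e)) % 4 + (bif so4 P.Q.sm (Y.c e) then 4 else 0)) := by
    have e1 : nfc P.Q.bm P.Q.wm P.Q.sm (Y.c e) = blc P.Q.bm (Y.c e) +
      (1073741824 * ((6 - wtc P.Q.wm (Y.c e)) % 4) +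
      (bif so4 P.Q.sm (Y.c e) then 4294967296 else 0)) := rfl
    rw [e1, hb.bl hS e]
    show enc ((Y.W e).map f) + _ = _
    cases so4 P.Q.sm (Y.c e)
    · dsimp only [cond_false]; omega
    · dsimp only [cond_true]; omega
  rw [h3] at h ⊢
  exact cvu_of h1 (by rw [List.length_map]; exact h2.1) (by rw [List.length_map]; exact h2.2) h

/-- a covering blind code -/
theorem blc_cvu (hb : Bmp P.Q.bm f Y) (hS : Y.Ok cmp sol) {e : D} (he : Y.W e ≠ []) :
    Cvu (blc P.Q.bm (Y.c e)) (blc P.Q.bm (Y.c e)) := by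
  have h1 := hb.sm' e
  have h2 := hS.len e he
  rw [hb.bl hS e]
  show Cvu (enc ((Y.W e).map f)) (enc ((Y.W e).map f))
  exact cvu_enc (Cvw.refl _) h1 (by rw [List.length_map]; exact h2.1)
    (by rw [List.length_map]; exact h2.2)

/-- a null neighbour is read as null -/
theorem nfz_nil {e : D} {i : Nat} (h : Y.W (Y.al (Y.nx^[i] e)) = []) : P.nfz Y e i = 1 := by
  have h1 : P.nfy Y e i = 1 := nf_nil h
  unfold Pn.nfz rdl
  rw [h1, if_pos (by norm_num)]

/-- the code which is read covers the code of the neighbour -/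
theorem nfz_cvu (hb : Bmp P.Q.bm f Y) (hS : Y.Ok cmp sol) {e : D} {i : Nat}
    (h : Y.W (Y.al (Y.nx^[i] e)) ≠ []) :
    Cvu (P.nfz Y e i) (nfc P.Q.bm P.Q.wm P.Q.sm (Y.c (Y.al (Y.nx^[i] e)))) := by
  have h1 : P.nfy Y e i = nfc P.Q.bm P.Q.wm P.Q.sm (Y.c (Y.al (Y.nx^[i] e))) := nf_ne h
  apply nfc_cvu hb hS h
  unfold Pn.nfz
  rw [h1]
  rcases rdl_or (P.ps (Y.c e) i).cl (nfc P.Q.bm P.Q.wm P.Q.sm (Y.c (Y.al (Y.nx^[i] e))))
    with h2 | ⟨-, h2⟩
  · exact Or.inl h2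
  · exact Or.inr h2

theorem nfz_ge (hb : Bmp P.Q.bm f Y) (hS : Y.Ok cmp sol) {e : D} {i : Nat}
    (h : Y.W (Y.al (Y.nx^[i] e)) ≠ []) : 32768 ≤ P.nfz Y e i := by
  obtain ⟨v, w, t, h1, h2, h3, h4, h5, h6⟩ := nfz_cvu (P := P) hb hS h
  rw [h5]
  have := enc_ge (w := v) (by rw [h1.len]; exact h3)
  omega

theorem nfz_ne {e : D} {i : Nat} (hb : Bmp P.Q.bm f Y) (hS : Y.Ok cmp sol) :
    P.nfz Y e i ≠ 0 ∧ P.nfz Y e i ≠ 2 := by
  by_cases h : Y.W (Y.al (Y.nx^[i] e)) = []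
  · rw [nfz_nil h]; exact ⟨by norm_num, by norm_num⟩
  · have := nfz_ge (P := P) hb hS h
    omega

/-- a null neighbour -/
theorem nfz_one (hb : Bmp P.Q.bm f Y) (hY : Y.Ok cmp sol) {e : D} {i : Nat} :
    P.nfz Y e i = 1 ↔ Y.W (Y.al (Y.nx^[i] e)) = [] := by
  refine ⟨fun h => ?_, fun h => nfz_nil h⟩
  by_contra h1
  have h3 := nfz_ge (P := P) hb hY h1
  omega

/-- the flag of the solid words of length 4 -/
theorem nfz_big (hb : Bmp P.Q.bm f Y) (hY : Y.Ok cmp sol) {e : D} {i : Nat} :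
    P.nfz Y e i < 4294967296 ↔ P.nfy Y e i < 4294967296 := by
  by_cases h : Y.W (Y.al (Y.nx^[i] e)) = []
  · have h1 : P.nfy Y e i = 1 := nf_nil h
    rw [nfz_nil h, h1]
  · have h1 : P.nfy Y e i = nfc P.Q.bm P.Q.wm P.Q.sm (Y.c (Y.al (Y.nx^[i] e))) := nf_ne h
    have h2 := (nfz_cvu (P := P) hb hY h).big
    rw [h1]
    omega

/-- The hypotheses on the conflicts, for covering codes. -/
structure Hc3 (Y : Sys D) (f : Nat → Nat) (P : Pn) : Prop where
  hr2 : ∀ r, Y.W r ≠ [] → Y.W (Y.al r) ≠ [] → ∀ a b, Cvg a (f ((Y.W r).getD 0 0) + 1) →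
    Cvg b (f ((Y.W (Y.al r)).getD ((Y.W (Y.al r)).length - 1) 0) + 1) →
    P.r2 (wsl P.Q.wm (Y.c r)) a (wsl P.Q.wm (Y.c (Y.al r))) b = true
  hpf : ∀ r, Y.W r ≠ [] → Y.W (Y.al r) ≠ [] → ∀ x y, Cvu x (blc P.Q.bm (Y.c r)) →
    Cvu y (blc P.Q.bm (Y.c (Y.al r))) → P.Q.pf x y = false
  hgk : ∀ r, Y.W r ≠ [] → Y.W (Y.al r) ≠ [] → Y.W (Y.al (Y.nx r)) ≠ [] →
    ∀ u v, Cvu u (nfc P.Q.bm P.Q.wm P.Q.sm (Y.c (Y.al r))) →
    Cvu v (nfc P.Q.bm P.Q.wm P.Q.sm (Y.c (Y.al (Y.nx r)))) →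
    P.Q.gk (wsl P.Q.wm (Y.c r)) ((Y.W r).getD 0 0 + 1) u v = false

theorem pcs_okz (hy : Hc2 cmp cmp' sol sol' Y f P) (hz : Hc3 Y f P) {r : D} (hr : Y.W r ≠ [])
    (hr' : Y.W (Y.al r) ≠ []) {x y : Nat} (hx : Cvu x (blc P.Q.bm (Y.c r)))
    (hy' : Cvu y (blc P.Q.bm (Y.c (Y.al r)))) :
    P.pcs (wsl P.Q.wm (Y.c r)) x (wsl P.Q.wm (Y.c (Y.al r))) y = false := by
  have hlx : ∀ {x b : Nat}, Cvu x b → b < 1073741824 → lo x = x ∧ lo b = b := by
    intro x b h hb
    have h1 := h.div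
    have e1 : b / 1073741824 = 0 := by omega
    rw [e1] at h1
    constructor
    · show x % 1073741824 = x
      omega
    · show b % 1073741824 = b
      omega
  have b1 := hlx hx (hy.hb.lt hy.ok _)
  have b2 := hlx hy' (hy.hb.lt hy.ok _)
  have f1 := hx.fst
  have f2 := hy'.fst
  have l1 := hx.lst
  have l2 := hy'.lst
  rw [b1.1, b1.2, pwF_eq (blc P.Q.bm (Y.c r)), bll hy.hb hy.ok hy.ok' hr] at l1
  rw [b2.1, b2.2, pwF_eq (blc P.Q.bm (Y.c (Y.al r))), bll hy.hb hy.ok hy.ok' hr'] at l2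
  have c1 : blc P.Q.bm (Y.c r) % 32 = _ := bl0 hy.hb hy.ok hy.ok' hr
  have c2 : blc P.Q.bm (Y.c (Y.al r)) % 32 = _ := bl0 hy.hb hy.ok hy.ok' hr'
  rw [c1] at f1
  rw [c2] at f2
  have h1 := hz.hr2 r hr hr' _ _ f1 l2
  have h2 := hz.hr2 (Y.al r) hr' (by rw [hy.ok.alal]; exact hr) _ _ f2
    (by rw [hy.ok.alal]; exact l1)
  rw [hy.ok.alal] at h2
  have h3 := hz.hpf r hr hr' x y hx hy'
  unfold Pm.pf at h3
  unfold Pn.pcs
  have h1' : P.r2 (wsl P.Q.wm (Y.c r)) (Nat.mod x 32) (wsl P.Q.wm (Y.c (Y.al r)))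
    (Nat.div y (pwF y)) = true := h1
  have h2' : P.r2 (wsl P.Q.wm (Y.c (Y.al r))) (Nat.mod y 32) (wsl P.Q.wm (Y.c r))
    (Nat.div x (pwF x)) = true := h2
  rw [h1', h2', memF_eq, getF_eq]
  exact h3

theorem sid_okz (hy : Hc2 cmp cmp' sol sol' Y f P) (hz : Hc3 Y f P) {r : D} (hr : Y.W r ≠ [])
    (h1 : Y.W (Y.al r) ≠ []) (h2 : Y.W (Y.al (Y.nx r)) ≠ []) {u v : Nat}
    (hu : Cvu u (nfc P.Q.bm P.Q.wm P.Q.sm (Y.c (Y.al r))))
    (hv : Cvu v (nfc P.Q.bm P.Q.wm P.Q.sm (Y.c (Y.al (Y.nx r))))) :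
    P.sid (wsl P.Q.wm (Y.c r)) ((Y.W r).getD 0 0 + 1) u v = false := by
  have hS := hy.ok
  have h4 := (hS.len r hr).1
  have hm : (Y.W r).getD 0 0 ∈ Y.W r := by
    rw [List.getD_eq_getElem _ _ (by omega)]; exact List.getElem_mem _
  unfold Pn.sid
  cases Nat.ble u 1 with
  | true => rfl
  | false =>
    cases Nat.ble v 1 with
    | true => rfl
    | false =>
      cases Nat.beq ((Y.W r).getD 0 0 + 1) 0 with
      | true => rfl
      | false =>
        dsimp only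
        rw [hz.hgk r hr h1 h2 u v hu hv]
        dsimp only
        have e0 : Nat.beq (Nat.land (Nat.shiftRight P.Q.sm ((Y.W r).getD 0 0 + 1)) 1) 1 =
          sol ((Y.W r).getD 0 0) := hy.hsm r _ hm
        rw [e0]
        cases h5 : sol ((Y.W r).getD 0 0) with
        | false => rfl
        | true =>
          dsimp only
          obtain ⟨r', hr1, hr2⟩ := hS.tri r hr h5
          have n1 : Y.W (Y.nx r') ≠ [] := by rw [hr1]; exact h1
          have n2 : Y.W r' ≠ [] := hS.nn r' n1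
          have n4 : Y.W (Y.al r') ≠ [] := by rw [hr2]; exact hS.ne_nx h2
          have hS' := hy.ok'
          have s1 := hu.slf
          have s2 := hv.slf
          have t1 := hu.rrc
          have t2 := hv.rlc
          rw [slf_nfc (hy.hb.lt hS _)] at s1 s2
          rw [lo_nfc (hy.hb.lt hS _)] at t1 t2
          rw [s1, s2]
          have a1 : wsl P.Q.wm (Y.c (Y.al r)) = wsl P.Q.wm (Y.c r') := by
            rw [← hr1]; exact wsl_nx hS n2
          have a2 : wsl P.Q.wm (Y.c (Y.al (Y.nx r))) = wsl P.Q.wm (Y.c (Y.al r')) := by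
            rw [hr2]; exact (wsl_nx hS h2).symm
          have b1 : rrc (blc P.Q.bm (Y.c (Y.al r))) = blc P.Q.bm (Y.c r') := by
            rw [hy.hb.bl hS, hy.hb.bl hS, ← hr1]
            exact hS'.c_pr (mp_ne.2 n2)
          have b2 : rlc (blc P.Q.bm (Y.c (Y.al (Y.nx r)))) = blc P.Q.bm (Y.c (Y.al r')) := by
            rw [hy.hb.bl hS, hy.hb.bl hS, hr2]
            exact (hS'.c_nx (mp_ne.2 h2)).symm
          rw [b1] at t1
          rw [b2] at t2
          rw [a1, a2]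
          exact pcs_okz hy hz n2 n4 t1 t2

/-- two consecutive neighbours -/
theorem sid_sidez (hy : Hc2 cmp cmp' sol sol' Y f P) (hz : Hc3 Y f P) {e : D}
    (he : Y.W e ≠ []) {i u v : Nat}
    (hu : P.nfz Y e i = u) (hi : i < (Y.W e).length)
    (hv : P.nfz Y e (nxt (Y.W e).length i) = v) :
    P.sid (wsl P.Q.wm (Y.c e)) (dg (Nat.pow 32 i) (Y.c e)) u v = false := by
  have hS := hy.ok
  by_cases u1 : Y.W (Y.al (Y.nx^[i] e)) = []
  · rw [nfz_nil u1] at hu
    rw [← hu]; rfl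
  · by_cases v1 : Y.W (Y.al (Y.nx^[nxt (Y.W e).length i] e)) = []
    · rw [nfz_nil v1] at hv
      rw [← hv]
      unfold Pn.sid
      cases Nat.ble u 1 <;> rfl
    · have hu' := nfz_cvu (P := P) hy.hb hS u1
      have hv' := nfz_cvu (P := P) hy.hb hS v1
      rw [hu] at hu'
      rw [hv, nx_nxt hS he i] at hv'
      rw [dg_sec hS hi he]
      rw [nx_nxt hS he i] at v1
      rw [← wsl_iter hS he i]
      exact sid_okz hy hz (hS.ne_iter he i) u1 v1 hu' hv'

theorem exc_okz (hy : Hc2 cmp cmp' sol sol' Y f P) (hz : Hc3 Y f P) {e : D} (he : Y.W e ≠ [])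
    (hN : Nr sol Y e) {i j u v : Nat} (hi : i < (Y.W e).length) (hj : j < (Y.W e).length)
    (hu : P.nfz Y e i = u) (hv : P.nfz Y e j = v) :
    P.exc (wsl P.Q.wm (Y.c e)) (Y.c e) (Y.W e).length i u j v = false := by
  unfold Pn.exc
  cases h1 : Nat.beq u 1 with
  | true =>
    have h1' := Nat.eq_of_beq_eq_true h1
    dsimp only
    cases h2 : Nat.beq v 1 with
    | false => rfl
    | true =>
      have h2' := Nat.eq_of_beq_eq_true h2
      dsimp only
      rw [← Bool.not_eq_true]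
      intro h3
      have g1 : Y.nf P.Q.bm P.Q.wm P.Q.sm e i = 1 :=
        nf_nil ((nfz_one (P := P) hy.hb hy.ok).1 (hu.trans h1'))
      have g2 : Y.nf P.Q.bm P.Q.wm P.Q.sm e j = 1 :=
        nf_nil ((nfz_one (P := P) hy.hb hy.ok).1 (hv.trans h2'))
      exact nlcb_sound hy.hb hy.ok (hy.hsm e) hN (fun q hq => by
        simp only [List.mem_singleton] at hq
        rw [hq]; exact g2) h3 g1
  | false =>
    dsimp only
    cases h2 : Nat.beq j (nxt (Y.W e).length i) with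
    | true =>
      have h2' := Nat.eq_of_beq_eq_true h2
      dsimp only
      rw [h2'] at hv
      exact sid_sidez hy hz he hu hi hv
    | false =>
      dsimp only
      cases h3 : Nat.beq i (nxt (Y.W e).length j) with
      | false => rfl
      | true =>
        have h3' := Nat.eq_of_beq_eq_true h3
        dsimp only
        rw [h3'] at hu
        exact sid_sidez hy hz he hv hj hu

variable {e : D} {k c : Nat} {R : List (List (List Nat))}

theorem kp_lt (hc : P.ckR k (Y.c e) (Y.W e).length R = true) {i : Nat}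
    (hi : i < (Y.W e).length) : (P.ps (Y.c e) i).cl.length < P.w ∧ P.kpz Y e i < P.w := by
  have h := alln_iff.1 hc i hi
  rw [cond_true_iff, cond_true_iff] at h
  have h1 := Nat.le_of_ble_eq_true h.2.1
  have h2 : len (P.ps (Y.c e) i).cl + 1 ≤ P.w := h1
  rw [len_eq] at h2
  have h3 := ix_le (P.nfz Y e i) (P.ps (Y.c e) i).cl
  unfold Pn.kpz
  omega

/-- the position of a true bit -/
theorem tau_div (hc : P.ckR k (Y.c e) (Y.W e).length R = true) {t : Nat} (ht : P.taz Y e t) :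
    t / P.w < (Y.W e).length ∧ t % P.w = P.kpz Y e (t / P.w) := by
  obtain ⟨i, hi, rfl⟩ := ht
  have h1 := (kp_lt hc hi).2
  have hw : 0 < P.w := by omega
  have e1 : (P.w * i + P.kpz Y e i) / P.w = i := by
    rw [Nat.mul_add_div hw, Nat.div_eq_of_lt h1, Nat.add_zero]
  have e2 : (P.w * i + P.kpz Y e i) % P.w = P.kpz Y e i := by
    rw [Nat.mul_add_mod, Nat.mod_eq_of_lt h1]
  rw [e1, e2]
  exact ⟨hi, rfl⟩

/-- the code of a true bit -/
theorem cdt_tau (hy : Hc2 cmp cmp' sol sol' Y f P)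
    (hc : P.ckR k (Y.c e) (Y.W e).length R = true) {t : Nat} (ht : P.taz Y e t) :
    P.cdt (Y.c e) t = 0 ∨ P.cdt (Y.c e) t = P.nfz Y e (t / P.w) := by
  have h1 := (tau_div hc ht).2
  have h2 : Nat.mod t P.w = P.kpz Y e (t / P.w) := h1
  rw [cdt_eq hy, h2]
  by_cases h3 : P.kpz Y e (t / P.w) = 0
  · left
    rw [h3]
    exact cda_zero _
  · right
    exact cda_ix h3

theorem xt_tau (hy : Hc2 cmp cmp' sol sol' Y f P) (hz : Hc3 Y f P) (he : Y.W e ≠ []) (hN : Nr sol Y e)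
    (hc : P.ckR k (Y.c e) (Y.W e).length R = true) {i t : Nat} (hi : i < (Y.W e).length)
    (h : P.xt (wsl P.Q.wm (Y.c e)) (Y.c e) (Y.W e).length i (P.nfz Y e i) t = true) :
    ¬ P.taz Y e t := by
  intro ht
  have h1 := tau_div hc ht
  rw [xt_eq] at h
  rcases cdt_tau hy hc ht with h2 | h2
  · rw [h2] at h
    -- the code `0` is never excluded
    have e0 : ∀ k c d i u j, P.exc k c d i u j 0 = false := by
      intro k c d i u j
      have e1 : ∀ k x u, P.sid k x u 0 = false := by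
        intro k x u
        unfold Pn.sid
        cases Nat.ble u 1 <;> rfl
      have e2 : ∀ k x v, P.sid k x 0 v = false := fun k x v => rfl
      unfold Pn.exc
      rw [e1, e2]
      cases Nat.beq u 1 <;> cases Nat.beq j (nxt d i) <;> cases Nat.beq i (nxt d j) <;> rfl
    rw [e0] at h
    exact Bool.noConfusion h
  · rw [h2] at h
    have h3 := exc_okz hy hz he hN hi h1.1 (u := P.nfz Y e i) (v := P.nfz Y e (t / P.w)) rfl rfl
    have h4 : Nat.div t P.w = t / P.w := rfl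
    rw [h4, h3] at h
    exact Bool.noConfusion h

/-- the positions of the true bits -/
theorem tau_pos {k : Nat} (hc : P.ckR k (Y.c e) (Y.W e).length R = true) {t i : Nat}
    (ht : P.taz Y e t) (h1 : P.w * i ≤ t) (h2 : t < P.w * i + P.w) :
    i < (Y.W e).length ∧ t = P.w * i + P.kpz Y e i := by
  have h3 := tau_div hc ht
  have h4 : t / P.w = i := by
    obtain ⟨s, rfl⟩ := Nat.exists_eq_add_of_le h1
    have h5 : s < P.w := by omega
    rw [Nat.mul_add_div (by omega), Nat.div_eq_of_lt h5, Nat.add_zero]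
  rw [h4] at h3
  refine ⟨h3.1, ?_⟩
  have h5 := Nat.div_add_mod t P.w
  rw [h4, h3.2] at h5
  exact h5.symm

/-- a null neighbour has no other bit -/
theorem nlo_ok {k : Nat} (hc : P.ckR k (Y.c e) (Y.W e).length R = true) {i : Nat}
    (hi : i < (Y.W e).length) (hn : P.nfz Y e i = 1) : ¬ Sat (P.taz Y e) (P.nlo (Y.c e) i) := by
  rintro ⟨t, t1, t2⟩
  have hx : P.nlx (Y.c e) i = P.kpz Y e i := by
    rw [nlx_eq]
    unfold Pn.kpz
    rw [hn]
  have hk := (kp_lt hc hi).2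
  unfold Pn.nlo at t2
  have e1 : Nat.shiftLeft 1 (Nat.add (Nat.mul P.w i) (P.nlx (Y.c e) i)) =
      2 ^ (P.w * i + P.nlx (Y.c e) i) := shl_one _
  have e2 : Nat.shiftLeft (Nat.sub (Nat.pow 2 P.w) 1) (Nat.mul P.w i) =
      (2 ^ P.w - 1) <<< (P.w * i) := rfl
  rw [e1, e2, xor_eq, Nat.testBit_xor, Nat.testBit_shiftLeft, Nat.testBit_two_pow_sub_one,
    Nat.testBit_two_pow, hx] at t2
  by_cases h1 : P.w * i ≤ t ∧ t < P.w * i + P.w
  · have h2 := (tau_pos hc t1 h1.1 h1.2).2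
    have h3 : decide (P.w * i ≤ t) = true := decide_eq_true h1.1
    have h4 : decide (t - P.w * i < P.w) = true := decide_eq_true (by omega)
    have h5 : decide (P.w * i + P.kpz Y e i = t) = true := decide_eq_true h2.symm
    rw [h3, h4, h5] at t2
    exact Bool.noConfusion t2
  · have h5 : decide (P.w * i + P.kpz Y e i = t) = false := decide_eq_false (by omega)
    rw [h5] at t2
    have h6 : (decide (P.w * i ≤ t) && decide (t - P.w * i < P.w)) = true := by
      simpa using t2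
    rw [Bool.and_eq_true, decide_eq_true_eq, decide_eq_true_eq] at h6
    omega

/-- a neighbour which is not null has another bit -/
theorem nlm_ok {k : Nat} (hc : P.ckR k (Y.c e) (Y.W e).length R = true) {i : Nat}
    (hi : i < (Y.W e).length) (hn : P.nfz Y e i ≠ 1) : ¬ Sat (P.taz Y e) (P.nlm (Y.c e) i) := by
  intro hs
  unfold Pn.nlm at hs
  cases h0 : Nat.beq (P.nlx (Y.c e) i) 0 with
  | true => rw [h0] at hs; exact not_sat_zero hs
  | false =>
    rw [h0] at hs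
    obtain ⟨t, t1, t2⟩ := hs
    have hz := Nat.ne_of_beq_eq_false h0
    have e1 : Nat.shiftLeft 1 (Nat.add (Nat.mul P.w i) (P.nlx (Y.c e) i)) =
        2 ^ (P.w * i + P.nlx (Y.c e) i) := shl_one _
    have t2' : Nat.testBit (Nat.shiftLeft 1 (Nat.add (Nat.mul P.w i) (P.nlx (Y.c e) i))) t =
      true := t2
    rw [e1, Nat.testBit_two_pow, decide_eq_true_eq] at t2'
    have hw := (kp_lt hc hi).1
    have hl := ix_le 1 (P.ps (Y.c e) i).cl
    have hx := nlx_eq (P := P) (Y.c e) i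
    have h1 := (tau_pos hc t1 (i := i) (by omega) (by omega)).2
    have h2 : P.kpz Y e i = ix 1 (P.ps (Y.c e) i).cl := by omega
    have h3 : P.kpz Y e i ≠ 0 := by omega
    have h4 : cda (P.ps (Y.c e) i).cl (P.kpz Y e i) = P.nfz Y e i := cda_ix h3
    rw [h2, cda_ix (by omega)] at h4
    exact hn h4.symm

theorem x1_ok {k : Nat} (hc : P.ckR k (Y.c e) (Y.W e).length R = true) {i : Nat}
    (hn : ∀ j < (Y.W e).length, j ≠ i → P.nfz Y e j ≠ 1) : ∀ d ≤ (Y.W e).length,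
    ¬ Sat (P.taz Y e) (P.x1 (Y.c e) i d)
  | 0, _ => not_sat_zero
  | d + 1, hd => by
    have e1 : P.x1 (Y.c e) i (d + 1) = Nat.lor (Bool.rec (motive := fun _ => Nat)
      (P.nlm (Y.c e) d) 0 (Nat.beq d i)) (P.x1 (Y.c e) i d) := rfl
    rw [e1]
    intro hs
    rcases sat_lor hs with hs | hs
    · cases h0 : Nat.beq d i with
      | true => rw [h0] at hs; exact not_sat_zero hs
      | false =>
        rw [h0] at hs
        exact nlm_ok hc (by omega) (hn d (by omega) (Nat.ne_of_beq_eq_false h0)) hs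
    · exact x1_ok hc hn d (by omega) hs

theorem x0_ok {k : Nat} (hc : P.ckR k (Y.c e) (Y.W e).length R = true) : ∀ {ns : List Nat},
    (∀ i ∈ ns, i < (Y.W e).length) → (∀ i ∈ ns, P.nfz Y e i ≠ 1) →
    ¬ Sat (P.taz Y e) (P.x0 (Y.c e) ns)
  | [], _, _ => not_sat_zero
  | i :: ns, h1, h2 => by
    have e1 : P.x0 (Y.c e) (i :: ns) = Nat.lor (P.nlm (Y.c e) i) (P.x0 (Y.c e) ns) := rfl
    rw [e1]
    intro hs
    rcases sat_lor hs with hs | hs
    · exact nlm_ok hc (h1 i (List.mem_cons_self ..)) (h2 i (List.mem_cons_self ..)) hs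
    · exact x0_ok hc (fun j hj => h1 j (List.mem_cons_of_mem _ hj))
        (fun j hj => h2 j (List.mem_cons_of_mem _ hj)) hs

end sound

end

end Pool.FCP.Qz
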