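import Pool.Agent.FCV.Qb

/-!
# Star check with covering candidates: views and facts
-/

set_option linter.unusedVariables false

namespace Pool.FCP.Qz

open Pool.FCS

noncomputable section

section sound

variable {D : Type*} {cmp cmp' cmpS : Nat → Nat → Bool} {sol sol' lng : Nat → Bool}
  {S : Sys D} {cc f : Nat → Nat} {P : Pn} {le : Nat → Nat → Bool} {ml lv lm FN : Nat → Nat}
  {T Tm : Nat} {e : D} {k c : Nat} {R : List (List (List Nat))}

/-- The hypotheses on the view letters, for covering codes. -/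
structure Hv3 (S : Sys D) (cc f : Nat → Nat) (P : Pn) : Prop where
  c3 : Hc3 (S.mp cc) f P
  ua : ∀ e, S.W e ≠ [] → S.W (S.al e) ≠ [] → ∀ v, (S.W e).getD 0 0 ∈ P.lg v → ∀ b,
    Cvg b (f (cc ((S.W (S.al e)).getD ((S.W (S.al e)).length - 1) 0)) + 1) →
    P.ua (wsl P.Q.wm ((S.mp cc).c e)) v (wsl P.Q.wm ((S.mp cc).c (S.al e))) b = true
  ub : ∀ e, S.W e ≠ [] → S.W (S.al e) ≠ [] → ∀ v,
    (S.W e).getD ((S.W e).length - 1) 0 ∈ P.lg v → ∀ b,
    Cvg b (f (cc ((S.W (S.al e)).getD 0 0)) + 1) →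
    P.ub (wsl P.Q.wm ((S.mp cc).c e)) v (wsl P.Q.wm ((S.mp cc).c (S.al e))) b = true

/-- the tables of the letters, for covering digits -/
structure Hw3 (S : Sys D) (cc f : Nat → Nat) (P : Pn) (ml : Nat → Nat) (T Tm : Nat) :
    Prop where
  ft : ∀ e, ∀ x ∈ S.W e, ∀ z, Cvg z (f (cc x) + 1) → 0 < tg6 T z ∧ tg6 T z < 63 ∧
    P.leb (tg6 T z - 1) (f (cc x)) = true
  fm : ∀ e, ∀ x ∈ S.W e, ∀ z, Cvg z (f (cc x) + 1) → 0 < tg6 Tm z ∧ tg6 Tm z < 63 ∧
    P.leb (ml (tg6 Tm z - 1)) (f (cc x)) = true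

/-- bits excluded by the view -/
theorem ux_tau (hv : Hv cmpS cmp cmp' sol sol' S cc f P le) (hv3 : Hv3 S cc f P) {V : List Nat} (he : S.W e ≠ [])
    (hV : Cov P V (S.W e)) {k : Nat}
    (hc : P.ckR k ((S.mp cc).c e) ((S.mp cc).W e).length R = true) {t : Nat}
    (h : P.ux ((S.mp cc).c e) (S.W e).length (wsl P.Q.wm ((S.mp cc).c e)) V t = true) :
    ¬ P.taz (S.mp cc) e t := by
  intro ht
  have hS := hv.hS
  have hY := hv.h2.ok
  have he' : (S.mp cc).W e ≠ [] := mp_ne.2 he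
  have hlen : ((S.mp cc).W e).length = (S.W e).length := by
    show ((S.W e).map cc).length = _
    rw [List.length_map]
  have h1 := tau_div hc ht
  have hi : t / P.w < (S.W e).length := by rw [← hlen]; exact h1.1
  rw [ux_eq] at h
  rcases cdt_tau hv.h2 hc ht with h2 | h2
  · rw [h2] at h
    exact Bool.noConfusion h
  · rw [h2] at h
    have h3 : Nat.div t P.w = t / P.w := rfl
    rw [h3] at h
    generalize t / P.w = i at *
    dsimp only at h
    cases hb : Nat.ble (P.nfz (S.mp cc) e i) 1 with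
    | true => rw [hb] at h; exact Bool.noConfusion h
    | false =>
      rw [hb] at h
      -- the neighbour has a word
      have n1 : (S.mp cc).W ((S.mp cc).al ((S.mp cc).nx^[i] e)) ≠ [] := by
        intro h0
        have : P.nfz (S.mp cc) e i = 1 := nfz_nil h0
        rw [this] at hb
        exact Bool.noConfusion hb
      have n2 : S.W (S.al (S.nx^[i] e)) ≠ [] := mp_ne.1 n1
      have n0 : S.W (S.nx^[i] e) ≠ [] := hS.ne_iter he i
      have e1 := nfz_cvu (P := P) hv.h2.hb hY n1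
      have hbl := hv.h2.hb.lt hY ((S.mp cc).al ((S.mp cc).nx^[i] e))
      have hS' := hv.h2.ok'
      have d1 := e1.fst
      have d2 := e1.lst
      have d3 := e1.slf
      have dm : nfc P.Q.bm P.Q.wm P.Q.sm ((S.mp cc).c ((S.mp cc).al ((S.mp cc).nx^[i] e))) % 32 =
          blc P.Q.bm ((S.mp cc).c ((S.mp cc).al ((S.mp cc).nx^[i] e))) % 32 := by
        rw [← lo_nfc (wm := P.Q.wm) (sm := P.Q.sm) hbl]
        show _ = _ % 1073741824 % 32
        omega
      have dm' : blc P.Q.bm ((S.mp cc).c ((S.mp cc).al ((S.mp cc).nx^[i] e))) % 32 = _ :=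
        bl0 hv.h2.hb hY hS' n1
      rw [dm, dm'] at d1
      rw [lo_nfc hbl, pwF_eq (blc P.Q.bm ((S.mp cc).c ((S.mp cc).al ((S.mp cc).nx^[i] e)))),
        bll hv.h2.hb hY hS' n1] at d2
      rw [slf_nfc hbl] at d3
      rw [d3, gtk_eq, gtk_eq] at h
      have g1 : wsl P.Q.wm ((S.mp cc).c e) = wsl P.Q.wm ((S.mp cc).c (S.nx^[i] e)) :=
        (wsl_iter hY he' i).symm
      have l4 := (hS.len _ n2).1
      have m1 : ((S.mp cc).W ((S.mp cc).al ((S.mp cc).nx^[i] e))).getD
          (((S.mp cc).W ((S.mp cc).al ((S.mp cc).nx^[i] e))).length - 1) 0 =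
          cc ((S.W (S.al (S.nx^[i] e))).getD ((S.W (S.al (S.nx^[i] e))).length - 1) 0) := by
        show ((S.W (S.al (S.nx^[i] e))).map cc).getD
          (((S.W (S.al (S.nx^[i] e))).map cc).length - 1) 0 = _
        rw [List.length_map, getD_map0 (by omega)]
      have m2 : ((S.mp cc).W ((S.mp cc).al ((S.mp cc).nx^[i] e))).getD 0 0 =
          cc ((S.W (S.al (S.nx^[i] e))).getD 0 0) := by
        show ((S.W (S.al (S.nx^[i] e))).map cc).getD 0 0 = _
        rw [getD_map0 (by omega)]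
      rw [m2] at d1
      rw [m1] at d2
      have u1 := hv3.ua (S.nx^[i] e) n0 n2 (V.getD i 0) (by
        rw [getD_iter hS he hi]; exact hV.2 i hi) _ d2
      have u2 := hv3.ub (S.nx^[i] e) n0 n2 (V.getD (prv (S.W e).length i) 0) (by
        rw [lastD_iter hS he hi]; exact hV.2 _ (prv_lt hi)) _ d1
      rw [g1] at h
      have u1' : P.ua (wsl P.Q.wm ((S.mp cc).c (S.nx^[i] e))) (V.getD i 0)
        (wsl P.Q.wm ((S.mp cc).c ((S.mp cc).al ((S.mp cc).nx^[i] e))))
        (Nat.div (lo (P.nfz (S.mp cc) e i)) (pwF (lo (P.nfz (S.mp cc) e i)))) = true := u1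
      have u2' : P.ub (wsl P.Q.wm ((S.mp cc).c (S.nx^[i] e))) (V.getD (prv (S.W e).length i) 0)
        (wsl P.Q.wm ((S.mp cc).c ((S.mp cc).al ((S.mp cc).nx^[i] e))))
        (Nat.mod (lo (P.nfz (S.mp cc) e i)) 32) = true := by
        have e9 : Nat.mod (lo (P.nfz (S.mp cc) e i)) 32 = P.nfz (S.mp cc) e i % 32 := by
          show P.nfz (S.mp cc) e i % 1073741824 % 32 = _
          omega
        rw [e9]
        exact u2
      rw [u1', u2'] at h
      exact Bool.noConfusion h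

/-- the field `y` is correct for the neighbour at the position `p` -/
def Vf (P : Pn) (S : Sys D) (cc : Nat → Nat) (e : D) (F : Nat → Nat) (p y : Nat) : Prop :=
  y = 0 ∨ (1 < P.nfz (S.mp cc) e p ∧ y = F (lo (P.nfz (S.mp cc) e p))) ∨
    (y = plu ∧ P.nfz (S.mp cc) e p < 4294967296)

/-- all fields are correct -/
def Vo (P : Pn) (S : Sys D) (cc : Nat → Nat) (T : Nat) (e : D) (MV : Nat) : Prop :=
  MV < 2 ^ (36 * (S.W e).length) ∧ ∀ p < (S.W e).length, Vf P S cc e (fcd T) p (fld MV p)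

/-- all fields are correct, opposite order -/
def Wo (P : Pn) (S : Sys D) (cc : Nat → Nat) (Tm : Nat) (e : D) (MW : Nat) : Prop :=
  MW < 2 ^ (36 * (S.W e).length) ∧ ∀ p < (S.W e).length,
    Vf P S cc e (fcm Tm) p (fld MW (((S.W e).length - p) % (S.W e).length))

theorem Vo.zero (he : S.W e ≠ []) : Vo P S cc T e 0 :=
  ⟨by positivity, fun p _ => Or.inl (fld_zero p)⟩

theorem Wo.zero (he : S.W e ≠ []) : Wo P S cc Tm e 0 :=
  ⟨by positivity, fun p _ => Or.inl (fld_zero _)⟩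

theorem Vf.or {F : Nat → Nat} {p x y : Nat} (hx : x < 2 ^ 36) (hy : y < 2 ^ 36)
    (h1 : Vf P S cc e F p x) (h2 : Vf P S cc e F p y) : Vf P S cc e F p (x ||| y) := by
  rcases h1 with h1 | ⟨a1, a2⟩ | ⟨a1, a2⟩
  · rw [h1, Nat.zero_or]; exact h2
  · rcases h2 with h2 | ⟨b1, b2⟩ | ⟨b1, b2⟩
    · rw [h2, Nat.or_zero]; exact Or.inr (Or.inl ⟨a1, a2⟩)
    · refine Or.inr (Or.inl ⟨a1, ?_⟩)
      rw [a2, b2, Nat.or_self]
    · refine Or.inr (Or.inr ⟨?_, b2⟩)
      rw [b1, plu_eq, Nat.or_comm, or_self_pow hx]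
  · refine Or.inr (Or.inr ⟨?_, a2⟩)
    rw [a1, plu_eq, or_self_pow hy]

theorem Vo.lor {A B : Nat} (hA : Vo P S cc T e A) (hB : Vo P S cc T e B) :
    Vo P S cc T e (Nat.lor A B) :=
  ⟨Nat.or_lt_two_pow hA.1 hB.1, fun p hp => by
    rw [fld_or]
    exact Vf.or (fld_lt _ _) (fld_lt _ _) (hA.2 p hp) (hB.2 p hp)⟩

theorem Wo.lor {A B : Nat} (hA : Wo P S cc Tm e A) (hB : Wo P S cc Tm e B) :
    Wo P S cc Tm e (Nat.lor A B) :=
  ⟨Nat.or_lt_two_pow hA.1 hB.1, fun p hp => by
    rw [fld_or]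
    exact Vf.or (fld_lt _ _) (fld_lt _ _) (hA.2 p hp) (hB.2 p hp)⟩

theorem Vf.lt {F : Nat → Nat} {p y : Nat} (hF : ∀ b, F b < 2 ^ 36)
    (h : Vf P S cc e F p y) : y < 2 ^ 36 := by
  rcases h with h | ⟨-, h⟩ | ⟨h, -⟩
  · rw [h]; norm_num
  · rw [h]; exact hF _
  · rw [h, plu_eq]; norm_num

/-- one field -/
theorem Vo.one (hw : Hw S cc f P ml lv lm T Tm)
    (hv : Hv cmpS cmp cmp' sol sol' S cc f P le) {p y : Nat} (hp : p < (S.W e).length)
    (hy : Vf P S cc e (fcd T) p y) : Vo P S cc T e (Nat.shiftLeft y (Nat.mul 36 p)) := by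
  have h1 : y < 2 ^ 36 := Vf.lt (fcd_lt T) hy
  refine ⟨shl_lt h1 hp, fun q _ => ?_⟩
  rw [fld_shl h1]
  by_cases h : q = p
  · rw [if_pos h, h]; exact hy
  · rw [if_neg h]; exact Or.inl rfl

theorem Wo.one (hw : Hw S cc f P ml lv lm T Tm)
    (hv : Hv cmpS cmp cmp' sol sol' S cc f P le) {p y : Nat} (hp : p < (S.W e).length)
    (hy : Vf P S cc e (fcm Tm) p y) : Wo P S cc Tm e (Nat.shiftLeft y
      (Nat.mul 36 (Nat.mod (Nat.sub (S.W e).length p) (S.W e).length))) := by
  have h1 : y < 2 ^ 36 := Vf.lt (fcm_lt Tm) hy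
  refine ⟨shl_lt h1 (Nat.mod_lt _ (by omega)), fun q hq => ?_⟩
  rw [fld_shl h1]
  by_cases h : q = p
  · rw [if_pos (by rw [h]; rfl), h]; exact hy
  · rw [if_neg (show ¬ ((S.W e).length - q) % (S.W e).length = Nat.mod (Nat.sub (S.W e).length p)
      (S.W e).length from fun h2 => h (mod_inj hp hq h2))]
    exact Or.inl rfl

/-- the word of a neighbour with a code -/
theorem nfz_word (hv : Hv cmpS cmp cmp' sol sol' S cc f P le) {q : Nat}
    (h : 1 < P.nfz (S.mp cc) e q) : S.W (S.al (S.nx^[q] e)) ≠ [] ∧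
      ∃ v, Cvw v (((S.W (S.al (S.nx^[q] e))).map cc).map f) ∧
        lo (P.nfz (S.mp cc) e q) = enc v := by
  have hY := hv.h2.ok
  have n1 : (S.mp cc).W ((S.mp cc).al ((S.mp cc).nx^[q] e)) ≠ [] := by
    intro h0
    have : P.nfz (S.mp cc) e q = 1 := nfz_nil h0
    omega
  have n2 : S.W (S.al (S.nx^[q] e)) ≠ [] := mp_ne.1 n1
  refine ⟨n2, ?_⟩
  obtain ⟨v, w, h1, h2, h3, h4, h5, h6⟩ := (nfz_cvu (P := P) hv.h2.hb hY n1).wd
  rw [lo_nfc (hv.h2.hb.lt hY _), hv.h2.hb.bl hY] at h6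
  have hs : Sm (((S.W (S.al (S.nx^[q] e))).map cc).map f) := hv.h2.hb.sm' _
  have h7 : enc (((S.W (S.al (S.nx^[q] e))).map cc).map f) = enc w := h6
  have h8 := enc_inj hs h2 h7
  rw [h8]
  exact ⟨v, h1, h5⟩

theorem nfz_pls (hv : Hv cmpS cmp cmp' sol sol' S cc f P le) {q : Nat}
    (h : P.nfz (S.mp cc) e q < 4294967296) : Pls sol (S.W (S.al (S.nx^[q] e))) :=
  nfy_pls hv ((nfz_big (P := P) hv.h2.hb hv.h2.ok).1 h)

theorem cvw_mem {v w : List Nat} (h : Cvw v w) : ∀ a ∈ v, ∃ b ∈ w, Cvl a b := by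
  induction h with
  | nil => intro a ha; simp at ha
  | cons h1 h2 ih =>
    intro a ha
    rcases List.mem_cons.1 ha with rfl | ha
    · exact ⟨_, List.mem_cons_self .., h1⟩
    · obtain ⟨b, b1, b2⟩ := ih a ha
      exact ⟨b, List.mem_cons_of_mem _ b1, b2⟩

theorem lew_cov {g h : Nat → Nat} : ∀ {v w : List Nat}, Cvw v (w.map h) →
    (∀ x ∈ w, ∀ a, Cvl a (h x) → le (g a) x = true) → lew le (v.map g) w = true
  | [], [], _, _ => rfl
  | [], _ :: _, hc, _ => by cases hc
  | _ :: _, [], hc, _ => by cases hc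
  | a :: v, x :: w, hc, hl => by
    have hc' : List.Forall₂ Cvl (a :: v) (h x :: w.map h) := hc
    cases hc' with
    | cons h1 h2 =>
      show (le (g a) x && lew le (v.map g) w) = true
      rw [hl x (List.mem_cons_self ..) a h1, lew_cov h2 fun y hy => hl y
        (List.mem_cons_of_mem _ hy)]
      rfl

/-- the letters of a covering word -/
theorem dW_fcd (hw3 : Hw3 S cc f P ml T Tm) (hv : Hv cmpS cmp cmp' sol sol' S cc f P le)
    (z : D) (hz : S.W z ≠ []) {v : List Nat} (hc : Cvw v (((S.W z).map cc).map f)) :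
    dW (fcd T (enc v)) = v.map (fun x => tg6 T (x + 1) - 1) ∧ fcd T (enc v) ≠ plu := by
  have hs : Sm v := hc.sm (hv.h2.hb.sm' z)
  have hl : v.length ≤ 6 := by
    rw [hc.len, List.length_map, List.length_map]
    exact len6 hv.hS z
  have hv0 : v ≠ [] := by
    intro h0
    have := hc.len
    rw [h0, List.length_map, List.length_map] at this
    exact hz (List.length_eq_zero_iff.1 this.symm)
  rw [fcd_eq, fcdk_enc T _ 6 hs hl]
  have hm : ∀ y ∈ (v.map fun x => tg6 T (x + 1)), 0 < y ∧ y < 63 := by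
    intro y hy
    obtain ⟨a, ha, rfl⟩ := List.mem_map.1 hy
    obtain ⟨b, hb, hab⟩ := cvw_mem hc a ha
    obtain ⟨b', hb', rfl⟩ := List.mem_map.1 hb
    obtain ⟨x, hx, rfl⟩ := List.mem_map.1 hb'
    have := hw3.ft z x hx (a + 1) hab.dg
    exact ⟨this.1, this.2.1⟩
  constructor
  · rw [dW_eq, dWk_e64 _ 8 (by rw [List.length_map]; omega) (fun y hy =>
      ⟨(hm y hy).1, by have := (hm y hy).2; omega⟩)]
    simp only [List.map_map]
    rfl
  · apply e64_ne
    · simp only [ne_eq, List.map_eq_nil_iff]; exact hv0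
    · exact fun y hy => (hm y hy).2

/-- the letters of a covering word, mirror image -/
theorem dW_fcm (hw3 : Hw3 S cc f P ml T Tm) (hv : Hv cmpS cmp cmp' sol sol' S cc f P le)
    (z : D) (hz : S.W z ≠ []) {v : List Nat} (hc : Cvw v (((S.W z).map cc).map f)) :
    mirw ml (dW (fcm Tm (enc v))) = v.map (fun x => ml (tg6 Tm (x + 1) - 1)) ∧
    fcm Tm (enc v) ≠ plu := by
  have hs : Sm v := hc.sm (hv.h2.hb.sm' z)
  have hl : v.length ≤ 6 := by
    rw [hc.len, List.length_map, List.length_map]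
    exact len6 hv.hS z
  have hv0 : v ≠ [] := by
    intro h0
    have := hc.len
    rw [h0, List.length_map, List.length_map] at this
    exact hz (List.length_eq_zero_iff.1 this.symm)
  have h0 := fcmk_enc Tm _ 6 [] hs hl
  rw [List.append_nil] at h0
  have h1 : fcm Tm (enc v) = e64 (v.map fun x => tg6 Tm (x + 1)).reverse := h0
  rw [h1]
  have hm : ∀ y ∈ (v.map fun x => tg6 Tm (x + 1)).reverse, 0 < y ∧ y < 63 := by
    intro y hy
    rw [List.mem_reverse] at hy
    obtain ⟨a, ha, rfl⟩ := List.mem_map.1 hy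
    obtain ⟨b, hb, hab⟩ := cvw_mem hc a ha
    obtain ⟨b', hb', rfl⟩ := List.mem_map.1 hb
    obtain ⟨x, hx, rfl⟩ := List.mem_map.1 hb'
    have := hw3.fm z x hx (a + 1) hab.dg
    exact ⟨this.1, this.2.1⟩
  constructor
  · rw [dW_eq, dWk_e64 _ 8 (by rw [List.length_reverse, List.length_map]; omega) (fun y hy =>
      ⟨(hm y hy).1, by have := (hm y hy).2; omega⟩)]
    unfold mirw
    rw [List.map_reverse, List.map_reverse, List.reverse_reverse]
    simp only [List.map_map]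
    rfl
  · apply e64_ne
    · simp only [ne_eq, List.reverse_eq_nil_iff, List.map_eq_nil_iff]; exact hv0
    · exact fun y hy => (hm y hy).2

/-- a neighbour, from a field -/
theorem vf_nb (hw3 : Hw3 S cc f P ml T Tm) (hv : Hv cmpS cmp cmp' sol sol' S cc f P le)
    {q y : Nat} (h : Vf P S cc e (fcd T) q y) (h0 : y ≠ 0) {w : List Nat}
    (hy : (y = plu ∧ w = []) ∨ (y ≠ plu ∧ w = dW y)) :
    (w = [] → Pls sol (S.W (S.al (S.nx^[q] e)))) ∧
    (w ≠ [] → lew le w (S.W (S.al (S.nx^[q] e))) = true) := by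
  rcases h with h | ⟨a1, a2⟩ | ⟨a1, a2⟩
  · exact absurd h h0
  · obtain ⟨b1, v, b3, b2⟩ := nfz_word hv a1
    rw [b2] at a2
    obtain ⟨c1, c2⟩ := dW_fcd hw3 hv _ b1 b3
    have hv0 : v ≠ [] := by
      intro h0
      have := b3.len
      rw [h0, List.length_map, List.length_map] at this
      exact b1 (List.length_eq_zero_iff.1 this.symm)
    rcases hy with ⟨hy, -⟩ | ⟨-, hy⟩
    · exact absurd (a2.symm.trans hy) c2
    · rw [a2, c1] at hy
      constructor
      · intro h3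
        rw [hy, List.map_eq_nil_iff] at h3
        exact absurd h3 hv0
      · intro _
        rw [hy]
        rw [List.map_map] at b3
        exact lew_cov b3 fun x hx a ha => hv.leb _ x hx _ (hw3.ft _ x hx _ ha.dg).2.2
  · rcases hy with ⟨-, hy⟩ | ⟨hy, -⟩
    · exact ⟨fun _ => nfz_pls hv a2, fun h3 => absurd hy h3⟩
    · exact absurd a1 hy

/-- a neighbour, from a field, mirror image -/
theorem vf_nm (hw3 : Hw3 S cc f P ml T Tm) (hv : Hv cmpS cmp cmp' sol sol' S cc f P le)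
    {q y : Nat} (h : Vf P S cc e (fcm Tm) q y) (h0 : y ≠ 0) {w : List Nat}
    (hy : (y = plu ∧ w = []) ∨ (y ≠ plu ∧ w = dW y)) :
    (mirw ml w = [] → Pls sol (S.W (S.al (S.nx^[q] e)))) ∧
    (mirw ml w ≠ [] → lew le (mirw ml w) (S.W (S.al (S.nx^[q] e))) = true) := by
  rcases h with h | ⟨a1, a2⟩ | ⟨a1, a2⟩
  · exact absurd h h0
  · obtain ⟨b1, v, b3, b2⟩ := nfz_word hv a1
    rw [b2] at a2
    obtain ⟨c1, c2⟩ := dW_fcm hw3 hv _ b1 b3
    have hv0 : v ≠ [] := by
      intro h0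
      have := b3.len
      rw [h0, List.length_map, List.length_map] at this
      exact b1 (List.length_eq_zero_iff.1 this.symm)
    rcases hy with ⟨hy, -⟩ | ⟨-, hy⟩
    · exact absurd (a2.symm.trans hy) c2
    · rw [hy, a2, c1]
      constructor
      · intro h3
        rw [List.map_eq_nil_iff] at h3
        exact absurd h3 hv0
      · intro _
        rw [List.map_map] at b3
        exact lew_cov b3 fun x hx a ha => hv.leb _ x hx _ (hw3.fm _ x hx _ ha.dg).2.2
  · rcases hy with ⟨-, hy⟩ | ⟨hy, -⟩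
    · refine ⟨fun _ => nfz_pls hv a2, fun h3 => absurd ?_ h3⟩
      rw [hy]; rfl
    · exact absurd a1 hy

/-- the direct case -/
theorem fq_dir (hw : Hw S cc f P ml lv lm T Tm) (hw3 : Hw3 S cc f P ml T Tm)
    (hv : Hv cmpS cmp cmp' sol sol' S cc f P le) (he : S.W e ≠ [])
    {V : List Nat} (hV : Cov P V (S.W e)) {MV : Nat} (h1 : Vo P S cc T e MV) {D' x r : Nat}
    (a1 : Nat.beq (Nat.land (fml (dW (Nat.mod x (Nat.pow 64 D'))) 0)
      (Nat.shiftRight (av2 lv V) (Nat.mul 64 r))) (fml (dW (Nat.mod x (Nat.pow 64 D'))) 0) = true)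
    (a2 : (dW (Nat.mod x (Nat.pow 64 D'))).length = (S.W e).length)
    (a3 : Nat.shiftRight x (Nat.mul 6 D') = Nat.mod (Nat.shiftRight (Nat.lor MV
      (Nat.shiftLeft MV (Nat.mul 36 (S.W e).length))) (Nat.mul 36 r))
      (Nat.pow 2 (Nat.mul 36 (S.W e).length))) :
    Mtn le sol S (dX D' x) (S.nx^[r] e) := by
  have hS := hv.hS
  have h4 := hS.len e he
  have hlet := fun i (hi : i < (dW (Nat.mod x (Nat.pow 64 D'))).length) =>
    fml_av2 (lv := lv) (fun v g h => (hw.lv v g h).1) (V := V) (r := r) (dW_lt _) a1 hi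
  have hr : r ≤ (S.W e).length := by
    have := (hlet ((S.W e).length - 1) (by omega)).1
    rw [hV.1] at this
    omega
  refine ⟨lew_of ?_ fun i hi => ?_, fun p hp => ?_⟩
  · rw [hS.W_iter he, List.length_rotate]
    exact a2
  · have hi' : i < (S.W e).length := by rw [← a2]; exact hi
    rw [hS.W_iter he, rot_getD hi']
    have h5 := (hlet i hi).2
    rw [hV.1] at h5
    exact hv.lev _ _ (hw.lv _ _ h5).2 _ (hV.2 _ (Nat.mod_lt _ (by omega)))
  · have hp' : p ∈ dnb D' 0 (Nat.shiftRight x (Nat.mul 6 D')) := hp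
    obtain ⟨s, -, b1, b2, b3⟩ := mem_dnb _ _ _ p hp'
    rw [a3] at b2 b3
    have hs : s < (S.W e).length := by
      by_contra hc
      exact b2 (fld_high (by omega))
    rw [fld_turn h1.1 hr hs] at b2 b3
    rw [b1, Nat.zero_add, iter_mod hS he]
    exact vf_nb hw3 hv (h1.2 _ (Nat.mod_lt _ (by omega))) b2 b3

/-- the mirrored case -/
theorem fq_mir (hw : Hw S cc f P ml lv lm T Tm) (hw3 : Hw3 S cc f P ml T Tm)
    (hv : Hv cmpS cmp cmp' sol sol' S cc f P le) (he : S.W e ≠ [])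
    {V : List Nat} (hV : Cov P V (S.W e)) {MW : Nat} (h1 : Wo P S cc Tm e MW) {D' x r : Nat}
    (hr : r ≤ (S.W e).length)
    (a1 : Nat.beq (Nat.land (fml (dW (Nat.mod x (Nat.pow 64 D'))) 0)
      (Nat.shiftRight (av2 lm (rvl V)) (Nat.mul 64 r)))
        (fml (dW (Nat.mod x (Nat.pow 64 D'))) 0) = true)
    (a2 : (dW (Nat.mod x (Nat.pow 64 D'))).length = (S.W e).length)
    (a3 : Nat.shiftRight x (Nat.mul 6 D') = Nat.mod (Nat.shiftRight (Nat.lor MW
      (Nat.shiftLeft MW (Nat.mul 36 (S.W e).length))) (Nat.mul 36 r))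
      (Nat.pow 2 (Nat.mul 36 (S.W e).length))) :
    Mtn le sol S (mirX ml (dX D' x)) (S.nx^[(S.W e).length - r] e) := by
  have hS := hv.hS
  have h4 := hS.len e he
  rw [rvl_eq] at a1
  have hlet := fun i (hi : i < (dW (Nat.mod x (Nat.pow 64 D'))).length) =>
    fml_av2 (lv := lm) (fun v g h => (hw.lm v g h).1) (V := V.reverse) (r := r) (dW_lt _) a1 hi
  have hx1 : (dX D' x).1 = dW (Nat.mod x (Nat.pow 64 D')) := rfl
  have e1 : (mirX ml (dX D' x)).1 = ((dW (Nat.mod x (Nat.pow 64 D'))).map ml).reverse := rfl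
  refine ⟨lew_of ?_ fun i hi => ?_, fun p hp => ?_⟩
  · rw [hS.W_iter he, List.length_rotate, e1, List.length_reverse, List.length_map]
    exact a2
  · rw [e1, List.length_reverse, List.length_map] at hi
    have hi' : i < (S.W e).length := by rw [← a2]; exact hi
    rw [hS.W_iter he, rot_getD hi', e1, getD_rev (by rw [List.length_map]; exact hi),
      List.length_map]
    have hj : (dW (Nat.mod x (Nat.pow 64 D'))).length - 1 - i <
        (dW (Nat.mod x (Nat.pow 64 D'))).length := by omega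
    have h5 := (hlet _ hj).2
    rw [List.length_reverse, getD_rev (by rw [hV.1]; exact Nat.mod_lt _ (by omega)), hV.1, a2,
      ar3 h4.1 h4.2 hr hi'] at h5
    have h6 := hv.lev _ _ (hw.lm _ _ h5).2 _ (hV.2 _ (Nat.mod_lt _ (by omega)))
    rw [a2, getD_map0 (by omega)]
    exact h6
  · have hp1 : p ∈ (dnb D' 0 (Nat.shiftRight x (Nat.mul 6 D'))).map fun p =>
      (((dW (Nat.mod x (Nat.pow 64 D'))).length - p.1) % (dW (Nat.mod x (Nat.pow 64 D'))).length,
        mirw ml p.2) := hp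
    obtain ⟨p', hp', rfl⟩ := List.mem_map.1 hp1
    obtain ⟨s, -, b1, b2, b3⟩ := mem_dnb _ _ _ p' hp'
    rw [a3] at b2 b3
    have hs : s < (S.W e).length := by
      by_contra hc
      exact b2 (fld_high (by omega))
    rw [fld_turn h1.1 hr hs] at b2 b3
    dsimp only
    rw [b1, Nat.zero_add, a2, iter_mod hS he, ar1 h4.1 h4.2 hr hs]
    have h7 := h1.2 ((((S.W e).length - (r + s) % (S.W e).length)) % (S.W e).length)
      (Nat.mod_lt _ (by omega))
    rw [ar2 h4.1 h4.2] at h7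
    exact vf_nm hw3 hv h7 b2 b3

/-- a fact which is violated -/
theorem fq_sound (hw : Hw S cc f P ml lv lm T Tm) (hw3 : Hw3 S cc f P ml T Tm)
    (hv : Hv cmpS cmp cmp' sol sol' S cc f P le) (he : S.W e ≠ [])
    (hF : ∀ l, ∀ X ∈ dF (FN l), NoX le ml sol S X)
    {V : List Nat} (hV : Cov P V (S.W e)) {MV MW n : Nat} (h1 : Vo P S cc T e MV)
    (h2 : Wo P S cc Tm e MW)
    (h : fq FN (S.W e).length (av2 lv V) (av2 lm (rvl V)) MV MW n = true) : False := by
  have h4 := hv.hS.len e he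
  unfold fq at h
  rw [frc_eq] at h
  dsimp only at h
  rw [frc_eq] at h
  generalize hx : nX (FN (Nat.div n 512)) (Nat.mod (Nat.div n 16) 32) = x at h
  generalize hD : Nat.mod (FN (Nat.div n 512)) 16 = D' at h
  generalize Nat.mod n 8 = r at h
  have key : (dW (Nat.mod x (Nat.pow 64 D'))).length = (S.W e).length →
      NoX le ml sol S (dX D' x) := by
    intro h5
    have hx0 : x ≠ 0 := by
      intro h0
      rw [h0] at h5
      have h6 : Nat.mod 0 (Nat.pow 64 D') = 0 := Nat.zero_mod _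
      rw [h6] at h5
      have h7 : (dW 0).length = 0 := rfl
      omega
    have h6 := mem_dF (N := FN (Nat.div n 512)) (j := Nat.mod (Nat.div n 16) 32) (by
      rw [hx]; exact hx0) (Nat.mod_lt _ (by norm_num))
    rw [hx, hD] at h6
    exact hF _ _ h6
  cases hb : Nat.beq (Nat.mod (Nat.div n 8) 2) 0 with
  | false =>
    rw [hb] at h
    cases c1 : Nat.beq (Nat.land (fml (dW (Nat.mod x (Nat.pow 64 D'))) 0)
      (Nat.shiftRight (av2 lm (rvl V)) (Nat.mul 64 (Nat.sub (S.W e).length r))))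
        (fml (dW (Nat.mod x (Nat.pow 64 D'))) 0) with
    | false => rw [c1] at h; exact Bool.noConfusion h
    | true =>
      rw [c1] at h
      cases c2 : Nat.beq (lln (dW (Nat.mod x (Nat.pow 64 D')))) (S.W e).length with
      | false => rw [c2] at h; exact Bool.noConfusion h
      | true =>
        rw [c2] at h
        have c3 := Nat.eq_of_beq_eq_true (show Nat.beq _ _ = true from h)
        have c4 := Nat.eq_of_beq_eq_true c2
        rw [lln_eq] at c4
        exact (key c4).2 _ (fq_mir hw hw3 hv he hV h2 (Nat.sub_le _ _) c1 c4 c3)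
  | true =>
    rw [hb] at h
    cases c1 : Nat.beq (Nat.land (fml (dW (Nat.mod x (Nat.pow 64 D'))) 0)
      (Nat.shiftRight (av2 lv V) (Nat.mul 64 r))) (fml (dW (Nat.mod x (Nat.pow 64 D'))) 0) with
    | false => rw [c1] at h; exact Bool.noConfusion h
    | true =>
      rw [c1] at h
      cases c2 : Nat.beq (lln (dW (Nat.mod x (Nat.pow 64 D')))) (S.W e).length with
      | false => rw [c2] at h; exact Bool.noConfusion h
      | true =>
        rw [c2] at h
        have c3 := Nat.eq_of_beq_eq_true (show Nat.beq _ _ = true from h)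
        have c4 := Nat.eq_of_beq_eq_true c2
        rw [lln_eq] at c4
        exact (key c4).1 _ (fq_dir hw hw3 hv he hV h1 c1 c4 c3)

end sound

end

end Pool.FCP.Qz
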