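import Pool.Agent.FCV.Qc
import Pool.Agent.FCS.Wi

/-!
# Star check with covering candidates: the check of a tree
-/

set_option linter.unusedVariables false

namespace Pool.FCP.Qz

open Finset Pool.FCS

noncomputable section

section sound

variable {D : Type*} {cmp cmp' cmpS : Nat → Nat → Bool} {sol sol' lng : Nat → Bool}
  {S : Sys D} {cc f : Nat → Nat} {W : Pw} {le : Nat → Nat → Bool} {ml : Nat → Nat} {e : D}

/-- the position is correct for the neighbour `b` -/
def _root_.Pool.FCS.Pn.PosOk2z (P : Pn) (a b : Nat) : Prop :=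
  P.G2 a b ≤ (P.Q.pos (P.Q.ky a) 0).df ∨
    ∃ g, (g, rdl (P.Q.pos (P.Q.ky a) 0).cl (P.Q.nz b)) ∈ (P.Q.pos (P.Q.ky a) 0).cl ∧
      P.G2 a b ≤ g

/-- The hypotheses on the tables of the second version, for covering codes. -/
structure Hk3 (ml : Nat → Nat) (S : Sys D) (cc f : Nat → Nat) (W : Pw) : Prop where
  v3 : Hv3 S cc f W.P
  w3 : Hw3 S cc f W.P ml W.T W.Tm
  gF : ∀ r, S.W r ≠ [] → S.W (S.al r) ≠ [] → S.W (S.al (S.nx r)) ≠ [] → ∀ u v,
    Cvu u (nfc W.P.Q.bm W.P.Q.wm W.P.Q.sm ((S.mp cc).c (S.al r))) →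
    Cvu v (nfc W.P.Q.bm W.P.Q.wm W.P.Q.sm ((S.mp cc).c (S.al (S.nx r)))) →
    W.cF (wsl W.P.Q.wm ((S.mp cc).c r)) (cc ((S.W r).getD 0 0) + 1) u v = false
  gL : ∀ r, S.W r ≠ [] → S.W (S.al r) ≠ [] → S.W (S.al (S.nx r)) ≠ [] → ∀ u v,
    Cvu u (nfc W.P.Q.bm W.P.Q.wm W.P.Q.sm ((S.mp cc).c (S.al r))) →
    Cvu v (nfc W.P.Q.bm W.P.Q.wm W.P.Q.sm ((S.mp cc).c (S.al (S.nx r)))) →
    W.cL (wsl W.P.Q.wm ((S.mp cc).c r)) (cc ((S.W r).getD 0 0) + 1) u v = false

/-- a neighbour with a code has a word -/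
theorem nfz_nfc (hv : Hv cmpS cmp cmp' sol sol' S cc f W.P le) {i : Nat}
    (h : 1 < W.P.nfz (S.mp cc) e i) : S.W (S.al (S.nx^[i] e)) ≠ [] ∧
      Cvu (W.P.nfz (S.mp cc) e i) (nfc W.P.Q.bm W.P.Q.wm W.P.Q.sm
        ((S.mp cc).c (S.al (S.nx^[i] e)))) := by
  have n1 : (S.mp cc).W ((S.mp cc).al ((S.mp cc).nx^[i] e)) ≠ [] := by
    intro h0
    have : W.P.nfz (S.mp cc) e i = 1 := nfz_nil h0
    omega
  exact ⟨mp_ne.1 n1, nfz_cvu (P := W.P) hv.h2.hb hv.h2.ok n1⟩

/-- the code of a true bit -/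
theorem cd_kp (hv : Hv cmpS cmp cmp' sol sol' S cc f W.P le) {i : Nat}
    (h0 : W.P.kpz (S.mp cc) e i ≠ 0) :
    W.P.cd (W.ke ((S.mp cc).c e) i) (W.P.kpz (S.mp cc) e i) = W.P.nfz (S.mp cc) e i := by
  have h1 : W.P.cd (W.ke ((S.mp cc).c e) i) (W.P.kpz (S.mp cc) e i) =
      cda (W.P.Q.pos (W.ke ((S.mp cc).c e) i) 0).cl (W.P.kpz (S.mp cc) e i) := hv.h2.hcd _ _
  have h2 : (W.P.ps ((S.mp cc).c e) i).cl = (W.P.Q.pos (W.ke ((S.mp cc).c e) i) 0).cl :=
    Pm.pos_cl _ _ _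
  rw [h1, ← h2]
  exact cda_ix h0

/-- the true bit of a shifted mask -/
theorem tau_shl (hK : Kk W ((S.mp cc).c e) (S.W e).length) {j X n : Nat}
    (hj : j < (S.W e).length) (hX : ∀ b, Nat.testBit X b = true → 0 < b ∧ b ≤ n)
    (hn : n + 1 ≤ W.P.w)
    (h : Sat (W.P.taz (S.mp cc) e) (Nat.shiftLeft X (Nat.mul W.P.w j))) :
    W.P.kpz (S.mp cc) e j ≠ 0 ∧ Nat.testBit X (W.P.kpz (S.mp cc) e j) = true := by
  obtain ⟨t, t1, t2⟩ := h
  have t3 : Nat.testBit (X <<< (W.P.w * j)) t = true := t2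
  rw [Nat.testBit_shiftLeft, Bool.and_eq_true, decide_eq_true_eq] at t3
  obtain ⟨t4, t5⟩ := t3
  obtain ⟨h1, h2⟩ := hX _ t5
  have h3 := (tau_pos (kk_ckR' hK 0) t1 (i := j) t4 (by omega)).2
  have h4 : t - W.P.w * j = W.P.kpz (S.mp cc) e j := by omega
  rw [h4] at t5 h1
  exact ⟨by omega, t5⟩

/-- the conflicts of classes -/
theorem clm_ok (hv : Hv cmpS cmp cmp' sol sol' S cc f W.P le) (hk : Hk le ml sol S cc f W) (hk3 : Hk3 ml S cc f W)
    (he : S.W e ≠ []) (hK : Kk W ((S.mp cc).c e) (S.W e).length) {i : Nat}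
    (hi : i < (S.W e).length) : ¬ Sat (W.P.taz (S.mp cc) e) (W.clm ((S.mp cc).c e)
      (S.W e).length (wsl W.P.Q.wm ((S.mp cc).c e)) i (W.P.nfz (S.mp cc) e i)) := by
  unfold Pw.clm
  cases hu : Nat.ble (W.P.nfz (S.mp cc) e i) 1 with
  | true => exact not_sat_zero
  | false =>
    have hu1 : 1 < W.P.nfz (S.mp cc) e i := by
      by_contra hc
      have : Nat.ble (W.P.nfz (S.mp cc) e i) 1 = true := Nat.ble_eq_true_of_le (by omega)
      rw [this] at hu
      exact Bool.noConfusion hu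
    obtain ⟨m1, m2⟩ := nfz_nfc hv hu1
    intro hs
    have hnx : nxt (S.W e).length i < (S.W e).length := nxt_lt hi
    have hpv : prv (S.W e).length i < (S.W e).length := prv_lt hi
    rcases sat_lor hs with hs | hs
    · -- the next position
      have hp := kok_kp (hK _ hnx)
      have key : ∀ b, Nat.testBit (W.sN (wsl W.P.Q.wm ((S.mp cc).c e))
          (W.ke ((S.mp cc).c e) (nxt (S.W e).length i)) (dg (Nat.pow 32 i) ((S.mp cc).c e))
          (clL (W.P.nfz (S.mp cc) e i))) b = true → 0 < b ∧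
          b ≤ kn (W.kr ((S.mp cc).c e) (nxt (S.W e).length i)) ∧
          1 < W.P.cd (W.ke ((S.mp cc).c e) (nxt (S.W e).length i)) b ∧
          W.cF (wsl W.P.Q.wm ((S.mp cc).c e)) (dg (Nat.pow 32 i) ((S.mp cc).c e))
            (W.P.nfz (S.mp cc) e i) (W.P.cd (W.ke ((S.mp cc).c e) (nxt (S.W e).length i)) b) =
              true := by
        intro b hb
        have hb' : Nat.testBit (sel (kw (W.kr ((S.mp cc).c e) (nxt (S.W e).length i)))
          (Nat.mod (Nat.shiftRight (W.gF (wsl W.P.Q.wm ((S.mp cc).c e))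
            (dg (Nat.pow 32 i) ((S.mp cc).c e)))
            (Nat.mul 64 (clL (W.P.nfz (S.mp cc) e i)))) 1152921504606846976)
          (kCF (W.kr ((S.mp cc).c e) (nxt (S.W e).length i)))) b = true := hb
        rw [hp.cF] at hb'
        obtain ⟨c1, c2, c3, c4⟩ := sel_mkC hp.w1 hp.w2 hb'
        exact ⟨c1, c2, c3, c4⟩
      obtain ⟨h1, h2⟩ := tau_shl hK hnx (fun b hb => ⟨(key b hb).1, (key b hb).2.1⟩) hp.w3 hs
      obtain ⟨-, -, k3, k4⟩ := key _ h2
      rw [cd_kp hv h1] at k3 k4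
      obtain ⟨n1, n2⟩ := nfz_nfc hv k3
      rw [nx_nxt hv.hS he i] at n1 n2
      rw [dg_cc hv he hi] at k4
      have g := hk3.gF (S.nx^[i] e) (hv.hS.ne_iter he i) m1 n1 _ _ m2 n2
      have g1 : wsl W.P.Q.wm ((S.mp cc).c e) = wsl W.P.Q.wm ((S.mp cc).c (S.nx^[i] e)) :=
        (wsl_iter hv.h2.ok (mp_ne.2 he) i).symm
      rw [g1] at k4
      exact Bool.noConfusion (g.symm.trans k4)
    · -- the previous position
      have hp := kok_kp (hK _ hpv)
      have key : ∀ b, Nat.testBit (W.sP (wsl W.P.Q.wm ((S.mp cc).c e))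
          (W.ke ((S.mp cc).c e) (prv (S.W e).length i))
          (dg (Nat.pow 32 (prv (S.W e).length i)) ((S.mp cc).c e))
          (clF (W.P.nfz (S.mp cc) e i))) b = true → 0 < b ∧
          b ≤ kn (W.kr ((S.mp cc).c e) (prv (S.W e).length i)) ∧
          1 < W.P.cd (W.ke ((S.mp cc).c e) (prv (S.W e).length i)) b ∧
          W.cL (wsl W.P.Q.wm ((S.mp cc).c e))
            (dg (Nat.pow 32 (prv (S.W e).length i)) ((S.mp cc).c e))
            (W.P.cd (W.ke ((S.mp cc).c e) (prv (S.W e).length i)) b)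
            (W.P.nfz (S.mp cc) e i) = true := by
        intro b hb
        have hb' : Nat.testBit (sel (kw (W.kr ((S.mp cc).c e) (prv (S.W e).length i)))
          (Nat.mod (Nat.shiftRight (W.gL (wsl W.P.Q.wm ((S.mp cc).c e))
            (dg (Nat.pow 32 (prv (S.W e).length i)) ((S.mp cc).c e)))
            (Nat.mul 64 (clF (W.P.nfz (S.mp cc) e i)))) 1152921504606846976)
          (kCL (W.kr ((S.mp cc).c e) (prv (S.W e).length i)))) b = true := hb
        rw [hp.cL] at hb'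
        obtain ⟨c1, c2, c3, c4⟩ := sel_mkC hp.w1 hp.w2 hb'
        exact ⟨c1, c2, c3, c4⟩
      obtain ⟨h1, h2⟩ := tau_shl hK hpv (fun b hb => ⟨(key b hb).1, (key b hb).2.1⟩) hp.w3 hs
      obtain ⟨-, -, k3, k4⟩ := key _ h2
      rw [cd_kp hv h1] at k3 k4
      obtain ⟨n1, n2⟩ := nfz_nfc hv k3
      have e1 : S.nx^[i] e = S.nx (S.nx^[prv (S.W e).length i] e) := by
        rw [← nx_nxt hv.hS he, nxt_prv hi]
      rw [e1] at m1 m2
      rw [dg_cc hv he hpv] at k4
      have g := hk3.gL (S.nx^[prv (S.W e).length i] e) (hv.hS.ne_iter he _) n1 m1 _ _ n2 m2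
      have g1 : wsl W.P.Q.wm ((S.mp cc).c e) =
          wsl W.P.Q.wm ((S.mp cc).c (S.nx^[prv (S.W e).length i] e)) :=
        (wsl_iter hv.h2.ok (mp_ne.2 he) _).symm
      rw [g1] at k4
      exact Bool.noConfusion (g.symm.trans k4)

/-- the mask of the neighbours which are null or not solid of length 4 -/
theorem plm_tau (hK : Kk W ((S.mp cc).c e) (S.W e).length) {m : Nat}
    (h : Sat (W.P.taz (S.mp cc) e) (W.P.plm ((S.mp cc).c e) m)) :
    m < (S.W e).length ∧ W.P.nfz (S.mp cc) e m < 4294967296 := by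
  have hc := kk_ckR' hK 0
  obtain ⟨s, s1, s2⟩ := h
  unfold Pn.plm at s2
  rw [len_eq] at s2
  obtain ⟨n, n1, n2, n3, n4⟩ := plm_aux _ s s2
  obtain ⟨i, i1, i2⟩ := s1
  have hk := kp_lt hc i1
  have n2' : s = W.P.w * m + ((W.P.ps ((S.mp cc).c e) m).cl.length - n) := n2
  have hi : i = m := by
    by_contra hne
    rw [i2] at n2'
    rcases Nat.lt_or_gt_of_ne hne with hlt | hgt
    · obtain ⟨z, hz⟩ : ∃ z, m = i + 1 + z := ⟨m - i - 1, by omega⟩
      have e5 : W.P.w * m = W.P.w * i + W.P.w + W.P.w * z := by rw [hz]; ring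
      omega
    · have hlt : m < ((S.mp cc).W e).length := by omega
      have hk2 := (kp_lt hc hlt).1
      obtain ⟨z, hz⟩ : ∃ z, i = m + 1 + z := ⟨i - m - 1, by omega⟩
      have e5 : W.P.w * i = W.P.w * m + W.P.w + W.P.w * z := by rw [hz]; ring
      omega
  subst hi
  have h5 : W.P.kpz (S.mp cc) e i = (W.P.ps ((S.mp cc).c e) i).cl.length - n := by omega
  have h6 : W.P.nfz (S.mp cc) e i = ((W.P.ps ((S.mp cc).c e) i).cl.getD n (0, 0)).2 := by
    rw [← cda_getD _ n n1, ← h5]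
    exact (cda_ix (by
      have : W.P.kpz (S.mp cc) e i ≠ 0 := by omega
      exact this)).symm
  rw [mlen] at i1
  refine ⟨i1, ?_⟩
  rw [h6]
  by_contra hc2
  have : Nat.ble 4294967296 ((W.P.ps ((S.mp cc).c e) i).cl.getD n (0, 0)).2 = true :=
    Nat.ble_eq_true_of_le (by omega)
  rw [this] at n3
  exact Bool.noConfusion n3

/-- the field of a code -/
theorem yv_vf {F : Nat → Nat} {p v : Nat}
    (h : v = 0 ∨ v = W.P.nfz (S.mp cc) e p) : Vf W.P S cc e F p (yv F v) := by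
  unfold yv
  cases hb : Nat.ble v 1 with
  | true => exact Or.inl rfl
  | false =>
    have hv1 : 1 < v := by
      by_contra hc
      have : Nat.ble v 1 = true := Nat.ble_eq_true_of_le (by omega)
      rw [this] at hb
      exact Bool.noConfusion hb
    rcases h with h | h
    · omega
    · refine Or.inr (Or.inl ⟨by rw [← h]; exact hv1, ?_⟩)
      show F (lo v) = _
      rw [h]

/-- a member whose mask has a true bit gives correct fields -/
theorem mv_vo (hv : Hv cmpS cmp cmp' sol sol' S cc f W.P le) (hk : Hk le ml sol S cc f W) (hk3 : Hk3 ml S cc f W)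
    (hK : Kk W ((S.mp cc).c e) (S.W e).length) {t : Nat}
    (ht : Sat (W.P.taz (S.mp cc) e) (W.mk1 ((S.mp cc).c e) t)) :
    Vo W.P S cc W.T e (W.mv ((S.mp cc).c e) t) ∧
      Wo W.P S cc W.Tm e (W.mw ((S.mp cc).c e) (S.W e).length t) := by
  unfold Pw.mk1 at ht
  unfold Pw.mv Pw.mw
  cases hb : Nat.ble 2048 t with
  | false =>
    rw [hb] at ht
    have ht' : Sat (W.P.taz (S.mp cc) e) (Nat.shiftLeft 1 t) := ht
    rw [shl_one] at ht'
    obtain ⟨s, s1, s2⟩ := ht'
    rw [Nat.testBit_two_pow, decide_eq_true_eq] at s2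
    subst s2
    have hc := kk_ckR' hK 0
    have h1 := (tau_div hc s1).1
    rw [mlen] at h1
    have h2 := cdt_tau hv.h2 hc s1
    exact ⟨Vo.one hk.hw hv h1 (yv_vf h2), Wo.one hk.hw hv h1 (yv_vf h2)⟩
  | true =>
    rw [hb] at ht
    have ht' : Sat (W.P.taz (S.mp cc) e) (sl6 (W.P.plm ((S.mp cc).c e)) (Nat.sub t 2048)) := ht
    rw [sl6_eq] at ht'
    obtain ⟨h1, h2⟩ := plm_tau hK ht'
    exact ⟨Vo.one hk.hw hv h1 (Or.inr (Or.inr ⟨rfl, h2⟩)),
      Wo.one hk.hw hv h1 (Or.inr (Or.inr ⟨rfl, h2⟩))⟩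

/-- a fact excludes a member if the other members occur (`A`, `B` their fields) -/
theorem fqz_ok (hv : Hv cmpS cmp cmp' sol sol' S cc f W.P le) (hk : Hk le ml sol S cc f W) (hk3 : Hk3 ml S cc f W)
    (he : S.W e ≠ []) (hK : Kk W ((S.mp cc).c e) (S.W e).length) {V : List Nat}
    (hV : Cov W.P V (S.W e)) {A B z : Nat} (hA : Vo W.P S cc W.T e A)
    (hB : Wo W.P S cc W.Tm e B)
    (h : W.fqz ((S.mp cc).c e) (S.W e).length (av2 W.lv V) (av2 W.lm (rvl V)) A B z = true) :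
    ¬ Sat (W.P.taz (S.mp cc) e) (W.mk1 ((S.mp cc).c e) (Nat.mod z 4096)) := by
  intro hs
  obtain ⟨h1, h2⟩ := mv_vo hv hk hk3 hK hs
  exact fq_sound hk.hw hk3.w3 hv he hk.fn hV (hA.lor h1) (hB.lor h2) h

/-- a list of members with facts -/
theorem mkz_ok (hv : Hv cmpS cmp cmp' sol sol' S cc f W.P le) (hk : Hk le ml sol S cc f W) (hk3 : Hk3 ml S cc f W)
    (he : S.W e ≠ []) (hK : Kk W ((S.mp cc).c e) (S.W e).length) {V : List Nat}
    (hV : Cov W.P V (S.W e)) {A B : Nat} (hA : Vo W.P S cc W.T e A)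
    (hB : Wo W.P S cc W.Tm e B) : ∀ {zs : List Nat},
    ala (W.fqz ((S.mp cc).c e) (S.W e).length (av2 W.lv V) (av2 W.lm (rvl V)) A B) zs =
      true → ¬ Sat (W.P.taz (S.mp cc) e) (W.mkz ((S.mp cc).c e) zs)
  | [], _ => not_sat_zero
  | z :: zs, h => by
    rw [ala_iff] at h
    have ih := mkz_ok hv hk hk3 he hK hV hA hB (zs := zs)
      (ala_iff.2 fun y hy => h y (List.mem_cons_of_mem _ hy))
    have e : W.mkz ((S.mp cc).c e) (z :: zs) =
      Nat.lor (W.mk1 ((S.mp cc).c e) (Nat.mod z 4096)) (W.mkz ((S.mp cc).c e) zs) := rfl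
    rw [e]
    intro hs
    rcases sat_lor hs with hs | hs
    · exact fqz_ok hv hk hk3 he hK hV hA hB (h z (List.mem_cons_self ..)) hs
    · exact ih hs

/-- the fields of members -/
theorem mvs_vo (hv : Hv cmpS cmp cmp' sol sol' S cc f W.P le) (hk : Hk le ml sol S cc f W) (hk3 : Hk3 ml S cc f W)
    (hK : Kk W ((S.mp cc).c e) (S.W e).length) {A B : Nat} (hA : Vo W.P S cc W.T e A)
    (hB : Wo W.P S cc W.Tm e B) : ∀ {ts : List Nat},
    (∀ C ∈ W.mkl ((S.mp cc).c e) ts, Sat (W.P.taz (S.mp cc) e) C) →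
    Vo W.P S cc W.T e (W.mvs ((S.mp cc).c e) ts A) ∧
      Wo W.P S cc W.Tm e (W.mws ((S.mp cc).c e) (S.W e).length ts B)
  | [], _ => ⟨hA, hB⟩
  | t :: ts, h => by
    have e0 : W.mkl ((S.mp cc).c e) (t :: ts) =
      W.mk1 ((S.mp cc).c e) t :: W.mkl ((S.mp cc).c e) ts := rfl
    rw [e0] at h
    obtain ⟨h1, h2⟩ := mvs_vo hv hk hk3 hK hA hB (ts := ts)
      (fun C hC => h C (List.mem_cons_of_mem _ hC))
    obtain ⟨h3, h4⟩ := mv_vo hv hk hk3 hK (h _ (List.mem_cons_self ..))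
    exact ⟨h3.lor h1, h4.lor h2⟩

/-- the groups of a row -/
theorem ckg_ok (hv : Hv cmpS cmp cmp' sol sol' S cc f W.P le) (hk : Hk le ml sol S cc f W) (hk3 : Hk3 ml S cc f W)
    (he : S.W e ≠ []) (hK : Kk W ((S.mp cc).c e) (S.W e).length) {V : List Nat}
    (hV : Cov W.P V (S.W e)) {A B i : Nat} (hi : i < (S.W e).length)
    (hA : Vo W.P S cc W.T e A) (hB : Wo W.P S cc W.Tm e B) : ∀ {G : List Gr},
    W.ckg ((S.mp cc).c e) (S.W e).length (av2 W.lv V) (av2 W.lm (rvl V)) i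
      (W.P.nfz (S.mp cc) e i) A B G = true →
    ∀ g ∈ W.grm ((S.mp cc).c e) G, (∀ C ∈ g.1, Sat (W.P.taz (S.mp cc) e) C) →
      ¬ Sat (W.P.taz (S.mp cc) e) g.2
  | [], _, g, hg => by
    have h' : g ∈ ([] : List (List Nat × Nat)) := hg
    simp at h'
  | q :: G, h, g, hg => by
    have e0 : W.grm ((S.mp cc).c e) (q :: G) = (W.mkl ((S.mp cc).c e) q.2.1,
      W.mkz ((S.mp cc).c e) q.2.2) :: W.grm ((S.mp cc).c e) G := rfl
    have e1 : W.ckg ((S.mp cc).c e) (S.W e).length (av2 W.lv V) (av2 W.lm (rvl V)) i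
      (W.P.nfz (S.mp cc) e i) A B (q :: G) = Bool.rec (motive := fun _ => Bool) false
      (W.ckg ((S.mp cc).c e) (S.W e).length (av2 W.lv V) (av2 W.lm (rvl V)) i
        (W.P.nfz (S.mp cc) e i) A B G)
      (Bool.rec (motive := fun _ => Bool)
        (Bool.rec (motive := fun _ => Bool) false
          (ala (W.fqz ((S.mp cc).c e) (S.W e).length (av2 W.lv V) (av2 W.lm (rvl V))
            (W.mvs ((S.mp cc).c e) q.2.1 (Nat.shiftLeft plu (Nat.mul 36 i)))
            (W.mws ((S.mp cc).c e) (S.W e).length q.2.1 (Nat.shiftLeft plu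
              (Nat.mul 36 (Nat.mod (Nat.sub (S.W e).length i) (S.W e).length))))) q.2.2)
          (Bool.rec (motive := fun _ => Bool) (Nat.ble (W.P.nfz (S.mp cc) e i) 4294967295) false
            (Nat.beq (W.P.nfz (S.mp cc) e i) 0)))
        (ala (W.fqz ((S.mp cc).c e) (S.W e).length (av2 W.lv V) (av2 W.lm (rvl V))
          (W.mvs ((S.mp cc).c e) q.2.1 A) (W.mws ((S.mp cc).c e) (S.W e).length q.2.1 B)) q.2.2)
        (Nat.beq q.1 0)) := rfl
    rw [e1, brec_and] at h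
    rw [e0] at hg
    rcases List.mem_cons.1 hg with rfl | hg
    · intro hm
      obtain ⟨h1, -⟩ := h
      cases hb : Nat.beq q.1 0 with
      | true =>
        rw [hb] at h1
        obtain ⟨m1, m2⟩ := mvs_vo hv hk hk3 hK hA hB hm
        exact mkz_ok hv hk hk3 he hK hV m1 m2 h1
      | false =>
        rw [hb] at h1
        have h2 := brec_and.1 h1
        obtain ⟨h3, h4⟩ := h2
        have h5 : W.P.nfz (S.mp cc) e i < 4294967296 := by
          cases hz : Nat.beq (W.P.nfz (S.mp cc) e i) 0 with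
          | true =>
            rw [Nat.eq_of_beq_eq_true hz]
            norm_num
          | false =>
            rw [hz] at h3
            have := Nat.le_of_ble_eq_true (show Nat.ble _ _ = true from h3)
            omega
        have hA' : Vo W.P S cc W.T e (Nat.shiftLeft plu (Nat.mul 36 i)) :=
          Vo.one hk.hw hv hi (Or.inr (Or.inr ⟨rfl, h5⟩))
        have hB' : Wo W.P S cc W.Tm e (Nat.shiftLeft plu (Nat.mul 36 (Nat.mod
            (Nat.sub (S.W e).length i) (S.W e).length))) :=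
          Wo.one hk.hw hv hi (Or.inr (Or.inr ⟨rfl, h5⟩))
        obtain ⟨m1, m2⟩ := mvs_vo hv hk hk3 hK hA' hB' hm
        exact mkz_ok hv hk hk3 he hK hV m1 m2 h4
    · exact ckg_ok hv hk hk3 he hK hV hi hA hB h.2 g hg

/-- the exclusions of the row of the neighbour -/
theorem ckr_ok (hv : Hv cmpS cmp cmp' sol sol' S cc f W.P le) (hk : Hk le ml sol S cc f W) (hk3 : Hk3 ml S cc f W)
    (he : S.W e ≠ []) (hN : Nr sol (S.mp cc) e)
    (hK : Kk W ((S.mp cc).c e) (S.W e).length) {V : List Nat}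
    (hV : Cov W.P V (S.W e)) {i r : Nat} (hi : i < (S.W e).length)
    (h0 : W.P.kpz (S.mp cc) e i ≠ 0)
    (h : W.ckr ((S.mp cc).c e) (S.W e).length (wsl W.P.Q.wm ((S.mp cc).c e)) (av2 W.lv V)
      (av2 W.lm (rvl V)) i (W.P.kpz (S.mp cc) e i) r = true) {Z : Nat}
    (hZ : ∀ t, Nat.testBit Z t = true → W.P.taz (S.mp cc) e t) :
    ¬ Sat (W.P.taz (S.mp cc) e) (Nat.lor (W.stt ((S.mp cc).c e) (S.W e).length
      (wsl W.P.Q.wm ((S.mp cc).c e)) i (W.P.kpz (S.mp cc) e i) r)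
      (dyn Z (W.grm ((S.mp cc).c e) (rgs r)))) := by
  unfold Pw.ckr at h
  dsimp only at h
  rw [cd_kp hv h0] at h
  simp only [brec_and] at h
  obtain ⟨h1, h2, h3⟩ := h
  have hA : Vo W.P S cc W.T e (Nat.shiftLeft (yv (fcd W.T) (W.P.nfz (S.mp cc) e i))
      (Nat.mul 36 i)) := Vo.one hk.hw hv hi (yv_vf (Or.inr rfl))
  have hB : Wo W.P S cc W.Tm e (Nat.shiftLeft (yv (fcm W.Tm) (W.P.nfz (S.mp cc) e i))
      (Nat.mul 36 (Nat.mod (Nat.sub (S.W e).length i) (S.W e).length))) :=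
    Wo.one hk.hw hv hi (yv_vf (Or.inr rfl))
  intro hs
  rcases sat_lor hs with hs | hs
  · unfold Pw.stt at hs
    rw [cd_kp hv h0] at hs
    rcases sat_lor hs with hs | hs
    · exact clm_ok hv hk hk3 he hK hi hs
    · rcases sat_lor hs with ⟨t, t1, t2⟩ | hs
      · rw [msk_bit] at t2
        have h4 := (ala_iff.1 h1) t t2
        rw [frc_eq] at h4
        have h5 := xtq_xt hk.mo h4
        rw [← mlen (S := S) (cc := cc)] at h5 hi
        exact xt_tau hv.h2 hk3.v3.c3 (mp_ne.2 he) hN (kk_ckR' hK 0) hi h5 t1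
      · exact mkz_ok hv hk hk3 he hK hV hA hB h2 hs
  · exact dyn_ok hZ (ckg_ok hv hk hk3 he hK hV hi hA hB h3) hs

/-- the positions are correct -/
theorem pq_ok (hv : Hv cmpS cmp cmp' sol sol' S cc f W.P le) (hk : Hk le ml sol S cc f W) (hk3 : Hk3 ml S cc f W)
    (he : S.W e ≠ []) (hN : Nr sol (S.mp cc) e)
    (hpos : ∀ e, (S.mp cc).W e ≠ [] → W.P.PosOk2z ((S.mp cc).c e) ((S.mp cc).c ((S.mp cc).al e)))
    (hK : Kk W ((S.mp cc).c e) (S.W e).length) {V : List Nat}
    (hV : Cov W.P V (S.W e)) {i N : Nat} (hi : i < (S.W e).length)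
    (h : W.cks ((S.mp cc).c e) (S.W e).length (wsl W.P.Q.wm ((S.mp cc).c e)) (av2 W.lv V)
      (av2 W.lm (rvl V)) i (kn (W.kr ((S.mp cc).c e) i)) N = true) :
    POk3 (W.P.taz (S.mp cc) e) (W.P.kpz (S.mp cc) e i)
      (W.P.G2 ((S.mp cc).c ((S.mp cc).nx^[i] e)) ((S.mp cc).nb e i))
      (W.pq ((S.mp cc).c e) (S.W e).length (wsl W.P.Q.wm ((S.mp cc).c e)) i N) := by
  have hp := kok_kp (hK i hi)
  have q1 : (W.P.ps ((S.mp cc).c e) i).cl = (W.P.Q.pos (W.ke ((S.mp cc).c e) i) 0).cl :=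
    Pm.pos_cl _ _ _
  have q2 : (W.P.ps ((S.mp cc).c e) i).df = (W.P.Q.pos (W.ke ((S.mp cc).c e) i) 0).df :=
    Pm.pos_df _ _ _
  have c1 : pok (W.P.ps ((S.mp cc).c e) i).cl (W.P.ps ((S.mp cc).c e) i).df = true := by
    rw [q1, q2]; exact hp.pok
  have hn : (W.P.ps ((S.mp cc).c e) i).cl.length = kn (W.kr ((S.mp cc).c e) i) := by
    rw [q1]; exact hp.n
  have hs := pok_srt c1
  have hkl : W.P.kpz (S.mp cc) e i ≤ kn (W.kr ((S.mp cc).c e) i) := by
    rw [← hn]; exact ix_le _ _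
  have he' : (S.mp cc).W e ≠ [] := mp_ne.2 he
  -- the gain
  have hG : W.P.G2 ((S.mp cc).c ((S.mp cc).nx^[i] e)) ((S.mp cc).nb e i) ≤
      gi (W.P.ps ((S.mp cc).c e) i).df (W.P.ps ((S.mp cc).c e) i).cl (W.P.kpz (S.mp cc) e i) := by
    have h1 := hpos _ (hv.h2.ok.ne_iter he' i)
    unfold Pn.PosOk2z at h1
    have h2 : (S.mp cc).c ((S.mp cc).nx^[i] e) = rot ((S.mp cc).c e) i :=
      (rot_c hv.h2.ok he' i).symm
    have h3 : (W.P.ps ((S.mp cc).c e) i).df =
        (W.P.Q.pos (W.P.Q.ky ((S.mp cc).c ((S.mp cc).nx^[i] e))) 0).df := by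
      rw [h2]; exact Pm.pos_df _ _ _
    have h4 : (W.P.ps ((S.mp cc).c e) i).cl =
        (W.P.Q.pos (W.P.Q.ky ((S.mp cc).c ((S.mp cc).nx^[i] e))) 0).cl := by
      rw [h2]; exact Pm.pos_cl _ _ _
    rw [← h3, ← h4] at h1
    rcases h1 with h1 | ⟨g, h1, h5⟩
    · exact le_trans h1 (df_le_gi hs _)
    · exact le_trans h5 (le_gi hs h1)
  have ef : (W.pq ((S.mp cc).c e) (S.W e).length (wsl W.P.Q.wm ((S.mp cc).c e)) i N).f =
      2 ^ (kn (W.kr ((S.mp cc).c e) i) + 1) - 1 := rfl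
  have eg : (W.pq ((S.mp cc).c e) (S.W e).length (wsl W.P.Q.wm ((S.mp cc).c e)) i N).gp =
      pk (W.P.ps ((S.mp cc).c e) i).cl (W.P.ps ((S.mp cc).c e) i).df := by
    rw [q1, q2]; exact hp.g
  have eR : ∀ κ Z, (W.pq ((S.mp cc).c e) (S.W e).length (wsl W.P.Q.wm ((S.mp cc).c e)) i N).R κ Z =
      Nat.lor (W.stt ((S.mp cc).c e) (S.W e).length (wsl W.P.Q.wm ((S.mp cc).c e)) i κ
        (rwx (kn (W.kr ((S.mp cc).c e) i)) κ N))
      (dyn Z (W.grm ((S.mp cc).c e) (rgs (rwx (kn (W.kr ((S.mp cc).c e) i)) κ N)))) :=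
    fun _ _ => congrArg (Nat.lor _) (FCS.Dv.dyp_pkg _ _ _)
  unfold POk3
  rw [ef, eg]
  refine ⟨?_, fun j hj hf => ?_, fun h0 Z hZ => ?_⟩
  · rw [Nat.testBit_two_pow_sub_one, decide_eq_true_eq]
    omega
  · rw [Nat.testBit_two_pow_sub_one, decide_eq_true_eq] at hf
    rw [gn_pk c1 (by omega)]
    exact le_trans hG (gi_mono hs hj (by omega))
  · rw [eR]
    exact ckr_ok hv hk hk3 he hN hK hV hi h0 (cks_row h hkl) hZ

/-- the sum of the gains is bounded by the search (analogue of `gsum_ok`) -/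
theorem gsum2_ok (hv : Hv cmpS cmp cmp' sol sol' S cc f W.P le) (hk : Hk le ml sol S cc f W) (hk3 : Hk3 ml S cc f W)
    (he : S.W e ≠ []) (hN : Nr sol (S.mp cc) e)
    (hpos : ∀ e, (S.mp cc).W e ≠ [] → W.P.PosOk2z ((S.mp cc).c e) ((S.mp cc).c ((S.mp cc).al e)))
    (hK : Kk W ((S.mp cc).c e) (S.W e).length) {V : List Nat}
    (hV : Cov W.P V (S.W e)) {NL ord : List Nat}
    (h : alln (S.W e).length (fun i => W.cks ((S.mp cc).c e) (S.W e).length
      (wsl W.P.Q.wm ((S.mp cc).c e)) (av2 W.lv V) (av2 W.lm (rvl V)) i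
      (kn (W.kr ((S.mp cc).c e) i)) (nth NL i)) = true)
    (ho : okOrd (S.W e).length ord = true) {M th : Nat}
    (hM : ∀ i < (S.W e).length,
      Nat.testBit M (W.P.w * i + W.P.kpz (S.mp cc) e i) = true)
    (hg : gon th (W.pqs ((S.mp cc).c e) (S.W e).length (wsl W.P.Q.wm ((S.mp cc).c e)) NL ord)
      M 0 0 = true) :
    ∑ i ∈ range (S.W e).length, W.P.G2 ((S.mp cc).c ((S.mp cc).nx^[i] e)) ((S.mp cc).nb e i) ≤
      th := by
  have h4 := (hv.hS.len e he).1
  have hperm := okOrd_perm ho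
  rw [alln_iff] at h
  -- `w` is positive
  have hw : 0 < W.P.w := by
    have := (kok_kp (hK 0 (by omega))).w3
    omega
  set κ : Nat → Nat := fun a => W.P.kpz (S.mp cc) e (a / W.P.w) with hκ
  set G : Nat → Nat := fun a => W.P.G2 ((S.mp cc).c ((S.mp cc).nx^[a / W.P.w] e))
    ((S.mp cc).nb e (a / W.P.w)) with hG
  have hdiv : ∀ i, W.P.w * i / W.P.w = i := fun i => Nat.mul_div_cancel_left i hw
  have hord : ∀ i ∈ ord, i < (S.W e).length := fun i hi =>
    List.mem_range.1 (hperm.mem_iff.1 hi)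
  have hgo := gon_sound (τ := W.P.taz (S.mp cc) e) (κ := κ) (G := G) th
    (W.pqs ((S.mp cc).c e) (S.W e).length (wsl W.P.Q.wm ((S.mp cc).c e)) NL ord) (by
      intro p hp
      obtain ⟨i, i1, rfl⟩ := pqs_mem hp
      have e1 : (W.pq ((S.mp cc).c e) (S.W e).length (wsl W.P.Q.wm ((S.mp cc).c e)) i
        (nth NL i)).a / W.P.w = i := hdiv i
      simp only [hκ, hG]
      rw [e1]
      exact pq_ok hv hk hk3 he hN hpos hK hV (hord i i1) (h i (hord i i1))) (by
      intro p hp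
      obtain ⟨i, i1, rfl⟩ := pqs_mem hp
      have e1 : (W.pq ((S.mp cc).c e) (S.W e).length (wsl W.P.Q.wm ((S.mp cc).c e)) i
        (nth NL i)).a / W.P.w = i := hdiv i
      simp only [hκ]
      rw [e1]
      exact ⟨i, by rw [mlen]; exact hord i i1, rfl⟩) M 0 0 (by
      intro p hp
      obtain ⟨i, i1, rfl⟩ := pqs_mem hp
      have e1 : (W.pq ((S.mp cc).c e) (S.W e).length (wsl W.P.Q.wm ((S.mp cc).c e)) i
        (nth NL i)).a / W.P.w = i := hdiv i
      simp only [hκ]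
      rw [e1]
      exact hM i (hord i i1)) (fun t ht => by
        rw [Nat.zero_testBit] at ht; exact Bool.noConfusion ht) hg
  rw [Nat.zero_add, pqs_sum G] at hgo
  have e5 : (ord.map fun i => G (W.P.w * i)).sum = (ord.map fun i =>
      W.P.G2 ((S.mp cc).c ((S.mp cc).nx^[i] e)) ((S.mp cc).nb e i)).sum := by
    congr 1
    refine List.map_congr_left fun i _ => ?_
    simp only [hG]
    rw [hdiv]
  rw [e5, (hperm.map _).sum_eq, sum_range_list] at hgo
  exact hgo

/-- The cases of a leaf. -/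
theorem lfn2_sound {Y : Sys D} {P : Pn} (hy : Hc2 cmp cmp' sol sol' Y f P)
    (hN : Nr sol Y e) {k d : Nat} (hd : (Y.W e).length = d)
    (hc : P.ckR k (Y.c e) (Y.W e).length [] = true)
    {g : Nat → Nat → Bool} {ns : List Nat}
    (hgs : ∀ th M, (∀ i < d, Nat.testBit M (P.w * i + P.kpz Y e i) = true) →
      g th M = true →
      ∑ i ∈ range (Y.W e).length, P.G2 (Y.c (Y.nx^[i] e)) (Y.nb e i) ≤ th) {M : Nat}
    (hM : ∀ i < d, Nat.testBit M (P.w * i + P.kpz Y e i) = true)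
    (h1 : g (P.Q.thr (Y.c e)) (rmv M (P.x0 (Y.c e) ns)) = true)
    (hns : ∀ i ∈ ns, i < d ∧ g (P.Q.thr (Y.c e) + P.dl)
      (rmv M (Nat.lor (P.nlo (Y.c e) i) (P.x1 (Y.c e) i d))) = true)
    (h3 : alln d (fun i => bif (bif tb P.Q.sm (dg (Nat.pow 32 i) (Y.c e)) then
          (bif mem i ns then true else mem (nxt d i) ns) else false) then
        g (P.Q.thr (Y.c e)) (rmv M (Nat.lor (P.nlo (Y.c e) i)
          (sl6 (P.nlo (Y.c e)) (nxt d i))))
      else true) = true) : Sok P Y e := by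
  subst hd
  have hY := hy.ok
  have hnf : ∀ i, P.nfz Y e i = 1 ↔ Y.W (Y.al (Y.nx^[i] e)) = [] := fun i => nfz_one hy.hb hY
  -- removing bits
  have hrm : ∀ X, ¬ Sat (P.taz Y e) X → ∀ i < (Y.W e).length,
      Nat.testBit (rmv M X) (P.w * i + P.kpz Y e i) = true := fun X hX i hi =>
    clear_ok (τ := P.taz Y e) ⟨i, hi, rfl⟩ (hM i hi) hX
  by_cases hz : ∀ i ∈ ns, P.nfz Y e i ≠ 1
  · left
    exact hgs _ _ (hrm _ (x0_ok hc (fun i hi => (hns i hi).1) hz)) h1
  · push Not at hz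
    obtain ⟨i, hi, hi1⟩ := hz
    have hid := (hns i hi).1
    by_cases h4 : ∀ j < (Y.W e).length, j ≠ i → P.nfz Y e j ≠ 1
    · right
      refine ⟨?_, hgs _ _ (hrm _ ?_) (hns i hi).2⟩
      · unfold nnl
        rw [card_eq_one]
        refine ⟨i, ?_⟩
        ext j
        rw [mem_filter, mem_range, mem_singleton]
        constructor
        · rintro ⟨j1, j2⟩
          by_contra hj
          exact h4 j j1 hj ((hnf j).2 j2)
        · rintro rfl
          exact ⟨hid, (hnf j).1 hi1⟩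
      · intro hs
        rcases sat_lor hs with hs | hs
        · exact nlo_ok hc hid hi1 hs
        · exact x1_ok hc h4 _ le_rfl hs
    · left
      push Not at h4
      obtain ⟨j, hj, hji, hj1⟩ := h4
      have hnb : ∀ i, P.nfz Y e i = 1 → Y.nb e i = 0 := by
        intro i h
        have h5 := (hnf i).1 h
        show Y.c (Y.al (Y.nx^[i] e)) = 0
        unfold Sys.c
        rw [h5]; rfl
      -- the two null neighbours are consecutive
      have key : ∀ a b, a < (Y.W e).length → b < (Y.W e).length →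
          b = nxt (Y.W e).length a → sol ((Y.W e).getD a 0) = true → P.nfz Y e a = 1 →
          P.nfz Y e b = 1 → (a ∈ ns ∨ b ∈ ns) →
          ∑ i ∈ range (Y.W e).length, P.G2 (Y.c (Y.nx^[i] e)) (Y.nb e i) ≤
            P.Q.thr (Y.c e) := by
        intro a b ha hb hab hsl ha1 hb1 hor
        have h5 := alln_iff.1 h3 a ha
        have h6 : tb P.Q.sm (dg (Nat.pow 32 a) (Y.c e)) = true := by
          have h7 : dg (Nat.pow 32 a) (Y.c e) = (Y.W e).getD a 0 + 1 := by
            have h8 : dg (32 ^ a) (enc (Y.W e)) = _ := dg_enc (hY.sm e) ha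
            exact h8
          have h9 : (Y.W e).getD a 0 ∈ Y.W e := by
            rw [List.getD_eq_getElem _ _ ha]; exact List.getElem_mem _
          rw [h7, hy.hsm e _ h9]
          exact hsl
        rw [h6] at h5
        have h7 : (bif mem a ns then true else mem (nxt (Y.W e).length a) ns) = true := by
          cases hm : mem a ns with
          | true => rfl
          | false =>
            dsimp only [cond_false]
            rcases hor with hor | hor
            · rw [mem_iff.2 hor] at hm; exact Bool.noConfusion hm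
            · rw [← hab]; exact mem_iff.2 hor
        dsimp only [cond_true] at h5
        rw [h7] at h5
        dsimp only [cond_true] at h5
        refine hgs _ _ (hrm _ ?_) h5
        rw [sl6_eq, ← hab]
        intro hs
        rcases sat_lor hs with hs | hs
        · exact nlo_ok hc ha ha1 hs
        · exact nlo_ok hc hb hb1 hs
      rcases hN i hid j hj (fun h => hji h.symm) (hnb i hi1) (hnb j hj1) with ⟨h5, h6⟩ | ⟨h5, h6⟩
      · exact key i j hid hj h5 h6 hi1 hj1 (Or.inl hi)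
      · exact key j i hj hid h5 h6 hj1 hi1 (Or.inr hi)

/-- The check of a leaf. -/
theorem lfc2_sound (hv : Hv cmpS cmp cmp' sol sol' S cc f W.P le) (hk : Hk le ml sol S cc f W) (hk3 : Hk3 ml S cc f W)
    (he : S.W e ≠ []) (hN : Nr sol (S.mp cc) e) (hpr : Hpr sol lng (S.mp cc) W.P.Q)
    (hpos : ∀ e, (S.mp cc).W e ≠ [] → W.P.PosOk2z ((S.mp cc).c e) ((S.mp cc).c ((S.mp cc).al e)))
    (hK : Kk W ((S.mp cc).c e) (S.W e).length) {V : List Nat} (hV : Cov W.P V (S.W e))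
    {o x s u : Nat} {NL : List Nat}
    (h : W.lfc ((S.mp cc).c e) (S.W e).length (wsl W.P.Q.wm ((S.mp cc).c e)) o x s u NL V =
      true) :
    chv2 sol lng W.P.Q.den W.P.Q.nl W.P.Q.nu W.P.dl W.P.hl W.P.Q.fw (S.mp cc) e ≤ 0 := by
  have he' : (S.mp cc).W e ≠ [] := mp_ne.2 he
  have hY := hv.h2.ok
  unfold Pw.lfc at h
  rw [brec_and] at h
  obtain ⟨h1, h⟩ := h
  rw [brec_and] at h
  obtain ⟨h2, h⟩ := h
  rw [brec_and] at h
  obtain ⟨h3, h4⟩ := h
  rw [frc_eq, frc_eq, brec_and] at h3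
  obtain ⟨h5, h6⟩ := h3
  rw [ala_iff] at h2
  have hm0 : ∀ i < (S.W e).length,
      Nat.testBit (W.m0 ((S.mp cc).c e) (S.W e).length (dN 11 x) (dN 36 u))
        (W.P.w * i + W.P.kpz (S.mp cc) e i) = true := by
    intro i hi
    unfold Pw.m0
    apply clear_ok (τ := W.P.taz (S.mp cc) e) ⟨i, by rw [mlen]; exact hi, rfl⟩
    · have e1 : Nat.sub (Nat.pow 2 (Nat.mul W.P.w (S.W e).length)) 1 =
        2 ^ (W.P.w * (S.W e).length) - 1 := rfl
      rw [e1, Nat.testBit_two_pow_sub_one, decide_eq_true_eq]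
      have h7 := (kp_lt (kk_ckR' hK 0) (i := i) (by rw [mlen]; exact hi)).2
      calc W.P.w * i + W.P.kpz (S.mp cc) e i < W.P.w * i + W.P.w := by omega
        _ = W.P.w * (i + 1) := by ring
        _ ≤ W.P.w * (S.W e).length := Nat.mul_le_mul_left _ hi
    · intro hs
      rcases sat_lor hs with ⟨t, t1, t2⟩ | hs
      · rw [msk_bit] at t2
        have h7 := h2 t t2
        rw [frc_eq] at h7
        exact ux_tau hv hk3.v3 he hV (kk_ckR' hK 0) h7 t1
      · exact mkz_ok hv hk hk3 he hK hV (Vo.zero he) (Wo.zero he) h5 hs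
  have hgs : ∀ th M, (∀ i < (S.W e).length,
      Nat.testBit M (W.P.w * i + W.P.kpz (S.mp cc) e i) = true) →
      gon th (W.pqs ((S.mp cc).c e) (S.W e).length (wsl W.P.Q.wm ((S.mp cc).c e)) NL (dN 3 o))
        M 0 0 = true →
      ∑ i ∈ range ((S.mp cc).W e).length, W.P.G2 ((S.mp cc).c ((S.mp cc).nx^[i] e))
        ((S.mp cc).nb e i) ≤ th := by
    intro th M h7 h8
    rw [mlen]
    exact gsum2_ok hv hk hk3 he hN hpos hK hV h6 h1 h7 h8
  apply chc_le hY hv.h2.hb hpr he'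
  generalize dN 3 s = ns at h4
  cases ns with
  | nil => exact Or.inl (hgs _ _ hm0 h4)
  | cons a ns =>
    have h4' : W.lfn ((S.mp cc).c e) (S.W e).length (a :: ns) (W.pqs ((S.mp cc).c e)
      (S.W e).length (wsl W.P.Q.wm ((S.mp cc).c e)) NL (dN 3 o))
      (W.m0 ((S.mp cc).c e) (S.W e).length (dN 11 x) (dN 36 u)) = true := h4
    unfold Pw.lfn at h4'
    rw [cond_true_iff, cond_true_iff] at h4'
    obtain ⟨g1, g2, g3⟩ := h4'
    refine lfn2_sound (g := fun th M => gon th (W.pqs ((S.mp cc).c e) (S.W e).length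
      (wsl W.P.Q.wm ((S.mp cc).c e)) NL (dN 3 o)) M 0 0) (ns := a :: ns) hv.h2 hN mlen
      (kk_ckR' hK 0) hgs hm0 g1 (fun i hi => ?_) g3
    have g4 := allb_sound g2 i hi
    rw [cond_true_iff] at g4
    exact ⟨Nat.le_of_ble_eq_true g4.1, g4.2⟩

/-- The check of a tree. -/
theorem ckt2_sound (hv : Hv cmpS cmp cmp' sol sol' S cc f W.P le) (hk : Hk le ml sol S cc f W) (hk3 : Hk3 ml S cc f W)
    (he : S.W e ≠ []) (hN : Nr sol (S.mp cc) e) (hpr : Hpr sol lng (S.mp cc) W.P.Q)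
    (hpos : ∀ e, (S.mp cc).W e ≠ [] → W.P.PosOk2z ((S.mp cc).c e) ((S.mp cc).c ((S.mp cc).al e)))
    (hK : Kk W ((S.mp cc).c e) (S.W e).length) :
    ∀ (t : Tr2) (V : List Nat) (i : Nat) (L : List Nat),
      Cov W.P V (S.W e) → i < (S.W e).length → (S.W e).getD i 0 ∈ L →
      W.ckt ((S.mp cc).c e) (S.W e).length (wsl W.P.Q.wm ((S.mp cc).c e)) t V i L = true →
      chv2 sol lng W.P.Q.den W.P.Q.nl W.P.Q.nu W.P.dl W.P.hl W.P.Q.fw (S.mp cc) e ≤ 0 ∧
        ded2 t = false := by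
  intro t
  induction t with
  | lf o x s u NL =>
    intro V i L hV _ _ h
    exact ⟨lfc2_sound hv hk hk3 he hN hpr hpos hK hV h, rfl⟩
  | dd n =>
    intro V i L hV _ _ h
    exfalso
    exact fq_sound hk.hw hk3.w3 hv he hk.fn hV (Vo.zero he) (Wo.zero he) h
  | sp j t ih =>
    intro V i L hV hi hL h
    have h' : (bif Nat.ble (Nat.succ j) (S.W e).length then
      W.ckt ((S.mp cc).c e) (S.W e).length (wsl W.P.Q.wm ((S.mp cc).c e)) t V
        j (W.P.lg (gtk V j)) else false) = true := h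
    rw [cond_true_iff] at h'
    have hj : j < (S.W e).length := Nat.le_of_ble_eq_true h'.1
    refine ih V j _ hV hj ?_ h'.2
    rw [gtk_eq]
    exact hV.2 j hj
  | ch a t iha iht =>
    intro V i L hV hi hL h
    cases L with
    | nil => simp at hL
    | cons x L =>
      have h' : (bif (bif W.P.imp (wsl W.P.Q.wm ((S.mp cc).c e)) x
          (gtk V (prv (S.W e).length i)) (gtk V (nxt (S.W e).length i)) then true else
          W.ckt ((S.mp cc).c e) (S.W e).length (wsl W.P.Q.wm ((S.mp cc).c e)) a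
            (stk x V i) i [x]) then
          W.ckt ((S.mp cc).c e) (S.W e).length (wsl W.P.Q.wm ((S.mp cc).c e)) t V i L
        else false) = true := h
      rw [cond_true_iff] at h'
      obtain ⟨h1, h2⟩ := h'
      have e1 : ded2 (.ch a t) = (bif ded2 a then ded2 t else false) := rfl
      rw [e1]
      rcases List.mem_cons.1 hL with hx | hx
      · have himp : W.P.imp (wsl W.P.Q.wm ((S.mp cc).c e)) x
            (gtk V (prv (S.W e).length i)) (gtk V (nxt (S.W e).length i)) = false := by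
          rw [← hx, gtk_eq, gtk_eq]
          exact hv.imp e i hi _ _ (hV.2 _ (prv_lt hi)) (hV.2 _ (nxt_lt hi))
        rw [himp] at h1
        have h3 := iha (stk x V i) i [x] (cov_set hv hV hi hx) hi
          (by rw [hx]; exact List.mem_singleton.2 rfl) h1
        refine ⟨h3.1, ?_⟩
        rw [h3.2]; rfl
      · have h3 := iht V i L hV hi hx h2
        refine ⟨h3.1, ?_⟩
        rw [h3.2]
        cases ded2 a <;> rfl
  | en =>
    intro V i L _ _ hL h
    cases L with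
    | nil => simp at hL
    | cons x L => exact Bool.noConfusion h

/-- A tree with dead leaves only. -/
theorem ckt2_dead (hv : Hv cmpS cmp cmp' sol sol' S cc f W.P le) (hk : Hk le ml sol S cc f W) (hk3 : Hk3 ml S cc f W)
    (he : S.W e ≠ []) :
    ∀ (t : Tr2) (V : List Nat) (i : Nat) (L : List Nat),
      Cov W.P V (S.W e) → i < (S.W e).length → (S.W e).getD i 0 ∈ L →
      W.ckt ((S.mp cc).c e) (S.W e).length (wsl W.P.Q.wm ((S.mp cc).c e)) t V i L = true →
      ded2 t = false := by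
  intro t
  induction t with
  | lf o x s u NL => intros; rfl
  | dd n =>
    intro V i L hV _ _ h
    exfalso
    exact fq_sound hk.hw hk3.w3 hv he hk.fn hV (Vo.zero he) (Wo.zero he) h
  | sp j t ih =>
    intro V i L hV hi hL h
    have h' : (bif Nat.ble (Nat.succ j) (S.W e).length then
      W.ckt ((S.mp cc).c e) (S.W e).length (wsl W.P.Q.wm ((S.mp cc).c e)) t V
        j (W.P.lg (gtk V j)) else false) = true := h
    rw [cond_true_iff] at h'
    have hj : j < (S.W e).length := Nat.le_of_ble_eq_true h'.1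
    refine ih V j _ hV hj ?_ h'.2
    rw [gtk_eq]
    exact hV.2 j hj
  | ch a t iha iht =>
    intro V i L hV hi hL h
    cases L with
    | nil => simp at hL
    | cons x L =>
      have h' : (bif (bif W.P.imp (wsl W.P.Q.wm ((S.mp cc).c e)) x
          (gtk V (prv (S.W e).length i)) (gtk V (nxt (S.W e).length i)) then true else
          W.ckt ((S.mp cc).c e) (S.W e).length (wsl W.P.Q.wm ((S.mp cc).c e)) a
            (stk x V i) i [x]) then
          W.ckt ((S.mp cc).c e) (S.W e).length (wsl W.P.Q.wm ((S.mp cc).c e)) t V i L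
        else false) = true := h
      rw [cond_true_iff] at h'
      obtain ⟨h1, h2⟩ := h'
      have e1 : ded2 (.ch a t) = (bif ded2 a then ded2 t else false) := rfl
      rw [e1]
      rcases List.mem_cons.1 hL with hx | hx
      · have himp : W.P.imp (wsl W.P.Q.wm ((S.mp cc).c e)) x
            (gtk V (prv (S.W e).length i)) (gtk V (nxt (S.W e).length i)) = false := by
          rw [← hx, gtk_eq, gtk_eq]
          exact hv.imp e i hi _ _ (hV.2 _ (prv_lt hi)) (hV.2 _ (nxt_lt hi))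
        rw [himp] at h1
        rw [iha (stk x V i) i [x] (cov_set hv hV hi hx) hi
          (by rw [hx]; exact List.mem_singleton.2 rfl) h1]
        rfl
      · rw [iht V i L hV hi hx h2]
        cases ded2 a <;> rfl
  | en =>
    intro V i L _ _ hL h
    cases L with
    | nil => simp at hL
    | cons x L => exact Bool.noConfusion h

end sound

end

end Pool.FCP.Qz
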