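import Pool.Agent.FCV.Qd
import Pool.Agent.FCP.Ya

/-!
# Star check with covering candidates: the checks of the lists
-/

namespace Pool.FCP.Qz

open Pool.FCS

noncomputable section

/-- the fully coarse code, with fuel -/
def vck (k : Nat) : Nat → Nat :=
  Nat.rec (motive := fun _ => Nat → Nat) (fun u => u)
    (fun _ ih u => frc (Nat.div u (nat_lit 32)) fun u' =>
      Nat.add (kd (Nat.mod u (nat_lit 32))) (Nat.mul (nat_lit 32) (ih u'))) k

/-- the pair of words is impossible: the exact codes or the fully coarse codes -/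
def _root_.Pool.FCS.Pn.pcz (P : Pn) (k x m y : Nat) : Bool :=
  Bool.rec (motive := fun _ => Bool)
    (frc (vck 6 x) fun x' => frc (vck 6 y) fun y' => P.pcs k x' m y') true (P.pcs k x m y)

/-- the entry `r` which is read for the key `b` has at least the gain `g`, or the gain is at most
the default `df`, or the pair is impossible -/
def _root_.Pool.FCS.Pn.okr (P : Pn) (a df b g r : Nat) : Bool :=
  Bool.rec (motive := fun _ => Bool)
    (Bool.rec (motive := fun _ => Bool)
      (Bool.rec (motive := fun _ => Bool)
        (P.pcz (slf a) (lo a) (slf b) (lo b)) true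
        (Nat.ble g (Nat.div r (nat_lit 8589934592))))
      (P.pcz (slf a) (lo a) (slf b) (lo b)) (Nat.beq r (nat_lit 0)))
    true (Nat.ble g df)

/-- the neighbour with the key `b` is covered -/
def _root_.Pool.FCP.Px.okz (X : Px) (a df : Nat) (cl : List (Nat × Nat)) (b : Nat) : Bool :=
  frc (X.gk a b) fun g => frc (rdk (mi b) cl) fun r => X.W.P.okr a df b g r

/-- the list of the candidates of the key `a` is complete -/
def _root_.Pool.FCP.Px.soz (X : Px) (WL : BT (List Nat)) (a : Nat) (L : List (Nat × Nat)) :
    Bool :=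
  List.rec (motive := fun _ => Bool) true
    (fun q cl _ =>
      bif (bif Nat.ble (Nat.sub X.W.P.Q.sh (X.W.P.nk a)) q.1 then true else
        lst (Nat.sub X.W.P.Q.sh (X.W.P.nk a)) 1 cl) then
        (fun la fa : Nat =>
          alln 32 fun f => bif X.W.P.Q.cme f la then
            alln 32 fun l => bif X.W.P.Q.cme fa l then
              allb (X.okz a q.1 cl) (WL.get (Nat.add f (Nat.mul 32 l))) else true
          else true) (Nat.div (hi a) 32) (Nat.mod (hi a) 32)
      else false) L

/-- the neighbour with the key `b` is covered -/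
def _root_.Pool.FCP.Kx.okz (K : Kx) (a df : Nat) (cl : List (Nat × Nat)) (b : Nat) : Bool :=
  frc (K.gk a b) fun g => Bool.rec (motive := fun _ => Bool)
    (frc (rdk (mi b) cl) fun r => K.X.W.P.okr a df b g r) true (Nat.ble g df)

/-- the gain of an entry which is read -/
def gre (r : Nat) : Nat := Nat.div r (nat_lit 8589934592)

/-- The neighbour with the key `b` is covered, `r` the entry which is read for its code; `g0` a
bound of its gain. -/
def _root_.Pool.FCP.Kx.okst (K : Kx) (a df g0 b r : Nat) : Bool :=
  Bool.rec (motive := fun _ => Bool)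
    (frc (K.gk a b) fun g => K.X.W.P.okr a df b g r)
    true (Nat.ble g0 (gre r))

/-- the list of the candidates of the key `a` is complete -/
def _root_.Pool.FCP.Kx.soz (K : Kx) (WL : BT (List Nat)) (a : Nat) (L : List (Nat × Nat)) :
    Bool :=
  List.rec (motive := fun _ => Bool) true
    (fun q cl _ =>
      bif (bif Nat.ble (Nat.sub K.X.W.P.Q.sh (K.X.W.P.nk a)) q.1 then true else
        lst (Nat.sub K.X.W.P.Q.sh (K.X.W.P.nk a)) 1 cl) then
        (fun la fa : Nat =>
          alln 32 fun f => bif K.X.W.P.Q.cme f la then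
            alln 32 fun l => bif K.X.W.P.Q.cme fa l then
              allb (K.okz a q.1 cl) (WL.get (Nat.add f (Nat.mul 32 l))) else true
          else true) (Nat.div (hi a) 32) (Nat.mod (hi a) 32)
      else false) L

/-- the keys `bs` are covered, as far as they are possible; `r` the entry for the code `u`, `g0` a
bound of the gains -/
def _root_.Pool.FCP.Kx.oksz (K : Kx) (a la fa df g0 : Nat) (cl : List (Nat × Nat)) (u r : Nat)
    (bs : List Nat) : Bool :=
  List.rec (motive := fun _ => Nat → Nat → Bool) (fun _ _ => true)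
    (fun b _ ih u r =>
      bif (bif K.X.W.P.Q.cme (Nat.mod (hi b) 32) la then
        K.X.W.P.Q.cme fa (Nat.div (hi b) 32) else false) then
        frc (mi b) fun v => Bool.rec (motive := fun _ => Bool)
          (frc (rdk v cl) fun s => bif K.okst a df g0 b s then ih v s else false)
          (bif K.okst a df g0 b r then ih u r else false)
          (Nat.beq v u)
      else ih u r) bs u r

/-- the keys with the projected blind code `C` are covered -/
def _root_.Pool.FCP.Kx.ok8z (K : Kx) (WN : BT (List Nat)) (a la fa df g0 : Nat)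
    (cl : List (Nat × Nat)) (C : Nat) : Bool :=
  alln 8 fun f => K.oksz a la fa df g0 cl 0 0
    (WN.get (Nat.add C (Nat.mul (nat_lit 1073741824) f)))

/-- The list of the candidates of the key `a` is complete, fast check: only the entries of the tables
with a larger gain than the default are considered; `WM` the keys of a flagged blind code, `WN` of a
projected flagged blind code. -/
def _root_.Pool.FCP.Kx.s3z (K : Kx) (WL WM WN : BT (List Nat)) (a : Nat) (L : List (Nat × Nat)) :
    Bool :=
  List.rec (motive := fun _ => Bool) true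
    (fun q cl _ =>
      bif (bif Nat.ble K.X.W.P.Q.sh q.1 then Nat.ble (rrc (lo a)) 1073741823 else false) then
        (fun la fa : Nat => frc (lo a) fun A => frc (rrc A) fun A' =>
          bif ala (fun p => frc (Nat.add p.1 (K.az a p.2)) fun g0 =>
              bif Nat.ble g0 q.1 then true else frc (rdk p.2 cl) fun r =>
                bif Nat.ble g0 (gre r) then true else
                  K.oksz a la fa q.1 g0 cl p.2 r (WM.get p.2))
              (K.X.W.P.Q.T.get a) then
            bif frc (K.X.M A) (fun m => alln (mnB m) fun j => frc (Nat.succ j) fun b =>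
              frc (rlc (mcB m b)) fun C =>
                frc (Nat.add K.X.W.P.Q.sh (Nat.add (maR m b) (K.X.al A' C))) fun g0 =>
                bif Nat.ble g0 q.1 then true
                else K.ok8z WN a la fa q.1 g0 cl C) then
              bif frc (K.X.M A') (fun m => alln (mnC m) fun j => frc (Nat.succ j) fun c =>
                frc (mcC m c) fun C =>
                  frc (Nat.add K.X.W.P.Q.sh (Nat.add (K.X.ar A (rrc C)) (maL m c))) fun g0 =>
                  bif Nat.ble g0 q.1 then
                    true else K.ok8z WN a la fa q.1 g0 cl C) then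
                frc (K.Y (K.aq a)) (fun m => alln (nY m) fun j => frc (Nat.succ j) fun j =>
                  frc (uY m j) fun u => frc (Nat.add K.X.W.P.Q.sh (K.az a u)) fun g0 =>
                    bif Nat.ble g0 q.1 then true else
                      K.oksz a la fa q.1 g0 cl 0 0 (WN.get u))
              else false
            else false
          else false) (Nat.div (hi a) 32) (Nat.mod (hi a) 32)
      else K.soz WL a L) L

/-- The checks of the tables, lists with covering codes. -/
structure Kt (X : Px) (WL : BT (List Nat)) : Prop where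
  j : Jx X
  jv : ∀ z u, Cvu z u → X.J z = X.J u
  kM : ∀ A, X.M A ≠ 0 → X.kM A (X.M A) = true
  kB : ∀ p, X.B p ≠ 0 → X.kB p (X.B p) = true
  kC : ∀ p, X.C p ≠ 0 → X.kC p (X.C p) = true
  kV : ∀ a, X.V a ≠ 0 → X.kV a (X.V a) = true
  kA : ∀ a, X.ka a ≠ 0 → X.kA a (X.ka a) = true
  so : X.W.P.Q.SG.allB (X.soz WL) = true
  kW : WL.allB X.kW = true

/-- a key without list of candidates has no large gains -/
def _root_.Pool.FCP.Kx.tz (K : Kx) (a : Nat) (l : List (Nat × Nat)) : Bool :=
  bif nilb (K.X.W.P.Q.SG.get a) then ala (fun p => Nat.ble p.1 K.X.W.P.Q.sh) l else true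

/-- The checks of the tables, lists with covering codes. -/
structure Kz (K : Kx) (WL : BT (List Nat)) : Prop where
  j : Jx K.X
  jk : Jk K
  jv : ∀ z u, Cvu z u → K.X.J z = K.X.J u
  kM : ∀ A, K.X.M A ≠ 0 → K.X.kM A (K.X.M A) = true
  kB : ∀ p, K.X.B p ≠ 0 → K.X.kB p (K.X.B p) = true
  kC : ∀ p, K.X.C p ≠ 0 → K.X.kC p (K.X.C p) = true
  kV : ∀ a, K.X.V a ≠ 0 → K.X.kV a (K.X.V a) = true
  kA : ∀ a, K.X.ka a ≠ 0 → K.X.kA a (K.X.ka a) = true
  kB' : ∀ p, K.B p ≠ 0 → K.kB p (K.B p) = true
  kC' : ∀ p, K.C p ≠ 0 → K.kC p (K.C p) = true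
  kE : ∀ p, K.E p ≠ 0 → K.kE p (K.E p) = true
  kY : ∀ p, p < 137438953472 → K.Y p ≠ 0 → K.kY p (K.Y p) = true
  kU : ∀ a, K.U a ≠ 0 → K.kU a (K.U a) = true
  kb : ∀ a, K.kb a ≠ 0 → K.kkb a (K.kb a) = true
  so : K.X.W.P.Q.SG.allB (K.soz WL) = true
  tz : K.X.W.P.Q.T.allB K.tz = true
  kW : WL.allB K.kW = true

section sound

theorem vck_succ (k u : Nat) : vck (k + 1) u = kd (u % 32) + 32 * vck k (u / 32) := by
  have e : vck (k + 1) u = frc (Nat.div u (nat_lit 32)) fun u' =>
      Nat.add (kd (Nat.mod u (nat_lit 32))) (Nat.mul (nat_lit 32) (vck k u')) := rfl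
  rw [e, frc_eq]
  rfl

theorem cvk_vck : ∀ k u : Nat, cvk k (vck k u) u = true
  | 0, u => Nat.beq_refl u
  | k + 1, u => by
    have t := kd_tab (u % 32) (by omega)
    rw [cvk_succ, vck_succ]
    have e1 : (kd (u % 32) + 32 * vck k (u / 32)) / 32 = vck k (u / 32) := by omega
    have e2 : (kd (u % 32) + 32 * vck k (u / 32)) % 32 = kd (u % 32) := by omega
    rw [e1, e2, cvk_vck k (u / 32), Nat.beq_refl]
    cases Nat.beq (kd (u % 32)) (u % 32) <;> rfl

/-- the fully coarse code of a blind code -/
theorem vck_cvu {b : Nat} (h : Cvu b b) (hb : b < 1073741824) : Cvu (vck 6 b) b := by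
  obtain ⟨v, w, h1, h2, h3, h4, h5, h6⟩ := h.wd
  have e : lo b = b := by show b % 1073741824 = b; omega
  rw [e] at h6
  have h7 := cvu_of (t := 0) (z := vck 6 b) h2 h3 h4 (Or.inr (by
    have h8 := cvk_vck 6 b
    have e2 : enc w + 1073741824 * 0 = b := by rw [h6]; omega
    rw [e2]
    exact h8))
  have e2 : enc w + 1073741824 * 0 = b := by rw [h6]; omega
  rw [e2] at h7
  exact h7

end sound

end

end Pool.FCP.Qz
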