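import Pool.Agent.FCV.Qf

/-!
# Star check with flows on triangles: the search
-/

set_option linter.unusedVariables false

namespace Pool.FCP.Qz

open Pool.FCS

open Finset

noncomputable section

/-! ### The corrections -/

/-! ### The gains of the sectors of a centre -/

section sound

variable {D : Type*} {cmp cmp' cmpS : Nat → Nat → Bool} {sol sol' lng : Nat → Bool}
  {S : Sys D} {cc f : Nat → Nat} {X : Px} {WL : BT (List Nat)} {le : Nat → Nat → Bool}
  {ml : Nat → Nat} {e : D}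

theorem xi_arr (hx : Kt X WL) (hv : Hv cmpS cmp cmp' sol sol' S cc f X.W.P le) (he : S.W e ≠ [])
    {i : Nat} (hi : i < (S.W e).length) :
    X.xi (S.mp cc) e (S.W e).length i ≤ X.arr (S.mp cc) e i := by
  unfold Px.xi Px.arr Px.cb Px.ct
  by_cases h1 : X.W.P.nfy (S.mp cc) e i ≤ 1
  · rw [if_pos h1, if_pos h1, xbc_b0]
    simp
  · rw [if_neg h1, if_neg h1]
    by_cases h2 : X.W.P.nfy (S.mp cc) e (nxt (S.W e).length i) ≤ 1
    · rw [if_pos h2, xbc_c0]
      simp
    · rw [if_neg h2, lo_nxt hv he hi, ← Px.x_eq]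
      have := hx.xar (A := lo (X.W.ke ((S.mp cc).c e) i))
        (B := rrc (lo (X.W.P.nfy (S.mp cc) e i)))
        (C := lo (X.W.P.nfy (S.mp cc) e (nxt (S.W e).length i))) (lo_lt _)
      omega

theorem xi_all (hx : Kt X WL) (hv : Hv cmpS cmp cmp' sol sol' S cc f X.W.P le) (he : S.W e ≠ [])
    {i : Nat} (hi : i < (S.W e).length) :
    X.xi (S.mp cc) e (S.W e).length i ≤ X.all (S.mp cc) e (nxt (S.W e).length i) := by
  unfold Px.xi Px.cb
  by_cases h1 : X.W.P.nfy (S.mp cc) e i ≤ 1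
  · rw [if_pos h1, xbc_b0]
    simp
  · rw [if_neg h1]
    unfold Px.all Px.ct
    by_cases h2 : X.W.P.nfy (S.mp cc) e (nxt (S.W e).length i) ≤ 1
    · rw [if_pos h2, if_pos h2, xbc_c0]
      simp
    · rw [if_neg h2, if_neg h2, lo_nxt hv he hi, ← Px.x_eq]
      have := hx.xal (A := lo (X.W.ke ((S.mp cc).c e) i))
        (B := rrc (lo (X.W.P.nfy (S.mp cc) e i)))
        (C := lo (X.W.P.nfy (S.mp cc) e (nxt (S.W e).length i))) (lo_lt _)
      omega

/-- no matrix, no class -/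
theorem cb_zero (hx : Kt X WL) {Y : Sys D} {i : Nat} (h : X.M (lo (X.W.ke (Y.c e) i)) = 0) :
    X.cb Y e i = 0 := by
  unfold Px.cb
  by_cases h1 : X.W.P.nfy Y e i ≤ 1
  · rw [if_pos h1]
  · rw [if_neg h1]
    exact hx.b0 (lo_lt _) h

theorem xi_zero (hx : Kt X WL) {Y : Sys D} {d i : Nat} (h : X.M (lo (X.W.ke (Y.c e) i)) = 0) :
    X.xi Y e d i = 0 := by
  unfold Px.xi
  rw [cb_zero hx h, xbc_b0]
  simp

theorem ct_zero (hx : Kt X WL) (hv : Hv cmpS cmp cmp' sol sol' S cc f X.W.P le) (he : S.W e ≠ [])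
    {i : Nat} (hi : i < (S.W e).length)
    (h : X.M (lo (X.W.ke ((S.mp cc).c e) (prv (S.W e).length i))) = 0) :
    X.ct (S.mp cc) e i = 0 := by
  unfold Px.ct
  by_cases h1 : X.W.P.nfy (S.mp cc) e i ≤ 1
  · rw [if_pos h1]
  · rw [if_neg h1, lo_prv hv he hi]
    exact hx.c0 (lo_lt _) h

/-- a covering code is read as the code -/
theorem bcv (hx : Kt X WL) {A z u : Nat} (hA : A < 1073741824) (h : Cvu z u) :
    X.B (pr2 A z) = X.B (pr2 A u) := by
  rw [← hx.j.B2 A z hA, ← hx.j.B2 A u hA, hx.jv z u h]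

/-- a covering code is read as the code -/
theorem ccv (hx : Kt X WL) {A z u : Nat} (hA : A < 1073741824) (h : Cvu z u) :
    X.C (pr2 A z) = X.C (pr2 A u) := by
  rw [← hx.j.C2 A z hA, ← hx.j.C2 A u hA, hx.jv z u h]

/-- the allowances of a covering code -/
theorem aecv (hx : Kt X WL) {a z u : Nat} (ha : rrc (lo a) < 1073741824) (h : Cvu z u) :
    X.ae a z = X.ae a u := by
  have hz := h.ge
  have e1 : Nat.ble z 1 = false := by
    rw [← Bool.not_eq_true, Nat.ble_eq]; omega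
  have e2 : Nat.ble u 1 = false := by
    rw [← Bool.not_eq_true, Nat.ble_eq]; omega
  unfold Px.ae
  rw [e1, e2]
  show X.ar (lo a) (rrc (lo z)) + X.al (rrc (lo a)) (lo z) =
    X.ar (lo a) (rrc (lo u)) + X.al (rrc (lo a)) (lo u)
  rw [ar_eq, ar_eq, al_eq, al_eq, bcv hx (lo_lt _) h.rrc, ccv hx ha h.lo]

/-- the code which is read is the code or covers it -/
theorem nfz_or {Y : Sys D} {P : Pn} (hb : Bmp P.Q.bm f Y) (hS : Y.Ok cmp sol) (e : D) (i : Nat) :
    (P.nfz Y e i = 1 ∧ P.nfy Y e i = 1) ∨ Cvu (P.nfz Y e i) (P.nfy Y e i) := by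
  by_cases h : Y.W (Y.al (Y.nx^[i] e)) = []
  · exact Or.inl ⟨nfz_nil h, nf_nil h⟩
  · right
    have h1 : P.nfy Y e i = nfc P.Q.bm P.Q.wm P.Q.sm (Y.c (Y.al (Y.nx^[i] e))) := nf_ne h
    rw [h1]
    exact nfz_cvu hb hS h

theorem ke_rr (hv : Hv cmpS cmp cmp' sol sol' S cc f X.W.P le) (he : S.W e ≠ []) {i : Nat}
    (hi : i < (S.W e).length) : rrc (lo (X.W.ke ((S.mp cc).c e) i)) < 1073741824 := by
  rw [lo_prv hv he hi]
  exact lo_lt _

/-- the allowances for the code which is read -/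
theorem ae_nfz (hx : Kt X WL) (hv : Hv cmpS cmp cmp' sol sol' S cc f X.W.P le) (he : S.W e ≠ [])
    {i : Nat} (hi : i < (S.W e).length) :
    X.ae (X.W.ke ((S.mp cc).c e) i) (X.W.P.nfz (S.mp cc) e i) =
      X.ae (X.W.ke ((S.mp cc).c e) i) (X.W.P.nfy (S.mp cc) e i) := by
  rcases nfz_or (P := X.W.P) hv.h2.hb hv.h2.ok e i with ⟨h1, h2⟩ | h1
  · rw [h1, h2]
  · exact aecv hx (ke_rr hv he hi) h1

/-- the classes of the candidate which is the neighbour -/
theorem vfd_ok (hx : Kt X WL) (hv : Hv cmpS cmp cmp' sol sol' S cc f X.W.P le)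
    (hK : Kk X.W ((S.mp cc).c e) (S.W e).length) {i : Nat} (hi : i < (S.W e).length)
    (h0 : X.W.P.kpz (S.mp cc) e i ≠ 0) (hV : X.V (X.W.ke ((S.mp cc).c e) i) ≠ 0) :
    Nat.mod (vfd (X.V (X.W.ke ((S.mp cc).c e) i)) (X.W.P.kpz (S.mp cc) e i)) 256 =
        X.cb (S.mp cc) e i ∧
      Nat.div (vfd (X.V (X.W.ke ((S.mp cc).c e) i)) (X.W.P.kpz (S.mp cc) e i)) 256 =
        X.ct (S.mp cc) e i := by
  have hp := kok_kp (hK i hi)
  have q1 : (X.W.P.ps ((S.mp cc).c e) i).cl = (X.W.P.Q.pos (X.W.ke ((S.mp cc).c e) i) 0).cl :=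
    Pm.pos_cl _ _ _
  have hn : (X.W.P.ps ((S.mp cc).c e) i).cl.length = kn (X.W.kr ((S.mp cc).c e) i) := by
    rw [q1]; exact hp.n
  have hkl : X.W.P.kpz (S.mp cc) e i ≤ kn (X.W.kr ((S.mp cc).c e) i) := by
    rw [← hn]; exact ix_le _ _
  have h1 := hx.kV _ hV
  unfold Px.kV at h1
  rw [frc_eq, frc_eq] at h1
  obtain ⟨k, hk⟩ : ∃ k, X.W.P.kpz (S.mp cc) e i = k + 1 := ⟨X.W.P.kpz (S.mp cc) e i - 1, by omega⟩
  have h2 := alln_iff.1 h1 k (by
    show k < kn (X.W.kr ((S.mp cc).c e) i)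
    omega)
  rw [frc_eq, frc_eq, frc_eq] at h2
  have e1 : Nat.succ k = X.W.P.kpz (S.mp cc) e i := hk.symm
  rw [e1, cd_kp hv h0] at h2
  have he : S.W e ≠ [] := by
    intro h
    rw [h] at hi
    exact Nat.not_lt_zero _ hi
  unfold Px.cb Px.ct
  rcases nfz_or (P := X.W.P) hv.h2.hb hv.h2.ok e i with ⟨n1, n2⟩ | n1
  · rw [n1] at h2
    have h3 : X.W.P.nfy (S.mp cc) e i ≤ 1 := by omega
    have h4 := Nat.eq_of_beq_eq_true (show Nat.beq _ _ = true from h2)
    rw [h4, if_pos h3, if_pos h3]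
    exact ⟨rfl, rfl⟩
  · have hz := n1.ge
    have h3 : ¬ X.W.P.nfy (S.mp cc) e i ≤ 1 := by omega
    have h3' : Nat.ble (X.W.P.nfz (S.mp cc) e i) 1 = false := by
      rw [← Bool.not_eq_true, Nat.ble_eq]; omega
    rw [h3'] at h2
    dsimp only at h2
    rw [brec_and] at h2
    rw [if_neg h3, if_neg h3]
    exact ⟨(Nat.eq_of_beq_eq_true h2.1).trans (bcv hx (lo_lt _) n1.rrc),
      (Nat.eq_of_beq_eq_true h2.2).trans (ccv hx (ke_rr hv he hi) n1.lo)⟩

/-- the position is correct for the neighbour `b`, with allowances -/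
def _root_.Pool.FCP.Px.PosOk3z (X : Px) (a b : Nat) : Prop :=
  X.W.P.G2 a b + X.ae (X.W.P.Q.ky a) (X.W.P.Q.nz b) ≤ (X.W.P.Q.pos (X.W.P.Q.ky a) 0).df ∨
    ∃ g, (g, rdl (X.W.P.Q.pos (X.W.P.Q.ky a) 0).cl (X.W.P.Q.nz b)) ∈
        (X.W.P.Q.pos (X.W.P.Q.ky a) 0).cl ∧
      X.W.P.G2 a b + X.ae (X.W.P.Q.ky a) (X.W.P.Q.nz b) ≤ g

/-- what the search adds at the position `i` after the positions `pre` -/
def _root_.Pool.FCP.Px.incz (X : Px) (Y : Sys D) (e : D) (d : Nat) (pre : List Nat) (i : Nat) : ℤ :=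
  if X.W.P.kpz Y e i = 0 then (X.arr Y e i : ℤ) + X.all Y e i else
    (if nxt d i ∈ pre ∧ X.W.P.kpz Y e (nxt d i) ≠ 0 then X.xi Y e d i else 0) +
      (if prv d i ∈ pre ∧ X.W.P.kpz Y e (prv d i) ≠ 0 then X.xi Y e d (prv d i) else 0)

theorem inc_le (hx : Kt X WL) (hv : Hv cmpS cmp cmp' sol sol' S cc f X.W.P le) (he : S.W e ≠ [])
    {i : Nat} (hi : i < (S.W e).length) (pre : List Nat) :
    X.incz (S.mp cc) e (S.W e).length pre i ≤ X.arr (S.mp cc) e i + X.all (S.mp cc) e i := by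
  unfold Px.incz
  by_cases h0 : X.W.P.kpz (S.mp cc) e i = 0
  · rw [if_pos h0]
  · rw [if_neg h0]
    have h1 := xi_arr hx hv he hi
    have h2 := xi_all hx hv he (prv_lt hi)
    rw [nxt_prv hi] at h2
    split_ifs <;> omega

/-- the gain without allowances -/
theorem gax_le (hx : Kt X WL) (hv : Hv cmpS cmp cmp' sol sol' S cc f X.W.P le)
    (hK : Kk X.W ((S.mp cc).c e) (S.W e).length) {i : Nat} (hi : i < (S.W e).length)
    (h0 : X.W.P.kpz (S.mp cc) e i ≠ 0) {G : Nat}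
    (hG : G + X.ae (X.W.ke ((S.mp cc).c e) i) (X.W.P.nfy (S.mp cc) e i) ≤
      gn (kg (X.W.kr ((S.mp cc).c e) i)) (X.W.P.kpz (S.mp cc) e i)) :
    G ≤ gn (X.ga (X.W.ke ((S.mp cc).c e) i) (X.W.kr ((S.mp cc).c e) i))
      (X.W.P.kpz (S.mp cc) e i) := by
  have hp := kok_kp (hK i hi)
  have q1 : (X.W.P.ps ((S.mp cc).c e) i).cl = (X.W.P.Q.pos (X.W.ke ((S.mp cc).c e) i) 0).cl :=
    Pm.pos_cl _ _ _
  have hn : (X.W.P.ps ((S.mp cc).c e) i).cl.length = kn (X.W.kr ((S.mp cc).c e) i) := by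
    rw [q1]; exact hp.n
  have hkl : X.W.P.kpz (S.mp cc) e i ≤ kn (X.W.kr ((S.mp cc).c e) i) := by
    rw [← hn]; exact ix_le _ _
  unfold Px.ga
  rw [frc_eq]
  by_cases ha : X.ka (X.W.ke ((S.mp cc).c e) i) = 0
  · rw [ha]
    show G ≤ gn (kg (X.W.kr ((S.mp cc).c e) i)) (X.W.P.kpz (S.mp cc) e i)
    omega
  · rw [beq_zero_of ha]
    dsimp only
    have h1 := hx.kA _ ha
    unfold Px.kA at h1
    rw [frc_eq] at h1
    obtain ⟨k, hk⟩ : ∃ k, X.W.P.kpz (S.mp cc) e i = k + 1 :=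
      ⟨X.W.P.kpz (S.mp cc) e i - 1, by omega⟩
    have h2 := alln_iff.1 h1 k (by
      show k < kn (X.W.kr ((S.mp cc).c e) i)
      omega)
    rw [frc_eq, frc_eq] at h2
    have e1 : Nat.succ k = X.W.P.kpz (S.mp cc) e i := hk.symm
    rw [e1, cd_kp hv h0] at h2
    have h3 := Nat.le_of_ble_eq_true h2
    have h4 : gn (kg (X.W.kr ((S.mp cc).c e) i)) (X.W.P.kpz (S.mp cc) e i) ≤
      gn (X.ka (X.W.ke ((S.mp cc).c e) i)) (X.W.P.kpz (S.mp cc) e i) +
        X.ae (X.W.ke ((S.mp cc).c e) i) (X.W.P.nfz (S.mp cc) e i) := h3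
    have he : S.W e ≠ [] := by
      intro h
      rw [h] at hi
      exact Nat.not_lt_zero _ hi
    rw [ae_nfz hx hv he hi] at h4
    omega

/-- the positions are correct -/
theorem pq3_ok (hx : Kt X WL) (hv : Hv cmpS cmp cmp' sol sol' S cc f X.W.P le)
    (hk : Hk le ml sol S cc f X.W) (hk3 : Hk3 ml S cc f X.W) (he : S.W e ≠ []) (hN : Nr sol (S.mp cc) e)
    (hpos : ∀ e, (S.mp cc).W e ≠ [] → X.PosOk3z ((S.mp cc).c e) ((S.mp cc).c ((S.mp cc).al e)))
    (hK : Kk X.W ((S.mp cc).c e) (S.W e).length)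
    (hkc : ∀ i < (S.W e).length, X.kc ((S.mp cc).c e) (S.W e).length i = true) {V : List Nat}
    (hV : Cov X.W.P V (S.W e)) {i N : Nat} (hi : i < (S.W e).length)
    (h : X.W.cks ((S.mp cc).c e) (S.W e).length (wsl X.W.P.Q.wm ((S.mp cc).c e)) (av2 X.W.lv V)
      (av2 X.W.lm (rvl V)) i (kn (X.W.kr ((S.mp cc).c e) i)) N = true)
    {pre : List Nat} (hpre : ∀ j ∈ pre, j < (S.W e).length) {B : Nat → Prop}
    (hB : ∀ t, B t ↔ ∃ j ∈ pre, X.W.P.kpz (S.mp cc) e j ≠ 0 ∧
      t = X.W.P.w * j + X.W.P.kpz (S.mp cc) e j) :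
    POk4 (X.W.P.taz (S.mp cc) e) B (X.W.P.kpz (S.mp cc) e i)
      ((X.W.P.G2 ((S.mp cc).c ((S.mp cc).nx^[i] e)) ((S.mp cc).nb e i) : ℤ) +
        X.incz (S.mp cc) e (S.W e).length pre i)
      (X.pq ((S.mp cc).c e) (S.W e).length (wsl X.W.P.Q.wm ((S.mp cc).c e)) i N) := by
  have hp := kok_kp (hK i hi)
  have h4 := (hv.hS.len e he).1
  have q1 : (X.W.P.ps ((S.mp cc).c e) i).cl = (X.W.P.Q.pos (X.W.ke ((S.mp cc).c e) i) 0).cl :=
    Pm.pos_cl _ _ _
  have q2 : (X.W.P.ps ((S.mp cc).c e) i).df = (X.W.P.Q.pos (X.W.ke ((S.mp cc).c e) i) 0).df :=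
    Pm.pos_df _ _ _
  have c1 : pok (X.W.P.ps ((S.mp cc).c e) i).cl (X.W.P.ps ((S.mp cc).c e) i).df = true := by
    rw [q1, q2]; exact hp.pok
  have hn : (X.W.P.ps ((S.mp cc).c e) i).cl.length = kn (X.W.kr ((S.mp cc).c e) i) := by
    rw [q1]; exact hp.n
  have hs := pok_srt c1
  have hkl : X.W.P.kpz (S.mp cc) e i ≤ kn (X.W.kr ((S.mp cc).c e) i) := by
    rw [← hn]; exact ix_le _ _
  have he' : (S.mp cc).W e ≠ [] := mp_ne.2 he
  have hkp : ∀ j < (S.W e).length, X.W.P.kpz (S.mp cc) e j < X.W.P.w := fun j hj =>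
    (kp_lt (kk_ckR' hK 0) (i := j) (by rw [mlen]; exact hj)).2
  -- the gain
  have hG : X.W.P.G2 ((S.mp cc).c ((S.mp cc).nx^[i] e)) ((S.mp cc).nb e i) +
      X.ae (X.W.ke ((S.mp cc).c e) i) (X.W.P.nfy (S.mp cc) e i) ≤
      gi (X.W.P.ps ((S.mp cc).c e) i).df (X.W.P.ps ((S.mp cc).c e) i).cl
        (X.W.P.kpz (S.mp cc) e i) := by
    have h1 := hpos _ (hv.h2.ok.ne_iter he' i)
    unfold Px.PosOk3z at h1
    have h2 : (S.mp cc).c ((S.mp cc).nx^[i] e) = rot ((S.mp cc).c e) i :=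
      (rot_c hv.h2.ok he' i).symm
    have h3 : (X.W.P.ps ((S.mp cc).c e) i).df =
        (X.W.P.Q.pos (X.W.P.Q.ky ((S.mp cc).c ((S.mp cc).nx^[i] e))) 0).df := by
      rw [h2]; exact Pm.pos_df _ _ _
    have h4 : (X.W.P.ps ((S.mp cc).c e) i).cl =
        (X.W.P.Q.pos (X.W.P.Q.ky ((S.mp cc).c ((S.mp cc).nx^[i] e))) 0).cl := by
      rw [h2]; exact Pm.pos_cl _ _ _
    have h6 : X.W.P.Q.ky ((S.mp cc).c ((S.mp cc).nx^[i] e)) = X.W.ke ((S.mp cc).c e) i := by
      rw [h2]; rfl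
    rw [← h3, ← h4, h6] at h1
    have h5 : X.W.P.Q.nz ((S.mp cc).c ((S.mp cc).al ((S.mp cc).nx^[i] e))) =
      X.W.P.nfy (S.mp cc) e i := rfl
    rw [h5] at h1
    rcases h1 with h1 | ⟨g, h1, h7⟩
    · exact le_trans h1 (df_le_gi hs _)
    · exact le_trans h7 (le_gi hs h1)
  have hgn : ∀ j, j ≤ kn (X.W.kr ((S.mp cc).c e) i) → gn (kg (X.W.kr ((S.mp cc).c e) i)) j =
      gi (X.W.P.ps ((S.mp cc).c e) i).df (X.W.P.ps ((S.mp cc).c e) i).cl j := by
    intro j hj
    have eg : kg (X.W.kr ((S.mp cc).c e) i) =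
        pk (X.W.P.ps ((S.mp cc).c e) i).cl (X.W.P.ps ((S.mp cc).c e) i).df := by
      rw [q1, q2]; exact hp.g
    rw [eg, gn_pk c1 (by omega)]
  have hinc := inc_le hx hv he hi pre
  rw [ae_eq] at hG
  obtain ⟨A, eA, A0, A1⟩ := X.pq_eq ((S.mp cc).c e) (S.W e).length
    (wsl X.W.P.Q.wm ((S.mp cc).c e)) i N
  rw [eA]
  refine ⟨?_, fun j hj hf => ?_, fun h0 Z hZ => ⟨?_, fun s => ?_⟩⟩
  · show Nat.testBit (2 ^ (kn (X.W.kr ((S.mp cc).c e) i) + 1) - 1) _ = true
    rw [Nat.testBit_two_pow_sub_one, decide_eq_true_eq]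
    omega
  · have hf' : Nat.testBit (2 ^ (kn (X.W.kr ((S.mp cc).c e) i) + 1) - 1) j = true := hf
    rw [Nat.testBit_two_pow_sub_one, decide_eq_true_eq] at hf'
    show _ ≤ ((gn (kg (X.W.kr ((S.mp cc).c e) i)) j : Nat) : ℤ)
    rw [hgn j (by omega)]
    have h1 := gi_mono hs hj (show j ≤ (X.W.P.ps ((S.mp cc).c e) i).cl.length by omega)
    omega
  · have hZt : ∀ t, Nat.testBit Z t = true → X.W.P.taz (S.mp cc) e t := by
      intro t ht
      rcases (hZ t).1 ht with h1 | h1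
      · obtain ⟨j, j1, j2, j3⟩ := (hB t).1 h1
        exact ⟨j, by rw [mlen]; exact hpre j j1, j3⟩
      · exact ⟨i, by rw [mlen]; exact hi, h1⟩
    have h9 := ckr_ok hv hk hk3 he hN hK hV hi h0 (cks_row h hkl) hZt
    rw [← FCS.Pw.rfn_eq] at h9
    exact h9
  · have hZ' : ∀ t, Nat.testBit Z t = true ↔
        (B t ∨ t = X.W.P.w * i + X.W.P.kpz (S.mp cc) e i) := hZ
    have g1 := gax_le hx hv hK hi h0 (G := X.W.P.G2 ((S.mp cc).c ((S.mp cc).nx^[i] e))
      ((S.mp cc).nb e i)) (by rw [hgn _ hkl, ae_eq]; exact hG)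
    have einc : X.incz (S.mp cc) e (S.W e).length pre i =
      (if nxt (S.W e).length i ∈ pre ∧ X.W.P.kpz (S.mp cc) e (nxt (S.W e).length i) ≠ 0 then
        X.xi (S.mp cc) e (S.W e).length i else 0) +
      (if prv (S.W e).length i ∈ pre ∧ X.W.P.kpz (S.mp cc) e (prv (S.W e).length i) ≠ 0 then
        X.xi (S.mp cc) e (S.W e).length (prv (S.W e).length i) else 0) := by
      unfold Px.incz
      rw [if_neg h0]
    show (s : ℤ) + (_ + _) ≤ ((A (X.W.P.kpz (S.mp cc) e i) Z s : Nat) : ℤ)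
    rw [einc]
    have zN := zpos (w := X.W.P.w) (kp := X.W.P.kpz (S.mp cc) e) hkp hpre hi (nxt_lt hi)
      (nxt_ne (by omega)) hB hZ'
    have zP := zpos (w := X.W.P.w) (kp := X.W.P.kpz (S.mp cc) e) hkp hpre hi (prv_lt hi)
      (prv_ne (by omega) hi) hB hZ'
    by_cases hM : X.M (lo (X.W.ke ((S.mp cc).c e) i)) +
        X.M (lo (X.W.ke ((S.mp cc).c e) (prv (S.W e).length i))) = 0
    · rw [A0 hM, xi_zero hx (show X.M (lo (X.W.ke ((S.mp cc).c e) i)) = 0 by omega),
        xi_zero hx (show X.M (lo (X.W.ke ((S.mp cc).c e) (prv (S.W e).length i))) = 0 by omega)]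
      rw [ite_self, ite_self]
      omega
    · rw [A1 hM]
      have hVi : X.V (X.W.ke ((S.mp cc).c e) i) ≠ 0 := by
        have h1 := hkc i hi
        unfold Px.kc at h1
        have e1 : Nat.beq (Nat.add (X.M (lo (X.W.ke ((S.mp cc).c e) i)))
          (X.M (lo (X.W.ke ((S.mp cc).c e) (prv (S.W e).length i))))) 0 = false :=
          beq_zero_of hM
        rw [e1] at h1
        intro h2
        rw [h2] at h1
        exact Bool.noConfusion (show false = true from h1)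
      obtain ⟨v1, v2⟩ := vfd_ok hx hv hK hi h0 hVi
      rw [axs_eq]
      rw [frc_eq, frc_eq, v1, v2]
      have e5 : Nat.add s (gnl (X.ga (X.W.ke ((S.mp cc).c e) i) (X.W.kr ((S.mp cc).c e) i))
        (X.W.P.kpz (S.mp cc) e i)) = s + gn (X.ga (X.W.ke ((S.mp cc).c e) i)
          (X.W.kr ((S.mp cc).c e) i)) (X.W.P.kpz (S.mp cc) e i) := rfl
      rw [e5]
      have g2 : (s : ℤ) + (X.W.P.G2 ((S.mp cc).c ((S.mp cc).nx^[i] e)) ((S.mp cc).nb e i) : ℤ) ≤
          ((s + gn (X.ga (X.W.ke ((S.mp cc).c e) i) (X.W.kr ((S.mp cc).c e) i))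
            (X.W.P.kpz (S.mp cc) e i) : Nat) : ℤ) := by
        push_cast
        omega
      generalize s + gn (X.ga (X.W.ke ((S.mp cc).c e) i) (X.W.kr ((S.mp cc).c e) i))
        (X.W.P.kpz (S.mp cc) e i) = s1 at g2 ⊢
      -- the right neighbour
      have hR : (s1 : ℤ) + (if nxt (S.W e).length i ∈ pre ∧
          X.W.P.kpz (S.mp cc) e (nxt (S.W e).length i) ≠ 0 then
            X.xi (S.mp cc) e (S.W e).length i else 0) ≤
          (crR X.W.P.w (X.M (lo (X.W.ke ((S.mp cc).c e) i))) (X.cb (S.mp cc) e i)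
            (Nat.mul X.W.P.w (nxt (S.W e).length i))
            (X.V (X.W.ke ((S.mp cc).c e) (nxt (S.W e).length i))) Z s1 : ℤ) := by
        by_cases hc : nxt (S.W e).length i ∈ pre ∧
          X.W.P.kpz (S.mp cc) e (nxt (S.W e).length i) ≠ 0
        · rw [if_pos hc]
          have h1 := crR_le (m := X.M (lo (X.W.ke ((S.mp cc).c e) i))) (b := X.cb (S.mp cc) e i)
            (V := X.V (X.W.ke ((S.mp cc).c e) (nxt (S.W e).length i))) (s := s1) (zN.1 hc)
          refine le_trans (le_of_eq ?_) h1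
          by_cases hm : X.M (lo (X.W.ke ((S.mp cc).c e) i)) = 0
          · rw [xi_zero hx hm, cb_zero hx hm, xbc_b0]
            simp
          · have h2 := hkc _ (nxt_lt hi)
            unfold Px.kc at h2
            rw [prv_nxt hi] at h2
            have e1 : Nat.beq (Nat.add (X.M (lo (X.W.ke ((S.mp cc).c e) (nxt (S.W e).length i))))
              (X.M (lo (X.W.ke ((S.mp cc).c e) i)))) 0 = false :=
              beq_zero_of (show X.M (lo (X.W.ke ((S.mp cc).c e) (nxt (S.W e).length i))) +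
                X.M (lo (X.W.ke ((S.mp cc).c e) i)) ≠ 0 by omega)
            rw [e1] at h2
            have hVn : X.V (X.W.ke ((S.mp cc).c e) (nxt (S.W e).length i)) ≠ 0 := by
              intro h3
              rw [h3] at h2
              exact Bool.noConfusion (show false = true from h2)
            rw [(vfd_ok hx hv hK (nxt_lt hi) hc.2 hVn).2]
            rfl
        · rw [if_neg hc, crR_zero (zN.2 hc), add_zero]
      -- the left neighbour
      have hL : ∀ s2 : Nat, (s2 : ℤ) + (if prv (S.W e).length i ∈ pre ∧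
          X.W.P.kpz (S.mp cc) e (prv (S.W e).length i) ≠ 0 then
            X.xi (S.mp cc) e (S.W e).length (prv (S.W e).length i) else 0) ≤
          (crL X.W.P.w (X.M (lo (X.W.ke ((S.mp cc).c e) (prv (S.W e).length i))))
            (X.ct (S.mp cc) e i) (Nat.mul X.W.P.w (prv (S.W e).length i))
            (X.V (X.W.ke ((S.mp cc).c e) (prv (S.W e).length i))) Z s2 : ℤ) := by
        intro s2
        by_cases hc : prv (S.W e).length i ∈ pre ∧
          X.W.P.kpz (S.mp cc) e (prv (S.W e).length i) ≠ 0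
        · rw [if_pos hc]
          have h1 := crL_le (m := X.M (lo (X.W.ke ((S.mp cc).c e) (prv (S.W e).length i))))
            (c := X.ct (S.mp cc) e i)
            (V := X.V (X.W.ke ((S.mp cc).c e) (prv (S.W e).length i))) (s := s2) (zP.1 hc)
          refine le_trans (le_of_eq ?_) h1
          by_cases hm : X.M (lo (X.W.ke ((S.mp cc).c e) (prv (S.W e).length i))) = 0
          · rw [xi_zero hx hm, ct_zero hx hv he hi hm, xbc_c0]
            simp
          · have h2 := hkc _ (prv_lt hi)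
            unfold Px.kc at h2
            have e1 : Nat.beq (Nat.add (X.M (lo (X.W.ke ((S.mp cc).c e) (prv (S.W e).length i))))
              (X.M (lo (X.W.ke ((S.mp cc).c e) (prv (S.W e).length
                (prv (S.W e).length i)))))) 0 = false :=
              beq_zero_of (show X.M (lo (X.W.ke ((S.mp cc).c e) (prv (S.W e).length i))) +
                X.M (lo (X.W.ke ((S.mp cc).c e) (prv (S.W e).length
                (prv (S.W e).length i)))) ≠ 0 by omega)
            rw [e1] at h2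
            have hVn : X.V (X.W.ke ((S.mp cc).c e) (prv (S.W e).length i)) ≠ 0 := by
              intro h3
              rw [h3] at h2
              exact Bool.noConfusion (show false = true from h2)
            rw [(vfd_ok hx hv hK (prv_lt hi) hc.2 hVn).1]
            unfold Px.xi
            rw [nxt_prv hi]
        · rw [if_neg hc, crL_zero (zP.2 hc), add_zero]
      refine le_trans ?_ (hL _)
      omega

/-- the positions are correct, one after the other -/
theorem chn_pqs (hx : Kt X WL) (hv : Hv cmpS cmp cmp' sol sol' S cc f X.W.P le)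
    (hk : Hk le ml sol S cc f X.W) (hk3 : Hk3 ml S cc f X.W) (he : S.W e ≠ []) (hN : Nr sol (S.mp cc) e)
    (hpos : ∀ e, (S.mp cc).W e ≠ [] → X.PosOk3z ((S.mp cc).c e) ((S.mp cc).c ((S.mp cc).al e)))
    (hK : Kk X.W ((S.mp cc).c e) (S.W e).length)
    (hkc : ∀ i < (S.W e).length, X.kc ((S.mp cc).c e) (S.W e).length i = true) {V : List Nat}
    (hV : Cov X.W.P V (S.W e)) {NL full : List Nat}
    (h : ∀ i < (S.W e).length, X.W.cks ((S.mp cc).c e) (S.W e).length
      (wsl X.W.P.Q.wm ((S.mp cc).c e)) (av2 X.W.lv V) (av2 X.W.lm (rvl V)) i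
      (kn (X.W.kr ((S.mp cc).c e) i)) (nth NL i) = true)
    (hd : full.Nodup) (hl : ∀ i ∈ full, i < (S.W e).length) {κ : Nat → Nat} {G : Nat → ℤ}
    (hκ : ∀ i < (S.W e).length, κ (X.W.P.w * i) = X.W.P.kpz (S.mp cc) e i)
    (hG : ∀ i < (S.W e).length, ∀ pre, (∀ j ∈ pre, j ∈ full) →
      (∀ j ∈ full, j ∈ pre ↔ full.idxOf j < full.idxOf i) →
      G (X.W.P.w * i) = (X.W.P.G2 ((S.mp cc).c ((S.mp cc).nx^[i] e)) ((S.mp cc).nb e i) : ℤ) +
        X.incz (S.mp cc) e (S.W e).length pre i) :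
    ∀ (ord pre : List Nat) (B : Nat → Prop), full = pre ++ ord →
      (∀ t, B t ↔ ∃ j ∈ pre, X.W.P.kpz (S.mp cc) e j ≠ 0 ∧
        t = X.W.P.w * j + X.W.P.kpz (S.mp cc) e j) →
      Chn (X.W.P.taz (S.mp cc) e) κ G B
        (X.pqs ((S.mp cc).c e) (S.W e).length (wsl X.W.P.Q.wm ((S.mp cc).c e)) NL ord)
  | [], _, _, _, _ => trivial
  | i :: ord, pre, B, hf, hB => by
    have hi : i < (S.W e).length := hl i (by rw [hf]; simp)
    have hpf : ∀ j ∈ pre, j ∈ full := fun j hj => by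
      rw [hf]; exact List.mem_append_left _ hj
    have hpre : ∀ j ∈ pre, j < (S.W e).length := fun j hj => hl j (hpf j hj)
    have hip : i ∉ pre := by
      intro h1
      rw [hf, List.nodup_append] at hd
      exact hd.2.2 i h1 i (List.mem_cons_self ..) rfl
    have hidx : full.idxOf i = pre.length := by
      rw [hf, List.idxOf_append_of_notMem hip, List.idxOf_cons_self, Nat.add_zero]
    have hE : ∀ j ∈ full, j ∈ pre ↔ full.idxOf j < full.idxOf i := by
      intro j hj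
      rw [hidx]
      constructor
      · intro h1
        rw [hf, List.idxOf_append_of_mem h1]
        exact List.idxOf_lt_length_of_mem h1
      · intro h1
        by_contra h2
        rw [hf, List.idxOf_append_of_notMem h2] at h1
        omega
    rw [xpqs_cons]
    refine ⟨?_, ?_⟩
    · rw [xpq_a, hκ i hi, hG i hi pre hpf hE]
      exact pq3_ok hx hv hk hk3 he hN hpos hK hkc hV hi (h i hi) hpre hB
    · refine chn_pqs hx hv hk hk3 he hN hpos hK hkc hV h hd hl hκ hG ord (pre ++ [i]) _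
        (by rw [hf, List.append_assoc]; rfl) (fun t => ?_)
      rw [xpq_a, hκ i hi, hB t]
      constructor
      · rintro (⟨j, h1, h2⟩ | ⟨h1, h2⟩)
        · exact ⟨j, List.mem_append_left _ h1, h2⟩
        · exact ⟨i, List.mem_append_right _ (List.mem_singleton.2 rfl), h1, h2⟩
      · rintro ⟨j, h1, h2⟩
        rcases List.mem_append.1 h1 with h1 | h1
        · exact Or.inl ⟨j, h1, h2⟩
        · rw [List.mem_singleton.1 h1] at h2
          exact Or.inr h2

/-- the sum of the gains is bounded by the search -/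
theorem gsum3_ok (hx : Kt X WL) (hv : Hv cmpS cmp cmp' sol sol' S cc f X.W.P le)
    (hk : Hk le ml sol S cc f X.W) (hk3 : Hk3 ml S cc f X.W) (he : S.W e ≠ []) (hN : Nr sol (S.mp cc) e)
    (hpos : ∀ e, (S.mp cc).W e ≠ [] → X.PosOk3z ((S.mp cc).c e) ((S.mp cc).c ((S.mp cc).al e)))
    (hK : Kk X.W ((S.mp cc).c e) (S.W e).length)
    (hkc : ∀ i < (S.W e).length, X.kc ((S.mp cc).c e) (S.W e).length i = true) {V : List Nat}
    (hV : Cov X.W.P V (S.W e)) {NL ord : List Nat}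
    (h : alln (S.W e).length (fun i => X.W.cks ((S.mp cc).c e) (S.W e).length
      (wsl X.W.P.Q.wm ((S.mp cc).c e)) (av2 X.W.lv V) (av2 X.W.lm (rvl V)) i
      (kn (X.W.kr ((S.mp cc).c e) i)) (nth NL i)) = true)
    (ho : okOrd (S.W e).length ord = true) {M th : Nat}
    (hM : ∀ i < (S.W e).length,
      Nat.testBit M (X.W.P.w * i + X.W.P.kpz (S.mp cc) e i) = true)
    (hg : gon3 th (X.pqs ((S.mp cc).c e) (S.W e).length (wsl X.W.P.Q.wm ((S.mp cc).c e)) NL ord)
      M 0 0 = true) :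
    ((∑ i ∈ range (S.W e).length, X.W.P.G2 ((S.mp cc).c ((S.mp cc).nx^[i] e))
        ((S.mp cc).nb e i) : Nat) : ℤ) +
      ∑ i ∈ range (S.W e).length, X.xi (S.mp cc) e (S.W e).length i ≤ (th : ℤ) := by
  have h4 := (hv.hS.len e he).1
  have hperm := okOrd_perm ho
  rw [alln_iff] at h
  -- `w` is positive
  have hw : 0 < X.W.P.w := by
    have := (kok_kp (hK 0 (by omega))).w3
    omega
  have hdiv : ∀ i, X.W.P.w * i / X.W.P.w = i := fun i => Nat.mul_div_cancel_left i hw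
  have hord : ∀ i ∈ ord, i < (S.W e).length := fun i hi =>
    List.mem_range.1 (hperm.mem_iff.1 hi)
  have hmem : ∀ i < (S.W e).length, i ∈ ord := fun i hi =>
    hperm.mem_iff.2 (List.mem_range.2 hi)
  have hnd : ord.Nodup := hperm.nodup_iff.2 List.nodup_range
  set κ : Nat → Nat := fun a => X.W.P.kpz (S.mp cc) e (a / X.W.P.w) with hκ
  set E : Nat → List Nat := fun i => ord.filter fun j => decide (ord.idxOf j < ord.idxOf i) with hE
  set G : Nat → ℤ := fun a => (X.W.P.G2 ((S.mp cc).c ((S.mp cc).nx^[a / X.W.P.w] e))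
    ((S.mp cc).nb e (a / X.W.P.w)) : ℤ) + X.incz (S.mp cc) e (S.W e).length (E (a / X.W.P.w))
      (a / X.W.P.w) with hG
  have hmE : ∀ i j, j < (S.W e).length → (j ∈ E i ↔ ord.idxOf j < ord.idxOf i) := by
    intro i j hj
    simp only [hE, List.mem_filter, decide_eq_true_eq]
    exact ⟨fun h => h.2, fun h => ⟨hmem j hj, h⟩⟩
  have hgo := gon3_sound (τ := X.W.P.taz (S.mp cc) e) (κ := κ) (G := G) th (B := fun _ => False)
    (X.pqs ((S.mp cc).c e) (S.W e).length (wsl X.W.P.Q.wm ((S.mp cc).c e)) NL ord) (by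
      refine chn_pqs hx hv hk hk3 he hN hpos hK hkc hV h hnd hord (fun i hi => ?_)
        (fun i hi pre hp1 hp2 => ?_) ord [] _ rfl (fun t => ?_)
      · simp only [hκ]
        rw [hdiv]
      · simp only [hG]
        rw [hdiv]
        have key : ∀ j < (S.W e).length, (j ∈ E i ↔ j ∈ pre) := fun j hj => by
          rw [hmE i j hj, hp2 j (hmem j hj)]
        congr 1
        unfold Px.incz
        simp only [key _ (nxt_lt hi), key _ (prv_lt hi)]
      · simp) (by
      intro p hp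
      obtain ⟨i, i1, rfl⟩ := xpqs_mem hp
      rw [xpq_a]
      simp only [hκ]
      rw [hdiv]
      exact ⟨i, by rw [mlen]; exact hord i i1, rfl⟩) M 0 0 (by
      intro p hp
      obtain ⟨i, i1, rfl⟩ := xpqs_mem hp
      rw [xpq_a]
      simp only [hκ]
      rw [hdiv]
      exact hM i (hord i i1)) (fun t => by simp) hg
  rw [xpqs_sum G] at hgo
  have e5 : (ord.map fun i => G (X.W.P.w * i)).sum = (ord.map fun i =>
      ((X.W.P.G2 ((S.mp cc).c ((S.mp cc).nx^[i] e)) ((S.mp cc).nb e i) : ℤ) +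
        X.incz (S.mp cc) e (S.W e).length (E i) i)).sum := by
    congr 1
    refine List.map_congr_left fun i _ => ?_
    simp only [hG]
    rw [hdiv]
  rw [e5, (hperm.map _).sum_eq] at hgo
  have e6 : ∀ g : Nat → ℤ, ((List.range (S.W e).length).map g).sum =
      ∑ i ∈ range (S.W e).length, g i := by
    intro g
    exact sum_range_listi _ g
  rw [e6, sum_add_distrib] at hgo
  -- the sectors
  have hsec := sum_sec (d := (S.W e).length)
    (xi := fun i => X.xi (S.mp cc) e (S.W e).length i)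
    (r := fun i => if X.W.P.kpz (S.mp cc) e i = 0 then (X.arr (S.mp cc) e i : ℤ) else
      (if nxt (S.W e).length i ∈ E i ∧ X.W.P.kpz (S.mp cc) e (nxt (S.W e).length i) ≠ 0 then
        X.xi (S.mp cc) e (S.W e).length i else 0))
    (l := fun i => if X.W.P.kpz (S.mp cc) e i = 0 then (X.all (S.mp cc) e i : ℤ) else
      (if prv (S.W e).length i ∈ E i ∧ X.W.P.kpz (S.mp cc) e (prv (S.W e).length i) ≠ 0 then
        X.xi (S.mp cc) e (S.W e).length (prv (S.W e).length i) else 0)) (fun i hi => by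
    have n1 := nxt_lt hi
    have h1 := xi_arr hx hv he hi
    have h2 := xi_all hx hv he hi
    have m1 := hmE i _ n1
    have m2 := hmE (nxt (S.W e).length i) _ hi
    rw [prv_nxt hi]
    by_cases k1 : X.W.P.kpz (S.mp cc) e i = 0
    · rw [if_pos k1]
      by_cases k2 : X.W.P.kpz (S.mp cc) e (nxt (S.W e).length i) = 0
      · rw [if_pos k2]
        omega
      · rw [if_neg k2, if_neg fun h => h.2 k1]
        omega
    · rw [if_neg k1]
      by_cases k2 : X.W.P.kpz (S.mp cc) e (nxt (S.W e).length i) = 0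
      · rw [if_pos k2, if_neg fun h => h.2 k2]
        omega
      · rw [if_neg k2]
        have hne := nxt_ne (i := i) (by omega : 2 ≤ (S.W e).length)
        have hix : ord.idxOf (nxt (S.W e).length i) ≠ ord.idxOf i := by
          intro h3
          exact hne ((List.idxOf_inj (hmem _ n1)).1 h3)
        by_cases h3 : ord.idxOf (nxt (S.W e).length i) < ord.idxOf i
        · rw [if_pos ⟨m1.2 h3, k2⟩, if_neg fun h => by
            have := m2.1 h.1
            omega]
          omega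
        · rw [if_neg fun h => h3 (m1.1 h.1), if_pos ⟨m2.2 (by omega), k1⟩]
          omega)
  have e7 : ∑ i ∈ range (S.W e).length, X.incz (S.mp cc) e (S.W e).length (E i) i =
      ∑ i ∈ range (S.W e).length, ((if X.W.P.kpz (S.mp cc) e i = 0 then
        (X.arr (S.mp cc) e i : ℤ) else
      (if nxt (S.W e).length i ∈ E i ∧ X.W.P.kpz (S.mp cc) e (nxt (S.W e).length i) ≠ 0 then
        X.xi (S.mp cc) e (S.W e).length i else 0)) +
      (if X.W.P.kpz (S.mp cc) e i = 0 then (X.all (S.mp cc) e i : ℤ) else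
      (if prv (S.W e).length i ∈ E i ∧ X.W.P.kpz (S.mp cc) e (prv (S.W e).length i) ≠ 0 then
        X.xi (S.mp cc) e (S.W e).length (prv (S.W e).length i) else 0))) := by
    refine sum_congr rfl fun i _ => ?_
    unfold Px.incz
    by_cases k1 : X.W.P.kpz (S.mp cc) e i = 0
    · simp only [if_pos k1]
    · simp only [if_neg k1]
  rw [e7] at hgo
  rw [Nat.cast_sum]
  have h9 : ((0 : Nat) : ℤ) = 0 := rfl
  rw [h9, zero_add] at hgo
  refine le_trans ?_ hgo
  exact add_le_add (le_refl _) hsec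

end sound

end

end Pool.FCP.Qz
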