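import Pool.Agent.FCV.Qg
import Pool.Agent.FCP.Xe

/-!
# Star check with flows on triangles: leaves, trees
-/

set_option linter.unusedVariables false

namespace Pool.FCP.Qz

open Pool.FCS

open Finset

noncomputable section

section sound

variable {D : Type*} {cmp cmp' cmpS : Nat → Nat → Bool} {sol sol' lng : Nat → Bool}
  {S : Sys D} {cc f : Nat → Nat} {X : Px} {WL : BT (List Nat)} {le : Nat → Nat → Bool}
  {ml : Nat → Nat} {e : D}

/-- The cases of a leaf. -/
theorem lfn3_sound {Y : Sys D} {P : Pn} (hy : Hc2 cmp cmp' sol sol' Y f P)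
    (hN : Nr sol Y e) {k d : Nat} (hd : (Y.W e).length = d)
    (hc : P.ckR k (Y.c e) (Y.W e).length [] = true)
    {g : Nat → Nat → Bool} {ns : List Nat} {A : Nat → Prop}
    (hgs : ∀ th M, (∀ i < d, Nat.testBit M (P.w * i + P.kpz Y e i) = true) →
      g th M = true → A th) {M : Nat}
    (hM : ∀ i < d, Nat.testBit M (P.w * i + P.kpz Y e i) = true)
    (h1 : g (P.Q.thr (Y.c e)) (rmv M (P.x0 (Y.c e) ns)) = true)
    (hns : ∀ i ∈ ns, i < d ∧ g (P.Q.thr (Y.c e) + P.dl)
      (rmv M (Nat.lor (P.nlo (Y.c e) i) (P.x1 (Y.c e) i d))) = true)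
    (h3 : alln d (fun i => bif (bif tb P.Q.sm (dg (Nat.pow 32 i) (Y.c e)) then
          (bif mem i ns then true else mem (nxt d i) ns) else false) then
        g (P.Q.thr (Y.c e)) (rmv M (Nat.lor (P.nlo (Y.c e) i)
          (sl6 (P.nlo (Y.c e)) (nxt d i))))
      else true) = true) : A (P.Q.thr (Y.c e)) ∨ (nnl Y e = 1 ∧ A (P.Q.thr (Y.c e) + P.dl)) := by
  subst hd
  have hY := hy.ok
  have hnf : ∀ i, P.nfz Y e i = 1 ↔ Y.W (Y.al (Y.nx^[i] e)) = [] := fun i => nfz_one hy.hb hY
  -- removing bits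
  have hrm : ∀ X, ¬ Sat (P.taz Y e) X → ∀ i < (Y.W e).length,
      Nat.testBit (rmv M X) (P.w * i + P.kpz Y e i) = true := fun X hX i hi =>
    clear_ok (τ := P.taz Y e) ⟨i, hi, rfl⟩ (hM i hi) hX
  by_cases hz : ∀ i ∈ ns, P.nfz Y e i ≠ 1
  · left
    exact hgs _ _ (hrm _ (x0_ok hc (fun i hi => (hns i hi).1) hz)) h1
  · push Not at hz
    obtain ⟨i, hi, hi1⟩ := hz
    have hid := (hns i hi).1
    by_cases h4 : ∀ j < (Y.W e).length, j ≠ i → P.nfz Y e j ≠ 1
    · right
      refine ⟨?_, hgs _ _ (hrm _ ?_) (hns i hi).2⟩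
      · unfold nnl
        rw [card_eq_one]
        refine ⟨i, ?_⟩
        ext j
        rw [mem_filter, mem_range, mem_singleton]
        constructor
        · rintro ⟨j1, j2⟩
          by_contra hj
          exact h4 j j1 hj ((hnf j).2 j2)
        · rintro rfl
          exact ⟨hid, (hnf j).1 hi1⟩
      · intro hs
        rcases sat_lor hs with hs | hs
        · exact nlo_ok hc hid hi1 hs
        · exact x1_ok hc h4 _ le_rfl hs
    · left
      push Not at h4
      obtain ⟨j, hj, hji, hj1⟩ := h4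
      have hnb : ∀ i, P.nfz Y e i = 1 → Y.nb e i = 0 := by
        intro i h
        have h5 := (hnf i).1 h
        show Y.c (Y.al (Y.nx^[i] e)) = 0
        unfold Sys.c
        rw [h5]; rfl
      -- the two null neighbours are consecutive
      have key : ∀ a b, a < (Y.W e).length → b < (Y.W e).length →
          b = nxt (Y.W e).length a → sol ((Y.W e).getD a 0) = true → P.nfz Y e a = 1 →
          P.nfz Y e b = 1 → (a ∈ ns ∨ b ∈ ns) → A (P.Q.thr (Y.c e)) := by
        intro a b ha hb hab hsl ha1 hb1 hor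
        have h5 := alln_iff.1 h3 a ha
        have h6 : tb P.Q.sm (dg (Nat.pow 32 a) (Y.c e)) = true := by
          have h7 : dg (Nat.pow 32 a) (Y.c e) = (Y.W e).getD a 0 + 1 := by
            have h8 : dg (32 ^ a) (enc (Y.W e)) = _ := dg_enc (hY.sm e) ha
            exact h8
          have h9 : (Y.W e).getD a 0 ∈ Y.W e := by
            rw [List.getD_eq_getElem _ _ ha]; exact List.getElem_mem _
          rw [h7, hy.hsm e _ h9]
          exact hsl
        rw [h6] at h5
        have h7 : (bif mem a ns then true else mem (nxt (Y.W e).length a) ns) = true := by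
          cases hm : mem a ns with
          | true => rfl
          | false =>
            dsimp only [cond_false]
            rcases hor with hor | hor
            · rw [mem_iff.2 hor] at hm; exact Bool.noConfusion hm
            · rw [← hab]; exact mem_iff.2 hor
        dsimp only [cond_true] at h5
        rw [h7] at h5
        dsimp only [cond_true] at h5
        refine hgs _ _ (hrm _ ?_) h5
        rw [sl6_eq, ← hab]
        intro hs
        rcases sat_lor hs with hs | hs
        · exact nlo_ok hc ha ha1 hs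
        · exact nlo_ok hc hb hb1 hs
      rcases hN i hid j hj (fun h => hji h.symm) (hnb i hi1) (hnb j hj1) with ⟨h5, h6⟩ | ⟨h5, h6⟩
      · exact key i j hid hj h5 h6 hi1 hj1 (Or.inl hi)
      · exact key j i hj hid h5 h6 hj1 hi1 (Or.inr hi)

/-- The check of a leaf. -/
theorem lfc3_sound (hx : Kt X WL) (hv : Hv cmpS cmp cmp' sol sol' S cc f X.W.P le)
    (hk : Hk le ml sol S cc f X.W) (hk3 : Hk3 ml S cc f X.W) (he : S.W e ≠ []) (hN : Nr sol (S.mp cc) e)
    (hpr : Hpr sol lng (S.mp cc) X.W.P.Q)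
    (hpos : ∀ e, (S.mp cc).W e ≠ [] → X.PosOk3z ((S.mp cc).c e) ((S.mp cc).c ((S.mp cc).al e)))
    (hK : Kk X.W ((S.mp cc).c e) (S.W e).length)
    (hkc : ∀ i < (S.W e).length, X.kc ((S.mp cc).c e) (S.W e).length i = true) {V : List Nat}
    (hV : Cov X.W.P V (S.W e)) {o x s u : Nat} {NL : List Nat}
    (h : X.lfc ((S.mp cc).c e) (S.W e).length (wsl X.W.P.Q.wm ((S.mp cc).c e)) o x s u NL V =
      true) :
    chv2 sol lng X.W.P.Q.den X.W.P.Q.nl X.W.P.Q.nu X.W.P.dl X.W.P.hl X.W.P.Q.fw (S.mp cc) e +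
      ∑ i ∈ range (S.W e).length, X.xi (S.mp cc) e (S.W e).length i ≤ 0 := by
  have he' : (S.mp cc).W e ≠ [] := mp_ne.2 he
  have hY := hv.h2.ok
  unfold Px.lfc at h
  rw [brec_and] at h
  obtain ⟨h1, h⟩ := h
  rw [brec_and] at h
  obtain ⟨h2, h⟩ := h
  rw [brec_and] at h
  obtain ⟨h3, h4⟩ := h
  rw [frc_eq, frc_eq, brec_and] at h3
  obtain ⟨h5, h6⟩ := h3
  rw [ala_iff] at h2
  have hm0 : ∀ i < (S.W e).length,
      Nat.testBit (X.W.m0 ((S.mp cc).c e) (S.W e).length (dN 11 x) (dN 36 u))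
        (X.W.P.w * i + X.W.P.kpz (S.mp cc) e i) = true := by
    intro i hi
    unfold Pw.m0
    apply clear_ok (τ := X.W.P.taz (S.mp cc) e) ⟨i, by rw [mlen]; exact hi, rfl⟩
    · have e1 : Nat.sub (Nat.pow 2 (Nat.mul X.W.P.w (S.W e).length)) 1 =
        2 ^ (X.W.P.w * (S.W e).length) - 1 := rfl
      rw [e1, Nat.testBit_two_pow_sub_one, decide_eq_true_eq]
      have h7 := (kp_lt (kk_ckR' hK 0) (i := i) (by rw [mlen]; exact hi)).2
      calc X.W.P.w * i + X.W.P.kpz (S.mp cc) e i < X.W.P.w * i + X.W.P.w := by omega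
        _ = X.W.P.w * (i + 1) := by ring
        _ ≤ X.W.P.w * (S.W e).length := Nat.mul_le_mul_left _ hi
    · intro hs
      rcases sat_lor hs with ⟨t, t1, t2⟩ | hs
      · rw [msk_bit] at t2
        have h7 := h2 t t2
        rw [frc_eq] at h7
        exact ux_tau hv hk3.v3 he hV (kk_ckR' hK 0) h7 t1
      · exact mkz_ok hv hk hk3 he hK hV (Vo.zero he) (Wo.zero he) h5 hs
  have hgs : ∀ th M, (∀ i < (S.W e).length,
      Nat.testBit M (X.W.P.w * i + X.W.P.kpz (S.mp cc) e i) = true) →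
      gon3 th (X.pqs ((S.mp cc).c e) (S.W e).length (wsl X.W.P.Q.wm ((S.mp cc).c e)) NL (dN 3 o))
        M 0 0 = true →
      ((∑ i ∈ range ((S.mp cc).W e).length, X.W.P.G2 ((S.mp cc).c ((S.mp cc).nx^[i] e))
        ((S.mp cc).nb e i) : Nat) : ℤ) +
        ∑ i ∈ range (S.W e).length, X.xi (S.mp cc) e (S.W e).length i ≤ (th : ℤ) := by
    intro th M h7 h8
    rw [mlen]
    exact gsum3_ok hx hv hk hk3 he hN hpos hK hkc hV h6 h1 h7 h8
  apply chc_le3 hY hv.h2.hb hpr he'
  generalize dN 3 s = ns at h4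
  cases ns with
  | nil => exact Or.inl (hgs _ _ hm0 h4)
  | cons a ns =>
    have h4' : X.lfn ((S.mp cc).c e) (S.W e).length (a :: ns) (X.pqs ((S.mp cc).c e)
      (S.W e).length (wsl X.W.P.Q.wm ((S.mp cc).c e)) NL (dN 3 o))
      (X.W.m0 ((S.mp cc).c e) (S.W e).length (dN 11 x) (dN 36 u)) = true := h4
    unfold Px.lfn at h4'
    rw [cond_true_iff, cond_true_iff] at h4'
    obtain ⟨g1, g2, g3⟩ := h4'
    refine lfn3_sound (g := fun th M => gon3 th (X.pqs ((S.mp cc).c e) (S.W e).length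
      (wsl X.W.P.Q.wm ((S.mp cc).c e)) NL (dN 3 o)) M 0 0) (ns := a :: ns)
      (A := fun th => ((∑ i ∈ range ((S.mp cc).W e).length,
        X.W.P.G2 ((S.mp cc).c ((S.mp cc).nx^[i] e)) ((S.mp cc).nb e i) : Nat) : ℤ) +
        ∑ i ∈ range (S.W e).length, X.xi (S.mp cc) e (S.W e).length i ≤ (th : ℤ)) hv.h2 hN mlen
      (kk_ckR' hK 0) hgs hm0 g1 (fun i hi => ?_) g3
    have g4 := allb_sound g2 i hi
    rw [cond_true_iff] at g4
    exact ⟨Nat.le_of_ble_eq_true g4.1, g4.2⟩

/-- The check of a tree. -/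
theorem ckt3_sound (hx : Kt X WL) (hv : Hv cmpS cmp cmp' sol sol' S cc f X.W.P le)
    (hk : Hk le ml sol S cc f X.W) (hk3 : Hk3 ml S cc f X.W) (he : S.W e ≠ []) (hN : Nr sol (S.mp cc) e)
    (hpr : Hpr sol lng (S.mp cc) X.W.P.Q)
    (hpos : ∀ e, (S.mp cc).W e ≠ [] → X.PosOk3z ((S.mp cc).c e) ((S.mp cc).c ((S.mp cc).al e)))
    (hK : Kk X.W ((S.mp cc).c e) (S.W e).length)
    (hkc : ∀ i < (S.W e).length, X.kc ((S.mp cc).c e) (S.W e).length i = true) :
    ∀ (t : Tr2) (V : List Nat) (i : Nat) (L : List Nat),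
      Cov X.W.P V (S.W e) → i < (S.W e).length → (S.W e).getD i 0 ∈ L →
      X.ckt ((S.mp cc).c e) (S.W e).length (wsl X.W.P.Q.wm ((S.mp cc).c e)) t V i L = true →
      chv2 sol lng X.W.P.Q.den X.W.P.Q.nl X.W.P.Q.nu X.W.P.dl X.W.P.hl X.W.P.Q.fw (S.mp cc) e +
        ∑ i ∈ range (S.W e).length, X.xi (S.mp cc) e (S.W e).length i ≤ 0 := by
  intro t
  induction t with
  | lf o x s u NL =>
    intro V i L hV _ _ h
    exact lfc3_sound hx hv hk hk3 he hN hpr hpos hK hkc hV h
  | dd n =>
    intro V i L hV _ _ h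
    exfalso
    exact fq_sound hk.hw hk3.w3 hv he hk.fn hV (Vo.zero he) (Wo.zero he) h
  | sp j t ih =>
    intro V i L hV hi hL h
    have h' : (bif Nat.ble (Nat.succ j) (S.W e).length then
      X.ckt ((S.mp cc).c e) (S.W e).length (wsl X.W.P.Q.wm ((S.mp cc).c e)) t V
        j (X.W.P.lg (gtk V j)) else false) = true := h
    rw [cond_true_iff] at h'
    have hj : j < (S.W e).length := Nat.le_of_ble_eq_true h'.1
    refine ih V j _ hV hj ?_ h'.2
    rw [gtk_eq]
    exact hV.2 j hj
  | ch a t iha iht =>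
    intro V i L hV hi hL h
    cases L with
    | nil => simp at hL
    | cons x L =>
      have h' : (bif (bif X.W.P.imp (wsl X.W.P.Q.wm ((S.mp cc).c e)) x
          (gtk V (prv (S.W e).length i)) (gtk V (nxt (S.W e).length i)) then true else
          X.ckt ((S.mp cc).c e) (S.W e).length (wsl X.W.P.Q.wm ((S.mp cc).c e)) a
            (stk x V i) i [x]) then
          X.ckt ((S.mp cc).c e) (S.W e).length (wsl X.W.P.Q.wm ((S.mp cc).c e)) t V i L
        else false) = true := h
      rw [cond_true_iff] at h'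
      obtain ⟨h1, h2⟩ := h'
      rcases List.mem_cons.1 hL with hx' | hx'
      · have himp : X.W.P.imp (wsl X.W.P.Q.wm ((S.mp cc).c e)) x
            (gtk V (prv (S.W e).length i)) (gtk V (nxt (S.W e).length i)) = false := by
          rw [← hx', gtk_eq, gtk_eq]
          exact hv.imp e i hi _ _ (hV.2 _ (prv_lt hi)) (hV.2 _ (nxt_lt hi))
        rw [himp] at h1
        exact iha (stk x V i) i [x] (cov_set hv hV hi hx') hi
          (by rw [hx']; exact List.mem_singleton.2 rfl) h1
      · exact iht V i L hV hi hx' h2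
  | en =>
    intro V i L _ _ hL h
    cases L with
    | nil => simp at hL
    | cons x L => exact Bool.noConfusion h

/-- A tree with dead leaves only. -/
theorem ckt3_dead (hv : Hv cmpS cmp cmp' sol sol' S cc f X.W.P le) (hk : Hk le ml sol S cc f X.W) (hk3 : Hk3 ml S cc f X.W)
    (he : S.W e ≠ []) :
    ∀ (t : Tr2) (V : List Nat) (i : Nat) (L : List Nat),
      Cov X.W.P V (S.W e) → i < (S.W e).length → (S.W e).getD i 0 ∈ L →
      X.ckt ((S.mp cc).c e) (S.W e).length (wsl X.W.P.Q.wm ((S.mp cc).c e)) t V i L = true →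
      ded2 t = false := by
  intro t
  induction t with
  | lf o x s u NL => intros; rfl
  | dd n =>
    intro V i L hV _ _ h
    exfalso
    exact fq_sound hk.hw hk3.w3 hv he hk.fn hV (Vo.zero he) (Wo.zero he) h
  | sp j t ih =>
    intro V i L hV hi hL h
    have h' : (bif Nat.ble (Nat.succ j) (S.W e).length then
      X.ckt ((S.mp cc).c e) (S.W e).length (wsl X.W.P.Q.wm ((S.mp cc).c e)) t V
        j (X.W.P.lg (gtk V j)) else false) = true := h
    rw [cond_true_iff] at h'
    have hj : j < (S.W e).length := Nat.le_of_ble_eq_true h'.1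
    refine ih V j _ hV hj ?_ h'.2
    rw [gtk_eq]
    exact hV.2 j hj
  | ch a t iha iht =>
    intro V i L hV hi hL h
    cases L with
    | nil => simp at hL
    | cons x L =>
      have h' : (bif (bif X.W.P.imp (wsl X.W.P.Q.wm ((S.mp cc).c e)) x
          (gtk V (prv (S.W e).length i)) (gtk V (nxt (S.W e).length i)) then true else
          X.ckt ((S.mp cc).c e) (S.W e).length (wsl X.W.P.Q.wm ((S.mp cc).c e)) a
            (stk x V i) i [x]) then
          X.ckt ((S.mp cc).c e) (S.W e).length (wsl X.W.P.Q.wm ((S.mp cc).c e)) t V i L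
        else false) = true := h
      rw [cond_true_iff] at h'
      obtain ⟨h1, h2⟩ := h'
      have e1 : ded2 (.ch a t) = (bif ded2 a then ded2 t else false) := rfl
      rw [e1]
      rcases List.mem_cons.1 hL with hx | hx
      · have himp : X.W.P.imp (wsl X.W.P.Q.wm ((S.mp cc).c e)) x
            (gtk V (prv (S.W e).length i)) (gtk V (nxt (S.W e).length i)) = false := by
          rw [← hx, gtk_eq, gtk_eq]
          exact hv.imp e i hi _ _ (hV.2 _ (prv_lt hi)) (hV.2 _ (nxt_lt hi))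
        rw [himp] at h1
        rw [iha (stk x V i) i [x] (cov_set hv hV hi hx) hi
          (by rw [hx]; exact List.mem_singleton.2 rfl) h1]
        rfl
      · rw [iht V i L hV hi hx h2]
        cases ded2 a <;> rfl
  | en =>
    intro V i L _ _ hL h
    cases L with
    | nil => simp at hL
    | cons x L => exact Bool.noConfusion h

end sound

end

end Pool.FCP.Qz
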