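import Pool.Agent.FCV.Qh
import Pool.Agent.FCP.Xf

/-!
# Star check with flows on triangles: the star inequality
-/

set_option linter.unusedVariables false

namespace Pool.FCP.Qz

open Pool.FCS

open Finset

noncomputable section

section sound

variable {D : Type*} {cmp cmp' cmpS : Nat → Nat → Bool} {sol sol' lng : Nat → Bool}
  {S Y : Sys D} {cc f : Nat → Nat} {X : Px} {WL : BT (List Nat)} {le : Nat → Nat → Bool}
  {ml : Nat → Nat} {e : D}

/-- the gains of the sectors -/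
theorem sum_xi (hx : Kt X WL) (hv : Hv cmpS cmp cmp' sol sol' S cc f X.W.P le)
    (hsm : ∀ e, ∀ x ∈ (S.mp cc).W e, tb X.W.P.Q.sm (f x + 1) = sol x) (he : S.W e ≠ []) :
    ∑ i ∈ range (S.W e).length, X.xi (S.mp cc) e (S.W e).length i =
      ∑ i ∈ range ((S.mp cc).W e).length, tgx sol X.xw (S.mp cc) ((S.mp cc).nx^[i] e) := by
  have hY := hv.h2.ok
  have hb := hv.h2.hb
  have he' : (S.mp cc).W e ≠ [] := mp_ne.2 he
  rw [mlen]
  refine sum_congr rfl fun i hi => ?_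
  rw [mem_range] at hi
  have hei := hY.ne_iter he' i
  have hnn : (S.mp cc).nx^[nxt (S.W e).length i] e = (S.mp cc).nx ((S.mp cc).nx^[i] e) := by
    have h1 := nx_nxt hY he' i
    rw [mlen] at h1
    exact h1
  by_cases h1 : (S.mp cc).W ((S.mp cc).al ((S.mp cc).nx^[i] e)) = []
  · rw [tgx_zero hY hei (fun h => h.2.1 h1)]
    unfold Px.xi Px.cb
    have h2 : X.W.P.nfy (S.mp cc) e i = 1 := nf_nil h1
    rw [h2, if_pos (le_refl 1), xbc_b0]
    simp
  · by_cases h2 : (S.mp cc).W ((S.mp cc).al ((S.mp cc).nx ((S.mp cc).nx^[i] e))) = []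
    · rw [tgx_zero hY hei (fun h => h.2.2 h2)]
      unfold Px.xi Px.ct
      have h3 : X.W.P.nfy (S.mp cc) e (nxt (S.W e).length i) = 1 := by
        apply nf_nil
        rw [hnn]
        exact h2
      rw [h3, if_pos (le_refl 1), xbc_c0]
      simp
    · rw [hx.tgx hY hb hv.h2.ok' hsm hei h1 h2]
      have n1 : X.W.P.nfy (S.mp cc) e i = nfc X.W.P.Q.bm X.W.P.Q.wm X.W.P.Q.sm
        ((S.mp cc).c ((S.mp cc).al ((S.mp cc).nx^[i] e))) := nf_ne h1
      have n2 : X.W.P.nfy (S.mp cc) e (nxt (S.W e).length i) =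
          nfc X.W.P.Q.bm X.W.P.Q.wm X.W.P.Q.sm
        ((S.mp cc).c ((S.mp cc).al ((S.mp cc).nx ((S.mp cc).nx^[i] e)))) := by
        have h3 := nf_ne (bm := X.W.P.Q.bm) (wm := X.W.P.Q.wm) (sm := X.W.P.Q.sm)
          (S := S.mp cc) (e := e) (i := nxt (S.W e).length i) (by rw [hnn]; exact h2)
        rw [hnn] at h3
        exact h3
      have g1 := hb.nge (wm := X.W.P.Q.wm) (sm := X.W.P.Q.sm) hY h1
      have g2 := hb.nge (wm := X.W.P.Q.wm) (sm := X.W.P.Q.sm) hY h2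
      unfold Px.xi Px.cb Px.ct
      rw [lo_nxt hv he hi, n1, n2, if_neg (by omega), if_neg (by omega),
        lo_nfc (hb.lt hY _), lo_nfc (hb.lt hY _)]
      have e1 : lo (X.W.ke ((S.mp cc).c e) i) =
          blc X.W.P.Q.bm ((S.mp cc).c ((S.mp cc).nx^[i] e)) := by
        unfold Pw.ke
        rw [rot_c hY he' i]
        exact lo_kfc (hb.lt hY _)
      rw [e1, ← Px.x_eq]

/-- a centre which is not in the table -/
theorem trv_xi (hx : Kt X WL) (hv : Hv cmpS cmp cmp' sol sol' S cc f X.W.P le)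
    (hWL : ∀ e, (S.mp cc).W e ≠ [] →
      X.W.P.Q.ky ((S.mp cc).c e) ∈ WL.get (hi (X.W.P.Q.ky ((S.mp cc).c e))))
    (he : S.W e ≠ []) (h : X.W.P.Q.trv ((S.mp cc).c e) = true) :
    ∑ i ∈ range (S.W e).length, X.xi (S.mp cc) e (S.W e).length i ≤ 0 := by
  have hY := hv.h2.ok
  have he' : (S.mp cc).W e ≠ [] := mp_ne.2 he
  have h4 := hY.len e he'
  have hd : dgn ((S.mp cc).c e) = (S.W e).length := by
    rw [← mlen (S := S) (cc := cc)]
    exact dgn_enc (hY.sm e) h4.1 h4.2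
  unfold Pm.trv at h
  rw [cond_true_iff, hd] at h
  refine sum_nonpos fun i hi => ?_
  rw [mem_range] at hi
  have h2 := alln_iff.1 h.2 i hi
  rw [cond_true_iff, rot_c hY he' i] at h2
  have e1 : X.W.P.Q.SG.get (X.W.P.Q.ky ((S.mp cc).c ((S.mp cc).nx^[i] e))) = [] :=
    List.isEmpty_iff.1 h2.2
  have h3 := hx.ae0 (u := X.W.P.nfy (S.mp cc) e i) (hWL _ (hY.ne_iter he' i))
    (rr_lt hv.h2 (hY.ne_iter he' i)) e1
  have h5 : X.ae (X.W.ke ((S.mp cc).c e) i) (X.W.P.nfy (S.mp cc) e i) = 0 := by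
    unfold Pw.ke
    rw [rot_c hY he' i]
    exact h3
  rw [ae_eq] at h5
  have h6 := xi_arr hx hv he hi
  omega

end sound

end

end Pool.FCP.Qz
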