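import Pool.Agent.FCV.Qi
import Pool.Agent.FCP.Yb

/-!
# Star check with flows on kites: the tables
-/

set_option linter.unusedVariables false

namespace Pool.FCP.Qz

open Pool.FCS

open Finset

noncomputable section

variable {K : Kx} {WL WM WN : BT (List Nat)}

/-! ### Edge keys -/

/-! ### The records -/

/-- the class of a code before the edge -/
theorem Kz.kb_of (h : Kz K WL) {A c : Nat} (hA : A < 1073741824) (hb : K.B (pr2 A c) ≠ 0) :
    K.B (pr2 A c) ≤ kn1 (K.N A) ∧ kc1 (K.N A) (K.B (pr2 A c)) = K.X.J c := by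
  have h1 := h.kB' _ hb
  unfold Kx.kB at h1
  rw [frc_eq, pr2_mod hA, pr2_div hA, brec_and] at h1
  exact ⟨Nat.le_of_ble_eq_true h1.1, Nat.eq_of_beq_eq_true h1.2⟩

/-- the class of a code behind the edge -/
theorem Kz.kc_of (h : Kz K WL) {A c : Nat} (hA : A < 1073741824) (hb : K.C (pr2 A c) ≠ 0) :
    K.C (pr2 A c) ≤ kn2 (K.N A) ∧ kc2 (K.N A) (K.C (pr2 A c)) = K.X.J c := by
  have h1 := h.kC' _ hb
  unfold Kx.kC at h1
  rw [frc_eq, pr2_mod hA, pr2_div hA, brec_and] at h1
  exact ⟨Nat.le_of_ble_eq_true h1.1, Nat.eq_of_beq_eq_true h1.2⟩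

/-- the rows of the codes -/
theorem Kz.rows (h : Kz K WL) {A R : Nat} (hA : A < 1073741824) {f : Nat → Nat → Bool}
    (hf : rowsK (K.N A) R f = true) (c : Nat) : rwk R (K.B (pr2 A c)) = 255 ∨
      ∃ c', f (rwk R (K.B (pr2 A c))) c' = true ∧ (c' = K.X.J c ∨ rkR R = 0) := by
  rcases rowsK_sound hf with ⟨h1, h2⟩ | ⟨h1, h2⟩
  · right
    rw [rwk_zero h1]
    exact ⟨0, h2, Or.inr h1⟩
  · by_cases h3 : rwk R (K.B (pr2 A c)) = 255
    · exact Or.inl h3
    · right
      by_cases h4 : K.B (pr2 A c) = 0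
      · rw [h4, rwk_g0 h1] at h3
        exact absurd rfl h3
      · obtain ⟨h5, h6⟩ := h.kb_of hA h4
        have h7 := h2 _ h4 h5 h3
        rw [h6] at h7
        exact ⟨_, h7, Or.inl rfl⟩

/-- the columns of the codes -/
theorem Kz.cols (h : Kz K WL) {A R : Nat} (hA : A < 1073741824) {f : Nat → Nat → Bool}
    (hf : colsK (K.N A) R f = true) (c : Nat) : clk R (K.C (pr2 A c)) = 255 ∨
      ∃ c', f (clk R (K.C (pr2 A c))) c' = true ∧ (c' = K.X.J c ∨ rkC R = 0) := by
  rcases colsK_sound hf with ⟨h1, h2⟩ | ⟨h1, h2⟩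
  · right
    rw [clk_zero h1]
    exact ⟨0, h2, Or.inr h1⟩
  · by_cases h3 : clk R (K.C (pr2 A c)) = 255
    · exact Or.inl h3
    · right
      by_cases h4 : K.C (pr2 A c) = 0
      · rw [h4, clk_g0 h1] at h3
        exact absurd rfl h3
      · obtain ⟨h5, h6⟩ := h.kc_of hA h4
        have h7 := h2 _ h4 h5 h3
        rw [h6] at h7
        exact ⟨_, h7, Or.inl rfl⟩

theorem Kz.recOk (h : Kz K WL) {p u R : Nat} (hR : K.kR p u R = true) : RecOk K p u R := by
  have hA := lo_lt p
  unfold Kx.kR at hR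
  rw [frc_eq, frc_eq, frc_eq, frc_eq] at hR
  rw [cond_true_iff, cond_true_iff, cond_true_iff, cond_true_iff, cond_true_iff, cond_true_iff,
    cond_true_iff] at hR
  obtain ⟨a1, a2, a3, a4, a5, a6, a7, a8⟩ := hR
  rw [bif_or] at a1 a2 a5
  rw [bif_imp] at a3 a4
  refine ⟨?_, ?_, ?_, ?_, ?_, ?_, ?_, ?_⟩
  · rcases a1 with a1 | a1
    · exact Or.inl a1
    · exact Or.inr (Nat.eq_of_beq_eq_true a1)
  · rcases a2 with a2 | a2
    · exact Or.inl a2
    · exact Or.inr (Nat.eq_of_beq_eq_true a2)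
  · intro h1
    exact Nat.eq_of_beq_eq_true (a3 (by rw [h1]; rfl))
  · intro h1
    exact Nat.eq_of_beq_eq_true (a4 (by rw [h1]; rfl))
  · rcases a5 with a5 | a5
    · exact Or.inl (Nat.eq_of_beq_eq_true a5)
    · exact Or.inr (Nat.le_of_ble_eq_true a5)
  · intro c
    rcases h.rows hA a6 c with h1 | ⟨c', h1, -⟩
    · exact Or.inl h1
    · right
      rw [frc_eq, cond_true_iff, bif_or] at h1
      refine ⟨Nat.le_of_ble_eq_true h1.1, ?_⟩
      rcases h1.2 with h2 | h2
      · exact Or.inl (Nat.eq_of_beq_eq_true h2)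
      · exact Or.inr (Nat.le_of_ble_eq_true h2)
  · intro c
    rcases h.cols hA a7 c with h1 | ⟨c', h1, -⟩
    · exact Or.inl h1
    · right
      rw [frc_eq, cond_true_iff, bif_or] at h1
      refine ⟨Nat.le_of_ble_eq_true h1.1, ?_⟩
      rcases h1.2 with h2 | h2
      · exact Or.inl (Nat.eq_of_beq_eq_true h2)
      · exact Or.inr (Nat.le_of_ble_eq_true h2)
  · intro c1 c2
    rcases h.rows hA a8 c1 with h1 | ⟨d1, h1, e1⟩
    · exact Or.inl h1
    · right
      rw [frc_eq] at h1
      rcases h.cols hA h1 c2 with h2 | ⟨d2, h2, e2⟩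
      · exact Or.inl h2
      · right
        rw [frc_eq, cond_true_iff, cond_true_iff, bif_or] at h2
        obtain ⟨b1, b2, b3⟩ := h2
        refine ⟨Nat.le_of_ble_eq_true b1, Nat.le_of_ble_eq_true b2, ?_⟩
        rcases b3 with b3 | b3
        · exact Or.inl (Nat.eq_of_beq_eq_true b3)
        · exact Or.inr ⟨d1, d2, e1, e2, Nat.eq_of_beq_eq_true b3⟩

/-- the record of an edge key and a neighbour is correct -/
theorem Kz.rcOk (h : Kz K WL) {p u : Nat} (hp : p < 137438953472) (hl : K.loc p u ≠ 0) :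
    RecOk K p (K.X.J u) (rcd (K.Y p) (K.loc p u)) := by
  rw [K.loc_eq] at hl
  have hY : K.Y p ≠ 0 := by
    intro h0
    rw [if_pos h0] at hl
    exact hl rfl
  rw [if_neg hY] at hl
  have hE : K.E (pr3 p u) ≠ 0 := by
    intro h0
    rw [if_pos h0] at hl
    exact hl rfl
  have h1 := h.kE _ hE
  unfold Kx.kE at h1
  rw [frc_eq, pr3_mod hp, pr3_div hp, brec_and] at h1
  have h2 := Nat.le_of_ble_eq_true h1.1
  have h3 := Nat.eq_of_beq_eq_true h1.2
  have h4 := h.kY _ hp hY
  unfold Kx.kY at h4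
  obtain ⟨j, hj⟩ : ∃ j, K.E (pr3 p u) = j + 1 := ⟨K.E (pr3 p u) - 1, by omega⟩
  have h5 := alln_iff.1 h4 j (by omega)
  rw [frc_eq, frc_eq, frc_eq] at h5
  have e : Nat.succ j = K.E (pr3 p u) := hj.symm
  rw [e, h3] at h5
  have e2 : K.loc p u = lY (K.Y p) (K.E (pr3 p u)) := by
    rw [K.loc_eq, if_neg hY, if_neg hE]
  rw [e2]
  exact h.recOk h5

theorem Kz.y_or (h : Kz K WL) {p u : Nat} (hp : p < 137438953472) (hu : u < 8589934592)
    (c1 c2 : Nat) :
    K.y p u c1 c2 = 65536 ∨ K.y p u c1 c2 + K.y (swk p u) (mi p) c2 c1 = 131072 := by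
  by_cases hl : K.loc p u = 0
  · left
    rw [K.y_eq, if_pos hl]
  · have hr := h.rcOk hp hl
    have e1 := K.y_eq p u c1 c2
    rw [if_neg hl] at e1
    rcases hr.e c1 c2 with h1 | h1 | ⟨-, -, h1⟩
    · left
      rw [e1, h1]
      exact yF_r
    · left
      rw [e1, h1]
      exact yF_c
    · by_cases h2 : rwk (rcd (K.Y p) (K.loc p u)) (K.B (pr2 (lo p) c1)) = 255
      · left
        rw [e1, h2]
        exact yF_r
      · by_cases h3 : clk (rcd (K.Y p) (K.loc p u)) (K.C (pr2 (lo p) c2)) = 255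
        · left
          rw [e1, h3]
          exact yF_c
        · rw [yF_eq h2 h3] at e1
          rw [← e1] at h1
          rcases h1 with h1 | ⟨d1, d2, f1, f2, h1⟩
          · exact Or.inl h1
          · right
            have hq := swk_lt hp hu
            have wR := hr.wR
            have wC := hr.wC
            rw [swk_J h.j, Jk.rc h.j h.jk hq] at wR wC
            rw [swk_J h.j, Jk.y1 h.j h.jk hq] at h1
            rw [← h1]
            congr 1
            -- the other side does not depend on the codes of wildcards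
            rw [K.y_eq, K.y_eq]
            by_cases hl' : K.loc (swk p u) (mi p) = 0
            · rw [if_pos hl', if_pos hl']
            · rw [if_neg hl', if_neg hl']
              have er : K.rc (swk p u) (mi p) =
                  rcd (K.Y (swk p u)) (K.loc (swk p u) (mi p)) := by
                rw [K.rc_eq, if_neg hl']
              rw [er] at wR wC
              congr 1
              · rcases f2 with f2 | f2
                · rw [f2, h.jk.B2 _ _ (lo_lt _)]
                · rw [rwk_zero (wC f2), rwk_zero (wC f2)]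
              · rcases f1 with f1 | f1
                · rw [f1, h.jk.C2 _ _ (lo_lt _)]
                · rw [clk_zero (wR f1), clk_zero (wR f1)]

/-- the gains of the two ends of an edge cancel -/
theorem Kz.y_sum (h : Kz K WL) {p u : Nat} (hp : p < 137438953472) (hu : u < 8589934592)
    (c1 c2 : Nat) : K.y p u c1 c2 + K.y (swk p u) (mi p) c2 c1 = 131072 := by
  rcases h.y_or (u := u) hp hu c1 c2 with h1 | h1
  · have h2 := h.y_or (u := mi p) (swk_lt hp hu) (mi_lt p) c2 c1
    rw [swk_swk hp hu, mi_swk hu] at h2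
    rcases h2 with h2 | h2
    · omega
    · omega
  · exact h1

/-- the gains of the two ends of an edge cancel (words) -/
theorem Kz.hz (h : Kz K WL) (a b c d : List Nat) : K.yw a b c d + K.yw b a d c = 0 := by
  unfold Kx.yw
  dsimp only
  have hp : ∀ a, K.aq a < 137438953472 := fun a => aqk_lt K.qt a
  have hpa := hp (K.X.W.P.Q.ky (enc a))
  have hpb := hp (K.X.W.P.Q.ky (enc b))
  generalize K.aq (K.X.W.P.Q.ky (enc a)) = p at hpa ⊢
  generalize K.aq (K.X.W.P.Q.ky (enc b)) = q at hpb ⊢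
  generalize blc K.X.W.P.Q.bm (enc c) = c1
  generalize blc K.X.W.P.Q.bm (enc d) = c2
  by_cases hh : q = swk p (mi q) ∧ p = swk q (mi p) ∧ c1 < 1073741824 ∧ c2 < 1073741824
  · obtain ⟨h1, h2, h3, h4⟩ := hh
    rw [if_pos ⟨h1, h2, h3, h4⟩, if_pos ⟨h2, h1, h4, h3⟩]
    have h5 := h.y_sum hpa (mi_lt q) c1 c2
    rw [← h1] at h5
    omega
  · rw [if_neg hh, if_neg fun h => hh ⟨h.2.1, h.1, h.2.2.2, h.2.2.1⟩]
    rfl

/-! ### Bounds with unknown codes -/

/-! ### The checks of the triangles -/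

theorem okr_mono {P : Pn} {a df b g g' r : Nat} (hg : g' ≤ g) (h : P.okr a df b g r = true) :
    P.okr a df b g' r = true := by
  unfold Pn.okr at h ⊢
  cases h1 : Nat.ble g' df with
  | true => rfl
  | false =>
    have h2 : Nat.ble g df = false := by
      rw [← Bool.not_eq_true, Nat.ble_eq] at h1 ⊢
      omega
    rw [h2] at h
    dsimp only at h ⊢
    cases h3 : Nat.beq r (nat_lit 0) with
    | true => rw [h3] at h; exact h
    | false =>
      rw [h3] at h
      dsimp only at h ⊢
      cases h4 : Nat.ble g (Nat.div r (nat_lit 8589934592)) with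
      | true =>
        have h5 : Nat.ble g' (Nat.div r (nat_lit 8589934592)) = true :=
          Nat.ble_eq_true_of_le (le_trans hg (Nat.le_of_ble_eq_true h4))
        rw [h5]
      | false =>
        rw [h4] at h
        cases h5 : Nat.ble g' (Nat.div r (nat_lit 8589934592)) with
        | true => rfl
        | false => exact h

theorem Kx.okz_eq {a df b : Nat} {cl : List (Nat × Nat)} : K.okz a df cl b =
    Bool.rec (motive := fun _ => Bool) (K.X.W.P.okr a df b (K.gk a b) (rdk (mi b) cl)) true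
      (Nat.ble (K.gk a b) df) := by
  unfold Pool.FCP.Kx.okz
  rw [frc_eq, frc_eq]

theorem Px.okz_eq {X : Px} {a df b : Nat} {cl : List (Nat × Nat)} : X.okz a df cl b =
    X.W.P.okr a df b (X.gk a b) (rdk (mi b) cl) := by
  unfold Pool.FCP.Px.okz
  rw [frc_eq, frc_eq]

theorem Kx.okz_x {a df b : Nat} {cl : List (Nat × Nat)} (h : K.okz a df cl b = true) :
    K.X.okz a df cl b = true := by
  have hg : K.X.gk a b ≤ K.gk a b := by
    show K.X.W.P.Q.Gn a b + K.X.ae a (mi b) ≤ K.X.W.P.Q.Gn a b + (K.X.ae a (mi b) +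
      K.ay a (mi b))
    omega
  rw [Kx.okz_eq] at h
  rw [Px.okz_eq]
  cases h1 : Nat.ble (K.gk a b) df with
  | true =>
    have h2 : Nat.ble (K.X.gk a b) df = true :=
      Nat.ble_eq_true_of_le (le_trans hg (Nat.le_of_ble_eq_true h1))
    unfold Pn.okr
    rw [h2]
  | false =>
    rw [h1] at h
    exact okr_mono hg h

theorem Kx.soz_x {a : Nat} {L : List (Nat × Nat)} (h : K.soz WL a L = true) :
    K.X.soz WL a L = true := by
  cases L with
  | nil => rfl
  | cons q cl =>
    have e1 : K.soz WL a (q :: cl) =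
      (bif (bif Nat.ble (Nat.sub K.X.W.P.Q.sh (K.X.W.P.nk a)) q.1 then true else
        lst (Nat.sub K.X.W.P.Q.sh (K.X.W.P.nk a)) 1 cl) then
        (alln 32 fun f => bif K.X.W.P.Q.cme f (Nat.div (hi a) 32) then
            alln 32 fun l => bif K.X.W.P.Q.cme (Nat.mod (hi a) 32) l then
              allb (K.okz a q.1 cl) (WL.get (Nat.add f (Nat.mul 32 l))) else true
          else true)
      else false) := rfl
    have e2 : K.X.soz WL a (q :: cl) =
      (bif (bif Nat.ble (Nat.sub K.X.W.P.Q.sh (K.X.W.P.nk a)) q.1 then true else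
        lst (Nat.sub K.X.W.P.Q.sh (K.X.W.P.nk a)) 1 cl) then
        (alln 32 fun f => bif K.X.W.P.Q.cme f (Nat.div (hi a) 32) then
            alln 32 fun l => bif K.X.W.P.Q.cme (Nat.mod (hi a) 32) l then
              allb (K.X.okz a q.1 cl) (WL.get (Nat.add f (Nat.mul 32 l))) else true
          else true)
      else false) := rfl
    rw [e1, cond_true_iff] at h
    rw [e2, cond_true_iff]
    refine ⟨h.1, ?_⟩
    rw [alln_iff]
    intro f hf
    have h1 := alln_iff.1 h.2 f hf
    cases hc : K.X.W.P.Q.cme f (Nat.div (hi a) 32) with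
    | false => rfl
    | true =>
      rw [hc] at h1
      dsimp only [cond_true] at h1 ⊢
      rw [alln_iff]
      intro l hl
      have h2 := alln_iff.1 h1 l hl
      cases hd : K.X.W.P.Q.cme (Nat.mod (hi a) 32) l with
      | false => rfl
      | true =>
        rw [hd] at h2
        exact allb_of fun b hb => Kx.okz_x (allb_sound h2 b hb)

/-- the checks of the triangles -/
theorem Kz.kt (h : Kz K WL) : Kt K.X WL :=
  ⟨h.j, h.jv, h.kM, h.kB, h.kC, h.kV, h.kA, BT.allB_mono (fun _ _ h1 => Kx.soz_x h1) h.so,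
    BT.allB_mono (fun _ _ h1 => Kx.kW_x h1) h.kW⟩

/-- a key without list of candidates has no records -/
theorem Kz.k0 (h : Kz K WL) {k a : Nat} (ha : a ∈ WL.get k)
    (h0 : K.X.W.P.Q.SG.get a = []) : K.Y (K.aq a) = 0 := by
  have h1 : WL.get k ≠ [] := by
    intro h1; rw [h1] at ha; simp at ha
  have h2 := allb_sound (show allb _ _ = true from BT.allB_sound h.kW _ (BT.get_mem h1)) a ha
  rw [cond_true_iff] at h2
  have h3 := h2.2
  unfold Kx.k0 at h3
  rw [nilb_iff.2 h0] at h3
  dsimp only [cond_true] at h3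
  rw [cond_true_iff] at h3
  exact Nat.eq_of_beq_eq_true h3.2

end

end Pool.FCP.Qz
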