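import Pool.Agent.FCV.Qj
import Pool.Agent.FCP.Yc

/-!
# Flows on kites: the gain of a dart
-/

set_option linter.unusedVariables false

namespace Pool.FCP.Qz

open Pool.FCS Finset

variable {D : Type*}

noncomputable section

variable {K : Kx} {WL WM : BT (List Nat)}

section sound

variable {cmp cmp' cmpS : Nat → Nat → Bool} {sol sol' lng : Nat → Bool}
  {S : Sys D} {cc f : Nat → Nat} {le : Nat → Nat → Bool}
  {ml : Nat → Nat} {e : D}

/-- the gain at a position, coarse system -/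
theorem Kz.kgx (hx : Kz K WL) (hv : Hv cmpS cmp cmp' sol sol' S cc f K.X.W.P le)
    (hcs : ∀ x y, cmp x y = true → sol x = sol y)
    (hcq : ∀ x y, cmp x y = true → qcl K.qt (x + 1) = qcl K.qt (y + 1))
    (hsm : ∀ e, ∀ x ∈ (S.mp cc).W e, tb K.X.W.P.Q.sm (f x + 1) = sol x) (he : S.W e ≠ [])
    {i : Nat} (hil : i < (S.W e).length) :
    Pool.FCS.kgx sol K.yw (S.mp cc) ((S.mp cc).nx^[i] e) =
      K.yi (S.mp cc) e (S.W e).length i := by
  have hY := hv.h2.ok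
  have hY' := hv.h2.ok'
  have hb := hv.h2.hb
  have he' : (S.mp cc).W e ≠ [] := mp_ne.2 he
  obtain ⟨Y, hYd⟩ : ∃ Y, Y = S.mp cc := ⟨_, rfl⟩
  have hke : ∀ j, K.X.W.ke (Y.c e) j = K.X.W.P.Q.ky (Y.c (Y.nx^[j] e)) := by
    intro j
    unfold Pw.ke
    rw [hYd, rot_c hY he' j]
  have hni : Y.nx^[i] e = Y.nx (Y.nx^[prv (S.W e).length i] e) := by
    have h1 := nx_nxt hY he' (prv (S.W e).length i)
    rw [mlen, nxt_prv hil] at h1
    rw [hYd]
    exact h1
  have hnn : Y.nx^[nxt (S.W e).length i] e = Y.nx (Y.nx^[i] e) := by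
    have h1 := nx_nxt hY he' i
    rw [mlen] at h1
    rw [hYd]
    exact h1
  rw [← hYd] at hY hY' hb hsm he' ⊢
  have hei := hY.ne_iter he' i
  have hep := hY.ne_iter he' (prv (S.W e).length i)
  -- letters
  have fst : ∀ d, Y.W d ≠ [] → Nat.mod (blc K.X.W.P.Q.bm (Y.c d)) 32 =
      f ((Y.W d).getD 0 0) + 1 ∧ tb K.X.W.P.Q.sm (f ((Y.W d).getD 0 0) + 1) =
        sol ((Y.W d).getD 0 0) := by
    intro d hd
    have h4 := (hY.len d hd).1
    have hm : (Y.W d).getD 0 0 ∈ Y.W d := by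
      rw [List.getD_eq_getElem _ _ (by omega)]; exact List.getElem_mem _
    refine ⟨?_, hsm d _ hm⟩
    rw [hb.bl hY, hY'.dg0 (mp_ne.2 hd)]
    show ((Y.W d).map f).getD 0 0 + 1 = _
    rw [getD_map0 (by omega)]
  unfold Pool.FCS.kgx Kx.yi
  by_cases h1 : Y.W (Y.al (Y.nx^[i] e)) ≠ []
  · rw [if_pos h1]
    have n1 : K.X.W.P.nfy Y e i = nfc K.X.W.P.Q.bm K.X.W.P.Q.wm K.X.W.P.Q.sm
      (Y.c (Y.al (Y.nx^[i] e))) := nf_ne h1
    have g1 := hb.nge (wm := K.X.W.P.Q.wm) (sm := K.X.W.P.Q.sm) hY h1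
    rw [if_neg (show ¬ K.X.W.P.nfy Y e i ≤ 1 by omega)]
    unfold Kx.yw
    dsimp only
    -- the edge keys
    have hia : hi (K.X.W.P.Q.ky (Y.c (Y.nx^[i] e))) =
        Y.c (Y.nx^[i] e) % 32 + 32 * (Y.c (Y.nx^[i] e) / pw (Y.c (Y.nx^[i] e))) :=
      hi_kfc (hb.lt hY _)
    have hib : hi (K.X.W.P.Q.ky (Y.c (Y.al (Y.nx^[i] e)))) =
        Y.c (Y.al (Y.nx^[i] e)) % 32 +
          32 * (Y.c (Y.al (Y.nx^[i] e)) / pw (Y.c (Y.al (Y.nx^[i] e)))) :=
      hi_kfc (hb.lt hY _)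
    have a0 : Y.c (Y.nx^[i] e) % 32 = (Y.W (Y.nx^[i] e)).getD 0 0 + 1 := hY.dg0 hei
    have a1 : Y.c (Y.nx^[i] e) / pw (Y.c (Y.nx^[i] e)) =
      (Y.W (Y.nx^[i] e)).getD ((Y.W (Y.nx^[i] e)).length - 1) 0 + 1 := hY.dgl hei
    have b0 : Y.c (Y.al (Y.nx^[i] e)) % 32 = (Y.W (Y.al (Y.nx^[i] e))).getD 0 0 + 1 := hY.dg0 h1
    have b1 : Y.c (Y.al (Y.nx^[i] e)) / pw (Y.c (Y.al (Y.nx^[i] e))) =
      (Y.W (Y.al (Y.nx^[i] e))).getD ((Y.W (Y.al (Y.nx^[i] e))).length - 1) 0 + 1 := hY.dgl h1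
    have sm31 : ∀ d, Y.W d ≠ [] → (Y.W d).getD 0 0 + 1 < 32 := by
      intro d hd
      have h4 := (hY.len d hd).1
      have := hY.sm d _ (show (Y.W d).getD 0 0 ∈ Y.W d by
        rw [List.getD_eq_getElem _ _ (by omega)]; exact List.getElem_mem _)
      omega
    have ha0 : hi (K.X.W.P.Q.ky (Y.c (Y.nx^[i] e))) % 32 =
        (Y.W (Y.nx^[i] e)).getD 0 0 + 1 := by
      have := sm31 _ hei
      rw [hia, a0]
      omega
    have ha1 : hi (K.X.W.P.Q.ky (Y.c (Y.nx^[i] e))) / 32 =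
        (Y.W (Y.nx^[i] e)).getD ((Y.W (Y.nx^[i] e)).length - 1) 0 + 1 := by
      have := sm31 _ hei
      rw [hia, a0, a1]
      omega
    have hb0 : hi (K.X.W.P.Q.ky (Y.c (Y.al (Y.nx^[i] e)))) % 32 =
        (Y.W (Y.al (Y.nx^[i] e))).getD 0 0 + 1 := by
      have := sm31 _ h1
      rw [hib, b0]
      omega
    have hb1 : hi (K.X.W.P.Q.ky (Y.c (Y.al (Y.nx^[i] e)))) / 32 =
        (Y.W (Y.al (Y.nx^[i] e))).getD ((Y.W (Y.al (Y.nx^[i] e))).length - 1) 0 + 1 := by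
      have := sm31 _ h1
      rw [hib, b0, b1]
      omega
    have c0 := hcq _ _ (hY.cmp (Y.nx^[i] e) hei h1)
    have c1 : qcl K.qt ((Y.W (Y.al (Y.nx^[i] e))).getD 0 0 + 1) =
        qcl K.qt ((Y.W (Y.nx^[i] e)).getD ((Y.W (Y.nx^[i] e)).length - 1) 0 + 1) := by
      have h2 := hY.cmp (Y.al (Y.nx^[i] e)) h1 (by rw [hY.alal]; exact hei)
      rw [hY.alal] at h2
      exact hcq _ _ h2
    have q1 : K.aq (K.X.W.P.Q.ky (Y.c (Y.al (Y.nx^[i] e)))) =
        swk (K.aq (K.X.W.P.Q.ky (Y.c (Y.nx^[i] e))))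
          (mi (K.X.W.P.Q.ky (Y.c (Y.al (Y.nx^[i] e))))) :=
      aqk_swk (by rw [ha0, hb1]; exact c0) (by rw [ha1, hb0]; exact c1.symm)
    have q2 : K.aq (K.X.W.P.Q.ky (Y.c (Y.nx^[i] e))) =
        swk (K.aq (K.X.W.P.Q.ky (Y.c (Y.al (Y.nx^[i] e)))))
          (mi (K.X.W.P.Q.ky (Y.c (Y.nx^[i] e)))) :=
      aqk_swk (by rw [hb0, ha1]; exact c1) (by rw [hb1, ha0]; exact c0.symm)
    have m1 : mi (K.X.W.P.Q.ky (Y.c (Y.al (Y.nx^[i] e)))) = K.X.W.P.nfy Y e i := by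
      rw [n1]
      exact mi_kfc (hb.lt hY _)
    -- the condition
    have l1 : ∀ (p : Prop) [Decidable p] (d : D),
        blc K.X.W.P.Q.bm (enc (if p then Y.W d else [])) < 1073741824 := by
      intro p _ d
      by_cases hp : p
      · rw [if_pos hp]
        exact hb.lt hY d
      · rw [if_neg hp]
        exact Nat.zero_lt_succ _
    have e1 : enc (Y.W (Y.nx^[i] e)) = Y.c (Y.nx^[i] e) := rfl
    have e2 : enc (Y.W (Y.al (Y.nx^[i] e))) = Y.c (Y.al (Y.nx^[i] e)) := rfl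
    have e3 : ∀ a, mi (K.aq a) = mi a := fun a => mi_aqk K.qt a
    rw [e1, e2, e3, e3, if_pos ⟨q1, q2, l1 _ _, l1 _ _⟩, m1, ← hke i]
    have hloc : lo (K.aq (K.X.W.ke (Y.c e) i)) = blc K.X.W.P.Q.bm (Y.c (Y.nx^[i] e)) := by
      have h2 : lo (K.aq (K.X.W.ke (Y.c e) i)) = lo (K.X.W.ke (Y.c e) i) := lo_aqk K.qt _
      rw [h2, hke i]
      exact lo_kfc (hb.lt hY _)
    have hp37 : K.aq (K.X.W.ke (Y.c e) i) < 137438953472 := aqk_lt K.qt _
    congr 2
    apply Kx.y_congr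
    · -- the sector before the edge
      have hal : Y.al (Y.nx^[i] e) = Y.rh (Y.nx^[prv (S.W e).length i] e) := by
        show _ = Y.al (Y.nx _)
        rw [← hni]
      have hs0 : sol ((Y.W (Y.al (Y.nx^[i] e))).getD 0 0) =
          sol ((Y.W (Y.nx^[prv (S.W e).length i] e)).getD 0 0) := by
        rw [hal]
        exact hY.rh_sol' hcs hep (by rw [← hal]; exact h1)
      by_cases hs : sol ((Y.W (Y.nx^[prv (S.W e).length i] e)).getD 0 0) = true
      · left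
        rw [hs0, if_pos hs, hal]
        by_cases h2 : Y.W (Y.al (Y.nx^[prv (S.W e).length i] e)) = []
        · have h3 : Y.W (Y.rh (Y.rh (Y.nx^[prv (S.W e).length i] e))) = [] := by
            by_contra h3
            exact (hY.rh_ne hep hs).1 h3 h2
          have n2 : K.X.W.P.nfy Y e (prv (S.W e).length i) = 1 := nf_nil h2
          rw [h3, n2]
          rfl
        · have n2 : K.X.W.P.nfy Y e (prv (S.W e).length i) =
            nfc K.X.W.P.Q.bm K.X.W.P.Q.wm K.X.W.P.Q.sm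
              (Y.c (Y.al (Y.nx^[prv (S.W e).length i] e))) := nf_ne h2
          have g2 := hb.nge (wm := K.X.W.P.Q.wm) (sm := K.X.W.P.Q.sm) hY h2
          rw [cB_gt (by omega), n2, lo_nfc (hb.lt hY _), ← (hY.rh3 hep hs).1, hb.bl hY]
          show blc K.X.W.P.Q.bm (Y.c (Y.rh (Y.rh (Y.nx^[prv (S.W e).length i] e)))) = _
          rw [hb.bl hY]
          exact (hY'.c_pr (mp_ne.2 ((hY.rh_ne hep hs).2 h2))).symm
      · right
        by_cases hl : K.loc (K.aq (K.X.W.ke (Y.c e) i)) (K.X.W.P.nfy Y e i) = 0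
        · rw [K.rc_eq, if_pos hl]
          rfl
        · rw [K.rc_eq, if_neg hl]
          rcases (hx.rcOk hp37 hl).sR with h2 | h2
          · exfalso
            apply hs
            rw [hloc, hni, hb.bl hY] at h2
            have h3 : rrc ((Y.mp f).c ((Y.mp f).nx (Y.nx^[prv (S.W e).length i] e))) =
              (Y.mp f).c (Y.nx^[prv (S.W e).length i] e) := hY'.c_pr (mp_ne.2 hep)
            have h4 : tb K.X.W.P.Q.sm (Nat.mod (rrc ((Y.mp f).c
              ((Y.mp f).nx (Y.nx^[prv (S.W e).length i] e)))) 32) = true := h2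
            rw [h3, ← hb.bl hY, (fst _ hep).1, (fst _ hep).2] at h4
            exact h4
          · exact h2
    · -- the sector behind the edge
      by_cases hs : sol ((Y.W (Y.nx^[i] e)).getD 0 0) = true
      · left
        rw [if_pos hs]
        have h4 : Y.rh (Y.nx^[i] e) = Y.al (Y.nx^[nxt (S.W e).length i] e) := by
          rw [hnn]
          rfl
        by_cases h2 : Y.W (Y.al (Y.nx^[nxt (S.W e).length i] e)) = []
        · have n2 : K.X.W.P.nfy Y e (nxt (S.W e).length i) = 1 := nf_nil h2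
          rw [h4, h2, n2]
          rfl
        · have n2 : K.X.W.P.nfy Y e (nxt (S.W e).length i) =
            nfc K.X.W.P.Q.bm K.X.W.P.Q.wm K.X.W.P.Q.sm
              (Y.c (Y.al (Y.nx^[nxt (S.W e).length i] e))) := nf_ne h2
          have g2 := hb.nge (wm := K.X.W.P.Q.wm) (sm := K.X.W.P.Q.sm) hY h2
          rw [cC_gt (by omega), n2, lo_nfc (hb.lt hY _), h4]
          rfl
      · right
        by_cases hl : K.loc (K.aq (K.X.W.ke (Y.c e) i)) (K.X.W.P.nfy Y e i) = 0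
        · rw [K.rc_eq, if_pos hl]
          rfl
        · rw [K.rc_eq, if_neg hl]
          rcases (hx.rcOk hp37 hl).sC with h2 | h2
          · exfalso
            apply hs
            rw [hloc, (fst _ hei).1, (fst _ hei).2] at h2
            exact h2
          · exact h2
  · rw [if_neg h1]
    have h2 : Y.W (Y.al (Y.nx^[i] e)) = [] := by
      by_contra h3
      exact h1 h3
    have n2 : K.X.W.P.nfy Y e i = 1 := nf_nil h2
    rw [if_pos (le_of_eq n2)]

/-- the sum of the gains around a vertex -/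
theorem Kz.sum_kgx (hx : Kz K WL) (hv : Hv cmpS cmp cmp' sol sol' S cc f K.X.W.P le)
    (hcs : ∀ x y, cmp x y = true → sol x = sol y)
    (hcq : ∀ x y, cmp x y = true → qcl K.qt (x + 1) = qcl K.qt (y + 1))
    (hsm : ∀ e, ∀ x ∈ (S.mp cc).W e, tb K.X.W.P.Q.sm (f x + 1) = sol x) (he : S.W e ≠ []) :
    ∑ i ∈ range (S.W e).length, K.yi (S.mp cc) e (S.W e).length i =
      ∑ i ∈ range ((S.mp cc).W e).length,
        Pool.FCS.kgx sol K.yw (S.mp cc) ((S.mp cc).nx^[i] e) := by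
  rw [mlen]
  refine sum_congr rfl fun i hi => ?_
  rw [mem_range] at hi
  exact (hx.kgx hv hcs hcq hsm he hi).symm

end sound

end

end Pool.FCP.Qz
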