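import Pool.Agent.FCV.Ql
import Pool.Agent.FCP.Ye

/-!
# Star check with flows on kites: the search, the positions
-/

set_option linter.unusedVariables false

namespace Pool.FCP.Qz

open Pool.FCS

open Finset

noncomputable section

variable {K : Kx} {WL WM : BT (List Nat)}

section sound

variable {D : Type*} {cmp cmp' cmpS : Nat → Nat → Bool} {sol sol' lng : Nat → Bool}
  {S : Sys D} {cc f : Nat → Nat} {X : Px} {le : Nat → Nat → Bool}
  {ml : Nat → Nat} {e : D}

/-- the position is correct for the neighbour `b`, with all allowances -/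
def _root_.Pool.FCP.Kx.PosOk4z (K : Kx) (a b : Nat) : Prop :=
  K.X.W.P.G2 a b + K.az (K.X.W.P.Q.ky a) (K.X.W.P.Q.nz b) ≤
      (K.X.W.P.Q.pos (K.X.W.P.Q.ky a) 0).df ∨
    ∃ g, (g, rdl (K.X.W.P.Q.pos (K.X.W.P.Q.ky a) 0).cl (K.X.W.P.Q.nz b)) ∈
        (K.X.W.P.Q.pos (K.X.W.P.Q.ky a) 0).cl ∧
      K.X.W.P.G2 a b + K.az (K.X.W.P.Q.ky a) (K.X.W.P.Q.nz b) ≤ g

theorem _root_.Pool.FCP.Kx.PosOk4z.x {a b : Nat} (h : K.PosOk4z a b) : K.X.PosOk3z a b := by
  have e : K.az (K.X.W.P.Q.ky a) (K.X.W.P.Q.nz b) =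
    K.X.ae (K.X.W.P.Q.ky a) (K.X.W.P.Q.nz b) + K.ay (K.X.W.P.Q.ky a) (K.X.W.P.Q.nz b) := rfl
  unfold Kx.PosOk4z at h
  rw [e] at h
  rcases h with h | ⟨g, h1, h2⟩
  · exact Or.inl (by omega)
  · exact Or.inr ⟨g, h1, by omega⟩

/-- the gain without allowances -/
theorem Kz.gax_le (hx : Kz K WL) (hv : Hv cmpS cmp cmp' sol sol' S cc f K.X.W.P le)
    (hK : Kk K.X.W ((S.mp cc).c e) (S.W e).length) {i : Nat} (hi : i < (S.W e).length)
    (h0 : K.X.W.P.kpz (S.mp cc) e i ≠ 0) {G : Nat}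
    (hG : G + K.az (K.X.W.ke ((S.mp cc).c e) i) (K.X.W.P.nfy (S.mp cc) e i) ≤
      gn (kg (K.X.W.kr ((S.mp cc).c e) i)) (K.X.W.P.kpz (S.mp cc) e i)) :
    G ≤ gn (K.X'.ga (K.X.W.ke ((S.mp cc).c e) i) (K.X.W.kr ((S.mp cc).c e) i))
      (K.X.W.P.kpz (S.mp cc) e i) := by
  have hp := kok_kp (hK i hi)
  have q1 : (K.X.W.P.ps ((S.mp cc).c e) i).cl =
      (K.X.W.P.Q.pos (K.X.W.ke ((S.mp cc).c e) i) 0).cl := Pm.pos_cl _ _ _
  have hn : (K.X.W.P.ps ((S.mp cc).c e) i).cl.length = kn (K.X.W.kr ((S.mp cc).c e) i) := by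
    rw [q1]; exact hp.n
  have hkl : K.X.W.P.kpz (S.mp cc) e i ≤ kn (K.X.W.kr ((S.mp cc).c e) i) := by
    rw [← hn]; exact ix_le _ _
  have eaz : K.az (K.X.W.ke ((S.mp cc).c e) i) (K.X.W.P.nfy (S.mp cc) e i) =
    K.X.ae (K.X.W.ke ((S.mp cc).c e) i) (K.X.W.P.nfy (S.mp cc) e i) +
      K.ay (K.X.W.ke ((S.mp cc).c e) i) (K.X.W.P.nfy (S.mp cc) e i) := rfl
  by_cases ha : K.kb (K.X.W.ke ((S.mp cc).c e) i) = 0
  · have hG2 : G + K.ay (K.X.W.ke ((S.mp cc).c e) i) (K.X.W.P.nfy (S.mp cc) e i) +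
        K.X.ae (K.X.W.ke ((S.mp cc).c e) i) (K.X.W.P.nfy (S.mp cc) e i) ≤
        gn (kg (K.X.W.kr ((S.mp cc).c e) i)) (K.X.W.P.kpz (S.mp cc) e i) := by
      rw [eaz] at hG
      omega
    have h1 := Pool.FCP.Qz.gax_le hx.kt hv hK hi h0 hG2
    have e1 : K.X'.ka (K.X.W.ke ((S.mp cc).c e) i) = K.X.ka (K.X.W.ke ((S.mp cc).c e) i) := by
      show frc (K.kb (K.X.W.ke ((S.mp cc).c e) i)) (fun G =>
        Bool.rec (motive := fun _ => Nat) G (K.X.ka (K.X.W.ke ((S.mp cc).c e) i))
          (Nat.beq G (nat_lit 0))) = _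
      rw [frc_eq, ha]
      rfl
    have e2 : K.X'.ga (K.X.W.ke ((S.mp cc).c e) i) (K.X.W.kr ((S.mp cc).c e) i) =
        K.X.ga (K.X.W.ke ((S.mp cc).c e) i) (K.X.W.kr ((S.mp cc).c e) i) := by
      unfold Px.ga
      rw [e1]
    rw [e2]
    omega
  · have e1 : K.X'.ka (K.X.W.ke ((S.mp cc).c e) i) = K.kb (K.X.W.ke ((S.mp cc).c e) i) := by
      show frc (K.kb (K.X.W.ke ((S.mp cc).c e) i)) (fun G =>
        Bool.rec (motive := fun _ => Nat) G (K.X.ka (K.X.W.ke ((S.mp cc).c e) i))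
          (Nat.beq G (nat_lit 0))) = _
      rw [frc_eq, beq_false_of ha]
    have e2 : K.X'.ga (K.X.W.ke ((S.mp cc).c e) i) (K.X.W.kr ((S.mp cc).c e) i) =
        K.kb (K.X.W.ke ((S.mp cc).c e) i) := by
      unfold Px.ga
      rw [frc_eq, e1, beq_false_of ha]
    rw [e2]
    have h1 := hx.kb _ ha
    unfold Kx.kkb at h1
    rw [frc_eq] at h1
    obtain ⟨k, hk⟩ : ∃ k, K.X.W.P.kpz (S.mp cc) e i = k + 1 :=
      ⟨K.X.W.P.kpz (S.mp cc) e i - 1, by omega⟩
    have h2 := alln_iff.1 h1 k (by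
      show k < kn (K.X.W.kr ((S.mp cc).c e) i)
      omega)
    rw [frc_eq, frc_eq] at h2
    have e3 : Nat.succ k = K.X.W.P.kpz (S.mp cc) e i := hk.symm
    rw [e3, cd_kp hv h0] at h2
    have h3 := Nat.le_of_ble_eq_true h2
    have h4 : gn (kg (K.X.W.kr ((S.mp cc).c e) i)) (K.X.W.P.kpz (S.mp cc) e i) ≤
      gn (K.kb (K.X.W.ke ((S.mp cc).c e) i)) (K.X.W.P.kpz (S.mp cc) e i) +
        K.az (K.X.W.ke ((S.mp cc).c e) i) (K.X.W.P.nfz (S.mp cc) e i) := h3
    have he : S.W e ≠ [] := by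
      intro h
      rw [h] at hi
      exact Nat.not_lt_zero _ hi
    rw [az_nfz hx hv he hi] at h4
    omega

/-- the positions are correct -/
theorem Kz.pq_ok (hx : Kz K WL) (hv : Hv cmpS cmp cmp' sol sol' S cc f K.X.W.P le)
    (hk : Hk le ml sol S cc f K.X.W) (hk3 : Hk3 ml S cc f K.X.W) (he : S.W e ≠ []) (hN : Nr sol (S.mp cc) e)
    (hWL : ∀ e, (S.mp cc).W e ≠ [] →
      K.X.W.P.Q.ky ((S.mp cc).c e) ∈ WL.get (hi (K.X.W.P.Q.ky ((S.mp cc).c e))))
    (hpos : ∀ e, (S.mp cc).W e ≠ [] → K.PosOk4z ((S.mp cc).c e) ((S.mp cc).c ((S.mp cc).al e)))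
    (hK : Kk K.X.W ((S.mp cc).c e) (S.W e).length)
    (hkc : ∀ i < (S.W e).length, K.X.kc ((S.mp cc).c e) (S.W e).length i = true)
    (hkk : ∀ i < (S.W e).length, K.kc ((S.mp cc).c e) (S.W e).length i = true) {V : List Nat}
    (hV : Cov K.X.W.P V (S.W e)) {i N : Nat} (hi : i < (S.W e).length)
    (h : K.X.W.cks ((S.mp cc).c e) (S.W e).length (wsl K.X.W.P.Q.wm ((S.mp cc).c e))
      (av2 K.X.W.lv V) (av2 K.X.W.lm (rvl V)) i (kn (K.X.W.kr ((S.mp cc).c e) i)) N = true)
    {pre : List Nat} (hpre : ∀ j ∈ pre, j < (S.W e).length) {B : Nat → Prop}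
    (hB : ∀ t, B t ↔ ∃ j ∈ pre, K.X.W.P.kpz (S.mp cc) e j ≠ 0 ∧
      t = K.X.W.P.w * j + K.X.W.P.kpz (S.mp cc) e j) :
    POk4 (K.X.W.P.taz (S.mp cc) e) B (K.X.W.P.kpz (S.mp cc) e i)
      ((K.X.W.P.G2 ((S.mp cc).c ((S.mp cc).nx^[i] e)) ((S.mp cc).nb e i) : ℤ) +
        (K.X.incz (S.mp cc) e (S.W e).length pre i + K.incz (S.mp cc) e (S.W e).length pre i))
      (K.pq ((S.mp cc).c e) (S.W e).length (wsl K.X.W.P.Q.wm ((S.mp cc).c e)) i N) := by
  have hp := kok_kp (hK i hi)
  have h4 := (hv.hS.len e he).1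
  have q1 : (K.X.W.P.ps ((S.mp cc).c e) i).cl =
      (K.X.W.P.Q.pos (K.X.W.ke ((S.mp cc).c e) i) 0).cl := Pm.pos_cl _ _ _
  have q2 : (K.X.W.P.ps ((S.mp cc).c e) i).df =
      (K.X.W.P.Q.pos (K.X.W.ke ((S.mp cc).c e) i) 0).df := Pm.pos_df _ _ _
  have c1 : pok (K.X.W.P.ps ((S.mp cc).c e) i).cl (K.X.W.P.ps ((S.mp cc).c e) i).df = true := by
    rw [q1, q2]; exact hp.pok
  have hn : (K.X.W.P.ps ((S.mp cc).c e) i).cl.length = kn (K.X.W.kr ((S.mp cc).c e) i) := by
    rw [q1]; exact hp.n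
  have hs := pok_srt c1
  have hkl : K.X.W.P.kpz (S.mp cc) e i ≤ kn (K.X.W.kr ((S.mp cc).c e) i) := by
    rw [← hn]; exact ix_le _ _
  have he' : (S.mp cc).W e ≠ [] := mp_ne.2 he
  -- the gain
  have hG : K.X.W.P.G2 ((S.mp cc).c ((S.mp cc).nx^[i] e)) ((S.mp cc).nb e i) +
      K.az (K.X.W.ke ((S.mp cc).c e) i) (K.X.W.P.nfy (S.mp cc) e i) ≤
      gi (K.X.W.P.ps ((S.mp cc).c e) i).df (K.X.W.P.ps ((S.mp cc).c e) i).cl
        (K.X.W.P.kpz (S.mp cc) e i) := by
    have h1 := hpos _ (hv.h2.ok.ne_iter he' i)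
    unfold Kx.PosOk4z at h1
    have h2 : (S.mp cc).c ((S.mp cc).nx^[i] e) = rot ((S.mp cc).c e) i :=
      (rot_c hv.h2.ok he' i).symm
    have h3 : (K.X.W.P.ps ((S.mp cc).c e) i).df =
        (K.X.W.P.Q.pos (K.X.W.P.Q.ky ((S.mp cc).c ((S.mp cc).nx^[i] e))) 0).df := by
      rw [h2]; exact Pm.pos_df _ _ _
    have h4 : (K.X.W.P.ps ((S.mp cc).c e) i).cl =
        (K.X.W.P.Q.pos (K.X.W.P.Q.ky ((S.mp cc).c ((S.mp cc).nx^[i] e))) 0).cl := by
      rw [h2]; exact Pm.pos_cl _ _ _
    have h6 : K.X.W.P.Q.ky ((S.mp cc).c ((S.mp cc).nx^[i] e)) =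
        K.X.W.ke ((S.mp cc).c e) i := by
      rw [h2]; rfl
    rw [← h3, ← h4, h6] at h1
    have h5 : K.X.W.P.Q.nz ((S.mp cc).c ((S.mp cc).al ((S.mp cc).nx^[i] e))) =
      K.X.W.P.nfy (S.mp cc) e i := rfl
    rw [h5] at h1
    rcases h1 with h1 | ⟨g, h1, h7⟩
    · exact le_trans h1 (df_le_gi hs _)
    · exact le_trans h7 (le_gi hs h1)
  have hgn : ∀ j, j ≤ kn (K.X.W.kr ((S.mp cc).c e) i) →
      gn (kg (K.X.W.kr ((S.mp cc).c e) i)) j =
      gi (K.X.W.P.ps ((S.mp cc).c e) i).df (K.X.W.P.ps ((S.mp cc).c e) i).cl j := by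
    intro j hj
    have eg : kg (K.X.W.kr ((S.mp cc).c e) i) =
        pk (K.X.W.P.ps ((S.mp cc).c e) i).cl (K.X.W.P.ps ((S.mp cc).c e) i).df := by
      rw [q1, q2]; exact hp.g
    rw [eg, gn_pk c1 (by omega)]
  have hinc := Pool.FCP.Qz.inc_le hx.kt hv he hi pre
  have hink := hx.inc_le (S.mp cc) e (S.W e).length pre i
  have eaz : K.az (K.X.W.ke ((S.mp cc).c e) i) (K.X.W.P.nfy (S.mp cc) e i) =
    K.X.ae (K.X.W.ke ((S.mp cc).c e) i) (K.X.W.P.nfy (S.mp cc) e i) +
      K.ay (K.X.W.ke ((S.mp cc).c e) i) (K.X.W.P.nfy (S.mp cc) e i) := rfl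
  have hG' := hG
  rw [eaz, ae_eq] at hG
  obtain ⟨A, A', -, eA, A0, A1, B0, B1⟩ := K.pq_eq ((S.mp cc).c e) (S.W e).length
    (wsl K.X.W.P.Q.wm ((S.mp cc).c e)) i N
  rw [eA]
  refine ⟨?_, fun j hj hf => ?_, fun h0 Z hZ => ⟨?_, fun s => ?_⟩⟩
  · show Nat.testBit (2 ^ (kn (K.X.W.kr ((S.mp cc).c e) i) + 1) - 1) _ = true
    rw [Nat.testBit_two_pow_sub_one, decide_eq_true_eq]
    omega
  · have hf' : Nat.testBit (2 ^ (kn (K.X.W.kr ((S.mp cc).c e) i) + 1) - 1) j = true := hf
    rw [Nat.testBit_two_pow_sub_one, decide_eq_true_eq] at hf'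
    show _ ≤ ((gn (kg (K.X.W.kr ((S.mp cc).c e) i)) j : Nat) : ℤ)
    rw [hgn j (by omega)]
    have h1 := gi_mono hs hj (show j ≤ (K.X.W.P.ps ((S.mp cc).c e) i).cl.length by omega)
    omega
  · have hZt : ∀ t, Nat.testBit Z t = true → K.X.W.P.taz (S.mp cc) e t := by
      intro t ht
      rcases (hZ t).1 ht with h1 | h1
      · obtain ⟨j, j1, j2, j3⟩ := (hB t).1 h1
        exact ⟨j, by rw [mlen]; exact hpre j j1, j3⟩
      · exact ⟨i, by rw [mlen]; exact hi, h1⟩
    have h9 := ckr_ok hv hk hk3 he hN hK hV hi h0 (cks_row h hkl) hZt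
    rw [← FCS.Pw.rfn_eq] at h9
    exact h9
  · have hZ' : ∀ t, Nat.testBit Z t = true ↔
        (B t ∨ t = K.X.W.P.w * i + K.X.W.P.kpz (S.mp cc) e i) := hZ
    have g1 := hx.gax_le hv hK hi h0 (G := K.X.W.P.G2 ((S.mp cc).c ((S.mp cc).nx^[i] e))
      ((S.mp cc).nb e i)) (by rw [hgn _ hkl]; exact hG')
    have hA := ax_ok hx.kt hv he hK hkc hi hpre hB h0 hZ' g1 A0 A1 s
    show (s : ℤ) + (_ + _) ≤ ((A (K.X.W.P.kpz (S.mp cc) e i) Z s : Nat) : ℤ)
    by_cases hY : K.Y (K.aq (K.X.W.ke ((S.mp cc).c e) i)) +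
        (K.Y (K.aq (K.X.W.ke ((S.mp cc).c e) (prv (S.W e).length i))) +
          K.Y (K.aq (K.X.W.ke ((S.mp cc).c e) (nxt (S.W e).length i)))) = 0
    · rw [B0 hY]
      have h5 : K.incz (S.mp cc) e (S.W e).length pre i = 0 := by
        unfold Kx.incz
        rw [if_neg h0, Kx.yb_y0 (by omega), Kx.yb_y0 (by omega), Kx.yb_y0 (by omega),
          Kx.yb_y0 (by omega), Kx.yb_y0 (by omega), sub_zero, ite_self, ite_self]
        rfl
      rw [h5]
      omega
    · rw [B1 hY]
      dsimp only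
      rw [frc_eq]
      have h6 := hx.all_ok hv hWL he hK hkk hi hpre hB h0 hZ' (A' (K.X.W.P.kpz (S.mp cc) e i) Z s)
      refine le_trans ?_ h6
      omega

/-- the positions are correct, one after the other -/
theorem Kz.chn (hx : Kz K WL) (hv : Hv cmpS cmp cmp' sol sol' S cc f K.X.W.P le)
    (hk : Hk le ml sol S cc f K.X.W) (hk3 : Hk3 ml S cc f K.X.W) (he : S.W e ≠ []) (hN : Nr sol (S.mp cc) e)
    (hWL : ∀ e, (S.mp cc).W e ≠ [] →
      K.X.W.P.Q.ky ((S.mp cc).c e) ∈ WL.get (hi (K.X.W.P.Q.ky ((S.mp cc).c e))))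
    (hpos : ∀ e, (S.mp cc).W e ≠ [] → K.PosOk4z ((S.mp cc).c e) ((S.mp cc).c ((S.mp cc).al e)))
    (hK : Kk K.X.W ((S.mp cc).c e) (S.W e).length)
    (hkc : ∀ i < (S.W e).length, K.X.kc ((S.mp cc).c e) (S.W e).length i = true)
    (hkk : ∀ i < (S.W e).length, K.kc ((S.mp cc).c e) (S.W e).length i = true) {V : List Nat}
    (hV : Cov K.X.W.P V (S.W e)) {NL full : List Nat}
    (h : ∀ i < (S.W e).length, K.X.W.cks ((S.mp cc).c e) (S.W e).length
      (wsl K.X.W.P.Q.wm ((S.mp cc).c e)) (av2 K.X.W.lv V) (av2 K.X.W.lm (rvl V)) i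
      (kn (K.X.W.kr ((S.mp cc).c e) i)) (nth NL i) = true)
    (hd : full.Nodup) (hl : ∀ i ∈ full, i < (S.W e).length) {κ : Nat → Nat} {G : Nat → ℤ}
    (hκ : ∀ i < (S.W e).length, κ (K.X.W.P.w * i) = K.X.W.P.kpz (S.mp cc) e i)
    (hG : ∀ i < (S.W e).length, ∀ pre, (∀ j ∈ pre, j ∈ full) →
      (∀ j ∈ full, j ∈ pre ↔ full.idxOf j < full.idxOf i) →
      G (K.X.W.P.w * i) =
        (K.X.W.P.G2 ((S.mp cc).c ((S.mp cc).nx^[i] e)) ((S.mp cc).nb e i) : ℤ) +
        (K.X.incz (S.mp cc) e (S.W e).length pre i + K.incz (S.mp cc) e (S.W e).length pre i)) :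
    ∀ (ord pre : List Nat) (B : Nat → Prop), full = pre ++ ord →
      (∀ t, B t ↔ ∃ j ∈ pre, K.X.W.P.kpz (S.mp cc) e j ≠ 0 ∧
        t = K.X.W.P.w * j + K.X.W.P.kpz (S.mp cc) e j) →
      Chn (K.X.W.P.taz (S.mp cc) e) κ G B
        (K.pqs ((S.mp cc).c e) (S.W e).length (wsl K.X.W.P.Q.wm ((S.mp cc).c e)) NL ord)
  | [], _, _, _, _ => trivial
  | i :: ord, pre, B, hf, hB => by
    have hi : i < (S.W e).length := hl i (by rw [hf]; simp)
    have hpf : ∀ j ∈ pre, j ∈ full := fun j hj => by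
      rw [hf]; exact List.mem_append_left _ hj
    have hpre : ∀ j ∈ pre, j < (S.W e).length := fun j hj => hl j (hpf j hj)
    have hip : i ∉ pre := by
      intro h1
      rw [hf, List.nodup_append] at hd
      exact hd.2.2 i h1 i (List.mem_cons_self ..) rfl
    have hidx : full.idxOf i = pre.length := by
      rw [hf, List.idxOf_append_of_notMem hip, List.idxOf_cons_self, Nat.add_zero]
    have hE : ∀ j ∈ full, j ∈ pre ↔ full.idxOf j < full.idxOf i := by
      intro j hj
      rw [hidx]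
      constructor
      · intro h1
        rw [hf, List.idxOf_append_of_mem h1]
        exact List.idxOf_lt_length_of_mem h1
      · intro h1
        by_contra h2
        rw [hf, List.idxOf_append_of_notMem h2] at h1
        omega
    rw [kpqs_cons]
    refine ⟨?_, ?_⟩
    · rw [kpq_a, hκ i hi, hG i hi pre hpf hE]
      exact hx.pq_ok hv hk hk3 he hN hWL hpos hK hkc hkk hV hi (h i hi) hpre hB
    · refine hx.chn hv hk hk3 he hN hWL hpos hK hkc hkk hV h hd hl hκ hG ord (pre ++ [i]) _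
        (by rw [hf, List.append_assoc]; rfl) (fun t => ?_)
      rw [kpq_a, hκ i hi, hB t]
      constructor
      · rintro (⟨j, h1, h2⟩ | ⟨h1, h2⟩)
        · exact ⟨j, List.mem_append_left _ h1, h2⟩
        · exact ⟨i, List.mem_append_right _ (List.mem_singleton.2 rfl), h1, h2⟩
      · rintro ⟨j, h1, h2⟩
        rcases List.mem_append.1 h1 with h1 | h1
        · exact Or.inl ⟨j, h1, h2⟩
        · rw [List.mem_singleton.1 h1] at h2
          exact Or.inr h2

/-! ### The sum -/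

/-- the sum over the sectors of a triangle -/
theorem xi_sum (hx : Kt X WL) (hv : Hv cmpS cmp cmp' sol sol' S cc f X.W.P le) (he : S.W e ≠ [])
    {ord : List Nat} (hmem : ∀ i < (S.W e).length, i ∈ ord) {E : Nat → List Nat}
    (hmE : ∀ i j, j < (S.W e).length → (j ∈ E i ↔ ord.idxOf j < ord.idxOf i)) :
    ∑ i ∈ range (S.W e).length, X.xi (S.mp cc) e (S.W e).length i ≤
      ∑ i ∈ range (S.W e).length, X.incz (S.mp cc) e (S.W e).length (E i) i := by
  have h4 := (hv.hS.len e he).1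
  have hsec := sum_sec (d := (S.W e).length)
    (xi := fun i => X.xi (S.mp cc) e (S.W e).length i)
    (r := fun i => if X.W.P.kpz (S.mp cc) e i = 0 then (X.arr (S.mp cc) e i : ℤ) else
      (if nxt (S.W e).length i ∈ E i ∧ X.W.P.kpz (S.mp cc) e (nxt (S.W e).length i) ≠ 0 then
        X.xi (S.mp cc) e (S.W e).length i else 0))
    (l := fun i => if X.W.P.kpz (S.mp cc) e i = 0 then (X.all (S.mp cc) e i : ℤ) else
      (if prv (S.W e).length i ∈ E i ∧ X.W.P.kpz (S.mp cc) e (prv (S.W e).length i) ≠ 0 then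
        X.xi (S.mp cc) e (S.W e).length (prv (S.W e).length i) else 0)) (fun i hi => by
    have n1 := nxt_lt hi
    have h1 := xi_arr hx hv he hi
    have h2 := xi_all hx hv he hi
    have m1 := hmE i _ n1
    have m2 := hmE (nxt (S.W e).length i) _ hi
    rw [prv_nxt hi]
    by_cases k1 : X.W.P.kpz (S.mp cc) e i = 0
    · rw [if_pos k1]
      by_cases k2 : X.W.P.kpz (S.mp cc) e (nxt (S.W e).length i) = 0
      · rw [if_pos k2]
        omega
      · rw [if_neg k2, if_neg fun h => h.2 k1]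
        omega
    · rw [if_neg k1]
      by_cases k2 : X.W.P.kpz (S.mp cc) e (nxt (S.W e).length i) = 0
      · rw [if_pos k2, if_neg fun h => h.2 k2]
        omega
      · rw [if_neg k2]
        have hne := nxt_ne (i := i) (by omega : 2 ≤ (S.W e).length)
        have hix : ord.idxOf (nxt (S.W e).length i) ≠ ord.idxOf i := by
          intro h3
          exact hne ((List.idxOf_inj (hmem _ n1)).1 h3)
        by_cases h3 : ord.idxOf (nxt (S.W e).length i) < ord.idxOf i
        · rw [if_pos ⟨m1.2 h3, k2⟩, if_neg fun h => by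
            have := m2.1 h.1
            omega]
          omega
        · rw [if_neg fun h => h3 (m1.1 h.1), if_pos ⟨m2.2 (by omega), k1⟩]
          omega)
  refine le_trans hsec (le_of_eq ?_)
  refine sum_congr rfl fun i _ => ?_
  unfold Px.incz
  by_cases k1 : X.W.P.kpz (S.mp cc) e i = 0
  · simp only [if_pos k1]
  · simp only [if_neg k1]

/-- the sum of the gains of the kites -/
theorem Kz.yi_sum (hx : Kz K WL) (hv : Hv cmpS cmp cmp' sol sol' S cc f K.X.W.P le)
    (he : S.W e ≠ []) {ord : List Nat} (hmem : ∀ i < (S.W e).length, i ∈ ord)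
    {E : Nat → List Nat}
    (hmE : ∀ i j, j < (S.W e).length → (j ∈ E i ↔ ord.idxOf j < ord.idxOf i)) :
    ∑ i ∈ range (S.W e).length, K.yi (S.mp cc) e (S.W e).length i ≤
      ∑ i ∈ range (S.W e).length, K.incz (S.mp cc) e (S.W e).length (E i) i := by
  have h4 := (hv.hS.len e he).1
  have hsec := sum_sec3 (d := (S.W e).length)
    (y := fun i => K.yi (S.mp cc) e (S.W e).length i)
    (o := fun i => if K.X.W.P.kpz (S.mp cc) e i = 0 then
      (K.ay (K.X.W.ke ((S.mp cc).c e) i) (K.X.W.P.nfy (S.mp cc) e i) : ℤ) else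
      K.yb (S.mp cc) e (S.W e).length i
        (decide (K.chsz (S.mp cc) e (E i) (prv (S.W e).length i)))
        (decide (K.chsz (S.mp cc) e (E i) (nxt (S.W e).length i))))
    (r := fun i => if K.X.W.P.kpz (S.mp cc) e i = 0 then 0 else
      (if K.chsz (S.mp cc) e (E i) (nxt (S.W e).length i) then
          K.yb (S.mp cc) e (S.W e).length (nxt (S.W e).length i) true (decide (K.chsz (S.mp cc) e
            (E i) (nxt (S.W e).length (nxt (S.W e).length i)))) -
          K.yb (S.mp cc) e (S.W e).length (nxt (S.W e).length i) false (decide (K.chsz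
            (S.mp cc) e (E i) (nxt (S.W e).length (nxt (S.W e).length i)))) else 0))
    (l := fun i => if K.X.W.P.kpz (S.mp cc) e i = 0 then 0 else
      (if K.chsz (S.mp cc) e (E i) (prv (S.W e).length i) then
          K.yb (S.mp cc) e (S.W e).length (prv (S.W e).length i) (decide (K.chsz (S.mp cc) e
            (E i) (prv (S.W e).length (prv (S.W e).length i)))) true -
          K.yb (S.mp cc) e (S.W e).length (prv (S.W e).length i) (decide (K.chsz (S.mp cc) e
            (E i) (prv (S.W e).length (prv (S.W e).length i)))) false else 0)) (fun j hj => by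
    have n1 := nxt_lt hj
    have p1 := prv_lt hj
    rw [prv_nxt hj, nxt_prv hj]
    rw [← K.yb_tt]
    obtain ⟨b1, b2, b3, b4⟩ := hx.yb_mono (S.mp cc) e (S.W e).length j
    have b5 := K.yb_ay (S.mp cc) e (S.W e).length j
    have hne := nxt_ne (i := j) (by omega : 2 ≤ (S.W e).length)
    have hpe := prv_ne (i := j) (by omega : 2 ≤ (S.W e).length) hj
    have hnp : nxt (S.W e).length j ≠ prv (S.W e).length j := by
      intro h1
      have h2 : nxt (S.W e).length (nxt (S.W e).length j) = j := by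
        rw [h1]; exact nxt_prv hj
      have h3 : (S.W e).length ≥ 3 := by omega
      unfold nxt at h2
      cases h5 : Nat.beq (Nat.succ j) (S.W e).length with
      | true =>
        rw [h5] at h2
        have h5' : j + 1 = (S.W e).length := Nat.eq_of_beq_eq_true h5
        dsimp only [cond_true] at h2
        cases h6 : Nat.beq (Nat.succ 0) (S.W e).length with
        | true =>
          have h6' : 0 + 1 = (S.W e).length := Nat.eq_of_beq_eq_true h6
          omega
        | false =>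
          rw [h6] at h2
          have h2' : 0 + 1 = j := h2
          omega
      | false =>
        rw [h5] at h2
        dsimp only [cond_false] at h2
        cases h6 : Nat.beq (Nat.succ (Nat.succ j)) (S.W e).length with
        | true =>
          rw [h6] at h2
          have h6' : j + 1 + 1 = (S.W e).length := Nat.eq_of_beq_eq_true h6
          have h2' : 0 = j := h2
          omega
        | false =>
          rw [h6] at h2
          have h2' : j + 1 + 1 = j := h2
          omega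
    have i1 : ord.idxOf (nxt (S.W e).length j) ≠ ord.idxOf j := fun h3 =>
      hne ((List.idxOf_inj (hmem _ n1)).1 h3)
    have i2 : ord.idxOf (prv (S.W e).length j) ≠ ord.idxOf j := fun h3 =>
      hpe ((List.idxOf_inj (hmem _ p1)).1 h3)
    have i3 : ord.idxOf (nxt (S.W e).length j) ≠ ord.idxOf (prv (S.W e).length j) := fun h3 =>
      hnp ((List.idxOf_inj (hmem _ n1)).1 h3)
    have m1 := hmE j _ p1
    have m2 := hmE j _ n1
    have m3 := hmE (prv (S.W e).length j) _ hj
    have m4 := hmE (prv (S.W e).length j) _ n1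
    have m5 := hmE (nxt (S.W e).length j) _ hj
    have m6 := hmE (nxt (S.W e).length j) _ p1
    by_cases kj : K.X.W.P.kpz (S.mp cc) e j = 0
    · have g1 : (if K.X.W.P.kpz (S.mp cc) e (prv (S.W e).length j) = 0 then (0 : ℤ) else
          (if K.chsz (S.mp cc) e (E (prv (S.W e).length j)) j then
            K.yb (S.mp cc) e (S.W e).length j true (decide (K.chsz (S.mp cc) e
              (E (prv (S.W e).length j)) (nxt (S.W e).length j))) -
            K.yb (S.mp cc) e (S.W e).length j false (decide (K.chsz (S.mp cc) e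
              (E (prv (S.W e).length j)) (nxt (S.W e).length j))) else 0)) = 0 := by
        rw [if_neg (fun h : K.chsz (S.mp cc) e (E (prv (S.W e).length j)) j => h.2 kj), ite_self]
      have g2 : (if K.X.W.P.kpz (S.mp cc) e (nxt (S.W e).length j) = 0 then (0 : ℤ) else
          (if K.chsz (S.mp cc) e (E (nxt (S.W e).length j)) j then
            K.yb (S.mp cc) e (S.W e).length j (decide (K.chsz (S.mp cc) e
              (E (nxt (S.W e).length j)) (prv (S.W e).length j))) true -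
            K.yb (S.mp cc) e (S.W e).length j (decide (K.chsz (S.mp cc) e
              (E (nxt (S.W e).length j)) (prv (S.W e).length j))) false else 0)) = 0 := by
        rw [if_neg (fun h : K.chsz (S.mp cc) e (E (nxt (S.W e).length j)) j => h.2 kj), ite_self]
      rw [if_pos kj, g1, g2]
      omega
    · rw [if_neg kj]
      have c1 : K.chsz (S.mp cc) e (E j) (prv (S.W e).length j) ↔
          (ord.idxOf (prv (S.W e).length j) < ord.idxOf j ∧
            K.X.W.P.kpz (S.mp cc) e (prv (S.W e).length j) ≠ 0) := by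
        unfold Kx.chsz; rw [m1]
      have c2 : K.chsz (S.mp cc) e (E j) (nxt (S.W e).length j) ↔
          (ord.idxOf (nxt (S.W e).length j) < ord.idxOf j ∧
            K.X.W.P.kpz (S.mp cc) e (nxt (S.W e).length j) ≠ 0) := by
        unfold Kx.chsz; rw [m2]
      have c3 : K.chsz (S.mp cc) e (E (prv (S.W e).length j)) j ↔
          ord.idxOf j < ord.idxOf (prv (S.W e).length j) := by
        unfold Kx.chsz; rw [m3]; exact ⟨fun h => h.1, fun h => ⟨h, kj⟩⟩
      have c4 : K.chsz (S.mp cc) e (E (prv (S.W e).length j)) (nxt (S.W e).length j) ↔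
          (ord.idxOf (nxt (S.W e).length j) < ord.idxOf (prv (S.W e).length j) ∧
            K.X.W.P.kpz (S.mp cc) e (nxt (S.W e).length j) ≠ 0) := by
        unfold Kx.chsz; rw [m4]
      have c5 : K.chsz (S.mp cc) e (E (nxt (S.W e).length j)) j ↔
          ord.idxOf j < ord.idxOf (nxt (S.W e).length j) := by
        unfold Kx.chsz; rw [m5]; exact ⟨fun h => h.1, fun h => ⟨h, kj⟩⟩
      have c6 : K.chsz (S.mp cc) e (E (nxt (S.W e).length j)) (prv (S.W e).length j) ↔
          (ord.idxOf (prv (S.W e).length j) < ord.idxOf (nxt (S.W e).length j) ∧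
            K.X.W.P.kpz (S.mp cc) e (prv (S.W e).length j) ≠ 0) := by
        unfold Kx.chsz; rw [m6]
      simp only [c1, c2, c3, c4, c5, c6]
      generalize ord.idxOf j = b at i1 i2 ⊢
      generalize ord.idxOf (prv (S.W e).length j) = a at i2 i3 ⊢
      generalize ord.idxOf (nxt (S.W e).length j) = c at i1 i3 ⊢
      have fP : ∀ {x y : Nat}, K.X.W.P.kpz (S.mp cc) e (prv (S.W e).length j) = 0 →
          decide (x < y ∧ K.X.W.P.kpz (S.mp cc) e (prv (S.W e).length j) ≠ 0) = false :=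
        fun h => decide_eq_false (fun h1 => h1.2 h)
      have fN : ∀ {x y : Nat}, K.X.W.P.kpz (S.mp cc) e (nxt (S.W e).length j) = 0 →
          decide (x < y ∧ K.X.W.P.kpz (S.mp cc) e (nxt (S.W e).length j) ≠ 0) = false :=
        fun h => decide_eq_false (fun h1 => h1.2 h)
      have tP : ∀ {x y : Nat}, x < y → K.X.W.P.kpz (S.mp cc) e (prv (S.W e).length j) ≠ 0 →
          decide (x < y ∧ K.X.W.P.kpz (S.mp cc) e (prv (S.W e).length j) ≠ 0) = true :=
        fun h h1 => decide_eq_true ⟨h, h1⟩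
      have tN : ∀ {x y : Nat}, x < y → K.X.W.P.kpz (S.mp cc) e (nxt (S.W e).length j) ≠ 0 →
          decide (x < y ∧ K.X.W.P.kpz (S.mp cc) e (nxt (S.W e).length j) ≠ 0) = true :=
        fun h h1 => decide_eq_true ⟨h, h1⟩
      have uP : ∀ {x y : Nat}, ¬ x < y →
          decide (x < y ∧ K.X.W.P.kpz (S.mp cc) e (prv (S.W e).length j) ≠ 0) = false :=
        fun h => decide_eq_false (fun h1 => h h1.1)
      have uN : ∀ {x y : Nat}, ¬ x < y →
          decide (x < y ∧ K.X.W.P.kpz (S.mp cc) e (nxt (S.W e).length j) ≠ 0) = false :=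
        fun h => decide_eq_false (fun h1 => h h1.1)
      by_cases P : K.X.W.P.kpz (S.mp cc) e (prv (S.W e).length j) = 0
      · by_cases N : K.X.W.P.kpz (S.mp cc) e (nxt (S.W e).length j) = 0
        · rw [if_pos P, if_pos N, fP P, fN N]
          omega
        · rw [if_pos P, if_neg N, fP P, fP P]
          by_cases q1 : c < b
          · rw [tN q1 N, if_neg (show ¬ b < c by omega)]
            omega
          · rw [uN q1, if_pos (show b < c by omega)]
            omega
      · by_cases N : K.X.W.P.kpz (S.mp cc) e (nxt (S.W e).length j) = 0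
        · rw [if_neg P, if_pos N, fN N, fN N]
          by_cases q1 : a < b
          · rw [tP q1 P, if_neg (show ¬ b < a by omega)]
            omega
          · rw [uP q1, if_pos (show b < a by omega)]
            omega
        · rw [if_neg P, if_neg N]
          by_cases q1 : a < b
          · rw [tP q1 P, if_neg (show ¬ b < a by omega)]
            by_cases q2 : c < b
            · rw [tN q2 N, if_neg (show ¬ b < c by omega)]
              omega
            · rw [uN q2, if_pos (show b < c by omega), tP (show a < c by omega) P]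
              omega
          · rw [uP q1, if_pos (show b < a by omega)]
            by_cases q2 : c < b
            · rw [tN q2 N, if_neg (show ¬ b < c by omega), tN (show c < a by omega) N]
              omega
            · rw [uN q2, if_pos (show b < c by omega)]
              by_cases q3 : c < a
              · rw [tN q3 N, uP (show ¬ a < c by omega)]
                omega
              · rw [uN q3, tP (show a < c by omega) P]
                omega)
  refine le_trans hsec (le_of_eq ?_)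
  refine sum_congr rfl fun i _ => ?_
  unfold Kx.incz
  by_cases k1 : K.X.W.P.kpz (S.mp cc) e i = 0
  · simp only [if_pos k1]
    rfl
  · simp only [if_neg k1]

/-- the sum of the gains is bounded by the search -/
theorem Kz.gsum (hx : Kz K WL) (hv : Hv cmpS cmp cmp' sol sol' S cc f K.X.W.P le)
    (hk : Hk le ml sol S cc f K.X.W) (hk3 : Hk3 ml S cc f K.X.W) (he : S.W e ≠ []) (hN : Nr sol (S.mp cc) e)
    (hWL : ∀ e, (S.mp cc).W e ≠ [] →
      K.X.W.P.Q.ky ((S.mp cc).c e) ∈ WL.get (hi (K.X.W.P.Q.ky ((S.mp cc).c e))))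
    (hpos : ∀ e, (S.mp cc).W e ≠ [] → K.PosOk4z ((S.mp cc).c e) ((S.mp cc).c ((S.mp cc).al e)))
    (hK : Kk K.X.W ((S.mp cc).c e) (S.W e).length)
    (hkc : ∀ i < (S.W e).length, K.X.kc ((S.mp cc).c e) (S.W e).length i = true)
    (hkk : ∀ i < (S.W e).length, K.kc ((S.mp cc).c e) (S.W e).length i = true) {V : List Nat}
    (hV : Cov K.X.W.P V (S.W e)) {NL ord : List Nat}
    (h : alln (S.W e).length (fun i => K.X.W.cks ((S.mp cc).c e) (S.W e).length
      (wsl K.X.W.P.Q.wm ((S.mp cc).c e)) (av2 K.X.W.lv V) (av2 K.X.W.lm (rvl V)) i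
      (kn (K.X.W.kr ((S.mp cc).c e) i)) (nth NL i)) = true)
    (ho : okOrd (S.W e).length ord = true) {M th : Nat}
    (hM : ∀ i < (S.W e).length,
      Nat.testBit M (K.X.W.P.w * i + K.X.W.P.kpz (S.mp cc) e i) = true)
    (hg : gon3 th (K.pqs ((S.mp cc).c e) (S.W e).length (wsl K.X.W.P.Q.wm ((S.mp cc).c e)) NL
      ord) M 0 0 = true) :
    ((∑ i ∈ range (S.W e).length, K.X.W.P.G2 ((S.mp cc).c ((S.mp cc).nx^[i] e))
        ((S.mp cc).nb e i) : Nat) : ℤ) +
      (∑ i ∈ range (S.W e).length, K.X.xi (S.mp cc) e (S.W e).length i +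
        ∑ i ∈ range (S.W e).length, K.yi (S.mp cc) e (S.W e).length i) ≤ (th : ℤ) := by
  have h4 := (hv.hS.len e he).1
  have hperm := okOrd_perm ho
  rw [alln_iff] at h
  -- `w` is positive
  have hw : 0 < K.X.W.P.w := by
    have := (kok_kp (hK 0 (by omega))).w3
    omega
  have hdiv : ∀ i, K.X.W.P.w * i / K.X.W.P.w = i := fun i => Nat.mul_div_cancel_left i hw
  have hord : ∀ i ∈ ord, i < (S.W e).length := fun i hi =>
    List.mem_range.1 (hperm.mem_iff.1 hi)
  have hmem : ∀ i < (S.W e).length, i ∈ ord := fun i hi =>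
    hperm.mem_iff.2 (List.mem_range.2 hi)
  have hnd : ord.Nodup := hperm.nodup_iff.2 List.nodup_range
  set κ : Nat → Nat := fun a => K.X.W.P.kpz (S.mp cc) e (a / K.X.W.P.w) with hκ
  set E : Nat → List Nat := fun i => ord.filter fun j => decide (ord.idxOf j < ord.idxOf i) with hE
  set G : Nat → ℤ := fun a => (K.X.W.P.G2 ((S.mp cc).c ((S.mp cc).nx^[a / K.X.W.P.w] e))
    ((S.mp cc).nb e (a / K.X.W.P.w)) : ℤ) +
      (K.X.incz (S.mp cc) e (S.W e).length (E (a / K.X.W.P.w)) (a / K.X.W.P.w) +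
        K.incz (S.mp cc) e (S.W e).length (E (a / K.X.W.P.w)) (a / K.X.W.P.w)) with hG
  have hmE : ∀ i j, j < (S.W e).length → (j ∈ E i ↔ ord.idxOf j < ord.idxOf i) := by
    intro i j hj
    simp only [hE, List.mem_filter, decide_eq_true_eq]
    exact ⟨fun h => h.2, fun h => ⟨hmem j hj, h⟩⟩
  have hgo := gon3_sound (τ := K.X.W.P.taz (S.mp cc) e) (κ := κ) (G := G) th (B := fun _ => False)
    (K.pqs ((S.mp cc).c e) (S.W e).length (wsl K.X.W.P.Q.wm ((S.mp cc).c e)) NL ord) (by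
      refine hx.chn hv hk hk3 he hN hWL hpos hK hkc hkk hV h hnd hord (fun i hi => ?_)
        (fun i hi pre hp1 hp2 => ?_) ord [] _ rfl (fun t => ?_)
      · simp only [hκ]
        rw [hdiv]
      · simp only [hG]
        rw [hdiv]
        have key : ∀ j < (S.W e).length, (j ∈ E i ↔ j ∈ pre) := fun j hj => by
          rw [hmE i j hj, hp2 j (hmem j hj)]
        have keyc : ∀ j < (S.W e).length, (K.chsz (S.mp cc) e (E i) j ↔
            K.chsz (S.mp cc) e pre j) := fun j hj => by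
          unfold Kx.chsz
          rw [key j hj]
        congr 1
        congr 1
        · unfold Px.incz
          simp only [key _ (nxt_lt hi), key _ (prv_lt hi)]
        · unfold Kx.incz
          simp only [keyc _ (nxt_lt hi), keyc _ (prv_lt hi), keyc _ (nxt_lt (nxt_lt hi)),
            keyc _ (prv_lt (prv_lt hi))]
      · simp) (by
      intro p hp
      obtain ⟨i, i1, rfl⟩ := kpqs_mem hp
      rw [kpq_a]
      simp only [hκ]
      rw [hdiv]
      exact ⟨i, by rw [mlen]; exact hord i i1, rfl⟩) M 0 0 (by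
      intro p hp
      obtain ⟨i, i1, rfl⟩ := kpqs_mem hp
      rw [kpq_a]
      simp only [hκ]
      rw [hdiv]
      exact hM i (hord i i1)) (fun t => by simp) hg
  rw [kpqs_sum G] at hgo
  have e5 : (ord.map fun i => G (K.X.W.P.w * i)).sum = (ord.map fun i =>
      ((K.X.W.P.G2 ((S.mp cc).c ((S.mp cc).nx^[i] e)) ((S.mp cc).nb e i) : ℤ) +
        (K.X.incz (S.mp cc) e (S.W e).length (E i) i +
          K.incz (S.mp cc) e (S.W e).length (E i) i))).sum := by
    congr 1
    refine List.map_congr_left fun i _ => ?_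
    simp only [hG]
    rw [hdiv]
  rw [e5, (hperm.map _).sum_eq] at hgo
  have e6 : ∀ g : Nat → ℤ, ((List.range (S.W e).length).map g).sum =
      ∑ i ∈ range (S.W e).length, g i := by
    intro g
    exact sum_range_listi _ g
  rw [e6, sum_add_distrib, sum_add_distrib] at hgo
  have s1 := xi_sum hx.kt hv he hmem hmE
  have s2 := hx.yi_sum hv he hmem hmE
  rw [Nat.cast_sum]
  have h9 : ((0 : Nat) : ℤ) = 0 := rfl
  rw [h9, zero_add] at hgo
  refine le_trans ?_ hgo
  exact add_le_add (le_refl _) (add_le_add s1 s2)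

end sound

end

end Pool.FCP.Qz
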