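import Pool.Agent.FCV.Qn
import Pool.Agent.FCP.Yg

/-!
# Star check with covering candidates: the forbidden pairs, the positions
-/

set_option linter.unusedVariables false

namespace Pool.FCP.Qz

open Pool.FCS

open Finset

noncomputable section

section pairs

variable {D : Type*} {cmp cmp' : Nat → Nat → Bool} {sol sol' : Nat → Bool} {S : Sys D}
  {le leb : Nat → Nat → Bool} {bm : Nat} {f ml : Nat → Nat} {FB : BT (List Fct)}
  {PD : BT (List Nat)} {Q : Pm}

theorem cvu_lt30 {z u : Nat} (h : Cvu z u) (hu : u < 1073741824) :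
    z < 1073741824 ∧ lo z = z ∧ lo u = u := by
  have h1 := h.div
  have e1 : u / 1073741824 = 0 := by omega
  rw [e1] at h1
  refine ⟨by omega, ?_, ?_⟩
  · show z % 1073741824 = z
    omega
  · show u % 1073741824 = u
    omega

/-- a word with covering letters -/
theorem lewz : ∀ {l v w : List Nat},
    (∀ x ∈ w, ∀ z, Cvl z (f x) → ∀ g, leb g z = true → le g x = true) →
    Cvw v (w.map f) → lew leb l v = true → lew le l w = true
  | [], [], [], _, _, _ => rfl
  | [], [], y :: w, _, h, _ => by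
    have h1 := h.len
    simp at h1
  | [], z :: v, w, _, _, h => by simp [lew] at h
  | x :: l, [], w, _, _, h => by simp [lew] at h
  | x :: l, z :: v, [], _, h, _ => by
    have h1 := h.len
    simp at h1
  | x :: l, z :: v, y :: w, hf, hc, h => by
    have h' : (leb x z && lew leb l v) = true := h
    rw [Bool.and_eq_true] at h'
    cases hc with
    | cons h1 h2 =>
      show (le x y && lew le l w) = true
      rw [hf y (List.mem_cons_self ..) z h1 x h'.1,
        lewz (fun z hz => hf z (List.mem_cons_of_mem _ hz)) h2 h'.2]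
      rfl

/-- the word of a covering code -/
theorem cvu_word {z : Nat} {w : List Nat} (hw : Sm w) (h6 : w.length ≤ 6)
    (h : Cvu z (enc w)) : ∃ v, Cvw v w ∧ z = enc v := by
  have h1 := enc_lt30 hw h6
  obtain ⟨a1, a2, a3⟩ := cvu_lt30 h h1
  obtain ⟨v, w', b1, b2, b3, b4, b5, b6⟩ := h.wd
  rw [a2] at b5
  rw [a3] at b6
  have := enc_inj hw b2 b6
  subst this
  exact ⟨v, b1, b5⟩

theorem rot_cvu (hS' : (S.mp f).Ok cmp' sol') {r : D} (hr : S.W r ≠ []) {x : Nat}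
    (hx : Cvu x ((S.mp f).c r)) : ∀ s, Cvu (rot x s) ((S.mp f).c (S.nx^[s] r))
  | 0 => hx
  | s + 1 => by
    have h1 := rot_cvu hS' hr hx s
    have hr' : (S.mp f).W (S.nx^[s] r) ≠ [] := hS'.ne_iter (mp_ne.2 hr) s
    have h4 := hS'.len _ hr'
    have h5 : (S.mp f).c (S.nx^[s] r) < 1073741824 := enc_lt30 (hS'.sm _) h4.2
    obtain ⟨a1, a2, a3⟩ := cvu_lt30 h1 h5
    have h6 := h1.rlc
    rw [a2, a3] at h6
    have e : (S.mp f).c (S.nx^[s + 1] r) = rlc ((S.mp f).c (S.nx^[s] r)) := by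
      rw [Function.iterate_succ_apply']
      exact hS'.c_nx hr'
    rw [e]
    exact h6

/-- a word with covering letters, codes -/
theorem lewcz (hS' : (S.mp f).Ok cmp' sol') {d : D} (hd : S.W d ≠ [])
    (hl : ∀ x ∈ S.W d, ∀ z, Cvl z (f x) → ∀ g, leb g z = true → le g x = true) {z : Nat}
    {l : List Nat} (hz : Cvu z ((S.mp f).c d)) (h : lewc leb l z = true) :
    lew le l (S.W d) = true := by
  have h4 := hS'.len _ (mp_ne.2 hd)
  obtain ⟨v, h1, rfl⟩ := cvu_word (hS'.sm d) h4.2 hz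
  exact lewz hl h1 (lewc_sound (h1.sm (hS'.sm d)) h)

theorem prfz_sound (hS : S.Ok cmp sol) (hb : Bmp bm f S) (hS' : (S.mp f).Ok cmp' sol')
    (hl : ∀ e, ∀ x ∈ S.W e, ∀ z, Cvl z (f x) → ∀ g, leb g z = true → le g x = true)
    {X : Fct} {x y s : Nat} (h : prfb leb X x y s = true)
    {r : D} (hr : S.W r ≠ []) (hra : S.W (S.al r) ≠ []) (hx : Cvu x (blc bm (S.c r)))
    (hy : Cvu y (blc bm (S.c (S.al r)))) :
    Mtn le sol S X (S.nx^[s] r) := by
  rw [hb.bl hS] at hx hy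
  have hr' : (S.mp f).W r ≠ [] := mp_ne.2 hr
  unfold prfb at h
  rw [cond_true_iff] at h
  obtain ⟨h1, h2⟩ := h
  have h4 := hS'.len r hr'
  have hd : dgn x = (S.W r).length := by
    obtain ⟨v, g1, g2⟩ := cvu_word (hS'.sm r) h4.2 hx
    have g3 : v.length = (S.W r).length := by
      rw [g1.len]
      show ((S.W r).map f).length = _
      rw [List.length_map]
    have g4 : v.length = ((S.mp f).W r).length := g1.len
    rw [g2, dgn_enc (g1.sm (hS'.sm r)) (by rw [g4]; exact h4.1) (by rw [g4]; exact h4.2), g3]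
  refine ⟨lewcz hS' (hS.ne_iter hr s) (hl _) (rot_cvu hS' hr hx s) h1, ?_⟩
  have key : ∀ L : List (Nat × List Nat), List.rec (motive := fun _ => Bool) true
      (fun p _ ih => bif Nat.beq (Nat.mod (Nat.add s p.1) (dgn x)) 0 then
        List.rec (motive := fun _ => Bool) false
          (fun _ _ _ => bif lewc leb p.2 y then ih else false) p.2
        else false) L = true → ∀ p ∈ L,
      (p.2 = [] → Pls sol (S.W (S.al (S.nx^[p.1] (S.nx^[s] r))))) ∧
      (p.2 ≠ [] → lew le p.2 (S.W (S.al (S.nx^[p.1] (S.nx^[s] r)))) = true) := by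
    intro L
    induction L with
    | nil => intro _ p hp; simp at hp
    | cons q L ih =>
      intro hL p hp
      obtain ⟨q1, q2⟩ := q
      cases q2 with
      | nil =>
        dsimp only at hL
        rw [cond_true_iff] at hL
        exact absurd hL.2 (by simp)
      | cons a l =>
        dsimp only at hL
        rw [cond_true_iff, cond_true_iff] at hL
        obtain ⟨g1, g2, g3⟩ := hL
        rcases List.mem_cons.1 hp with rfl | hp
        · refine ⟨fun h0 => absurd h0 (by simp), fun _ => ?_⟩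
          have e1 : S.nx^[q1] (S.nx^[s] r) = r := by
            rw [← Function.iterate_add_apply, Nat.add_comm q1 s]
            have hpp : Function.IsPeriodicPt S.nx (S.W r).length r := hS.per r hr
            rw [← hpp.iterate_mod_apply]
            have g1' := Nat.eq_of_beq_eq_true g1
            rw [hd] at g1'
            have g1'' : (s + q1) % (S.W r).length = 0 := g1'
            rw [g1'']; rfl
          show lew le (a :: l) (S.W (S.al (S.nx^[q1] (S.nx^[s] r)))) = true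
          rw [e1]
          exact lewcz hS' hra (hl _) hy g2
        · exact ih g3 p hp
  exact key X.2 h2

/-- the forbidden pairs do not occur -/
theorem pfdz_sound (hS : S.Ok cmp sol) (hb : Bmp Q.bm f S) (hS' : (S.mp f).Ok cmp' sol')
    (hl : ∀ e, ∀ x ∈ S.W e, ∀ z, Cvl z (f x) → ∀ g, leb g z = true → le g x = true)
    (hF : ∀ p ∈ FB.toList, ∀ X ∈ p.2, NoX le ml sol S X) {x z : Nat} {r : D} (hr : S.W r ≠ [])
    (hr' : S.W (S.al r) ≠ []) (hx : Cvu x (blc Q.bm (S.c r)))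
    (hz : Cvu z (blc Q.bm (S.c (S.al r)))) : ∀ {ys : List Nat} {ds : List Nat},
      pfdb leb ml FB x ys ds = true → z ∉ ys
  | [], _, _ => by simp
  | y :: ys, [], h => absurd (show false = true from h) (by simp)
  | y :: ys, d :: ds, h => by
    have h' : (bif (bif Nat.beq (Nat.mod d 2) 0 then
            prfb leb (fct ml FB (Nat.div d 16)) x y (Nat.mod (Nat.div d 2) 8)
          else prfb leb (fct ml FB (Nat.div d 16)) y x (Nat.mod (Nat.div d 2) 8)) then
        pfdb leb ml FB x ys ds else false) = true := h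
    rw [cond_true_iff] at h'
    have h2 := pfdz_sound hS hb hS' hl hF hr hr' hx hz h'.2
    rw [List.mem_cons, not_or]
    refine ⟨fun hy => ?_, h2⟩
    subst hy
    have rne : ∀ (r : D) (x : Nat), S.W r ≠ [] → Cvu x (blc Q.bm (S.c r)) → ∀ s,
        rot x s ≠ 0 := by
      intro r x hr hx s
      rw [hb.bl hS] at hx
      have := (rot_cvu hS' hr hx s).ge
      omega
    cases hm : Nat.beq (Nat.mod d 2) 0 with
    | true =>
      rw [hm] at h'
      have h3 : prfb leb (fct ml FB (Nat.div d 16)) x z (Nat.mod (Nat.div d 2) 8) = true := h'.1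
      exact fct_no hF (prfb_ne h3 (rne _ _ hr hx _)) _
        (prfz_sound (sol := sol) hS hb hS' hl h3 hr hr' hx hz)
    | false =>
      rw [hm] at h'
      have h3 : prfb leb (fct ml FB (Nat.div d 16)) z x (Nat.mod (Nat.div d 2) 8) = true := h'.1
      exact fct_no hF (prfb_ne h3 (rne _ _ hr' hz _)) _
        (prfz_sound (sol := sol) hS hb hS' hl h3 hr' (by rw [hS.alal]; exact hr) hz
          (by rw [hS.alal]; exact hx))

/-- the forbidden pairs -/
theorem pfz_all (hS : S.Ok cmp sol) (hb : Bmp Q.bm f S) (hS' : (S.mp f).Ok cmp' sol')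
    (hl : ∀ e, ∀ x ∈ S.W e, ∀ z, Cvl z (f x) → ∀ g, leb g z = true → le g x = true)
    (hF : ∀ p ∈ FB.toList, ∀ X ∈ p.2, NoX le ml sol S X)
    (hPF : Q.PF.allB (fun x ys => pfdb leb ml FB x ys (PD.get x)) = true) (r : D)
    (hr : S.W r ≠ []) (hr' : S.W (S.al r) ≠ []) (x y : Nat) (hx : Cvu x (blc Q.bm (S.c r)))
    (hy : Cvu y (blc Q.bm (S.c (S.al r)))) : Q.pf x y = false := by
  rw [← Bool.not_eq_true]
  intro h
  unfold Pm.pf at h
  rw [mem_iff] at h
  have h1 : Q.PF.get x ≠ [] := by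
    intro h0
    rw [h0] at h
    simp at h
  exact pfdz_sound hS hb hS' hl hF hr hr' hx hy (BT.allB_sound hPF _ (BT.get_mem h1)) h

end pairs

section sound

variable {D : Type*} {cmp cmp' cmpS : Nat → Nat → Bool} {sol sol' lng : Nat → Bool}
  {S Y : Sys D} {cc f : Nat → Nat} {K : Kx} {WL : BT (List Nat)} {le : Nat → Nat → Bool}
  {ml : Nat → Nat} {e : D}

theorem Kz.az0 (hx : Kz K WL) {k a u : Nat} (ha : a ∈ WL.get k) (hr : rrc (lo a) < 1073741824)
    (h0 : K.X.W.P.Q.SG.get a = []) : K.az a u = 0 := by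
  have e : K.az a u = K.X.ae a u + K.ay a u := rfl
  rw [e, hx.kt.ae0 ha hr h0, Kx.ay_y0 (hx.k0 ha h0)]

theorem rdl_one (cl : List (Nat × Nat)) : rdl cl 1 = 1 := by
  unfold rdl
  rw [if_pos (le_refl 1)]

/-- the lists are used only for keys with a list -/
theorem Kz.t0 (hx : Kz K WL) {a u : Nat} (h0 : K.X.W.P.Q.SG.get a = []) :
    asc (K.X.W.P.Q.T.get a) u ≤ K.X.W.P.Q.sh := by
  by_cases h1 : asc (K.X.W.P.Q.T.get a) u = 0
  · omega
  · have h2 := asc_mem h1
    have h3 : K.X.W.P.Q.T.get a ≠ [] := by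
      intro h; rw [h] at h2; simp at h2
    have h4 := BT.allB_sound hx.tz _ (BT.get_mem h3)
    unfold Pool.FCP.Kx.tz at h4
    dsimp only at h4
    rw [nilb_iff.2 h0] at h4
    exact Nat.le_of_ble_eq_true (ala_iff.1 h4 _ h2)

theorem posk_null {a : Nat}
    (hs : K.soz WL (K.X.W.P.Q.ky a) (K.X.W.P.Q.SG.get (K.X.W.P.Q.ky a)) = true) :
    K.PosOk4z a 0 := by
  have e0 : K.az (K.X.W.P.Q.ky a) (K.X.W.P.Q.nz 0) = 0 := Kx.az_one _
  have e1 : K.X.W.P.Q.nz 0 = 1 := rfl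
  unfold Kx.PosOk4z
  rw [e0, e1, rdl_one]
  show K.X.W.P.Q.sh - K.X.W.P.nk (K.X.W.P.Q.ky a) + 0 ≤ _ ∨
    ∃ g, (g, 1) ∈ _ ∧ K.X.W.P.Q.sh - K.X.W.P.nk (K.X.W.P.Q.ky a) + 0 ≤ g
  unfold Pm.pos
  revert hs
  cases hSG : K.X.W.P.Q.SG.get (K.X.W.P.Q.ky a) with
  | nil =>
    intro _
    left
    show K.X.W.P.Q.sh - K.X.W.P.nk (K.X.W.P.Q.ky a) + 0 ≤ K.X.W.P.Q.sh
    omega
  | cons q cl =>
    intro hs
    have e : K.soz WL (K.X.W.P.Q.ky a) (q :: cl) =
      (bif (bif Nat.ble (Nat.sub K.X.W.P.Q.sh (K.X.W.P.nk (K.X.W.P.Q.ky a))) q.1 then true else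
        lst (Nat.sub K.X.W.P.Q.sh (K.X.W.P.nk (K.X.W.P.Q.ky a))) 1 cl) then
        (alln 32 fun f => bif K.X.W.P.Q.cme f (Nat.div (hi (K.X.W.P.Q.ky a)) 32) then
            alln 32 fun l => bif K.X.W.P.Q.cme (Nat.mod (hi (K.X.W.P.Q.ky a)) 32) l then
              allb (K.okz (K.X.W.P.Q.ky a) q.1 cl) (WL.get (Nat.add f (Nat.mul 32 l))) else true
          else true)
      else false) := rfl
    rw [e, cond_true_iff] at hs
    obtain ⟨h1, -⟩ := hs
    cases h2 : Nat.ble (Nat.sub K.X.W.P.Q.sh (K.X.W.P.nk (K.X.W.P.Q.ky a))) q.1 with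
    | true => left; exact Nat.le_of_ble_eq_true h2
    | false =>
      rw [h2] at h1
      right
      exact lst_sound h1

/-- the conflict of the words, exact or coarse -/
theorem pcz_ok {P : Pn} (hy : Hc2 cmp cmp' sol sol' Y f P) (hz : Hc3 Y f P) {r : D}
    (hr : Y.W r ≠ []) (hr' : Y.W (Y.al r) ≠ []) :
    P.pcz (wsl P.Q.wm (Y.c r)) (blc P.Q.bm (Y.c r)) (wsl P.Q.wm (Y.c (Y.al r)))
      (blc P.Q.bm (Y.c (Y.al r))) = false := by
  have b1 := blc_cvu (P := P) hy.hb hy.ok hr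
  have b2 := blc_cvu (P := P) hy.hb hy.ok hr'
  have h1 := pcs_okz hy hz hr hr' b1 b2
  have h2 := pcs_okz hy hz hr hr' (vck_cvu b1 (hy.hb.lt hy.ok _)) (vck_cvu b2 (hy.hb.lt hy.ok _))
  unfold Pn.pcz
  rw [h1]
  dsimp only
  rw [frc_eq, frc_eq]
  exact h2

theorem okr_sound {P : Pn} {a df b g r : Nat} (h : P.okr a df b g r = true)
    (h1 : Nat.ble g df = false) (h2 : P.pcz (slf a) (lo a) (slf b) (lo b) = false) :
    r ≠ 0 ∧ g ≤ r / 8589934592 := by
  unfold Pn.okr at h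
  rw [h1, h2] at h
  dsimp only at h
  cases h3 : Nat.beq r (nat_lit 0) with
  | true => rw [h3] at h; exact Bool.noConfusion h
  | false =>
    rw [h3] at h
    dsimp only at h
    cases h4 : Nat.ble g (Nat.div r (nat_lit 8589934592)) with
    | true => exact ⟨Nat.ne_of_beq_eq_false h3, Nat.le_of_ble_eq_true h4⟩
    | false => rw [h4] at h; exact Bool.noConfusion h

theorem posk_typed {a b : Nat} (hb : b ≠ 0)
    (hs : K.soz WL (K.X.W.P.Q.ky a) (K.X.W.P.Q.SG.get (K.X.W.P.Q.ky a)) = true)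
    (h0 : K.X.W.P.Q.SG.get (K.X.W.P.Q.ky a) = [] → ∀ u, K.az (K.X.W.P.Q.ky a) u = 0)
    (ht : K.X.W.P.Q.SG.get (K.X.W.P.Q.ky a) = [] →
      asc (K.X.W.P.Q.T.get (K.X.W.P.Q.ky a)) (mi (K.X.W.P.Q.ky b)) ≤ K.X.W.P.Q.sh)
    (ha1 : blc K.X.W.P.Q.bm a < 1073741824) (hb1 : blc K.X.W.P.Q.bm b < 1073741824)
    (h1 : K.X.W.P.Q.cme (Nat.mod b 32) (Nat.div a (pw a)) = true)
    (h2 : K.X.W.P.Q.cme (Nat.mod a 32) (Nat.div b (pw b)) = true)
    (hb32 : Nat.div b (pw b) < 32) (h2b : 2 ≤ mi (K.X.W.P.Q.ky b))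
    (hpc : K.X.W.P.pcz (wsl K.X.W.P.Q.wm a) (blc K.X.W.P.Q.bm a) (wsl K.X.W.P.Q.wm b)
      (blc K.X.W.P.Q.bm b) = false)
    (hW : K.X.W.P.Q.ky b ∈ WL.get (hi (K.X.W.P.Q.ky b))) : K.PosOk4z a b := by
  have hb0 : Nat.beq b 0 = false := beq_zero_of hb
  have hG : K.X.W.P.G2 a b = K.X.W.P.Q.Gn (K.X.W.P.Q.ky a) (K.X.W.P.Q.ky b) := by
    unfold Pn.G2; rw [hb0]; rfl
  have hnz : K.X.W.P.Q.nz b = mi (K.X.W.P.Q.ky b) := by
    unfold Pm.nz Pm.ky
    rw [hb0, mi_kfc hb1]; rfl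
  by_cases hSG : K.X.W.P.Q.SG.get (K.X.W.P.Q.ky a) = []
  · left
    have e : K.X.W.P.Q.Gn (K.X.W.P.Q.ky a) (K.X.W.P.Q.ky b) =
      2 * ((asc (K.X.W.P.Q.T.get (K.X.W.P.Q.ky a)) (mi (K.X.W.P.Q.ky b)) - K.X.W.P.Q.sh) / 2) +
      K.X.W.P.Q.sh - 2 * K.X.W.P.Q.fk (K.X.W.P.Q.ky a) (K.X.W.P.Q.ky b) := rfl
    have e2 : (K.X.W.P.Q.pos (K.X.W.P.Q.ky a) 0).df = K.X.W.P.Q.sh := by
      unfold Pm.pos
      rw [hSG]
    have h3 := ht hSG
    rw [h0 hSG, hG, e, e2]
    omega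
  · have hib : hi (K.X.W.P.Q.ky b) = b % 32 + 32 * (b / pw b) := hi_kfc hb1
    have hia : hi (K.X.W.P.Q.ky a) = a % 32 + 32 * (a / pw a) := hi_kfc ha1
    unfold Kx.PosOk4z
    rw [hG, hnz]
    unfold Pm.pos
    revert hs
    cases hSG' : K.X.W.P.Q.SG.get (K.X.W.P.Q.ky a) with
    | nil => exact absurd hSG' hSG
    | cons q cl =>
      intro hs
      have e : K.soz WL (K.X.W.P.Q.ky a) (q :: cl) =
        (bif (bif Nat.ble (Nat.sub K.X.W.P.Q.sh (K.X.W.P.nk (K.X.W.P.Q.ky a))) q.1 then true else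
          lst (Nat.sub K.X.W.P.Q.sh (K.X.W.P.nk (K.X.W.P.Q.ky a))) 1 cl) then
          (alln 32 fun f => bif K.X.W.P.Q.cme f (Nat.div (hi (K.X.W.P.Q.ky a)) 32) then
              alln 32 fun l => bif K.X.W.P.Q.cme (Nat.mod (hi (K.X.W.P.Q.ky a)) 32) l then
                allb (K.okz (K.X.W.P.Q.ky a) q.1 cl) (WL.get (Nat.add f (Nat.mul 32 l))) else true
            else true)
        else false) := rfl
      rw [e, cond_true_iff] at hs
      obtain ⟨-, h3⟩ := hs
      have a32 : a % 32 < 32 := Nat.mod_lt _ (by norm_num)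
      have b32 : b % 32 < 32 := Nat.mod_lt _ (by norm_num)
      have hb32' : b / pw b < 32 := hb32
      have e1 : Nat.div (hi (K.X.W.P.Q.ky a)) 32 = Nat.div a (pw a) := by
        rw [hia]
        show (a % 32 + 32 * (a / pw a)) / 32 = a / pw a
        omega
      have e2 : Nat.mod (hi (K.X.W.P.Q.ky a)) 32 = Nat.mod a 32 := by
        rw [hia]
        show (a % 32 + 32 * (a / pw a)) % 32 = a % 32
        omega
      rw [e1, e2] at h3
      have h4 := alln_iff.1 h3 (Nat.mod b 32) b32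
      rw [h1] at h4
      dsimp only [cond_true] at h4
      have h5 := alln_iff.1 h4 (Nat.div b (pw b)) hb32
      rw [h2] at h5
      dsimp only [cond_true] at h5
      have e3 : Nat.add (Nat.mod b 32) (Nat.mul 32 (Nat.div b (pw b))) = hi (K.X.W.P.Q.ky b) :=
        hib.symm
      rw [e3] at h5
      have h6 := allb_sound h5 _ hW
      rw [Kx.okz_eq] at h6
      have e4 : lo (K.X.W.P.Q.ky a) = blc K.X.W.P.Q.bm a := lo_kfc ha1
      have e5 : lo (K.X.W.P.Q.ky b) = blc K.X.W.P.Q.bm b := lo_kfc hb1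
      have hpc' : K.X.W.P.pcz (slf (K.X.W.P.Q.ky a)) (lo (K.X.W.P.Q.ky a))
          (slf (K.X.W.P.Q.ky b)) (lo (K.X.W.P.Q.ky b)) = false := by
        rw [slf_ky ha1, slf_ky hb1, e4, e5]
        exact hpc
      show K.gk (K.X.W.P.Q.ky a) (K.X.W.P.Q.ky b) ≤ q.1 ∨
        ∃ g, (g, rdl cl (mi (K.X.W.P.Q.ky b))) ∈ cl ∧
          K.gk (K.X.W.P.Q.ky a) (K.X.W.P.Q.ky b) ≤ g
      cases h7 : Nat.ble (K.gk (K.X.W.P.Q.ky a) (K.X.W.P.Q.ky b)) q.1 with
      | true => left; exact Nat.le_of_ble_eq_true h7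
      | false =>
        right
        rw [h7] at h6
        dsimp only at h6
        have hmem := rdk_mem (cl := cl) (mi_lt (K.X.W.P.Q.ky b)) h2b
        generalize rdk (mi (K.X.W.P.Q.ky b)) cl = r at h6 hmem
        have h9 := okr_sound h6 h7 hpc'
        exact ⟨_, hmem h9.1, h9.2⟩

/-- the positions are correct -/
theorem posk_all (hx : Kz K WL) (hy : Hc2 cmp cmp' sol sol' Y f K.X.W.P)
    (hz : Hc3 Y f K.X.W.P)
    (hcm : ∀ x y, cmp x y = true → K.X.W.P.Q.cme (x + 1) (y + 1) = true)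
    (hWL : ∀ e, Y.W e ≠ [] → K.X.W.P.Q.ky (Y.c e) ∈ WL.get (hi (K.X.W.P.Q.ky (Y.c e)))) (e : D)
    (he : Y.W e ≠ []) : K.PosOk4z (Y.c e) (Y.c (Y.al e)) := by
  have hS := hy.ok
  have hb := hy.hb
  have hs : ∀ a, K.soz WL a (K.X.W.P.Q.SG.get a) = true := by
    intro a
    by_cases h0 : K.X.W.P.Q.SG.get a = []
    · rw [h0]; rfl
    · exact BT.allB_sound hx.so _ (BT.get_mem h0)
  by_cases ha : Y.W (Y.al e) = []
  · have : Y.c (Y.al e) = 0 := by unfold Sys.c; rw [ha]; rfl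
    rw [this]
    exact posk_null (hs _)
  · have h4 := hS.len _ ha
    refine posk_typed (Sys.enc_ne ha) (hs _) (fun h0 u => hx.az0 (hWL e he) (rr_lt hy he) h0)
      (fun h0 => hx.t0 h0) (hb.lt hS _)
      (hb.lt hS _) ?_ ?_ ?_ ?_ (pcz_ok hy hz he ha) (hWL _ ha)
    · rw [hS.dg0 ha, hS.dgl he]
      apply hcm
      have := hS.cmp (Y.al e) ha (by rw [hS.alal]; exact he)
      rwa [hS.alal] at this
    · rw [hS.dg0 he, hS.dgl ha]
      exact hcm _ _ (hS.cmp e he ha)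
    · rw [hS.dgl ha]
      have h5 : (Y.W (Y.al e)).length - 1 < (Y.W (Y.al e)).length := by omega
      rw [List.getD_eq_getElem _ _ h5]
      have := hS.sm (Y.al e) _ (List.getElem_mem h5)
      omega
    · have h5 : mi (K.X.W.P.Q.ky (Y.c (Y.al e))) = nfc K.X.W.P.Q.bm K.X.W.P.Q.wm K.X.W.P.Q.sm
        (Y.c (Y.al e)) := mi_kfc (hb.lt hS _)
      have h6 := hb.nge (wm := K.X.W.P.Q.wm) (sm := K.X.W.P.Q.sm) hS ha
      omega

end sound

end

end Pool.FCP.Qz
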