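import Pool.Agent.FCV.Qo

/-!
# Star check with flows on kites: the star inequality
-/

set_option linter.unusedVariables false

namespace Pool.FCP.Qz

open Pool.FCS

open Finset

noncomputable section

section sound

variable {D : Type*} {cmp cmp' cmpS : Nat → Nat → Bool} {sol sol' lng : Nat → Bool}
  {S Y : Sys D} {cc f : Nat → Nat} {K : Kx} {WL : BT (List Nat)} {le : Nat → Nat → Bool}
  {ml : Nat → Nat} {e : D}

/-- a centre which is not in the table -/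
theorem Kz.trv_yi (hx : Kz K WL) (hv : Hv cmpS cmp cmp' sol sol' S cc f K.X.W.P le)
    (hWL : ∀ e, (S.mp cc).W e ≠ [] →
      K.X.W.P.Q.ky ((S.mp cc).c e) ∈ WL.get (hi (K.X.W.P.Q.ky ((S.mp cc).c e))))
    (he : S.W e ≠ []) (h : K.X.W.P.Q.trv ((S.mp cc).c e) = true) :
    ∑ i ∈ range (S.W e).length, K.yi (S.mp cc) e (S.W e).length i ≤ 0 := by
  have hY := hv.h2.ok
  have he' : (S.mp cc).W e ≠ [] := mp_ne.2 he
  have h4 := hY.len e he'
  have hd : dgn ((S.mp cc).c e) = (S.W e).length := by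
    rw [← mlen (S := S) (cc := cc)]
    exact dgn_enc (hY.sm e) h4.1 h4.2
  unfold Pm.trv at h
  rw [cond_true_iff, hd] at h
  refine le_of_eq (sum_eq_zero fun i hi => ?_)
  rw [mem_range] at hi
  have h2 := alln_iff.1 h.2 i hi
  rw [cond_true_iff, rot_c hY he' i] at h2
  have e1 : K.X.W.P.Q.SG.get (K.X.W.P.Q.ky ((S.mp cc).c ((S.mp cc).nx^[i] e))) = [] :=
    List.isEmpty_iff.1 h2.2
  have h3 := hx.k0 (hWL _ (hY.ne_iter he' i)) e1
  apply Kx.yi_zero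
  unfold Pw.ke
  rw [rot_c hY he' i]
  exact h3

/-- a centre which is not in the table -/
theorem chc_trv {P : Pn} (hS : Y.Ok cmp sol) (hb : Bmp P.Q.bm f Y) (hy : Hpr sol lng Y P.Q)
    (hpos : ∀ e, Y.W e ≠ [] → P.PosOk2z (Y.c e) (Y.c (Y.al e))) {e : D} (he : Y.W e ≠ [])
    (h : P.Q.trv (Y.c e) = true) :
    chv2 sol lng P.Q.den P.Q.nl P.Q.nu P.dl P.hl P.Q.fw Y e ≤ 0 := by
  have h4 := hS.len e he
  have hd : dgn (Y.c e) = (Y.W e).length := dgn_enc (hS.sm e) h4.1 h4.2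
  have hg : P.Q.gws (Y.c e) (Y.W e).length = gsv sol lng P.Q.den P.Q.nl (Y.W e) :=
    gwsv_eq (hS.sm e) (hy.sm e) (hy.lm e)
  unfold Pm.trv at h
  rw [cond_true_iff, hd, hg] at h
  obtain ⟨h0, h1⟩ := h
  have h0 : 12 * P.Q.den ≤ 2 * (Y.W e).length * P.Q.den +
    gsv sol lng P.Q.den P.Q.nl (Y.W e) := Nat.le_of_ble_eq_true h0
  have hG : ∀ i < (Y.W e).length, P.G2 (Y.c (Y.nx^[i] e)) (Y.nb e i) ≤ P.Q.sh := by
    intro i hi
    have h2 := alln_iff.1 h1 i hi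
    rw [cond_true_iff, rot_c hS he i] at h2
    have h3 := hpos _ (hS.ne_iter he i)
    have e1 : P.Q.SG.get (P.Q.ky (Y.c (Y.nx^[i] e))) = [] := List.isEmpty_iff.1 h2.2
    have e2 : P.Q.T.get (P.Q.ky (Y.c (Y.nx^[i] e))) = [] := List.isEmpty_iff.1 h2.1
    unfold Pn.PosOk2z Pm.pos at h3
    rw [e1, e2] at h3
    rcases h3 with h3 | ⟨g, h3, _⟩
    · exact h3
    · simp at h3
  apply chc_le hS hb hy he
  left
  have hs : ∑ i ∈ range (Y.W e).length, P.G2 (Y.c (Y.nx^[i] e)) (Y.nb e i) ≤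
      (Y.W e).length * P.Q.sh := by
    have := sum_le_sum (s := range (Y.W e).length) (fun i hi => hG i (mem_range.1 hi))
    rw [sum_const, card_range, smul_eq_mul] at this
    exact this
  refine le_trans hs ?_
  have h5 := thrc_eq hS hy he
  zify
  rw [h5]
  have h6 : (12 * P.Q.den : Int) ≤ 2 * (Y.W e).length * P.Q.den +
    gsv sol lng P.Q.den P.Q.nl (Y.W e) := by exact_mod_cast h0
  nlinarith

/-- The star inequality with flows on the triangles and on the kites. -/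
theorem star_allc4 {PD : BT (List Nat)} {FB : BT (List Fct)} {CB : BT (List CE2)}
    (hS : S.Ok cmpS sol)
    (hF : ∀ p ∈ FB.toList, ∀ X ∈ p.2, NoX le ml sol S X)
    (hk : Hk le ml sol S cc f K.X.W)
    (hlc : ∀ e, ∀ x ∈ S.W e, ∀ z, Cvl z (f (cc x)) → ∀ g, K.X.W.P.leb g z = true →
      K.X.W.P.leb g (f (cc x)) = true)
    (hk3f : (∀ r, (S.mp cc).W r ≠ [] → (S.mp cc).W ((S.mp cc).al r) ≠ [] → ∀ x y,
      Cvu x (blc K.X.W.P.Q.bm ((S.mp cc).c r)) →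
      Cvu y (blc K.X.W.P.Q.bm ((S.mp cc).c ((S.mp cc).al r))) → K.X.W.P.Q.pf x y = false) →
      Hk3 ml S cc f K.X.W)
    (hN : ∀ e, S.W e ≠ [] → Nr sol S e)
    {glY : List Nat → Bool} (hg : ∀ e, S.W e ≠ [] → glY ((S.W e).map cc) = true)
    (hcc : ∀ x y, cmpS x y = true → K.X.W.P.Q.cme (cc x + 1) (cc y + 1) = true ∧
      K.X.W.P.Q.cmb (f (cc x) + 1) (f (cc y) + 1) = true)
    (hL : ∀ e, ∀ x ∈ S.W e, cc x < 31 ∧ f (cc x) < 31 ∧ sol (cc x) = sol x ∧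
      tb K.X.W.P.Q.sm (cc x + 1) = sol x ∧ tb K.X.W.P.Q.lm (cc x + 1) = lng x ∧
      tdg K.X.W.P.Q.bm (cc x + 1) = f (cc x) + 1 ∧ tb K.X.W.P.Q.sm (f (cc x) + 1) = sol x ∧
      x ∈ K.X.W.P.lg (K.X.W.P.vl (cc x + 1)) ∧ ∀ g, K.X.W.P.leb g (f (cc x)) = true → le g x = true)
    (himp : ∀ e, ∀ i < (S.W e).length, ∀ p n,
      (S.W e).getD (prv (S.W e).length i) 0 ∈ K.X.W.P.lg p →
      (S.W e).getD (nxt (S.W e).length i) 0 ∈ K.X.W.P.lg n →
      K.X.W.P.imp (wsl K.X.W.P.Q.wm ((S.mp cc).c e)) ((S.W e).getD i 0) p n = false)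
    (hlev : ∀ g v, K.X.W.P.lev g v = true → ∀ x ∈ K.X.W.P.lg v, le g x = true)
    (hlg : ∀ v, ∀ x ∈ K.X.W.P.lg v, x ∈ K.X.W.P.lg x)
    (hr2 : ∀ r, S.W r ≠ [] → S.W (S.al r) ≠ [] →
      K.X.W.P.r2 (wsl K.X.W.P.Q.wm ((S.mp cc).c r)) (f (cc ((S.W r).getD 0 0)) + 1)
        (wsl K.X.W.P.Q.wm ((S.mp cc).c (S.al r)))
        (f (cc ((S.W (S.al r)).getD ((S.W (S.al r)).length - 1) 0)) + 1) = true)
    (hua : ∀ e, S.W e ≠ [] → S.W (S.al e) ≠ [] → ∀ v, (S.W e).getD 0 0 ∈ K.X.W.P.lg v →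
      K.X.W.P.ua (wsl K.X.W.P.Q.wm ((S.mp cc).c e)) v (wsl K.X.W.P.Q.wm ((S.mp cc).c (S.al e)))
        (f (cc ((S.W (S.al e)).getD ((S.W (S.al e)).length - 1) 0)) + 1) = true)
    (hub : ∀ e, S.W e ≠ [] → S.W (S.al e) ≠ [] → ∀ v,
      (S.W e).getD ((S.W e).length - 1) 0 ∈ K.X.W.P.lg v →
      K.X.W.P.ub (wsl K.X.W.P.Q.wm ((S.mp cc).c e)) v (wsl K.X.W.P.Q.wm ((S.mp cc).c (S.al e)))
        (f (cc ((S.W (S.al e)).getD 0 0)) + 1) = true)
    (hgk : ∀ r, S.W r ≠ [] → S.W (S.al r) ≠ [] → S.W (S.al (S.nx r)) ≠ [] →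
      K.X.W.P.Q.gk (wsl K.X.W.P.Q.wm ((S.mp cc).c r)) (cc ((S.W r).getD 0 0) + 1)
        (nfc K.X.W.P.Q.bm K.X.W.P.Q.wm K.X.W.P.Q.sm ((S.mp cc).c (S.al r)))
        (nfc K.X.W.P.Q.bm K.X.W.P.Q.wm K.X.W.P.Q.sm ((S.mp cc).c (S.al (S.nx r)))) = false)
    (hgv : ∀ r, S.W r ≠ [] → S.W (S.al r) ≠ [] → S.W (S.al (S.nx r)) ≠ [] →
      ∀ v, (S.W r).getD 0 0 ∈ K.X.W.P.lg v →
      K.X.W.P.gv (wsl K.X.W.P.Q.wm ((S.mp cc).c r)) v
        (nfc K.X.W.P.Q.bm K.X.W.P.Q.wm K.X.W.P.Q.sm ((S.mp cc).c (S.al r)))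
        (nfc K.X.W.P.Q.bm K.X.W.P.Q.wm K.X.W.P.Q.sm ((S.mp cc).c (S.al (S.nx r)))) = false)
    (hcd : ∀ a i, K.X.W.P.cd a i = cda (K.X.W.P.Q.pos a 0).cl i)
    (hsh : 12 * K.X.W.P.Q.den ≤ 4 * (K.X.W.P.Q.sh + 2 * K.X.W.P.Q.den))
    {h : Nat → Nat} (hh : ∀ e, ∀ x ∈ S.W e, K.X.W.P.hd (cc x + 1) = h x)
    (hPF : K.X.W.P.Q.PF.allB (fun x ys => pfdb K.X.W.P.leb ml FB x ys (PD.get x)) = true)
    (hCB : CB.allB K.ckc = true) (hx : Kz K WL)
    (hq : ∀ x y, cmpS x y = true → qcl K.qt (cc x + 1) = qcl K.qt (cc y + 1))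
    (hsc : ∀ x y, cmpS x y = true → sol (cc x) = sol (cc y))
    (hcov : ∀ w, glY w = true → K.X.W.cow CB WL (enc w) = true)
    (e : D) (he : S.W e ≠ []) :
    chv2 sol lng K.X.W.P.Q.den K.X.W.P.Q.nl K.X.W.P.Q.nu K.X.W.P.dl h
      (fun a b => K.X.W.P.Q.fw (a.map cc) (b.map cc)) S e +
      (∑ i ∈ range (S.W e).length,
        tgx sol (fun a b c => K.X.xw (a.map cc) (b.map cc) (c.map cc)) S (S.nx^[i] e) +
      ∑ i ∈ range (S.W e).length,
        kgx sol (fun a b c d => K.yw (a.map cc) (b.map cc) (c.map cc) (d.map cc)) S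
          (S.nx^[i] e)) ≤ 0 := by
  set Y := S.mp cc with hYd
  set lngY : Nat → Bool := fun y => tb K.X.W.P.Q.lm (y + 1) with hlY
  set cmpY : Nat → Nat → Bool := fun x y =>
    (K.X.W.P.Q.cme (x + 1) (y + 1) && K.X.W.P.Q.cmb (f x + 1) (f y + 1)) &&
      (Nat.beq (qcl K.qt (x + 1)) (qcl K.qt (y + 1)) && (sol x == sol y)) with hcY
  have cY1 : ∀ x y, cmpY x y = true → K.X.W.P.Q.cme (x + 1) (y + 1) = true := by
    intro x y h
    simp only [hcY, Bool.and_eq_true] at h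
    exact h.1.1
  have cY2 : ∀ x y, cmpY x y = true → K.X.W.P.Q.cmb (f x + 1) (f y + 1) = true := by
    intro x y h
    simp only [hcY, Bool.and_eq_true] at h
    exact h.1.2
  have cY3 : ∀ x y, cmpY x y = true → qcl K.qt (x + 1) = qcl K.qt (y + 1) := by
    intro x y h
    simp only [hcY, Bool.and_eq_true] at h
    exact Nat.eq_of_beq_eq_true h.2.1
  have cY4 : ∀ x y, cmpY x y = true → sol x = sol y := by
    intro x y h
    simp only [hcY, Bool.and_eq_true, beq_iff_eq] at h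
    exact h.2.2
  -- the coarse system
  have hY : Y.Ok cmpY sol := by
    refine hS.mp (fun e x hx => (hL e x hx).1) (fun x y h => ?_) ?_
    · obtain ⟨h1, h2⟩ := hcc x y h
      simp only [hcY]
      rw [h1, h2, hq x y h, hsc x y h, Nat.beq_refl, beq_self_eq_true]
      rfl
    · intro e x hx h
      rw [← (hL e x hx).2.2.1]
      exact h
  have hYm : ∀ e, ∀ y ∈ Y.W e, ∃ x ∈ S.W e, y = cc x := by
    intro e y hy
    obtain ⟨x, hx, rfl⟩ := List.mem_map.1 hy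
    exact ⟨x, hx, rfl⟩
  have hYsm : ∀ e, ∀ y ∈ Y.W e, tb K.X.W.P.Q.sm (y + 1) = sol y := by
    intro e y hy
    obtain ⟨x, hx, rfl⟩ := hYm e y hy
    rw [(hL e x hx).2.2.2.1, (hL e x hx).2.2.1]
  have hYsf : ∀ e, ∀ y ∈ Y.W e, tb K.X.W.P.Q.sm (f y + 1) = sol y := by
    intro e y hy
    obtain ⟨x, hx, rfl⟩ := hYm e y hy
    rw [(hL e x hx).2.2.2.2.2.2.1, (hL e x hx).2.2.1]
  have hb : Bmp K.X.W.P.Q.bm f Y := ⟨fun e y hy => by
      obtain ⟨x, hx, rfl⟩ := hYm e y hy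
      exact (hL e x hx).2.2.2.2.2.1, fun e y hy => by
      obtain ⟨x, hx, rfl⟩ := hYm e y hy
      exact (hL e x hx).2.1⟩
  have hY' : (Y.mp f).Ok (fun x y => K.X.W.P.Q.cmb (x + 1) (y + 1))
      (fun x => tb K.X.W.P.Q.sm (x + 1)) := by
    refine hY.mp (fun e y hy => hb.s e y hy) (fun x y h => ?_) ?_
    · exact cY2 x y h
    · intro e y hy h
      rw [← hYsf e y hy]
      exact h
  -- the facts in the coarse system
  have hl : Leb (fun g y => K.X.W.P.leb g (f y)) K.X.W.P.leb f Y := fun _ _ _ _ h => h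
  have hsl : ∀ e, ∀ x ∈ S.W e, sol (cc x) = sol x := fun e x hx => (hL e x hx).2.2.1
  have hlb : ∀ e, ∀ x ∈ S.W e, ∀ g, K.X.W.P.leb g (f (cc x)) = true → le g x = true :=
    fun e x hx => (hL e x hx).2.2.2.2.2.2.2.2
  have hmd : ∀ {Z : Fct} {e : D}, Mtn (fun g y => K.X.W.P.leb g (f y)) sol Y Z e →
      Mtn le sol S Z e := by
    intro Z e hm
    exact ⟨lew_map (f := cc) (leb := fun g y => K.X.W.P.leb g (f y)) (hlb e) hm.1,
      fun p hp => ⟨fun h0 => pls_mp (hsl _) ((hm.2 p hp).1 h0), fun h0 =>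
        lew_map (f := cc) (leb := fun g y => K.X.W.P.leb g (f y)) (hlb _) ((hm.2 p hp).2 h0)⟩⟩
  have hF' : ∀ p ∈ FB.toList, ∀ Z ∈ p.2, NoX (fun g y => K.X.W.P.leb g (f y)) ml sol Y Z :=
    fun p hp Z hZ => ⟨fun e hm => (hF p hp Z hZ).1 e (hmd hm),
      fun e hm => (hF p hp Z hZ).2 e (hmd hm)⟩
  have hpf := pfb_all (Q := K.X.W.P.Q) hY hb hY' hl hF' hPF
  have hk3 := hk3f (pfz_all (Q := K.X.W.P.Q) (le := fun g y => K.X.W.P.leb g (f y)) hY hb hY'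
    (fun e y hy z hz g hg => by
      obtain ⟨x, hx, rfl⟩ := hYm e y hy
      exact hlc e x hx z hz g hg) hF' hPF)
  have first : ∀ r, S.W r ≠ [] → (Y.W r).getD 0 0 = cc ((S.W r).getD 0 0) := by
    intro r hr
    have := (hS.len r hr).1
    show ((S.W r).map cc).getD 0 0 = _
    rw [getD_map0 (by omega)]
  have last : ∀ r, S.W r ≠ [] → (Y.W r).getD ((Y.W r).length - 1) 0 =
      cc ((S.W r).getD ((S.W r).length - 1) 0) := by
    intro r hr
    have := (hS.len r hr).1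
    show ((S.W r).map cc).getD (((S.W r).map cc).length - 1) 0 = _
    rw [List.length_map, getD_map0 (by omega)]
  have h2 : Hc2 cmpY (fun x y => K.X.W.P.Q.cmb (x + 1) (y + 1)) sol
      (fun x => tb K.X.W.P.Q.sm (x + 1)) Y f K.X.W.P := by
    refine ⟨hY, hb, hY', hYsm, fun r hr hr' => ?_, hpf, fun r hr hr' hr'' => ?_, hcd⟩
    · have hr1 := mp_ne.1 hr
      have hr2' := mp_ne.1 hr'
      rw [first r hr1]
      have e2 : (Y.W (Y.al r)).getD ((Y.W (Y.al r)).length - 1) 0 =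
        cc ((S.W (S.al r)).getD ((S.W (S.al r)).length - 1) 0) := last _ hr2'
      rw [e2]
      exact hr2 r hr1 hr2'
    · have hr1 := mp_ne.1 hr
      rw [first r hr1]
      exact hgk r hr1 (mp_ne.1 hr') (mp_ne.1 hr'')
  have hv : Hv cmpS cmpY (fun x y => K.X.W.P.Q.cmb (x + 1) (y + 1)) sol
      (fun x => tb K.X.W.P.Q.sm (x + 1)) S cc f K.X.W.P le :=
    ⟨hS, h2, hsl, hlb, hlev, fun e x hx => (hL e x hx).2.2.2.2.2.2.2.1, hlg,
      himp, hgv, hua, hub⟩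
  have hpr : Hpr sol lngY Y K.X.W.P.Q := by
    exact ⟨hYsm, fun e y hy => rfl, hsh⟩
  -- centres
  have ent : ∀ e, S.W e ≠ [] → ∀ E ∈ CB.get (Y.c e), 0 < (S.W e).length ∧
      (((ded2 E.t = false → ∀ i < (S.W e).length,
          K.Y (K.aq (K.X.W.ke (Y.c e) i)) = 0) ∧
        (ded2 E.t = false → Kk K.X.W (Y.c e) (S.W e).length) ∧
        (((ded2 E.t = false → ∀ i < (S.W e).length, K.X.M (lo (K.X.W.ke (Y.c e) i)) = 0) ∧
          K.X.W.ckt (Y.c e) (S.W e).length (wsl K.X.W.P.Q.wm (Y.c e)) E.t (K.X.W.P.v0 (Y.c e)) 0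
            (K.X.W.P.lg (gtk (K.X.W.P.v0 (Y.c e)) 0)) = true) ∨
        ((∀ i < (S.W e).length, K.X.kc (Y.c e) (S.W e).length i = true) ∧
          K.X.ckt (Y.c e) (S.W e).length (wsl K.X.W.P.Q.wm (Y.c e)) E.t (K.X.W.P.v0 (Y.c e)) 0
            (K.X.W.P.lg (gtk (K.X.W.P.v0 (Y.c e)) 0)) = true))) ∨
      (Kk K.X.W (Y.c e) (S.W e).length ∧
        (∀ i < (S.W e).length, K.X.kc (Y.c e) (S.W e).length i = true) ∧
        (∀ i < (S.W e).length, K.kc (Y.c e) (S.W e).length i = true) ∧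
        K.ckt (Y.c e) (S.W e).length (wsl K.X.W.P.Q.wm (Y.c e)) E.t (K.X.W.P.v0 (Y.c e)) 0
          (K.X.W.P.lg (gtk (K.X.W.P.v0 (Y.c e)) 0)) = true)) := by
    intro e he E hE
    have he' : Y.W e ≠ [] := mp_ne.2 he
    have h4 := hY.len e he'
    have hlen : (Y.W e).length = (S.W e).length := by
      show ((S.W e).map cc).length = _
      rw [List.length_map]
    have hd : dgn (Y.c e) = (S.W e).length := by
      rw [← hlen]; exact dgn_enc (hY.sm e) h4.1 h4.2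
    have h1 : CB.get (Y.c e) ≠ [] := by
      intro h0; rw [h0] at hE; simp at hE
    refine ⟨by omega, ?_⟩
    rcases Kx.ckc_sound (BT.allB_sound hCB _ (BT.get_mem h1)) E hE with ⟨h3, h5⟩ | ⟨h3, h5⟩
    · left
      obtain ⟨h6, h7⟩ := ckc3_sound h5 E (List.mem_singleton.2 rfl)
      dsimp only at h3 h6 h7
      rw [hd] at h3 h6 h7
      exact ⟨h3, fun hd i hi => hk.kt _ (h6 hd i hi), h7⟩
    · right
      dsimp only at h3 h5
      rw [hd] at h3 h5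
      exact ⟨fun i hi => hk.kt _ (h3 i hi), h5.1, h5.2.1, h5.2.2⟩
  have v00 : ∀ e, S.W e ≠ [] → (S.W e).getD 0 0 ∈ K.X.W.P.lg (gtk (K.X.W.P.v0 (Y.c e)) 0) := by
    intro e he
    have h4 := (hS.len e he).1
    rw [gtk_eq]
    exact (v0_cov hv he).2 0 (by omega)
  -- dead centres do not occur
  have hded : ∀ e, S.W e ≠ [] → ∀ E ∈ CB.get (Y.c e), ded2 E.t = false := by
    intro e he E hE
    obtain ⟨hj, h5⟩ := ent e he E hE
    rcases h5 with ⟨-, -, ⟨-, h5⟩ | ⟨-, h5⟩⟩ | ⟨-, -, -, h5⟩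
    · exact ckt2_dead hv hk hk3 he E.t _ 0 _ (v0_cov hv he) hj (v00 e he) h5
    · exact ckt3_dead hv hk hk3 he E.t _ 0 _ (v0_cov hv he) hj (v00 e he) h5
    · exact Kx.ckt_dead hv hk hk3 he E.t _ 0 _ (v0_cov hv he) hj (v00 e he) h5
  have hst : ∀ e, S.W e ≠ [] → (csu2 CB (Y.c e) (dgn (Y.c e)) ≠ 1) := by
    intro e he h1
    rcases csu2_sound CB (Y.c e) (dgn (Y.c e)) with h2 | ⟨i, -, E, hE, h2⟩
    · rw [h2] at h1; exact absurd h1 (by decide)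
    · rw [rot_c hY (mp_ne.2 he) i] at hE
      have h3 := hded (S.nx^[i] e) (hS.ne_iter he i) E hE
      rw [h2 h1] at h3
      exact Bool.noConfusion h3
  have hcv : ∀ e, S.W e ≠ [] →
      ((bif Nat.beq (csu2 CB (Y.c e) (dgn (Y.c e))) 0 then K.X.W.P.Q.trv (Y.c e) else true) =
        true) ∧ K.X.W.P.Q.ky (Y.c e) ∈ WL.get (hi (K.X.W.P.Q.ky (Y.c e))) := by
    intro e he
    have h1 : K.X.W.cow CB WL (Y.c e) = true := hcov _ (hg e he)
    unfold Pw.cow at h1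
    dsimp only at h1
    have h2 : Nat.beq (csu2 CB (Y.c e) (dgn (Y.c e))) 1 = false := by
      rw [← Bool.not_eq_true]
      intro h3
      exact hst e he (Nat.eq_of_beq_eq_true h3)
    rw [h2] at h1
    dsimp only [cond_false] at h1
    rw [cond_true_iff] at h1
    exact ⟨h1.1, mem_iff.1 h1.2⟩
  have hWL : ∀ e, Y.W e ≠ [] → K.X.W.P.Q.ky (Y.c e) ∈ WL.get (hi (K.X.W.P.Q.ky (Y.c e))) :=
    fun e he => (hcv e (mp_ne.1 he)).2
  have hpos := posk_all (K := K) hx h2 hk3.v3.c3 cY1 hWL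
  have hpos3 : ∀ e, Y.W e ≠ [] → K.X.PosOk3z (Y.c e) (Y.c (Y.al e)) := fun e he => (hpos e he).x
  have hpos2 : ∀ e, Y.W e ≠ [] → K.X.W.P.PosOk2z (Y.c e) (Y.c (Y.al e)) := by
    intro e he
    rcases hpos3 e he with h1 | ⟨g, h1, h3⟩
    · exact Or.inl (by omega)
    · exact Or.inr ⟨g, h1, by omega⟩
  rw [← chv_down (lngY := lngY) (hY := K.X.W.P.hl) hS hsl (fun e x hx => (hL e x hx).2.2.2.2.1)
    (fun e x hx => hh e x hx) e he, ← tgxs_down hS hsl K.X.xw he, ← kgxs_down hS hsl K.yw he]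
  have he' : Y.W e ≠ [] := mp_ne.2 he
  have h1 := (hcv e he).1
  by_cases h3 : csu2 CB (Y.c e) (dgn (Y.c e)) = 0
  · rw [h3] at h1
    have h5 := chc_trv hY hb hpr hpos2 he' h1
    have h6 := trv_xi hx.kt hv hWL he h1
    have h7 := hx.trv_yi hv hWL he h1
    rw [sum_xi hx.kt hv hYsf he] at h6
    rw [hx.sum_kgx hv cY4 cY3 hYsf he] at h7
    exact add_nonpos h5 (add_nonpos h6 h7)
  · rcases csu2_sound CB (Y.c e) (dgn (Y.c e)) with h4 | ⟨i, -, E, hE, -⟩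
    · exact absurd h4 h3
    · rw [rot_c hY he' i] at hE
      have hei := hS.ne_iter he i
      have hei' : Y.W (Y.nx^[i] e) ≠ [] := mp_ne.2 hei
      obtain ⟨hj, h6⟩ := ent (S.nx^[i] e) hei E hE
      have h8 := chv2_iter (lng := lngY) (den := K.X.W.P.Q.den) (nl := K.X.W.P.Q.nl)
        (nu := K.X.W.P.Q.nu) (dl := K.X.W.P.dl) (h := K.X.W.P.hl) (F := K.X.W.P.Q.fw) hY he' i
      rw [← h8, ← tgxs_iter hY K.X.xw he' i,
        ← sumE_iter hY (fun d => kgx sol K.yw Y d) he' i]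
      have h9 : chv2 sol lngY K.X.W.P.Q.den K.X.W.P.Q.nl K.X.W.P.Q.nu K.X.W.P.dl K.X.W.P.hl
          K.X.W.P.Q.fw (S.mp cc) (S.nx^[i] e) + (∑ j ∈ range (S.W (S.nx^[i] e)).length,
            K.X.xi (S.mp cc) (S.nx^[i] e) (S.W (S.nx^[i] e)).length j +
          ∑ j ∈ range (S.W (S.nx^[i] e)).length,
            K.yi (S.mp cc) (S.nx^[i] e) (S.W (S.nx^[i] e)).length j) ≤ 0 := by
        rcases h6 with ⟨h5, h6, h7⟩ | ⟨h5, h6, h7, h10⟩
        · have hKi := h6 (hded _ hei E hE)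
          have e0 : ∑ j ∈ range (S.W (S.nx^[i] e)).length,
              K.yi (S.mp cc) (S.nx^[i] e) (S.W (S.nx^[i] e)).length j = 0 :=
            sum_eq_zero fun j hj => Kx.yi_zero (h5 (hded _ hei E hE) j (mem_range.1 hj))
          rw [e0, add_zero]
          rcases h7 with ⟨h7, h10⟩ | ⟨h7, h10⟩
          · have h11 := (ckt2_sound hv hk hk3 hei (nr_up hsl (hN _ hei)) hpr hpos2 hKi
              E.t _ 0 _ (v0_cov hv hei) hj (v00 _ hei) h10).1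
            rw [sum_eq_zero fun j hj => xi_zero hx.kt
              (h7 (hded _ hei E hE) j (mem_range.1 hj)), add_zero]
            exact h11
          · exact ckt3_sound hx.kt hv hk hk3 hei (nr_up hsl (hN _ hei)) hpr hpos3 hKi h7
              E.t _ 0 _ (v0_cov hv hei) hj (v00 _ hei) h10
        · exact hx.ckt_sound hv hk hk3 hei (nr_up hsl (hN _ hei)) hpr hWL hpos h5 h6 h7
            E.t _ 0 _ (v0_cov hv hei) hj (v00 _ hei) h10
      rw [sum_xi hx.kt hv hYsf hei, hx.sum_kgx hv cY4 cY3 hYsf hei] at h9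
      exact h9

end sound

end

end Pool.FCP.Qz
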