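import Pool.Agent.FCV.Qp
import Pool.Agent.FCP.Yh

/-!
# Star check with flows on kites: the lists of the candidates, fast check
-/

set_option linter.unusedVariables false

namespace Pool.FCP.Qz

open Pool.FCS

noncomputable section

variable {K : Kx} {WL WM WN : BT (List Nat)}

theorem okr_zero {P : Pn} {a df b g r : Nat} (h : P.okr a df b g 0 = true) :
    P.okr a df b g r = true := by
  unfold Pn.okr at h ⊢
  cases h1 : Nat.ble g df with
  | true => rfl
  | false =>
    rw [h1] at h
    have h2 : P.pcz (slf a) (lo a) (slf b) (lo b) = true := h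
    dsimp only
    rw [h2]
    cases Nat.beq r (nat_lit 0) with
    | true => rfl
    | false => cases Nat.ble g (Nat.div r (nat_lit 8589934592)) <;> rfl

theorem okr_small {P : Pn} {a df b g r : Nat} (h : Nat.ble g df = true) :
    P.okr a df b g r = true := by
  unfold Pn.okr
  rw [h]

/-- the read gain of the key `b` is not smaller than `g0` -/
def Rg0 (cl : List (Nat × Nat)) (b g0 : Nat) : Prop := g0 ≤ gre (rdk (mi b) cl)

theorem gre_zero : gre 0 = 0 := Nat.zero_div _

theorem Kx.okst_ok {a df g0 b r : Nat} {cl : List (Nat × Nat)}
    (h : K.okst a df g0 b r = true) (hr : r = 0 ∨ r = rdk (mi b) cl) :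
    Rg0 cl b g0 ∨ K.okz a df cl b = true := by
  unfold Rg0
  rw [Kx.okz_eq]
  unfold Pool.FCP.Kx.okst at h
  generalize rdk (mi b) cl = s at *
  cases h3 : Nat.ble g0 (gre r) with
  | true =>
    left
    have h4 : g0 ≤ gre r := Nat.le_of_ble_eq_true h3
    rcases hr with h5 | h5
    · rw [h5, gre_zero] at h4
      exact le_trans h4 (Nat.zero_le _)
    · rw [h5] at h4
      exact h4
  | false =>
    right
    rw [h3] at h
    dsimp only at h
    rw [frc_eq] at h
    cases h4 : Nat.ble (K.gk a b) df with
    | true => rfl
    | false =>
      dsimp only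
      rcases hr with h5 | h5
      · rw [h5] at h
        exact okr_zero h
      · rw [← h5]
        exact h

theorem okr_ge {P : Pn} {a df b g r : Nat} (h : g ≤ gre r) : P.okr a df b g r = true := by
  cases h4 : Nat.ble g df with
  | true => exact okr_small h4
  | false =>
    have h6 : Nat.ble g (gre r) = true := Nat.ble_eq_true_of_le h
    unfold gre at h6
    unfold Pn.okr
    rw [h4, h6]
    cases h7 : Nat.beq r (nat_lit 0) with
    | false => rfl
    | true =>
      exfalso
      have h8 := Nat.eq_of_beq_eq_true h7
      have h9 : gre r = 0 := by rw [h8]; exact gre_zero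
      have h10 : Nat.ble g df = true := Nat.ble_eq_true_of_le (by omega)
      rw [h10] at h4
      exact Bool.noConfusion h4

/-- a key whose gain is at most `g0` is covered -/
theorem Kx.okz_of {a df g0 b : Nat} {cl : List (Nat × Nat)}
    (h : Rg0 cl b g0 ∨ K.okz a df cl b = true) (hg : K.gk a b ≤ g0) : K.okz a df cl b = true := by
  rcases h with h | h
  · unfold Rg0 at h
    rw [Kx.okz_eq]
    generalize rdk (mi b) cl = r at *
    rw [okr_ge (le_trans hg h)]
    cases Nat.ble (K.gk a b) df <;> rfl
  · exact h

theorem Kx.oksz_mem {a la fa df g0 : Nat} {cl : List (Nat × Nat)} {bs : List Nat} {u r : Nat}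
    (h : K.oksz a la fa df g0 cl u r bs = true) (hr : (u = 0 ∧ r = 0) ∨ r = rdk u cl) {b : Nat}
    (hb : b ∈ bs)
    (h1 : K.X.W.P.Q.cme (Nat.mod (hi b) 32) la = true)
    (h2 : K.X.W.P.Q.cme fa (Nat.div (hi b) 32) = true) :
    Rg0 cl b g0 ∨ K.okz a df cl b = true := by
  induction bs generalizing u r with
  | nil => simp at hb
  | cons x bs ih =>
    have e : K.oksz a la fa df g0 cl u r (x :: bs) =
      (bif (bif K.X.W.P.Q.cme (Nat.mod (hi x) 32) la then
        K.X.W.P.Q.cme fa (Nat.div (hi x) 32) else false) then
        frc (mi x) fun v => Bool.rec (motive := fun _ => Bool)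
          (frc (rdk v cl) fun s => bif K.okst a df g0 x s then
            K.oksz a la fa df g0 cl v s bs else false)
          (bif K.okst a df g0 x r then K.oksz a la fa df g0 cl u r bs else false)
          (Nat.beq v u)
      else K.oksz a la fa df g0 cl u r bs) := rfl
    rw [e] at h
    cases h3 : (bif K.X.W.P.Q.cme (Nat.mod (hi x) 32) la then
        K.X.W.P.Q.cme fa (Nat.div (hi x) 32) else false) with
    | false =>
      rw [h3] at h
      rcases List.mem_cons.1 hb with rfl | hb
      · rw [h1, h2] at h3
        exact Bool.noConfusion h3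
      · exact ih h hr hb
    | true =>
      rw [h3] at h
      rw [cond_true, frc_eq] at h
      cases h4 : Nat.beq (mi x) u with
      | false =>
        rw [h4] at h
        dsimp only at h
        rw [frc_eq, cond_true_iff] at h
        rcases List.mem_cons.1 hb with rfl | hb
        · exact Kx.okst_ok h.1 (Or.inr rfl)
        · exact ih h.2 (Or.inr rfl) hb
      | true =>
        rw [h4] at h
        dsimp only at h
        rw [cond_true_iff] at h
        have h5 := Nat.eq_of_beq_eq_true h4
        rcases List.mem_cons.1 hb with rfl | hb
        · refine Kx.okst_ok h.1 ?_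
          rcases hr with h6 | h6
          · exact Or.inl h6.2
          · right
            rw [h5]
            exact h6
        · exact ih h.2 hr hb

theorem Kx.ok8z_mem {a la fa df g0 C : Nat} {cl : List (Nat × Nat)} (hj : Jx K.X)
    (h : K.ok8z WN a la fa df g0 cl C = true) {b : Nat} (hb : b ∈ WN.get (K.X.J (mi b)))
    (hC : K.X.J (lo b) = C)
    (h1 : K.X.W.P.Q.cme (Nat.mod (hi b) 32) la = true)
    (h2 : K.X.W.P.Q.cme fa (Nat.div (hi b) 32) = true) :
    Rg0 cl b g0 ∨ K.okz a df cl b = true := by
  have h3 : mi b < 8589934592 := Nat.mod_lt _ (by norm_num)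
  have h4 := alln_iff.1 h (mi b / 1073741824) (by omega)
  refine Kx.oksz_mem h4 (Or.inl ⟨rfl, rfl⟩) ?_ h1 h2
  have e : Nat.add C (Nat.mul 1073741824 (mi b / 1073741824)) = K.X.J (mi b) := by
    rw [← hC, ← hj.d, ← lo_mi', ← hj.m]
    show K.X.J (mi b) % 1073741824 + 1073741824 * (K.X.J (mi b) / 1073741824) = K.X.J (mi b)
    omega
  rw [e]
  exact hb

/-- the fast check is correct -/
theorem Kx.s3z_soz {a : Nat} {L : List (Nat × Nat)} (hJx : Jx K.X) (hJk : Jk K)
    (hB : ∀ p, K.X.B p ≠ 0 → K.X.kB p (K.X.B p) = true)
    (hC : ∀ p, K.X.C p ≠ 0 → K.X.kC p (K.X.C p) = true)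
    (hE : ∀ p, K.E p ≠ 0 → K.kE p (K.E p) = true)
    (hW : ∀ k, ∀ b ∈ WL.get k, hi b = k ∧ b ∈ WM.get (mi b))
    (hN : ∀ k, ∀ b ∈ WL.get k, b ∈ WN.get (K.X.J (mi b)))
    (hR : ∀ k, ∀ b ∈ WL.get k, Krr K.X b)
    (h : K.s3z WL WM WN a L = true) : K.soz WL a L = true := by
  cases L with
  | nil => rfl
  | cons q cl =>
    have e : K.s3z WL WM WN a (q :: cl) =
      (bif (bif Nat.ble K.X.W.P.Q.sh q.1 then Nat.ble (rrc (lo a)) 1073741823 else false) then
        (fun la fa : Nat => frc (lo a) fun A => frc (rrc A) fun A' =>
          bif ala (fun p => frc (Nat.add p.1 (K.az a p.2)) fun g0 =>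
              bif Nat.ble g0 q.1 then true else frc (rdk p.2 cl) fun r =>
                bif Nat.ble g0 (gre r) then true else
                  K.oksz a la fa q.1 g0 cl p.2 r (WM.get p.2))
              (K.X.W.P.Q.T.get a) then
            bif frc (K.X.M A) (fun m => alln (mnB m) fun j => frc (Nat.succ j) fun b =>
              frc (rlc (mcB m b)) fun C =>
                frc (Nat.add K.X.W.P.Q.sh (Nat.add (maR m b) (K.X.al A' C))) fun g0 =>
                bif Nat.ble g0 q.1 then true
                else K.ok8z WN a la fa q.1 g0 cl C) then
              bif frc (K.X.M A') (fun m => alln (mnC m) fun j => frc (Nat.succ j) fun c =>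
                frc (mcC m c) fun C =>
                  frc (Nat.add K.X.W.P.Q.sh (Nat.add (K.X.ar A (rrc C)) (maL m c))) fun g0 =>
                  bif Nat.ble g0 q.1 then
                    true else K.ok8z WN a la fa q.1 g0 cl C) then
                frc (K.Y (K.aq a)) (fun m => alln (nY m) fun j => frc (Nat.succ j) fun j =>
                  frc (uY m j) fun u => frc (Nat.add K.X.W.P.Q.sh (K.az a u)) fun g0 =>
                    bif Nat.ble g0 q.1 then true else
                      K.oksz a la fa q.1 g0 cl 0 0 (WN.get u))
              else false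
            else false
          else false) (Nat.div (hi a) 32) (Nat.mod (hi a) 32)
      else K.soz WL a (q :: cl)) := rfl
    rw [e] at h
    cases hsh : (bif Nat.ble K.X.W.P.Q.sh q.1 then Nat.ble (rrc (lo a)) 1073741823 else false) with
    | false => rw [hsh] at h; exact h
    | true =>
      rw [hsh] at h
      dsimp only [cond_true] at h
      rw [frc_eq, frc_eq, frc_eq, frc_eq, frc_eq, cond_true_iff, cond_true_iff,
        cond_true_iff] at h
      obtain ⟨t1, t2, t3, t4⟩ := h
      rw [cond_true_iff] at hsh
      have hsh' : K.X.W.P.Q.sh ≤ q.1 := Nat.le_of_ble_eq_true hsh.1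
      have hA' : rrc (lo a) < 1073741824 := by
        have := Nat.le_of_ble_eq_true hsh.2
        omega
      have hA : lo a < 1073741824 := Nat.mod_lt _ (by norm_num)
      have e2 : K.soz WL a (q :: cl) =
        (bif (bif Nat.ble (Nat.sub K.X.W.P.Q.sh (K.X.W.P.nk a)) q.1 then true else
          lst (Nat.sub K.X.W.P.Q.sh (K.X.W.P.nk a)) 1 cl) then
          (alln 32 fun f => bif K.X.W.P.Q.cme f (Nat.div (hi a) 32) then
              alln 32 fun l => bif K.X.W.P.Q.cme (Nat.mod (hi a) 32) l then
                allb (K.okz a q.1 cl) (WL.get (Nat.add f (Nat.mul 32 l))) else true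
            else true)
        else false) := rfl
      have e3 : Nat.ble (Nat.sub K.X.W.P.Q.sh (K.X.W.P.nk a)) q.1 = true :=
        Nat.ble_eq_true_of_le (le_trans (Nat.sub_le _ _) hsh')
      rw [e2, e3]
      dsimp only [cond_true]
      rw [alln_iff]
      intro f hf
      cases c1 : K.X.W.P.Q.cme f (Nat.div (hi a) 32) with
      | false => rfl
      | true =>
        dsimp only [cond_true]
        rw [alln_iff]
        intro l hl
        cases c2 : K.X.W.P.Q.cme (Nat.mod (hi a) 32) l with
        | false => rfl
        | true =>
          dsimp only [cond_true]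
          apply allb_of
          intro b hb
          obtain ⟨w1, w2⟩ := hW _ b hb
          have w0 := hR _ b hb
          have wn := hN _ b hb
          have w1' : hi b = f + 32 * l := w1
          have w3 : Nat.mod (hi b) 32 = f := by
            show hi b % 32 = f
            omega
          have w4 : Nat.div (hi b) 32 = l := by
            show hi b / 32 = l
            omega
          have c1' : K.X.W.P.Q.cme (Nat.mod (hi b) 32) (Nat.div (hi a) 32) = true := by
            rw [w3]; exact c1
          have c2' : K.X.W.P.Q.cme (Nat.mod (hi a) 32) (Nat.div (hi b) 32) = true := by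
            rw [w4]; exact c2
          have eg : K.X.W.P.Q.Gn a b =
            (2 * ((asc (K.X.W.P.Q.T.get a) (mi b) - K.X.W.P.Q.sh) / 2) + K.X.W.P.Q.sh) -
              2 * K.X.W.P.Q.fk a b := rfl
          have ek : K.gk a b = K.X.W.P.Q.Gn a b + K.az a (mi b) := rfl
          have ez : K.az a (mi b) = K.X.ae a (mi b) + K.ay a (mi b) := rfl
          have small : K.gk a b ≤ q.1 → K.okz a q.1 cl b = true := by
            intro hs
            have e4 : Nat.ble (K.gk a b) q.1 = true := Nat.ble_eq_true_of_le hs
            rw [Kx.okz_eq, e4]
          by_cases hp : asc (K.X.W.P.Q.T.get a) (mi b) ≤ K.X.W.P.Q.sh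
          · have hG : K.X.W.P.Q.Gn a b ≤ K.X.W.P.Q.sh := by rw [eg]; omega
            have elo : lo (mi b) = lo b := by
              show b % 8589934592 % 1073741824 = b % 1073741824
              omega
            by_cases hy : K.ay a (mi b) = 0
            · by_cases hu : mi b ≤ 1
              · apply small
                have e6 : K.X.ae a (mi b) = 0 := by
                  unfold Px.ae
                  rw [Nat.ble_eq_true_of_le hu]
                omega
              · have e6 : K.X.ae a (mi b) = K.X.ar (lo a) (rrc (lo b)) +
                    K.X.al (rrc (lo a)) (lo b) := by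
                  unfold Px.ae
                  have h1 : Nat.ble (mi b) 1 = false := by
                    rw [← Bool.not_eq_true, Nat.ble_eq]; exact hu
                  rw [h1, elo]
                  rfl
                by_cases hb0 : K.X.B (pr2 (lo a) (rrc (lo b))) = 0
                · have e7 : K.X.ar (lo a) (rrc (lo b)) = 0 := by rw [ar_eq, if_pos hb0]
                  by_cases hc0 : K.X.C (pr2 (rrc (lo a)) (lo b)) = 0
                  · have e8 : K.X.al (rrc (lo a)) (lo b) = 0 := by rw [al_eq, if_pos hc0]
                    apply small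
                    omega
                  · obtain ⟨d1, d2⟩ := Pool.FCP.kc_of hC hA' hc0
                    obtain ⟨j, hj⟩ : ∃ j, K.X.C (pr2 (rrc (lo a)) (lo b)) = j + 1 :=
                      ⟨K.X.C (pr2 (rrc (lo a)) (lo b)) - 1, by omega⟩
                    have h3 := alln_iff.1 t3 j (by omega)
                    rw [frc_eq, frc_eq, frc_eq] at h3
                    have e9 : Nat.succ j = K.X.C (pr2 (rrc (lo a)) (lo b)) := hj.symm
                    rw [e9, d2, w0.j, ar_J hJx hA, e7] at h3
                    have e8 : K.X.al (rrc (lo a)) (lo b) =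
                      maL (K.X.M (rrc (lo a))) (K.X.C (pr2 (rrc (lo a)) (lo b))) := by
                      rw [al_eq, if_neg hc0]
                    rw [← e8] at h3
                    cases h4 : Nat.ble (Nat.add K.X.W.P.Q.sh (Nat.add 0
                      (K.X.al (rrc (lo a)) (lo b)))) q.1 with
                    | true =>
                      apply small
                      have h5 : K.X.W.P.Q.sh + (0 + K.X.al (rrc (lo a)) (lo b)) ≤ q.1 :=
                        Nat.le_of_ble_eq_true h4
                      omega
                    | false =>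
                      rw [h4] at h3
                      refine Kx.okz_of (Kx.ok8z_mem hJx h3 wn rfl c1' c2') ?_
                      show K.gk a b ≤ K.X.W.P.Q.sh + (0 + K.X.al (rrc (lo a)) (lo b))
                      omega
                · obtain ⟨d1, d2⟩ := Pool.FCP.kb_of hB hA hb0
                  obtain ⟨j, hj⟩ : ∃ j, K.X.B (pr2 (lo a) (rrc (lo b))) = j + 1 :=
                    ⟨K.X.B (pr2 (lo a) (rrc (lo b))) - 1, by omega⟩
                  have h3 := alln_iff.1 t2 j (by omega)
                  rw [frc_eq, frc_eq, frc_eq] at h3
                  have e9 : Nat.succ j = K.X.B (pr2 (lo a) (rrc (lo b))) := hj.symm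
                  rw [e9, d2, w0.l, al_J hJx hA'] at h3
                  have e8 : K.X.ar (lo a) (rrc (lo b)) =
                    maR (K.X.M (lo a)) (K.X.B (pr2 (lo a) (rrc (lo b)))) := by
                    rw [ar_eq, if_neg hb0]
                  rw [← e8] at h3
                  cases h4 : Nat.ble (Nat.add K.X.W.P.Q.sh (Nat.add (K.X.ar (lo a) (rrc (lo b)))
                    (K.X.al (rrc (lo a)) (lo b)))) q.1 with
                  | true =>
                    apply small
                    have h5 : K.X.W.P.Q.sh + (K.X.ar (lo a) (rrc (lo b)) +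
                      K.X.al (rrc (lo a)) (lo b)) ≤ q.1 := Nat.le_of_ble_eq_true h4
                    omega
                  | false =>
                    rw [h4] at h3
                    refine Kx.okz_of (Kx.ok8z_mem hJx h3 wn rfl c1' c2') ?_
                    show K.gk a b ≤ K.X.W.P.Q.sh + (K.X.ar (lo a) (rrc (lo b)) +
                      K.X.al (rrc (lo a)) (lo b))
                    omega
            · -- a record
              have hl : K.lc (K.aq a) (mi b) ≠ 0 := by
                intro h0
                rw [K.ay_eq, if_pos h0] at hy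
                exact hy rfl
              rw [K.lc_eq] at hl
              have hm1 : ¬ mi b ≤ 1 := by
                intro h0
                rw [if_pos h0] at hl
                exact hl rfl
              have hl2 : K.loc (K.aq a) (mi b) ≠ 0 := by
                intro h0
                rw [h0, ite_self] at hl
                exact hl rfl
              rw [K.loc_eq] at hl2
              have hY : K.Y (K.aq a) ≠ 0 := by
                intro h0
                rw [if_pos h0] at hl2
                exact hl2 rfl
              rw [if_neg hY] at hl2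
              have hE0 : K.E (pr3 (K.aq a) (mi b)) ≠ 0 := by
                intro h0
                rw [if_pos h0] at hl2
                exact hl2 rfl
              have hp37 : K.aq a < 137438953472 := aqk_lt K.qt a
              have h1 := hE _ hE0
              unfold Kx.kE at h1
              rw [frc_eq, pr3_mod hp37, pr3_div hp37, brec_and] at h1
              have h2 := Nat.le_of_ble_eq_true h1.1
              have h3 := Nat.eq_of_beq_eq_true h1.2
              obtain ⟨j, hj⟩ : ∃ j, K.E (pr3 (K.aq a) (mi b)) = j + 1 :=
                ⟨K.E (pr3 (K.aq a) (mi b)) - 1, by omega⟩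
              have h5 := alln_iff.1 t4 j (by omega)
              rw [frc_eq, frc_eq, frc_eq] at h5
              have e9 : Nat.succ j = K.E (pr3 (K.aq a) (mi b)) := hj.symm
              rw [e9, h3, Pool.FCP.Kx.az_J hJx hJk w0 hm1 hA'] at h5
              cases h4 : Nat.ble (Nat.add K.X.W.P.Q.sh (K.az a (mi b))) q.1 with
              | true =>
                apply small
                have h6 : K.X.W.P.Q.sh + K.az a (mi b) ≤ q.1 := Nat.le_of_ble_eq_true h4
                omega
              | false =>
                rw [h4] at h5
                refine Kx.okz_of (Kx.oksz_mem h5 (Or.inl ⟨rfl, rfl⟩) wn c1' c2') ?_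
                show K.gk a b ≤ K.X.W.P.Q.sh + K.az a (mi b)
                omega
          · have h0 : asc (K.X.W.P.Q.T.get a) (mi b) ≠ 0 := by omega
            have h1 := ala_iff.1 t1 _ (asc_mem h0)
            rw [frc_eq] at h1
            have hg : K.gk a b ≤ asc (K.X.W.P.Q.T.get a) (mi b) + K.az a (mi b) := by omega
            cases h4 : Nat.ble (Nat.add (asc (K.X.W.P.Q.T.get a) (mi b)) (K.az a (mi b))) q.1 with
            | true =>
              apply small
              have h5 : asc (K.X.W.P.Q.T.get a) (mi b) + K.az a (mi b) ≤ q.1 :=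
                Nat.le_of_ble_eq_true h4
              omega
            | false =>
              rw [h4] at h1
              rw [cond_false, frc_eq] at h1
              cases h5 : Nat.ble (Nat.add (asc (K.X.W.P.Q.T.get a) (mi b)) (K.az a (mi b)))
                  (gre (rdk (mi b) cl)) with
              | true => exact Kx.okz_of (Or.inl (Nat.le_of_ble_eq_true h5)) hg
              | false =>
                rw [h5] at h1
                exact Kx.okz_of (Kx.oksz_mem h1 (Or.inr rfl) w2 c1' c2') hg

theorem Kx.kw_sound (hk : WL.allB K.kW = true) {k a : Nat} (ha : a ∈ WL.get k) :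
    Krr K.X a := by
  have h0 : WL.get k ≠ [] := by
    intro h1; rw [h1] at ha; simp at ha
  have h1 := allb_sound (show allb _ _ = true from BT.allB_sound hk _ (BT.get_mem h0)) a ha
  rw [cond_true_iff] at h1
  exact kr_sound h1.1

/-- the fast check of all lists -/
theorem Kx.s3z_all {t : BT (List (Nat × Nat))} (hj : Jx K.X) (hjk : Jk K)
    (hB : ∀ p, K.X.B p ≠ 0 → K.X.kB p (K.X.B p) = true)
    (hC : ∀ p, K.X.C p ≠ 0 → K.X.kC p (K.X.C p) = true)
    (hE : ∀ p, K.E p ≠ 0 → K.kE p (K.E p) = true)
    (hW : WL.allB (wlm WM) = true) (hN : WL.allB (wln K.X.J WN) = true)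
    (hk : WL.allB K.kW = true)
    (h : t.allB (K.s3z WL WM WN) = true) : t.allB (K.soz WL) = true :=
  BT.allB_mono (fun _ _ h1 => Kx.s3z_soz hj hjk hB hC hE (wlm_sound hW) (wln_sound hN)
    (fun _ _ hb => Kx.kw_sound hk hb) h1) h

end

end Pool.FCP.Qz
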