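import Pool.Agent.FCR.Jq
import Pool.Agent.FCR.Jc
import Pool.Agent.FCV.Qp

/-! # Star check with covering candidates: the tables of the letters -/

set_option maxRecDepth 1000000

namespace Pool.FCR

open Pool.FCS Pool.FC7

open Pool.FCP.Qz (Cvg Cvl Cvu Cvw kd kd_tab)

noncomputable section

/-- the digits which cover a digit -/
def cvL (a : Nat) : List Nat := [a, kd a]

theorem cvg_mem {z a : Nat} (h : Cvg z a) : z ∈ cvL a := by
  rcases h with h | h
  · rw [h]; exact List.mem_cons_self ..
  · rw [h]; exact List.mem_cons_of_mem _ (List.mem_cons_self ..)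

theorem cvl_all {f : Nat → Bool} {z a : Nat} (h : (cvL a).all f = true) (hz : Cvg z a) :
    f z = true := by
  rw [List.all_eq_true] at h
  exact h z (cvg_mem hz)

theorem r2_cv {k l m x a b : Nat} (hk : k < 3) (hm : m < 3) (h : p2 k l m x = true)
    (ha : Cvg a (blx l + 1)) (hb : Cvg b (blx x + 1)) : r2b k a m b = true := by
  have h0 : ((List.range 31).all fun l => (List.range 31).all fun x => !cmpR l x ||
    ((List.range 3).all fun k => (List.range 3).all fun m => !p2 k l m x ||
      ((cvL (blx l + 1)).all fun a => (cvL (blx x + 1)).all fun b =>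
        r2b k a m b))) = true := by decide +kernel
  have h' := h
  unfold p2 at h'
  simp only [Bool.and_eq_true] at h'
  have hc := h'.1.1.1
  have hc' := hc
  unfold cmpR cmpf at hc'
  simp only [Bool.and_eq_true] at hc'
  rw [List.all_eq_true] at h0
  have h1 := h0 l (List.mem_range.2 (lal_lt hc'.1.1))
  rw [List.all_eq_true] at h1
  have h2 := h1 x (List.mem_range.2 (lal_lt hc'.1.2))
  rw [hc, Bool.not_true, Bool.false_or, List.all_eq_true] at h2
  have h3 := h2 k (List.mem_range.2 hk)
  rw [List.all_eq_true] at h3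
  have h4 := h3 m (List.mem_range.2 hm)
  rw [h, Bool.not_true, Bool.false_or] at h4
  exact cvl_all (cvl_all h4 ha) hb

theorem ua_cv {k l m x v b : Nat} (hk : k < 3) (hm : m < 3) (h : p2 k l m x = true)
    (hv : l ∈ lg v) (hb : Cvg b (blx x + 1)) : ua k v m b = true := by
  have h0 : ((List.range 46).all fun v => (lg v).all fun l => (List.range 31).all fun x =>
    !cmpR l x || ((List.range 3).all fun k => (List.range 3).all fun m => !p2 k l m x ||
      ((cvL (blx x + 1)).all fun b => ua k v m b))) = true := by decide +kernel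
  have h' := h
  unfold p2 at h'
  simp only [Bool.and_eq_true] at h'
  have hc := h'.1.1.1
  have hc' := hc
  unfold cmpR cmpf at hc'
  simp only [Bool.and_eq_true] at hc'
  rw [List.all_eq_true] at h0
  have h0 := h0 v (List.mem_range.2 (lg_lt hv))
  rw [List.all_eq_true] at h0
  have h1 := h0 l hv
  rw [List.all_eq_true] at h1
  have h2 := h1 x (List.mem_range.2 (lal_lt hc'.1.2))
  rw [hc, Bool.not_true, Bool.false_or, List.all_eq_true] at h2
  have h3 := h2 k (List.mem_range.2 hk)
  rw [List.all_eq_true] at h3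
  have h4 := h3 m (List.mem_range.2 hm)
  rw [h, Bool.not_true, Bool.false_or] at h4
  exact cvl_all h4 hb

theorem ub_cv {k l m x v b : Nat} (hk : k < 3) (hm : m < 3) (h : p2 m x k l = true)
    (hv : l ∈ lg v) (hb : Cvg b (blx x + 1)) : ub k v m b = true := by
  have h0 : ((List.range 46).all fun v => (lg v).all fun l => (List.range 31).all fun x =>
    !cmpR x l || ((List.range 3).all fun k => (List.range 3).all fun m => !p2 m x k l ||
      ((cvL (blx x + 1)).all fun b => ub k v m b))) = true := by decide +kernel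
  have h' := h
  unfold p2 at h'
  simp only [Bool.and_eq_true] at h'
  have hc := h'.1.1.1
  have hc' := hc
  unfold cmpR cmpf at hc'
  simp only [Bool.and_eq_true] at hc'
  rw [List.all_eq_true] at h0
  have h0 := h0 v (List.mem_range.2 (lg_lt hv))
  rw [List.all_eq_true] at h0
  have h1 := h0 l hv
  rw [List.all_eq_true] at h1
  have h2 := h1 x (List.mem_range.2 (lal_lt hc'.1.1))
  rw [hc, Bool.not_true, Bool.false_or, List.all_eq_true] at h2
  have h3 := h2 k (List.mem_range.2 hk)
  rw [List.all_eq_true] at h3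
  have h4 := h3 m (List.mem_range.2 hm)
  rw [h, Bool.not_true, Bool.false_or] at h4
  exact cvl_all h4 hb

theorem gk_cv {k l m n x y a b : Nat} (hk : k < 3) (hm : m < 3) (hn : n < 3)
    (h1 : p2 k l m x = true) (h2 : p2 n y k l = true) (h3 : g4R (6 - k) l (6 - m) (6 - n) x y = true)
    (ha : Cvg a (blx x + 1)) (hb : Cvg b (blx y + 1)) :
    gkb k (ccf l + 1) m a n b = false := by
  have h0 : ((List.range 31).all fun l => (List.range 31).all fun x => !cmpR l x ||
    ((List.range 31).all fun y => !cmpR y l ||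
    ((List.range 3).all fun k => (List.range 3).all fun m => !p2 k l m x ||
      ((List.range 3).all fun n => !p2 n y k l || !g4R (6 - k) l (6 - m) (6 - n) x y ||
        ((cvL (blx x + 1)).all fun a => (cvL (blx y + 1)).all fun b =>
          !gkb k (ccf l + 1) m a n b))))) = true := by decide +kernel
  have e1 := h1
  have e2 := h2
  unfold p2 at e1 e2
  simp only [Bool.and_eq_true] at e1 e2
  have c1 := e1.1.1.1
  have c2 := e2.1.1.1
  have c1' := c1
  have c2' := c2
  unfold cmpR cmpf at c1' c2'
  simp only [Bool.and_eq_true] at c1' c2'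
  rw [List.all_eq_true] at h0
  have h0 := h0 l (List.mem_range.2 (lal_lt c1'.1.1))
  rw [List.all_eq_true] at h0
  have h0 := h0 x (List.mem_range.2 (lal_lt c1'.1.2))
  rw [c1, Bool.not_true, Bool.false_or, List.all_eq_true] at h0
  have h0 := h0 y (List.mem_range.2 (lal_lt c2'.1.1))
  rw [c2, Bool.not_true, Bool.false_or, List.all_eq_true] at h0
  have h0 := h0 k (List.mem_range.2 hk)
  rw [List.all_eq_true] at h0
  have h0 := h0 m (List.mem_range.2 hm)
  rw [h1, Bool.not_true, Bool.false_or, List.all_eq_true] at h0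
  have h0 := h0 n (List.mem_range.2 hn)
  rw [h2, h3, Bool.not_true, Bool.false_or, Bool.false_or] at h0
  have h4 := cvl_all (cvl_all h0 ha) hb
  simpa using h4

theorem cF_cv {k l m n x y a b : Nat} (hk : k < 3) (hm : m < 3) (hn : n < 3)
    (h1 : p2 k l m x = true) (h2 : p2 n y k l = true) (h3 : g4R (6 - k) l (6 - m) (6 - n) x y = true)
    (ha : Cvg a (blx x + 1)) (hb : Cvg b (blx y + 1)) :
    cFb k (ccf l + 1) m a n b = false := by
  have h0 : ((List.range 31).all fun l => (List.range 31).all fun x => !cmpR l x ||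
    ((List.range 31).all fun y => !cmpR y l ||
    ((List.range 3).all fun k => (List.range 3).all fun m => !p2 k l m x ||
      ((List.range 3).all fun n => !p2 n y k l || !g4R (6 - k) l (6 - m) (6 - n) x y ||
        ((cvL (blx x + 1)).all fun a => (cvL (blx y + 1)).all fun b =>
          !cFb k (ccf l + 1) m a n b))))) = true := by decide +kernel
  have e1 := h1
  have e2 := h2
  unfold p2 at e1 e2
  simp only [Bool.and_eq_true] at e1 e2
  have c1 := e1.1.1.1
  have c2 := e2.1.1.1
  have c1' := c1
  have c2' := c2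
  unfold cmpR cmpf at c1' c2'
  simp only [Bool.and_eq_true] at c1' c2'
  rw [List.all_eq_true] at h0
  have h0 := h0 l (List.mem_range.2 (lal_lt c1'.1.1))
  rw [List.all_eq_true] at h0
  have h0 := h0 x (List.mem_range.2 (lal_lt c1'.1.2))
  rw [c1, Bool.not_true, Bool.false_or, List.all_eq_true] at h0
  have h0 := h0 y (List.mem_range.2 (lal_lt c2'.1.1))
  rw [c2, Bool.not_true, Bool.false_or, List.all_eq_true] at h0
  have h0 := h0 k (List.mem_range.2 hk)
  rw [List.all_eq_true] at h0
  have h0 := h0 m (List.mem_range.2 hm)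
  rw [h1, Bool.not_true, Bool.false_or, List.all_eq_true] at h0
  have h0 := h0 n (List.mem_range.2 hn)
  rw [h2, h3, Bool.not_true, Bool.false_or, Bool.false_or] at h0
  have h4 := cvl_all (cvl_all h0 ha) hb
  simpa using h4

theorem cL_cv {k l m n x y a b : Nat} (hk : k < 3) (hm : m < 3) (hn : n < 3)
    (h1 : p2 k l m x = true) (h2 : p2 n y k l = true) (h3 : g4R (6 - k) l (6 - m) (6 - n) x y = true)
    (ha : Cvg a (blx x + 1)) (hb : Cvg b (blx y + 1)) :
    cLb k (ccf l + 1) m a n b = false := by
  have h0 : ((List.range 31).all fun l => (List.range 31).all fun x => !cmpR l x ||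
    ((List.range 31).all fun y => !cmpR y l ||
    ((List.range 3).all fun k => (List.range 3).all fun m => !p2 k l m x ||
      ((List.range 3).all fun n => !p2 n y k l || !g4R (6 - k) l (6 - m) (6 - n) x y ||
        ((cvL (blx x + 1)).all fun a => (cvL (blx y + 1)).all fun b =>
          !cLb k (ccf l + 1) m a n b))))) = true := by decide +kernel
  have e1 := h1
  have e2 := h2
  unfold p2 at e1 e2
  simp only [Bool.and_eq_true] at e1 e2
  have c1 := e1.1.1.1
  have c2 := e2.1.1.1
  have c1' := c1
  have c2' := c2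
  unfold cmpR cmpf at c1' c2'
  simp only [Bool.and_eq_true] at c1' c2'
  rw [List.all_eq_true] at h0
  have h0 := h0 l (List.mem_range.2 (lal_lt c1'.1.1))
  rw [List.all_eq_true] at h0
  have h0 := h0 x (List.mem_range.2 (lal_lt c1'.1.2))
  rw [c1, Bool.not_true, Bool.false_or, List.all_eq_true] at h0
  have h0 := h0 y (List.mem_range.2 (lal_lt c2'.1.1))
  rw [c2, Bool.not_true, Bool.false_or, List.all_eq_true] at h0
  have h0 := h0 k (List.mem_range.2 hk)
  rw [List.all_eq_true] at h0
  have h0 := h0 m (List.mem_range.2 hm)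
  rw [h1, Bool.not_true, Bool.false_or, List.all_eq_true] at h0
  have h0 := h0 n (List.mem_range.2 hn)
  rw [h2, h3, Bool.not_true, Bool.false_or, Bool.false_or] at h0
  have h4 := cvl_all (cvl_all h0 ha) hb
  simpa using h4

theorem leb_cv {x : Nat} (hx : lalR x = true) {z : Nat} (hz : Cvl z (blf (ccf x))) {g : Nat}
    (hg : leb g z = true) : leb g (blf (ccf x)) = true := by
  have h31 := (let_all hx).2.1
  have hz31 : z < 31 := hz.sm h31
  have h46 : g < 50 := by
    by_contra hc
    have : leb g z = false :=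
      tb_big (n := 1600) (by decide +kernel) (by
        show 1600 ≤ 32 * g + z
        omega)
    rw [this] at hg
    exact Bool.noConfusion hg
  have h := lal_all (f := fun x => (List.range 50).all fun g =>
    !leb g (kd (blf (ccf x) + 1) - 1) || leb g (blf (ccf x))) (by decide +kernel) hx
  rw [List.all_eq_true] at h
  have h1 := h g (List.mem_range.2 h46)
  rcases hz with h2 | h2
  · rw [← h2]; exact hg
  · have h3 : z = kd (blf (ccf x) + 1) - 1 := by omega
    rw [← h3, hg] at h1
    simpa using h1

/-- the letters of the facts -/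
theorem lt_cv {x z : Nat} (hx : lalR x = true) (hz : Cvg z (blf (ccf x) + 1)) :
    (0 < tg6 ltT z ∧ tg6 ltT z < 63 ∧ leb (tg6 ltT z - 1) (blf (ccf x)) = true) ∧
    0 < tg6 ltmT z ∧ tg6 ltmT z < 63 ∧ leb (lmr (tg6 ltmT z - 1)) (blf (ccf x)) = true := by
  have h := lal_all (f := fun x => (cvL (blf (ccf x) + 1)).all fun z =>
    decide (0 < tg6 ltT z) &&
    decide (tg6 ltT z < 63) && leb (tg6 ltT z - 1) (blf (ccf x)) &&
    decide (0 < tg6 ltmT z) && decide (tg6 ltmT z < 63) &&
    leb (lmr (tg6 ltmT z - 1)) (blf (ccf x))) (by decide +kernel) hx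
  have h' := cvl_all h hz
  simp only [Bool.and_eq_true, decide_eq_true_eq] at h'
  obtain ⟨⟨⟨⟨⟨h1, h2⟩, h3⟩, h4⟩, h5⟩, h6⟩ := h'
  exact ⟨⟨h1, h2, h3⟩, h4, h5, h6⟩

/-- a covering code of a word -/
theorem cv_w {a : List Nat} (ha : glR a) {u : Nat}
    (hu : Cvu u (nfc bmT wmT smT (enc (a.map ccf)))) :
    slf u = 6 - (a.map wlR).sum ∧ Cvg (Nat.mod u 32) (blx (a.getD 0 0) + 1) ∧
      Cvg (Nat.div (lo u) (pwF (lo u))) (blx (a.getD (a.length - 1) 0) + 1) := by
  have la := blc_lt ha
  obtain ⟨a4, a6, -, -, aa, -⟩ := glf_w ha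
  have e1 : slf (nfc bmT wmT smT (enc (a.map ccf))) = 6 - (a.map wlR).sum := by
    rw [slf_nfc la, wsl_w ha]
  have e3 : nfc bmT wmT smT (enc (a.map ccf)) % 32 = blx (a.getD 0 0) + 1 := by
    have h1 : Nat.mod (lo (nfc bmT wmT smT (enc (a.map ccf)))) 32 =
        nfc bmT wmT smT (enc (a.map ccf)) % 32 := by
      show nfc bmT wmT smT (enc (a.map ccf)) % 1073741824 % 32 = _ % 32
      omega
    rw [← h1, lo_nfc la, blc_w ha]
    have h2 := enc_first (sm_bl aa) (by rw [List.length_map]; omega)
    show enc (a.map blx) % 32 = _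
    rw [h2, getD_map0 (by omega)]
  have e4 : Nat.div (lo (nfc bmT wmT smT (enc (a.map ccf))))
      (pwF (lo (nfc bmT wmT smT (enc (a.map ccf))))) = blx (a.getD (a.length - 1) 0) + 1 := by
    rw [lo_nfc la, blc_w ha, pwF_eq]
    have h2 := enc_last (sm_bl aa) (by rw [List.length_map]; omega)
      (by rw [List.length_map]; omega)
    show enc (a.map blx) / pw (enc (a.map blx)) = _
    rw [h2, List.length_map, getD_map0 (by omega)]
  refine ⟨?_, ?_, ?_⟩
  · rw [hu.slf, e1]
  · have h1 := hu.fst
    rw [e3] at h1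
    exact h1
  · have h1 := hu.lst
    rw [e4] at h1
    exact h1

end

end Pool.FCR
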