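import Pool.Agent.FCR.Jd
import Pool.Agent.FCR.Jp
import Pool.Agent.FCV.Qs

/-! # Star check with covering candidates: the lists of the candidates -/

namespace Pool.FCR

open Pool.FCS

noncomputable section

/-- the fast check of all lists, tables with projected codes -/
theorem soz_ofV {W : Pw} {tM tB tC tV tA : BT Nat} {tN tB' tC' tE tY tU tb : BT Nat}
    {WL WM WN : BT (List Nat)} {t : BT (List (Nat × Nat))}
    (X : Pool.FCP.Px) (hX : X = Pool.FCP.Px.mk W (gJ tM) (gP tB) (gP tC) tV.getN tA.getN jc)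
    (qt : Nat) (K : Pool.FCP.Kx) (hKx : K = Pool.FCP.Kx.mk X qt (gJ tN) (gP tB') (gP tC') (gE tE)
      (gJ tY) tU.getN tb.getN)
    (hB : tB.allB X.kB = true) (hC : tC.allB X.kC = true) (hE : tE.allB K.kE = true)
    (hW : WL.allB (wlm WM) = true) (hN : WL.allB (Pool.FCP.wln jc WN) = true)
    (hk : WL.allB K.kW = true) (h : t.allB (K.s3z WL WM WN) = true) :
    t.allB (K.soz WL) = true := by
  subst hKx
  subst hX
  have hj := jx_of W tM tB tC tV.getN tA.getN
  have hjk := jk_of _ (show (Pool.FCP.Px.mk W (gJ tM) (gP tB) (gP tC) tV.getN tA.getN jc).J = jc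
    from rfl) qt tN tB' tC' tE tY tU.getN tb.getN
  exact Pool.FCP.Qz.Kx.s3z_all hj hjk (tabP hB (Pool.FCP.kB_J hj)) (tabP hC (Pool.FCP.kC_J hj))
    (tabE hE (Pool.FCP.kE_J hj hjk)) hW hN hk h

end

end Pool.FCR
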