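import Pool.Agent.FCV.Rd

/-! # Two trees with the same lists of facts -/

namespace Pool.FCR

open Pool.FCS

/-- a tree of facts whose entries are entries of another tree -/
theorem OkT.sub {s t : BT Nat} (h : OkT s)
    (e : t.allB (fun k v => Nat.beq (s.getN k) v) = true) : OkT t := by
  intro p hp X hX
  have h1 : Nat.beq (s.getN p.1) p.2 = true := BT.allB_sound e p hp
  have h2 : s.getN p.1 = p.2 := Nat.eq_of_beq_eq_true h1
  by_cases h0 : s.getN p.1 = 0
  · rw [← h2, h0, dF_zero] at hX
    exact absurd hX List.not_mem_nil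
  · have h3 := BT.getN_mem h0
    rw [h2] at h3
    exact h _ h3 X hX

end Pool.FCR
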