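import Pool.Agent.FCV.Rc

/-!
# Star check with covering candidates: packed search in the lists
-/

namespace Pool.FCP.Qz

open Pool.FCS

noncomputable section

namespace Sv

/-! ### Lanes -/

theorem bt {L x : Nat} (hx : x < 2 ^ L) (r : Nat) (i : Nat) :
    Nat.testBit (2 ^ L * r + x) i =
      if i < L then Nat.testBit x i else Nat.testBit r (i - L) :=
  Nat.testBit_two_pow_mul_add r hx i

theorem ad_land {L a b c d : Nat} (hb : b < 2 ^ L) (hd : d < 2 ^ L) :
    (2 ^ L * a + b) &&& (2 ^ L * c + d) = 2 ^ L * (a &&& c) + (b &&& d) := by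
  have a3 : b &&& d < 2 ^ L := lt_of_le_of_lt Nat.and_le_left hb
  apply Nat.eq_of_testBit_eq
  intro i
  rw [Nat.testBit_and, bt hb, bt hd, bt a3]
  by_cases hi : i < L
  · simp [hi]
  · simp [hi]

theorem ad_lor {L a b c d : Nat} (hb : b < 2 ^ L) (hd : d < 2 ^ L) :
    (2 ^ L * a + b) ||| (2 ^ L * c + d) = 2 ^ L * (a ||| c) + (b ||| d) := by
  have a3 : b ||| d < 2 ^ L := Nat.or_lt_two_pow hb hd
  apply Nat.eq_of_testBit_eq
  intro i
  rw [Nat.testBit_or, bt hb, bt hd, bt a3]
  by_cases hi : i < L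
  · simp [hi]
  · simp [hi]

theorem ad_xor {L a b c d : Nat} (hb : b < 2 ^ L) (hd : d < 2 ^ L) :
    (2 ^ L * a + b) ^^^ (2 ^ L * c + d) = 2 ^ L * (a ^^^ c) + (b ^^^ d) := by
  have a3 : b ^^^ d < 2 ^ L := Nat.xor_lt_two_pow hb hd
  apply Nat.eq_of_testBit_eq
  intro i
  rw [Nat.testBit_xor, bt hb, bt hd, bt a3]
  by_cases hi : i < L
  · simp [hi]
  · simp [hi]

/-- the lowest bit is removed -/
theorem low_bit (L t : Nat) : (2 ^ L * (2 * t + 1)) &&& (2 ^ L * (2 * t + 1) - 1) = 2 ^ L * (2 * t) := by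
  have e1 : 2 ^ L * (2 * t + 1) = 2 ^ (L + 1) * t + 2 ^ L := by ring
  have h0 : 0 < 2 ^ L := Nat.two_pow_pos L
  have e2 : 2 ^ L * (2 * t + 1) - 1 = 2 ^ (L + 1) * t + (2 ^ L - 1) := by rw [e1]; omega
  have h1 : 2 ^ L < 2 ^ (L + 1) := by rw [pow_succ]; omega
  rw [e2, e1, ad_land h1 (by omega), Nat.and_self, Nat.and_two_pow_sub_one_eq_mod, Nat.mod_self]
  ring

/-! ### The digits of a lane -/

/-- the guard bits of the digits which are not `0`; `O` the ones of the lanes -/
def nz (X O : Nat) : Nat :=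
  ((X &&& (7548730399 * O)) + 7548730399 * O &&& (8623521824 * O)) |||
    ((X &&& (1041204192 * O)) + 1041204192 * O &&& (1074791424 * O))

/-- `0` or `1` -/
def ez (t : Nat) : Nat := if t = 0 then 0 else 1

theorem ez_lt (t : Nat) : ez t < 2 := by unfold ez; split <;> omega

theorem g5 : ∀ t < 32, (t + 31) &&& 32 = 32 * ez t := by decide
theorem g3 : ∀ t < 8, (t + 7) &&& 8 = 8 * ez t := by decide

theorem a31 (a : Nat) : a &&& 31 = a % 32 := Nat.and_two_pow_sub_one_eq_mod a 5
theorem a7 (a : Nat) : a &&& 7 = a % 8 := Nat.and_two_pow_sub_one_eq_mod a 3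

theorem nz_even (x : Nat) : ((x &&& 7548730399) + 7548730399) &&& 8623521824 =
    32 * ez (x % 32) + 32768 * ez (x / 1024 % 32) + 33554432 * ez (x / 1048576 % 32) +
      8589934592 * ez (x / 1073741824 % 8) := by
  have e1 : x &&& 7548730399 = 2 ^ 10 * (2 ^ 10 * (2 ^ 10 * (x / 1073741824 % 8) +
      (x / 1048576 % 32)) + x / 1024 % 32) + x % 32 := by
    have d1 : x = 2 ^ 10 * (2 ^ 10 * (2 ^ 10 * (x / 1073741824) + x / 1048576 % 1024) +
      x / 1024 % 1024) + x % 1024 := by omega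
    conv_lhs => rw [d1]
    rw [show (7548730399 : Nat) = 2 ^ 10 * (2 ^ 10 * (2 ^ 10 * 7 + 31) + 31) + 31 by norm_num,
      ad_land (by omega) (by norm_num), ad_land (by omega) (by norm_num),
      ad_land (by omega) (by norm_num), a31, a31, a31, a7]
    omega
  have s0 := Nat.mod_lt x (show 0 < 32 by norm_num)
  have s1 := Nat.mod_lt (x / 1024) (show 0 < 32 by norm_num)
  have s2 := Nat.mod_lt (x / 1048576) (show 0 < 32 by norm_num)
  have s3 := Nat.mod_lt (x / 1073741824) (show 0 < 8 by norm_num)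
  rw [e1]
  generalize x % 32 = x0 at *
  generalize x / 1024 % 32 = x2 at *
  generalize x / 1048576 % 32 = x4 at *
  generalize x / 1073741824 % 8 = x6 at *
  have e2 : 2 ^ 10 * (2 ^ 10 * (2 ^ 10 * x6 + x4) + x2) + x0 + 7548730399 =
    2 ^ 10 * (2 ^ 10 * (2 ^ 10 * (x6 + 7) + (x4 + 31)) + (x2 + 31)) + (x0 + 31) := by omega
  rw [e2, show (8623521824 : Nat) = 2 ^ 10 * (2 ^ 10 * (2 ^ 10 * 8 + 32) + 32) + 32 by norm_num,
    ad_land (by omega) (by norm_num), ad_land (by omega) (by norm_num),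
    ad_land (by omega) (by norm_num), g5 _ s0, g5 _ s1, g5 _ s2, g3 _ s3]
  omega

theorem nz_odd (x : Nat) : ((x &&& 1041204192) + 1041204192) &&& 1074791424 =
    1024 * ez (x / 32 % 32) + 1048576 * ez (x / 32768 % 32) +
      1073741824 * ez (x / 33554432 % 32) := by
  have e1 : x &&& 1041204192 = 2 ^ 10 * (2 ^ 10 * (2 ^ 5 * (x / 33554432 % 32)) +
      2 ^ 5 * (x / 32768 % 32)) + 2 ^ 5 * (x / 32 % 32) := by
    have d1 : x = 2 ^ 5 * (2 ^ 10 * (2 ^ 10 * (x / 33554432) + x / 32768 % 1024) +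
      x / 32 % 1024) + x % 32 := by omega
    conv_lhs => rw [d1]
    rw [show (1041204192 : Nat) = 2 ^ 5 * (2 ^ 10 * (2 ^ 10 * 31 + 31) + 31) + 0 by norm_num,
      ad_land (by omega) (by norm_num), ad_land (by omega) (by norm_num),
      ad_land (by omega) (by norm_num), a31, a31, a31, Nat.and_zero]
    omega
  have s0 := Nat.mod_lt (x / 32) (show 0 < 32 by norm_num)
  have s1 := Nat.mod_lt (x / 32768) (show 0 < 32 by norm_num)
  have s2 := Nat.mod_lt (x / 33554432) (show 0 < 32 by norm_num)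
  rw [e1]
  generalize x / 32 % 32 = x1 at *
  generalize x / 32768 % 32 = x3 at *
  generalize x / 33554432 % 32 = x5 at *
  have e2 : 2 ^ 10 * (2 ^ 10 * (2 ^ 5 * x5) + 2 ^ 5 * x3) + 2 ^ 5 * x1 + 1041204192 =
    2 ^ 5 * (2 ^ 10 * (2 ^ 10 * (x5 + 31) + (x3 + 31)) + (x1 + 31)) + 0 := by omega
  rw [e2, show (1074791424 : Nat) = 2 ^ 5 * (2 ^ 10 * (2 ^ 10 * 32 + 32) + 32) + 0 by norm_num,
    ad_land (by omega) (by norm_num), ad_land (by omega) (by norm_num),
    ad_land (by omega) (by norm_num), g5 _ s0, g5 _ s1, g5 _ s2, Nat.and_zero]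
  omega

theorem ez_or (a b : Nat) : 8 * ez a ||| ez b = 8 * ez a + ez b := by
  unfold ez
  split <;> split <;> decide

theorem nz_val (x : Nat) : nz x 1 = 2 ^ 5 * (2 ^ 5 * (2 ^ 5 * (2 ^ 5 * (2 ^ 5 * (2 ^ 5 *
    (8 * ez (x / 1073741824 % 8) + ez (x / 33554432 % 32)) + ez (x / 1048576 % 32)) +
      ez (x / 32768 % 32)) + ez (x / 1024 % 32)) + ez (x / 32 % 32)) + ez (x % 32)) + 0 := by
  unfold nz
  rw [Nat.mul_one, Nat.mul_one, Nat.mul_one, Nat.mul_one, nz_even, nz_odd]
  have h0 := ez_lt (x % 32)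
  have h1 := ez_lt (x / 32 % 32)
  have h2 := ez_lt (x / 1024 % 32)
  have h3 := ez_lt (x / 32768 % 32)
  have h4 := ez_lt (x / 1048576 % 32)
  have h5 := ez_lt (x / 33554432 % 32)
  have h6 := ez_or (x / 1073741824 % 8) (x / 33554432 % 32)
  generalize ez (x % 32) = e0 at *
  generalize ez (x / 32 % 32) = e1 at *
  generalize ez (x / 1024 % 32) = e2 at *
  generalize ez (x / 32768 % 32) = e3 at *
  generalize ez (x / 1048576 % 32) = e4 at *
  generalize ez (x / 33554432 % 32) = e5 at *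
  generalize ez (x / 1073741824 % 8) = e6 at *
  have r1 : 32 * e0 + 32768 * e2 + 33554432 * e4 + 8589934592 * e6 =
      2 ^ 5 * (2 ^ 5 * (2 ^ 5 * (2 ^ 5 * (2 ^ 5 * (2 ^ 5 * (8 * e6) + e4) + 0) + e2) + 0) + e0) + 0 := by
    ring
  have r2 : 1024 * e1 + 1048576 * e3 + 1073741824 * e5 =
      2 ^ 5 * (2 ^ 5 * (2 ^ 5 * (2 ^ 5 * (2 ^ 5 * (2 ^ 5 * e5 + 0) + e3) + 0) + e1) + 0) + 0 := by
    ring
  rw [r1, r2, ad_lor (by omega) (by omega), ad_lor (by omega) (by omega),
    ad_lor (by omega) (by omega), ad_lor (by omega) (by omega), ad_lor (by omega) (by omega),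
    ad_lor (by omega) (by omega), h6]
  simp only [Nat.or_zero, Nat.zero_or]

theorem ez_and (a b : Nat) : ez a &&& ez b = ez a * ez b := by
  unfold ez
  split <;> split <;> decide

theorem ez_and2 (a b c d : Nat) :
    (8 * ez a + ez b) &&& (8 * ez c + ez d) = 8 * (ez a * ez c) + ez b * ez d := by
  unfold ez
  split <;> split <;> split <;> split <;> decide

theorem ez_mul (a b : Nat) : ez a * ez b < 2 ∧ (ez a * ez b = 0 ↔ a = 0 ∨ b = 0) := by
  unfold ez
  by_cases h1 : a = 0 <;> by_cases h2 : b = 0 <;> simp [h1, h2]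

/-- the lanes without a common digit -/
theorem bad_eq (x y : Nat) : (nz x 1 &&& nz y 1) < 2 ^ 34 ∧ ((nz x 1 &&& nz y 1) = 0 ↔
    (x % 32 = 0 ∨ y % 32 = 0) ∧ (x / 32 % 32 = 0 ∨ y / 32 % 32 = 0) ∧
    (x / 1024 % 32 = 0 ∨ y / 1024 % 32 = 0) ∧ (x / 32768 % 32 = 0 ∨ y / 32768 % 32 = 0) ∧
    (x / 1048576 % 32 = 0 ∨ y / 1048576 % 32 = 0) ∧
    (x / 33554432 % 32 = 0 ∨ y / 33554432 % 32 = 0) ∧
    (x / 1073741824 % 8 = 0 ∨ y / 1073741824 % 8 = 0)) := by
  rw [nz_val x, nz_val y]
  have b (t : Nat) : ez t < 2 ^ 5 := lt_trans (ez_lt t) (by norm_num)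
  rw [ad_land (by norm_num) (by norm_num), ad_land (b _) (b _), ad_land (b _) (b _),
    ad_land (b _) (b _), ad_land (b _) (b _), ad_land (b _) (b _), ez_and2, ez_and, ez_and,
    ez_and, ez_and, ez_and, Nat.and_zero, ← (ez_mul (x % 32) (y % 32)).2,
    ← (ez_mul (x / 32 % 32) (y / 32 % 32)).2, ← (ez_mul (x / 1024 % 32) (y / 1024 % 32)).2,
    ← (ez_mul (x / 32768 % 32) (y / 32768 % 32)).2,
    ← (ez_mul (x / 1048576 % 32) (y / 1048576 % 32)).2,
    ← (ez_mul (x / 33554432 % 32) (y / 33554432 % 32)).2,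
    ← (ez_mul (x / 1073741824 % 8) (y / 1073741824 % 8)).2]
  have h0 := (ez_mul (x % 32) (y % 32)).1
  have h1 := (ez_mul (x / 32 % 32) (y / 32 % 32)).1
  have h2 := (ez_mul (x / 1024 % 32) (y / 1024 % 32)).1
  have h3 := (ez_mul (x / 32768 % 32) (y / 32768 % 32)).1
  have h4 := (ez_mul (x / 1048576 % 32) (y / 1048576 % 32)).1
  have h5 := (ez_mul (x / 33554432 % 32) (y / 33554432 % 32)).1
  have h6 := (ez_mul (x / 1073741824 % 8) (y / 1073741824 % 8)).1
  generalize ez (x % 32) * ez (y % 32) = e0 at *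
  generalize ez (x / 32 % 32) * ez (y / 32 % 32) = e1 at *
  generalize ez (x / 1024 % 32) * ez (y / 1024 % 32) = e2 at *
  generalize ez (x / 32768 % 32) * ez (y / 32768 % 32) = e3 at *
  generalize ez (x / 1048576 % 32) * ez (y / 1048576 % 32) = e4 at *
  generalize ez (x / 33554432 % 32) * ez (y / 33554432 % 32) = e5 at *
  generalize ez (x / 1073741824 % 8) * ez (y / 1073741824 % 8) = e6 at *
  clear b
  norm_num
  omega

theorem g34 {b : Nat} (hb : b < 2 ^ 34) : ((b + 17179869183) &&& 17179869184) ^^^ 17179869184 =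
    if b = 0 then 17179869184 else 0 := by
  by_cases h : b = 0
  · subst h
    rw [if_pos rfl]
    decide
  · rw [if_neg h]
    have e1 : b + 17179869183 = 2 ^ 34 * 1 + (b - 1) := by omega
    rw [e1, show (17179869184 : Nat) = 2 ^ 34 * 1 + 0 by norm_num,
      ad_land (by omega) (by norm_num), Nat.and_zero, Nat.and_self]
    exact Nat.xor_self _

/-- one step of the covering -/
theorem cvk_or {k z u : Nat} : cvk (k + 1) z u = true ↔
    (z % 32 = u % 32 ∨ z % 32 = kd (u % 32)) ∧ cvk k (z / 32) (u / 32) = true := by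
  constructor
  · intro h
    exact ⟨(cvk_step h).2, (cvk_step h).1⟩
  · rintro ⟨h1, h2⟩
    rw [cvk_succ]
    cases h3 : Nat.beq (z % 32) (u % 32) with
    | true => exact h2
    | false =>
      have h4 := Nat.ne_of_beq_eq_false h3
      rcases h1 with h1 | h1
      · exact absurd h1 h4
      · rw [h1, Nat.beq_refl]
        exact h2

theorem cvd_or {z u : Nat} : cvd z u = true ↔
    (z % 32 = u % 32 ∨ z % 32 = kd (u % 32)) ∧
    (z / 32 % 32 = u / 32 % 32 ∨ z / 32 % 32 = kd (u / 32 % 32)) ∧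
    (z / 1024 % 32 = u / 1024 % 32 ∨ z / 1024 % 32 = kd (u / 1024 % 32)) ∧
    (z / 32768 % 32 = u / 32768 % 32 ∨ z / 32768 % 32 = kd (u / 32768 % 32)) ∧
    (z / 1048576 % 32 = u / 1048576 % 32 ∨ z / 1048576 % 32 = kd (u / 1048576 % 32)) ∧
    (z / 33554432 % 32 = u / 33554432 % 32 ∨ z / 33554432 % 32 = kd (u / 33554432 % 32)) ∧
    z / 1073741824 = u / 1073741824 := by
  have e (n : Nat) : ∀ x : Nat, x / n / 32 = x / (n * 32) := fun x => Nat.div_div_eq_div_mul x n 32
  have e0 (a b : Nat) : cvk 0 a b = true ↔ a = b := by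
    constructor
    · intro h; exact Nat.eq_of_beq_eq_true h
    · rintro rfl; exact Nat.beq_refl _
  unfold cvd
  rw [cvk_or, cvk_or, cvk_or, cvk_or, cvk_or, cvk_or, e0, e, e, e, e, e, e, e, e, e, e]

/-- the matching lanes; `O` the ones of the lanes -/
def mt (P O u v : Nat) : Nat :=
  (((nz (P ^^^ (O * u)) O) &&& (nz (P ^^^ (O * v)) O)) + 17179869183 * O &&&
    (17179869184 * O)) ^^^ (17179869184 * O)

theorem xd (a b k j : Nat) : (a ^^^ b) / 2 ^ k % 2 ^ j = 0 ↔ a / 2 ^ k % 2 ^ j = b / 2 ^ k % 2 ^ j := by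
  rw [Nat.xor_div_two_pow, Nat.xor_mod_two_pow, Nat.xor_eq_zero_iff]

theorem vck_dg (u : Nat) : vck 6 u % 32 = kd (u % 32) ∧ vck 6 u / 32 % 32 = kd (u / 32 % 32) ∧
    vck 6 u / 1024 % 32 = kd (u / 1024 % 32) ∧ vck 6 u / 32768 % 32 = kd (u / 32768 % 32) ∧
    vck 6 u / 1048576 % 32 = kd (u / 1048576 % 32) ∧
    vck 6 u / 33554432 % 32 = kd (u / 33554432 % 32) ∧
    vck 6 u / 1073741824 = u / 1073741824 := by
  have e (n : Nat) : ∀ x : Nat, x / n / 32 = x / (n * 32) := fun x => Nat.div_div_eq_div_mul x n 32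
  have e0 (a : Nat) : vck 0 a = a := rfl
  have k0 := (kd_tab (u % 32) (by omega)).1
  have k1 := (kd_tab (u / 32 % 32) (by omega)).1
  have k2 := (kd_tab (u / 1024 % 32) (by omega)).1
  have k3 := (kd_tab (u / 32768 % 32) (by omega)).1
  have k4 := (kd_tab (u / 1048576 % 32) (by omega)).1
  have k5 := (kd_tab (u / 33554432 % 32) (by omega)).1
  rw [vck_succ, vck_succ, vck_succ, vck_succ, vck_succ, vck_succ, e0, e, e, e, e, e]
  norm_num
  generalize kd (u % 32) = v0 at *
  generalize kd (u / 32 % 32) = v1 at *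
  generalize kd (u / 1024 % 32) = v2 at *
  generalize kd (u / 32768 % 32) = v3 at *
  generalize kd (u / 1048576 % 32) = v4 at *
  generalize kd (u / 33554432 % 32) = v5 at *
  clear e e0
  omega

theorem mt_one {z u h : Nat} (hz : z < 8589934592) (hu : u < 8589934592) :
    mt (z + 8589934592 * h) 1 u (vck 6 u) = if cvd z u = true then 17179869184 else 0 := by
  unfold mt
  rw [Nat.one_mul, Nat.one_mul, Nat.mul_one, Nat.mul_one]
  obtain ⟨b1, b2⟩ := bad_eq ((z + 8589934592 * h) ^^^ u) ((z + 8589934592 * h) ^^^ (vck 6 u))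
  rw [g34 b1]
  have key : (nz ((z + 8589934592 * h) ^^^ u) 1 &&& nz ((z + 8589934592 * h) ^^^ (vck 6 u)) 1) = 0 ↔
      cvd z u = true := by
    rw [b2, cvd_or]
    obtain ⟨v0, v1, v2, v3, v4, v5, v6⟩ := vck_dg u
    generalize vck 6 u = v at *
    have p0 (w : Nat) := xd (z + 8589934592 * h) w 0 5
    have p1 (w : Nat) := xd (z + 8589934592 * h) w 5 5
    have p2 (w : Nat) := xd (z + 8589934592 * h) w 10 5
    have p3 (w : Nat) := xd (z + 8589934592 * h) w 15 5
    have p4 (w : Nat) := xd (z + 8589934592 * h) w 20 5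
    have p5 (w : Nat) := xd (z + 8589934592 * h) w 25 5
    have p6 (w : Nat) := xd (z + 8589934592 * h) w 30 3
    norm_num at p0 p1 p2 p3 p4 p5 p6
    have q0 : (z + 8589934592 * h) % 32 = z % 32 := by omega
    have q1 : (z + 8589934592 * h) / 32 % 32 = z / 32 % 32 := by omega
    have q2 : (z + 8589934592 * h) / 1024 % 32 = z / 1024 % 32 := by omega
    have q3 : (z + 8589934592 * h) / 32768 % 32 = z / 32768 % 32 := by omega
    have q4 : (z + 8589934592 * h) / 1048576 % 32 = z / 1048576 % 32 := by omega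
    have q5 : (z + 8589934592 * h) / 33554432 % 32 = z / 33554432 % 32 := by omega
    have q6 : (z + 8589934592 * h) / 1073741824 % 8 = z / 1073741824 := by omega
    have q7 : u / 1073741824 % 8 = u / 1073741824 := by omega
    have q8 : v / 1073741824 % 8 = u / 1073741824 := by rw [v6]; exact q7
    rw [p0, p0, p1, p1, p2, p2, p3, p3, p4, p4, p5, p5, p6, p6, q0, q1, q2, q3, q4, q5, q6, q7, q8,
      v0, v1, v2, v3, v4, v5, or_self]
  by_cases hc : cvd z u = true
  · rw [if_pos hc, if_pos (key.2 hc)]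
  · rw [if_neg hc, if_neg fun h => hc (key.1 h)]

theorem nz_lt (x : Nat) : nz x 1 < 2 ^ 34 := by
  have h := (bad_eq x x).1
  rwa [Nat.and_self] at h

theorem ln_mul (c O : Nat) : c * (2 ^ 54 * O + 1) = 2 ^ 54 * (c * O) + c := by ring

theorem ln_add (a b c d : Nat) : 2 ^ 54 * a + b + (2 ^ 54 * c + d) = 2 ^ 54 * (a + c) + (b + d) := by
  ring

theorem ad2 {X O x c g : Nat} (hx : x < 2 ^ 54) (hc : c < 2 ^ 53) (hg : g < 2 ^ 54) :
    ((2 ^ 54 * X + x &&& 2 ^ 54 * (c * O) + c) + (2 ^ 54 * (c * O) + c)) &&&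
      (2 ^ 54 * (g * O) + g) = 2 ^ 54 * ((X &&& c * O) + c * O &&& g * O) + ((x &&& c) + c &&& g) := by
  have h1 : x &&& c ≤ c := Nat.and_le_right
  rw [ad_land hx (by omega), ln_add, ad_land (by omega) hg]

theorem nz_step {X O x : Nat} (hx : x < 2 ^ 54) :
    nz (2 ^ 54 * X + x) (2 ^ 54 * O + 1) = 2 ^ 54 * nz X O + nz x 1 := by
  unfold nz
  rw [Nat.mul_one, Nat.mul_one, Nat.mul_one, Nat.mul_one, ln_mul, ln_mul, ln_mul, ln_mul,
    ad2 hx (by norm_num) (by norm_num), ad2 hx (by norm_num) (by norm_num), ad_lor]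
  · exact lt_of_le_of_lt Nat.and_le_right (by norm_num)
  · exact lt_of_le_of_lt Nat.and_le_right (by norm_num)

theorem mt_step {P O p u v : Nat} (hp : p < 2 ^ 54) (hu : u < 2 ^ 54) (hv : v < 2 ^ 54) :
    mt (2 ^ 54 * P + p) (2 ^ 54 * O + 1) u v = 2 ^ 54 * mt P O u v + mt p 1 u v := by
  unfold mt
  have e1 (w : Nat) : (2 ^ 54 * O + 1) * w = 2 ^ 54 * (O * w) + w := by ring
  have n1 := nz_lt (p ^^^ u)
  have n2 := nz_lt (p ^^^ v)
  have n3 : nz (p ^^^ u) 1 &&& nz (p ^^^ v) 1 ≤ nz (p ^^^ u) 1 := Nat.and_le_left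
  rw [Nat.one_mul, Nat.one_mul, Nat.mul_one, Nat.mul_one, e1, e1, ad_xor hp hu, ad_xor hp hv,
    nz_step (Nat.xor_lt_two_pow hp hu), nz_step (Nat.xor_lt_two_pow hp hv),
    ad_land (by omega) (by omega), ln_mul, ln_add, ln_mul, ad_land (by omega) (by norm_num),
    ad_xor (lt_of_le_of_lt Nat.and_le_right (by norm_num)) (by norm_num)]

/-! ### The packed list -/

/-- a packed list -/
inductive PL
  | no
  | mk (P O CE CO GE GO KK HH n : Nat)

/-- the lanes of the entries: code and gain, 54 bits -/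
def pkz (cl : List (Nat × Nat)) : Nat :=
  List.rec (motive := fun _ => Nat) (nat_lit 0)
    (fun q _ ih => Prod.rec (motive := fun _ => Nat) (fun h z =>
      Nat.add (Nat.mul (nat_lit 18014398509481984) ih) (Nat.add z (Nat.mul (nat_lit 8589934592) h)))
      q) cl

/-- the entries are small -/
def okl (cl : List (Nat × Nat)) : Bool :=
  List.rec (motive := fun _ => Bool) true
    (fun q _ ih => Prod.rec (motive := fun _ => Bool) (fun h z =>
      Bool.rec (motive := fun _ => Bool) false (Bool.rec (motive := fun _ => Bool) false ih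
        (Nat.ble z (nat_lit 8589934591))) (Nat.ble h (nat_lit 1048575))) q) cl

/-- the length -/
def ln (cl : List (Nat × Nat)) : Nat :=
  List.rec (motive := fun _ => Nat) (nat_lit 0) (fun _ _ ih => Nat.succ ih) cl

/-- the ones of the lanes -/
def pko (cl : List (Nat × Nat)) : Nat :=
  List.rec (motive := fun _ => Nat) (nat_lit 0)
    (fun _ _ ih => Nat.add (Nat.mul (nat_lit 18014398509481984) ih) (nat_lit 1)) cl

/-- the packed list -/
def pld (cl : List (Nat × Nat)) : PL :=
  Bool.rec (motive := fun _ => PL) PL.no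
    (frc (pkz cl) fun P => frc (pko cl) fun O => frc (ln cl) fun n =>
      frc (Nat.mul (nat_lit 7548730399) O) fun CE => frc (Nat.mul (nat_lit 1041204192) O) fun CO =>
      frc (Nat.mul (nat_lit 8623521824) O) fun GE => frc (Nat.mul (nat_lit 1074791424) O) fun GO =>
      frc (Nat.mul (nat_lit 17179869183) O) fun KK => frc (Nat.mul (nat_lit 17179869184) O) fun HH =>
        PL.mk P O CE CO GE GO KK HH n) (okl cl)

/-- the best of the matching entries -/
def ext (P k : Nat) : Nat → Nat :=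
  Nat.rec (motive := fun _ => Nat → Nat) (fun _ => (nat_lit 0))
    (fun _ ih m => Bool.rec (motive := fun _ => Nat)
      (frc (Nat.land m (Nat.sub m (nat_lit 1))) fun m' =>
        frc (Nat.mod (Nat.div P (Nat.shiftRight (Nat.sub m m') (nat_lit 34)))
          (nat_lit 18014398509481984)) fun p =>
        frc (ih m') fun r => Bool.rec (motive := fun _ => Nat)
          (Bool.rec (motive := fun _ => Nat) r p
            (Nat.ble (Nat.mod p (nat_lit 8589934592)) (Nat.mod r (nat_lit 8589934592))))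
          p (Nat.beq r (nat_lit 0)))
      (nat_lit 0) (Nat.beq m (nat_lit 0))) k

/-- the entry of the smallest code which covers `u` -/
def rdv (u : Nat) (cl : List (Nat × Nat)) : Nat :=
  PL.rec (motive := fun _ => Nat) (rdk u cl) (fun P O CE CO GE GO KK HH n =>
    Bool.rec (motive := fun _ => Nat) (rdk u cl)
      (frc (Nat.xor P (Nat.mul O u)) fun X => frc (Nat.xor P (Nat.mul O (vck 6 u))) fun Y =>
        frc (Nat.xor (Nat.land (Nat.add (Nat.land
          (Nat.lor (Nat.land (Nat.add (Nat.land X CE) CE) GE)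
            (Nat.land (Nat.add (Nat.land X CO) CO) GO))
          (Nat.lor (Nat.land (Nat.add (Nat.land Y CE) CE) GE)
            (Nat.land (Nat.add (Nat.land Y CO) CO) GO))) KK) HH) HH) fun m => ext P n m)
      (Nat.ble u (nat_lit 8589934591))) (pld cl)

/-- the best entry -/
def fo (u : Nat) : List (Nat × Nat) → Nat
  | [] => 0
  | (h, z) :: l => if cvd z u = true then
      (if fo u l = 0 ∨ z ≤ fo u l % 8589934592 then z + 8589934592 * h else fo u l) else fo u l

/-- the matching lanes -/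
def mm (u : Nat) : List (Nat × Nat) → Nat
  | [] => 0
  | (_, z) :: l => 2 ^ 54 * mm u l + (if cvd z u = true then 17179869184 else 0)

theorem rdk_fo (u : Nat) : ∀ cl : List (Nat × Nat), rdk u cl = fo u cl
  | [] => by rw [rdk_eq]; rfl
  | (h, z) :: l => by
    have ih := rdk_fo u l
    rw [rdk_eq] at ih ⊢
    rw [rdg_cons, ih]
    show _ = if cvd z u = true then
      (if fo u l = 0 ∨ z ≤ fo u l % 8589934592 then z + 8589934592 * h else fo u l) else fo u l
    by_cases hc : cvd z u = true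
    · have hl : Nat.land z (mkk 6 u) = Nat.land u (mkk 6 u) := cvk_land 6 _ _ hc
      rw [hl, Nat.beq_refl, hc, if_pos rfl]
      exact rds_eq _ _ _
    · rw [if_neg hc]
      have hc' : cvd z u = false := by
        cases h : cvd z u with
        | false => rfl
        | true => exact absurd h hc
      rw [hc']
      cases Nat.beq (Nat.land z (mkk 6 u)) (Nat.land u (mkk 6 u)) <;> rfl

theorem pkz_cons (h z : Nat) (l : List (Nat × Nat)) :
    pkz ((h, z) :: l) = 2 ^ 54 * pkz l + (z + 8589934592 * h) := rfl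

theorem pko_cons (q : Nat × Nat) (l : List (Nat × Nat)) : pko (q :: l) = 2 ^ 54 * pko l + 1 := rfl

theorem okl_cons {h z : Nat} {l : List (Nat × Nat)} (hk : okl ((h, z) :: l) = true) :
    okl l = true ∧ z < 8589934592 ∧ h < 1048576 := by
  have e : okl ((h, z) :: l) = Bool.rec (motive := fun _ => Bool) false
    (Bool.rec (motive := fun _ => Bool) false (okl l)
        (Nat.ble z (nat_lit 8589934591))) (Nat.ble h (nat_lit 1048575)) := rfl
  rw [e] at hk
  cases h1 : Nat.ble h (nat_lit 1048575) with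
  | false => rw [h1] at hk; exact Bool.noConfusion hk
  | true =>
    rw [h1] at hk
    cases h2 : Nat.ble z (nat_lit 8589934591) with
    | false => rw [h2] at hk; exact Bool.noConfusion hk
    | true =>
      rw [h2] at hk
      have h3 : h ≤ 1048575 := Nat.le_of_ble_eq_true h1
      have h4 : z ≤ 8589934591 := Nat.le_of_ble_eq_true h2
      exact ⟨hk, by omega, by omega⟩

theorem mt_list {u : Nat} (hu : u < 8589934592) : ∀ {cl : List (Nat × Nat)}, okl cl = true →
    mt (pkz cl) (pko cl) u (vck 6 u) = mm u cl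
  | [], _ => by
    show mt 0 0 u (vck 6 u) = 0
    unfold mt nz
    simp
  | (h, z) :: l, hk => by
    obtain ⟨k1, k2, k3⟩ := okl_cons hk
    have ih := mt_list hu k1
    have hv : vck 6 u < 2 ^ 54 := by
      obtain ⟨-, -, -, -, -, -, v6⟩ := vck_dg u
      omega
    rw [pkz_cons, pko_cons, mt_step (by omega) (by omega) hv, ih, mt_one k2 hu]
    rfl

theorem ext_zero (P : Nat) : ∀ k, ext P k 0 = 0
  | 0 => rfl
  | _ + 1 => rfl

theorem ext_succ (P k m : Nat) (hm : m ≠ 0) : ext P (k + 1) m =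
    if ext P k (m &&& (m - 1)) = 0 ∨ P / ((m - (m &&& (m - 1))) >>> 34) % 2 ^ 54 % 8589934592 ≤
      ext P k (m &&& (m - 1)) % 8589934592 then P / ((m - (m &&& (m - 1))) >>> 34) % 2 ^ 54
    else ext P k (m &&& (m - 1)) := by
  have e : ext P (k + 1) m = Bool.rec (motive := fun _ => Nat)
      (frc (Nat.land m (Nat.sub m (nat_lit 1))) fun m' =>
        frc (Nat.mod (Nat.div P (Nat.shiftRight (Nat.sub m m') (nat_lit 34)))
          (nat_lit 18014398509481984)) fun p =>
        frc (ext P k m') fun r => Bool.rec (motive := fun _ => Nat)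
          (Bool.rec (motive := fun _ => Nat) r p
            (Nat.ble (Nat.mod p (nat_lit 8589934592)) (Nat.mod r (nat_lit 8589934592))))
          p (Nat.beq r (nat_lit 0)))
      (nat_lit 0) (Nat.beq m (nat_lit 0)) := rfl
  have hb : Nat.beq m (nat_lit 0) = false := by
    cases h : Nat.beq m (nat_lit 0) with
    | false => rfl
    | true => exact absurd (Nat.eq_of_beq_eq_true h) hm
  rw [e, hb]
  dsimp only
  rw [frc_eq, frc_eq, frc_eq]
  show Bool.rec (motive := fun _ => Nat)
    (Bool.rec (motive := fun _ => Nat) (ext P k (m &&& (m - 1)))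
      (P / ((m - (m &&& (m - 1))) >>> 34) % 2 ^ 54)
      (Nat.ble (P / ((m - (m &&& (m - 1))) >>> 34) % 2 ^ 54 % 8589934592)
        (ext P k (m &&& (m - 1)) % 8589934592)))
    (P / ((m - (m &&& (m - 1))) >>> 34) % 2 ^ 54) (Nat.beq (ext P k (m &&& (m - 1))) 0) = _
  generalize P / ((m - (m &&& (m - 1))) >>> 34) % 2 ^ 54 = p
  generalize ext P k (m &&& (m - 1)) = r
  cases h1 : Nat.beq r 0 with
  | true =>
    rw [if_pos (Or.inl (Nat.eq_of_beq_eq_true h1))]
  | false =>
    have h1' := Nat.ne_of_beq_eq_false h1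
    cases h2 : Nat.ble (p % 8589934592) (r % 8589934592) with
    | true =>
      rw [if_pos (Or.inr (Nat.le_of_ble_eq_true h2))]
    | false =>
      rw [if_neg]
      rintro (h3 | h3)
      · exact h1' h3
      · rw [Nat.ble_eq_true_of_le h3] at h2
        exact Bool.noConfusion h2

theorem ext_list {u : Nat} (P : Nat) : ∀ {l : List (Nat × Nat)} {j k : Nat}, okl l = true →
    P / 2 ^ (54 * j) = pkz l → l.length ≤ k → ext P k (2 ^ (54 * j) * mm u l) = fo u l
  | [], j, k, _, _, _ => by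
    show ext P k (2 ^ (54 * j) * 0) = 0
    rw [Nat.mul_zero, ext_zero]
  | (h, z) :: l, j, k, hk, hP, hl => by
    obtain ⟨k1, k2, k3⟩ := okl_cons hk
    rw [List.length_cons] at hl
    rw [pkz_cons] at hP
    have e1 : 2 ^ (54 * (j + 1)) = 2 ^ (54 * j) * 2 ^ 54 := by
      rw [← pow_add]; congr 1
    have hP' : P / 2 ^ (54 * (j + 1)) = pkz l := by
      rw [e1, ← Nat.div_div_eq_div_mul, hP]
      omega
    show ext P k (2 ^ (54 * j) * (2 ^ 54 * mm u l + (if cvd z u = true then 17179869184 else 0))) =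
      if cvd z u = true then
      (if fo u l = 0 ∨ z ≤ fo u l % 8589934592 then z + 8589934592 * h else fo u l) else fo u l
    by_cases hc : cvd z u = true
    · rw [if_pos hc, if_pos hc]
      obtain ⟨k, rfl⟩ : ∃ k', k = k' + 1 := ⟨k - 1, by omega⟩
      have ih := ext_list (u := u) P (j := j + 1) (k := k) k1 hP' (by omega)
      have e2 : 2 ^ (54 * j) * (2 ^ 54 * mm u l + 17179869184) =
          2 ^ (54 * j + 34) * (2 * (2 ^ 19 * mm u l) + 1) := by
        rw [pow_add]; ring
      have e3 : 2 ^ (54 * j + 34) * (2 * (2 ^ 19 * mm u l)) = 2 ^ (54 * (j + 1)) * mm u l := by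
        rw [e1, pow_add]; ring
      have hm : 2 ^ (54 * j + 34) * (2 * (2 ^ 19 * mm u l) + 1) ≠ 0 :=
        Nat.mul_ne_zero (Nat.two_pow_pos _).ne' (by omega)
      have e4 : 2 ^ (54 * j + 34) * (2 * (2 ^ 19 * mm u l) + 1) -
          2 ^ (54 * j + 34) * (2 * (2 ^ 19 * mm u l)) = 2 ^ (54 * j + 34) := by
        rw [Nat.mul_add, Nat.mul_one, Nat.add_sub_cancel_left]
      have e5 : 2 ^ (54 * j + 34) >>> 34 = 2 ^ (54 * j) := by
        rw [Nat.shiftRight_eq_div_pow, pow_add, Nat.mul_div_cancel _ (by norm_num)]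
      rw [e2, ext_succ _ _ _ hm, low_bit, e4, e5, hP, e3, ih]
      have e6 : (2 ^ 54 * pkz l + (z + 8589934592 * h)) % 2 ^ 54 = z + 8589934592 * h := by omega
      rw [e6]
      have e7 : (z + 8589934592 * h) % 8589934592 = z := by omega
      rw [e7]
    · rw [if_neg hc, if_neg hc, Nat.add_zero, ← Nat.mul_assoc, ← e1]
      exact ext_list P k1 hP' (by omega)

theorem ln_eq : ∀ cl : List (Nat × Nat), ln cl = cl.length
  | [] => rfl
  | q :: l => by
    show Nat.succ (ln l) = _
    rw [ln_eq l]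
    rfl

/-- the packed search -/
theorem rdv_eq (u : Nat) (cl : List (Nat × Nat)) : rdv u cl = rdk u cl := by
  cases hk : okl cl with
  | false =>
    have e : pld cl = Bool.rec (motive := fun _ => PL) PL.no
      (frc (pkz cl) fun P => frc (pko cl) fun O => frc (ln cl) fun n =>
        frc (Nat.mul (nat_lit 7548730399) O) fun CE => frc (Nat.mul (nat_lit 1041204192) O) fun CO =>
        frc (Nat.mul (nat_lit 8623521824) O) fun GE => frc (Nat.mul (nat_lit 1074791424) O) fun GO =>
        frc (Nat.mul (nat_lit 17179869183) O) fun KK => frc (Nat.mul (nat_lit 17179869184) O) fun HH =>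
          PL.mk P O CE CO GE GO KK HH n) (okl cl) := rfl
    unfold rdv
    rw [e, hk]
  | true =>
    have e : pld cl = Bool.rec (motive := fun _ => PL) PL.no
      (frc (pkz cl) fun P => frc (pko cl) fun O => frc (ln cl) fun n =>
        frc (Nat.mul (nat_lit 7548730399) O) fun CE => frc (Nat.mul (nat_lit 1041204192) O) fun CO =>
        frc (Nat.mul (nat_lit 8623521824) O) fun GE => frc (Nat.mul (nat_lit 1074791424) O) fun GO =>
        frc (Nat.mul (nat_lit 17179869183) O) fun KK => frc (Nat.mul (nat_lit 17179869184) O) fun HH =>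
          PL.mk P O CE CO GE GO KK HH n) (okl cl) := rfl
    unfold rdv
    rw [e, hk]
    dsimp only
    rw [frc_eq, frc_eq, frc_eq, frc_eq, frc_eq, frc_eq, frc_eq, frc_eq, frc_eq]
    dsimp only
    cases hu : Nat.ble u (nat_lit 8589934591) with
    | false => rfl
    | true =>
      dsimp only
      rw [frc_eq, frc_eq, frc_eq]
      have hu' : u < 8589934592 := by
        have h0 : u ≤ 8589934591 := Nat.le_of_ble_eq_true hu
        omega
      have h1 := mt_list hu' hk
      show ext (pkz cl) (ln cl) (mt (pkz cl) (pko cl) u (vck 6 u)) = _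
      rw [h1, ln_eq, rdk_fo]
      have h2 := ext_list (u := u) (pkz cl) (j := 0) (k := cl.length) hk
        (by rw [Nat.mul_zero, pow_zero, Nat.div_one]) le_rfl
      rw [Nat.mul_zero, pow_zero, Nat.one_mul] at h2
      exact h2

/-! ### Search in a packed list of flows -/

/-- the ones of the lanes -/
def o53 (n : Nat) : Nat :=
  Nat.rec (motive := fun _ => Nat) (nat_lit 0)
    (fun _ ih => Nat.add (Nat.mul (nat_lit 9007199254740992) ih) (nat_lit 1)) n

/-- the gain of the lowest matching entry -/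
def sel (P m : Nat) : Nat :=
  Bool.rec (motive := fun _ => Nat)
    (Nat.mod (Nat.div P (Nat.shiftRight (Nat.sub m (Nat.land m (Nat.sub m (nat_lit 1))))
      (nat_lit 33))) (nat_lit 1048576))
    (nat_lit 0) (Nat.beq m (nat_lit 0))

/-- the entry of the code `c` in the packed list `N` -/
def asp (N c : Nat) : Nat :=
  frc (o53 (Nat.mod N (nat_lit 4096))) fun O =>
    frc (Nat.xor (Nat.land (Nat.add (Nat.land (Nat.xor (Nat.shiftRight N (nat_lit 32))
      (Nat.mul c O)) (Nat.mul (nat_lit 8589934591) O)) (Nat.mul (nat_lit 8589934591) O))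
        (Nat.mul (nat_lit 8589934592) O)) (Nat.mul (nat_lit 8589934592) O)) fun m =>
    sel (Nat.shiftRight N (nat_lit 12)) m

/-- the matching lanes -/
def am (P O c : Nat) : Nat :=
  (((P >>> 20 ^^^ c * O) &&& 8589934591 * O) + 8589934591 * O &&& 8589934592 * O) ^^^
    8589934592 * O

theorem g33 {b : Nat} (hb : b < 2 ^ 33) : ((b + 8589934591) &&& 8589934592) ^^^ 8589934592 =
    if b = 0 then 8589934592 else 0 := by
  by_cases h : b = 0
  · subst h
    rw [if_pos rfl]
    decide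
  · rw [if_neg h]
    have e1 : b + 8589934591 = 2 ^ 33 * 1 + (b - 1) := by omega
    rw [e1, show (8589934592 : Nat) = 2 ^ 33 * 1 + 0 by norm_num,
      ad_land (by omega) (by norm_num), Nat.and_zero, Nat.and_self]
    exact Nat.xor_self _

theorem a33 (a : Nat) : a &&& 8589934591 = a % 2 ^ 33 := Nat.and_two_pow_sub_one_eq_mod a 33

theorem am_step {P O c : Nat} (hc : c < 2 ^ 33) : am P (2 ^ 53 * O + 1) c =
    2 ^ 53 * am (P >>> 53) O c + (if (P >>> 20) % 2 ^ 33 = c then 8589934592 else 0) := by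
  have e1 : P >>> 20 = 2 ^ 53 * ((P >>> 53) >>> 20) + (P >>> 20) % 2 ^ 53 := by
    have h1 : (P >>> 53) >>> 20 = (P >>> 20) / 2 ^ 53 := by
      rw [← Nat.shiftRight_add, Nat.add_comm, Nat.shiftRight_add, Nat.shiftRight_eq_div_pow _ 53]
    rw [h1]
    exact (Nat.div_add_mod _ _).symm
  have e2 (w : Nat) : w * (2 ^ 53 * O + 1) = 2 ^ 53 * (w * O) + w := by ring
  have e3 (a b c d : Nat) : 2 ^ 53 * a + b + (2 ^ 53 * c + d) = 2 ^ 53 * (a + c) + (b + d) := by ring
  have h2 : (P >>> 20) % 2 ^ 53 < 2 ^ 53 := Nat.mod_lt _ (by norm_num)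
  have h3 : ((P >>> 20) % 2 ^ 53 ^^^ c) &&& 8589934591 ≤ 8589934591 := Nat.and_le_right
  unfold am
  conv_lhs => rw [e1]
  rw [e2, e2, e2, ad_xor h2 (by omega), ad_land (Nat.xor_lt_two_pow h2 (by omega)) (by norm_num),
    e3, ad_land (by omega) (by norm_num),
    ad_xor (lt_of_le_of_lt Nat.and_le_right (by norm_num)) (by norm_num), a33,
    g33 (Nat.mod_lt _ (by norm_num)), Nat.xor_mod_two_pow]
  have e4 : (P >>> 20) % 2 ^ 53 % 2 ^ 33 = (P >>> 20) % 2 ^ 33 :=
    Nat.mod_mod_of_dvd _ (by norm_num)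
  rw [e4, Nat.mod_eq_of_lt hc]
  congr 1
  by_cases h : (P >>> 20) % 2 ^ 33 = c
  · rw [if_pos h, if_pos (Nat.xor_eq_zero_iff.2 h)]
  · rw [if_neg h, if_neg fun h' => h (Nat.xor_eq_zero_iff.1 h')]

theorem o53_succ (n : Nat) : o53 (n + 1) = 2 ^ 53 * o53 n + 1 := rfl

theorem dPa_succ (n P : Nat) : dPa (n + 1) P =
    (P % 1048576, (P >>> 20) % 8589934592) :: dPa n (P >>> 53) := rfl

theorem sel_zero (P : Nat) : sel P 0 = 0 := rfl

theorem sel_pos (P : Nat) {m : Nat} (hm : m ≠ 0) :
    sel P m = P / ((m - (m &&& (m - 1))) >>> 33) % 1048576 := by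
  have hb : Nat.beq m (nat_lit 0) = false := by
    cases h : Nat.beq m (nat_lit 0) with
    | false => rfl
    | true => exact absurd (Nat.eq_of_beq_eq_true h) hm
  unfold sel
  rw [hb]
  rfl

theorem sel_list {c P0 : Nat} (hc : c < 2 ^ 33) : ∀ {n j P : Nat}, P0 / 2 ^ (53 * j) = P →
    sel P0 (2 ^ (53 * j) * am P (o53 n) c) = asc (dPa n P) c
  | 0, j, P, _ => by
    have e : am P (o53 0) c = 0 := by
      show am P 0 c = 0
      unfold am
      simp
    rw [e, Nat.mul_zero]
    rfl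
  | n + 1, j, P, hP => by
    have e1 : 2 ^ (53 * (j + 1)) = 2 ^ (53 * j) * 2 ^ 53 := by
      rw [← pow_add]; congr 1
    have hP' : P0 / 2 ^ (53 * (j + 1)) = P >>> 53 := by
      rw [e1, ← Nat.div_div_eq_div_mul, hP, Nat.shiftRight_eq_div_pow]
    have ea : asc (dPa (n + 1) P) c = bif Nat.beq ((P >>> 20) % 8589934592) c then P % 1048576
      else asc (dPa n (P >>> 53)) c := rfl
    rw [o53_succ, am_step hc, ea]
    by_cases h : (P >>> 20) % 2 ^ 33 = c
    · have e2 : 2 ^ (53 * j) * (2 ^ 53 * am (P >>> 53) (o53 n) c + 8589934592) =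
          2 ^ (53 * j + 33) * (2 * (2 ^ 19 * am (P >>> 53) (o53 n) c) + 1) := by
        rw [pow_add]; ring
      have hm : 2 ^ (53 * j + 33) * (2 * (2 ^ 19 * am (P >>> 53) (o53 n) c) + 1) ≠ 0 :=
        Nat.mul_ne_zero (Nat.two_pow_pos _).ne' (by omega)
      have e4 : 2 ^ (53 * j + 33) * (2 * (2 ^ 19 * am (P >>> 53) (o53 n) c) + 1) -
          2 ^ (53 * j + 33) * (2 * (2 ^ 19 * am (P >>> 53) (o53 n) c)) = 2 ^ (53 * j + 33) := by
        rw [Nat.mul_add, Nat.mul_one, Nat.add_sub_cancel_left]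
      have e5 : 2 ^ (53 * j + 33) >>> 33 = 2 ^ (53 * j) := by
        rw [Nat.shiftRight_eq_div_pow, pow_add, Nat.mul_div_cancel _ (by norm_num)]
      have hb : Nat.beq ((P >>> 20) % 8589934592) c = true := by
        rw [show (8589934592 : Nat) = 2 ^ 33 by norm_num, h]
        exact Nat.beq_refl c
      rw [if_pos h, e2, sel_pos _ hm, low_bit, e4, e5, hP, hb]
      rfl
    · have hb : Nat.beq ((P >>> 20) % 8589934592) c = false := by
        cases h1 : Nat.beq ((P >>> 20) % 8589934592) c with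
        | false => rfl
        | true => exact absurd (Nat.eq_of_beq_eq_true h1) h
      rw [if_neg h, hb, Nat.add_zero, ← Nat.mul_assoc, ← e1]
      exact sel_list hc hP'

/-- the packed search -/
theorem asp_eq {N c : Nat} (hc : c < 2 ^ 33) : asp N c = asc (dP N) c := by
  have h1 := sel_list (P0 := N >>> 12) hc (n := N % 4096) (j := 0) (P := N >>> 12)
    (by rw [Nat.mul_zero, pow_zero, Nat.div_one])
  rw [Nat.mul_zero, pow_zero, Nat.one_mul] at h1
  unfold asp
  rw [frc_eq, frc_eq]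
  have e : N >>> 32 = (N >>> 12) >>> 20 := by rw [← Nat.shiftRight_add]
  show sel (N >>> 12) ((((N >>> 32 ^^^ c * o53 (N % 4096)) &&& 8589934591 * o53 (N % 4096)) +
    8589934591 * o53 (N % 4096) &&& 8589934592 * o53 (N % 4096)) ^^^
      8589934592 * o53 (N % 4096)) = _
  rw [e]
  exact h1

/-! ### The fast check -/

/-- value of a key -/
def gtv (t : BT Nat) (k : Nat) : Nat :=
  BT.rec (motive := fun _ => Nat) (nat_lit 0)
    (fun _ m v _ hl hr => Bool.rec (motive := fun _ => Nat)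
      (Bool.rec (motive := fun _ => Nat) hr hl (Nat.ble k m)) v (Nat.beq k m)) t

theorem gtv_eq : ∀ (t : BT Nat) (k : Nat), gtv t k = t.getN k
  | .lf, _ => rfl
  | .nd l m v r, k => by
    have e1 : gtv (.nd l m v r) k = Bool.rec (motive := fun _ => Nat)
      (Bool.rec (motive := fun _ => Nat) (gtv r k) (gtv l k) (Nat.ble k m)) v (Nat.beq k m) := rfl
    have e2 : (BT.nd l m v r).getN k = (bif Nat.beq k m then v else
      bif Nat.ble k m then l.getN k else r.getN k) := rfl
    rw [e1, e2, gtv_eq l, gtv_eq r]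
    cases Nat.beq k m
    · cases Nat.ble k m <;> rfl
    · rfl

/-- the gain of the key `b` (blind code `u`) for the key `a` (blind code `c`, flows `N`) -/
def gkv (K : Kx) (tT : BT Nat) (s N c a b u : Nat) : Nat :=
  Nat.add (Nat.sub (Nat.add (Nat.mul (nat_lit 2) (Nat.div (Nat.sub (asp N u) s) (nat_lit 2))) s)
    (Nat.mul (nat_lit 2) (Nat.div (Nat.sub (asp (gtv tT b) c) s) (nat_lit 2)))) (K.az a u)

/-- the neighbour with the key `b` is covered -/
def okzv (K : Kx) (tT : BT Nat) (s N c a df : Nat) (cl : List (Nat × Nat)) (b : Nat) : Bool :=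
  frc (mi b) fun u => frc (gkv K tT s N c a b u) fun g => Bool.rec (motive := fun _ => Bool)
    (frc (rdv u cl) fun r => K.X.W.P.okr a df b g r) true (Nat.ble g df)

/-- the neighbour with the key `b` is covered, `r` the entry which is read for its code -/
def oksv (K : Kx) (tT : BT Nat) (s N c a df g0 b u r : Nat) : Bool :=
  Bool.rec (motive := fun _ => Bool)
    (frc (gkv K tT s N c a b u) fun g => K.X.W.P.okr a df b g r)
    true (Nat.ble g0 (gre r))

/-- the keys `bs` are covered, as far as they are possible -/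
def okbv (K : Kx) (tT : BT Nat) (s N c a la fa df g0 : Nat) (cl : List (Nat × Nat)) (u r : Nat)
    (bs : List Nat) : Bool :=
  List.rec (motive := fun _ => Nat → Nat → Bool) (fun _ _ => true)
    (fun b _ ih u r =>
      Bool.rec (motive := fun _ => Bool) (ih u r)
        (Bool.rec (motive := fun _ => Bool) (ih u r)
          (frc (mi b) fun v => Bool.rec (motive := fun _ => Bool)
            (frc (rdv v cl) fun t => Bool.rec (motive := fun _ => Bool) false (ih v t)
              (oksv K tT s N c a df g0 b v t))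
            (Bool.rec (motive := fun _ => Bool) false (ih u r) (oksv K tT s N c a df g0 b v r))
            (Nat.beq v u))
          (K.X.W.P.Q.cme fa (Nat.div (hi b) 32)))
        (K.X.W.P.Q.cme (Nat.mod (hi b) 32) la)) bs u r

/-- the keys with the projected blind code `C` are covered -/
def ok8v (K : Kx) (tT : BT Nat) (WN : BT (List Nat)) (s N c a la fa df g0 : Nat)
    (cl : List (Nat × Nat)) (C : Nat) : Bool :=
  alln 8 fun f => okbv K tT s N c a la fa df g0 cl 0 0
    (WN.get (Nat.add C (Nat.mul (nat_lit 1073741824) f)))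

/-- the list of the candidates of the key `a` is complete, `q` the default -/
def sozv (K : Kx) (tT : BT Nat) (s N c : Nat) (WL : BT (List Nat)) (a : Nat) (q : Nat × Nat)
    (cl : List (Nat × Nat)) : Bool :=
  bif (bif Nat.ble (Nat.sub K.X.W.P.Q.sh (K.X.W.P.nk a)) q.1 then true else
    lst (Nat.sub K.X.W.P.Q.sh (K.X.W.P.nk a)) 1 cl) then
    (fun la fa : Nat =>
      alln 32 fun f => bif K.X.W.P.Q.cme f la then
        alln 32 fun l => bif K.X.W.P.Q.cme fa l then
          allb (okzv K tT s N c a q.1 cl) (WL.get (Nat.add f (Nat.mul 32 l))) else true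
      else true) (Nat.div (hi a) 32) (Nat.mod (hi a) 32)
  else false

/-- The list of the candidates of the key `a` is complete, fast check with packed search; `tT` the
packed lists of flows. -/
def _root_.Pool.FCP.Kx.s4z (K : Kx) (tT : BT Nat) (WL WM WN : BT (List Nat)) (a : Nat)
    (L : List (Nat × Nat)) : Bool :=
  frc K.X.W.P.Q.sh fun s => frc (gtv tT a) fun N => frc (mi a) fun c =>
  List.rec (motive := fun _ => Bool) true
    (fun q cl _ =>
      bif (bif Nat.ble s q.1 then Nat.ble (rrc (lo a)) 1073741823 else false) then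
        (fun la fa : Nat => frc (lo a) fun A => frc (rrc A) fun A' =>
          bif ala (fun p => frc (Nat.add p.1 (K.az a p.2)) fun g0 =>
              bif Nat.ble g0 q.1 then true else frc (rdv p.2 cl) fun r =>
                bif Nat.ble g0 (gre r) then true else
                  okbv K tT s N c a la fa q.1 g0 cl p.2 r (WM.get p.2))
              (dP N) then
            bif frc (K.X.M A) (fun m => alln (mnB m) fun j => frc (Nat.succ j) fun b =>
              frc (rlc (mcB m b)) fun C =>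
                frc (Nat.add s (Nat.add (maR m b) (K.X.al A' C))) fun g0 =>
                bif Nat.ble g0 q.1 then true
                else ok8v K tT WN s N c a la fa q.1 g0 cl C) then
              bif frc (K.X.M A') (fun m => alln (mnC m) fun j => frc (Nat.succ j) fun j =>
                frc (mcC m j) fun C =>
                  frc (Nat.add s (Nat.add (K.X.ar A (rrc C)) (maL m j))) fun g0 =>
                  bif Nat.ble g0 q.1 then
                    true else ok8v K tT WN s N c a la fa q.1 g0 cl C) then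
                frc (K.Y (K.aq a)) (fun m => alln (nY m) fun j => frc (Nat.succ j) fun j =>
                  frc (uY m j) fun u => frc (Nat.add s (K.az a u)) fun g0 =>
                    bif Nat.ble g0 q.1 then true else
                      okbv K tT s N c a la fa q.1 g0 cl 0 0 (WN.get u))
              else false
            else false
          else false) (Nat.div (hi a) 32) (Nat.mod (hi a) 32)
      else sozv K tT s N c WL a q cl) L

variable {K : Kx} {tT : BT Nat}

theorem dP_zero : dP 0 = [] := rfl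

theorem T_get (hT : K.X.W.P.Q.T = tT.mp dP) (a : Nat) : dP (gtv tT a) = K.X.W.P.Q.T.get a := by
  rw [hT, BT.get_mp dP_zero, gtv_eq]

theorem mi_lt (a : Nat) : mi a < 2 ^ 33 := Nat.mod_lt _ (by norm_num)

theorem gkv_eq (hT : K.X.W.P.Q.T = tT.mp dP) (a b : Nat) :
    gkv K tT K.X.W.P.Q.sh (gtv tT a) (mi a) a b (mi b) = K.gk a b := by
  unfold gkv
  rw [asp_eq (mi_lt b), asp_eq (mi_lt a), T_get hT, T_get hT]
  rfl

theorem okzv_eq (hT : K.X.W.P.Q.T = tT.mp dP) (a df : Nat) (cl : List (Nat × Nat)) :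
    okzv K tT K.X.W.P.Q.sh (gtv tT a) (mi a) a df cl = K.okz a df cl := by
  funext b
  rw [Kx.okz_eq]
  unfold okzv
  rw [frc_eq, frc_eq, frc_eq, gkv_eq hT, rdv_eq]

theorem oksv_eq (hT : K.X.W.P.Q.T = tT.mp dP) (a df g0 b r : Nat) :
    oksv K tT K.X.W.P.Q.sh (gtv tT a) (mi a) a df g0 b (mi b) r = K.okst a df g0 b r := by
  unfold oksv Pool.FCP.Kx.okst
  rw [frc_eq, frc_eq, gkv_eq hT]

theorem okbv_eq (hT : K.X.W.P.Q.T = tT.mp dP) (a la fa df g0 : Nat) (cl : List (Nat × Nat)) :
    ∀ (bs : List Nat) (u r : Nat),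
    okbv K tT K.X.W.P.Q.sh (gtv tT a) (mi a) a la fa df g0 cl u r bs =
      K.oksz a la fa df g0 cl u r bs
  | [], _, _ => rfl
  | b :: bs, u, r => by
    have e1 : okbv K tT K.X.W.P.Q.sh (gtv tT a) (mi a) a la fa df g0 cl u r (b :: bs) =
      Bool.rec (motive := fun _ => Bool)
        (okbv K tT K.X.W.P.Q.sh (gtv tT a) (mi a) a la fa df g0 cl u r bs)
        (Bool.rec (motive := fun _ => Bool)
          (okbv K tT K.X.W.P.Q.sh (gtv tT a) (mi a) a la fa df g0 cl u r bs)
          (frc (mi b) fun v => Bool.rec (motive := fun _ => Bool)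
            (frc (rdv v cl) fun t => Bool.rec (motive := fun _ => Bool) false
              (okbv K tT K.X.W.P.Q.sh (gtv tT a) (mi a) a la fa df g0 cl v t bs)
              (oksv K tT K.X.W.P.Q.sh (gtv tT a) (mi a) a df g0 b v t))
            (Bool.rec (motive := fun _ => Bool) false
              (okbv K tT K.X.W.P.Q.sh (gtv tT a) (mi a) a la fa df g0 cl u r bs)
              (oksv K tT K.X.W.P.Q.sh (gtv tT a) (mi a) a df g0 b v r))
            (Nat.beq v u))
          (K.X.W.P.Q.cme fa (Nat.div (hi b) 32)))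
        (K.X.W.P.Q.cme (Nat.mod (hi b) 32) la) := rfl
    have e2 : K.oksz a la fa df g0 cl u r (b :: bs) =
      (bif (bif K.X.W.P.Q.cme (Nat.mod (hi b) 32) la then
        K.X.W.P.Q.cme fa (Nat.div (hi b) 32) else false) then
        frc (mi b) fun v => Bool.rec (motive := fun _ => Bool)
          (frc (rdk v cl) fun s => bif K.okst a df g0 b s then
            K.oksz a la fa df g0 cl v s bs else false)
          (bif K.okst a df g0 b r then K.oksz a la fa df g0 cl u r bs else false)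
          (Nat.beq v u)
      else K.oksz a la fa df g0 cl u r bs) := rfl
    rw [e1, e2, frc_eq, frc_eq, frc_eq, frc_eq, oksv_eq hT, oksv_eq hT, rdv_eq,
      okbv_eq hT a la fa df g0 cl bs, okbv_eq hT a la fa df g0 cl bs]
    cases K.X.W.P.Q.cme (Nat.mod (hi b) 32) la
    · rfl
    · cases K.X.W.P.Q.cme fa (Nat.div (hi b) 32)
      · rfl
      · cases Nat.beq (mi b) u
        · cases K.okst a df g0 b (rdk (mi b) cl) <;> rfl
        · cases K.okst a df g0 b r <;> rfl

theorem ok8v_eq (hT : K.X.W.P.Q.T = tT.mp dP) (WN : BT (List Nat)) (a la fa df g0 : Nat)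
    (cl : List (Nat × Nat)) (C : Nat) :
    ok8v K tT WN K.X.W.P.Q.sh (gtv tT a) (mi a) a la fa df g0 cl C =
      K.ok8z WN a la fa df g0 cl C := by
  unfold ok8v Pool.FCP.Kx.ok8z
  congr 1
  funext f
  exact okbv_eq hT a la fa df g0 cl _ _ _

theorem sozv_eq (hT : K.X.W.P.Q.T = tT.mp dP) (WL : BT (List Nat)) (a : Nat) (q : Nat × Nat)
    (cl : List (Nat × Nat)) :
    sozv K tT K.X.W.P.Q.sh (gtv tT a) (mi a) WL a q cl = K.soz WL a (q :: cl) := by
  unfold sozv
  rw [okzv_eq hT]
  rfl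

/-- the packed check is the same -/
theorem s4z_eq (hT : K.X.W.P.Q.T = tT.mp dP) (WL WM WN : BT (List Nat)) (a : Nat)
    (L : List (Nat × Nat)) : K.s4z tT WL WM WN a L = K.s3z WL WM WN a L := by
  unfold Pool.FCP.Kx.s4z
  rw [frc_eq, frc_eq, frc_eq]
  cases L with
  | nil => rfl
  | cons q cl =>
    dsimp only
    simp only [rdv_eq, okbv_eq hT, ok8v_eq hT, sozv_eq hT, T_get hT]
    rfl

theorem s4z_ok (hT : K.X.W.P.Q.T = tT.mp dP) {WL WM WN : BT (List Nat)} {a : Nat}
    {L : List (Nat × Nat)} (h : K.s4z tT WL WM WN a L = true) : K.s3z WL WM WN a L = true := by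
  rw [← s4z_eq hT]
  exact h

theorem s4z_all (hT : K.X.W.P.Q.T = tT.mp dP) {WL WM WN : BT (List Nat)}
    {t : BT (List (Nat × Nat))} (h : t.allB (K.s4z tT WL WM WN) = true) :
    t.allB (K.s3z WL WM WN) = true :=
  BT.allB_mono (fun _ _ h1 => s4z_ok hT h1) h

/-! ### Fast tables -/

/-- the value of the projected code -/
def gJv (t : BT Nat) (A : Nat) : Nat := frc (Pool.FCR.jc A) fun A => gtv t A

/-- the value of a pair of projected codes -/
def gPv (t : BT Nat) (p : Nat) : Nat :=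
  frc p fun p => frc (pr2 (Pool.FCR.jc (Nat.mod p (nat_lit 1073741824)))
    (Pool.FCR.jc (Nat.div p (nat_lit 1073741824)))) fun p => gtv t p

/-- the value of a projected edge key and neighbour -/
def gEv (t : BT Nat) (q : Nat) : Nat :=
  frc q fun q => frc (pr3 (Pool.FCR.jc (Nat.mod q (nat_lit 137438953472)))
    (Pool.FCR.jc (Nat.div q (nat_lit 137438953472)))) fun q => gtv t q

theorem gtv_fun (t : BT Nat) : gtv t = t.getN := funext (gtv_eq t)

theorem gJv_fun (t : BT Nat) : gJv t = Pool.FCR.gJ t := by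
  funext A
  unfold gJv Pool.FCR.gJ
  rw [gtv_fun]

theorem gPv_fun (t : BT Nat) : gPv t = Pool.FCR.gP t := by
  funext A
  unfold gPv Pool.FCR.gP
  rw [gtv_fun]

theorem gEv_fun (t : BT Nat) : gEv t = Pool.FCR.gE t := by
  funext A
  unfold gEv Pool.FCR.gE
  rw [gtv_fun]

/-- the parameters with fast tables -/
def Kv (W : Pw) (xM xB xC xV xA : BT Nat) (qt : Nat) (yN yB yC yE yY yU yb : BT Nat) : Kx :=
  Kx.mk (Px.mk W (gJv xM) (gPv xB) (gPv xC) (gtv xV) (gtv xA) Pool.FCR.jc) qt (gJv yN) (gPv yB)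
    (gPv yC) (gEv yE) (gJv yY) (gtv yU) (gtv yb)

theorem Kv_eq (W : Pw) (xM xB xC xV xA : BT Nat) (qt : Nat) (yN yB yC yE yY yU yb : BT Nat) :
    Kv W xM xB xC xV xA qt yN yB yC yE yY yU yb =
      Kx.mk (Px.mk W (Pool.FCR.gJ xM) (Pool.FCR.gP xB) (Pool.FCR.gP xC) xV.getN xA.getN
        Pool.FCR.jc) qt (Pool.FCR.gJ yN) (Pool.FCR.gP yB) (Pool.FCR.gP yC) (Pool.FCR.gE yE)
        (Pool.FCR.gJ yY) yU.getN yb.getN := by
  unfold Kv
  rw [gJv_fun, gPv_fun, gPv_fun, gtv_fun, gtv_fun, gJv_fun, gPv_fun, gPv_fun, gEv_fun, gJv_fun,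
    gtv_fun, gtv_fun]

/-- all keys: packed check with fast tables -/
theorem s5z_all {K : Kx} (W : Pw) (xM xB xC xV xA : BT Nat) (qt : Nat)
    (yN yB yC yE yY yU yb : BT Nat) (tT : BT Nat)
    (hK : K = Kx.mk (Px.mk W (Pool.FCR.gJ xM) (Pool.FCR.gP xB) (Pool.FCR.gP xC) xV.getN xA.getN
        Pool.FCR.jc) qt (Pool.FCR.gJ yN) (Pool.FCR.gP yB) (Pool.FCR.gP yC) (Pool.FCR.gE yE)
        (Pool.FCR.gJ yY) yU.getN yb.getN)
    (hT : W.P.Q.T = tT.mp dP) {WL WM WN : BT (List Nat)} {t : BT (List (Nat × Nat))}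
    (h : t.allB ((Kv W xM xB xC xV xA qt yN yB yC yE yY yU yb).s4z tT WL WM WN) = true) :
    t.allB (K.s3z WL WM WN) = true := by
  subst hK
  rw [Kv_eq] at h
  exact s4z_all hT h

/-- one key: packed check with fast tables -/
theorem s5z_ok {K : Kx} (W : Pw) (xM xB xC xV xA : BT Nat) (qt : Nat)
    (yN yB yC yE yY yU yb : BT Nat) (tT : BT Nat)
    (hK : K = Kx.mk (Px.mk W (Pool.FCR.gJ xM) (Pool.FCR.gP xB) (Pool.FCR.gP xC) xV.getN xA.getN
        Pool.FCR.jc) qt (Pool.FCR.gJ yN) (Pool.FCR.gP yB) (Pool.FCR.gP yC) (Pool.FCR.gE yE)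
        (Pool.FCR.gJ yY) yU.getN yb.getN)
    (hT : W.P.Q.T = tT.mp dP) {WL WM WN : BT (List Nat)} {a : Nat} {L : List (Nat × Nat)}
    (h : (Kv W xM xB xC xV xA qt yN yB yC yE yY yU yb).s4z tT WL WM WN a L = true) :
    K.s3z WL WM WN a L = true := by
  subst hK
  rw [Kv_eq] at h
  exact s4z_ok hT h

end Sv

end

end Pool.FCP.Qz
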